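import Pool.Agent.Work.MP_c58d8b_pr.SO.Stmts

/-!
# MP_c58d8b_pr, block SO, item CO: the core of the upper bound for the heaviness threshold
-/

set_option autoImplicit false

namespace Pool.Agent.Work.MP_c58d8b_pr.SO

open MeasureTheory ProbabilityTheory Set
open scoped ENNReal unitInterval Classical

universe u

namespace IX_CO

/-- the graph within a set is locally finite -/
theorem within_lf {V : Type u} (H : SimpleGraph V) (h : LocFinite H) (U : Set V) :
    LocFinite (within H U) := by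
  intro x
  apply (h x).subset
  intro y hy
  exact hy.1

/-- bound of the test function -/
theorem tf_le {V : Type u} (Γ : Subgroup (Equiv.Perm V)) (o : V) (L : ℝ) (hL : 0 < L) (y : V)
    (hw : 0 < weight Γ y o) : tf Γ o L y ≤ Real.exp (L / 2) * L ^ 2 := by
  unfold tf
  have hE : 0 < Real.exp (L / 2) := Real.exp_pos _
  rcases le_or_gt L |Real.log (weight Γ y o)| with h | h
  · have h1 : L ^ 2 - Real.log (weight Γ y o) ^ 2 ≤ 0 := by
      have h2 : L ^ 2 ≤ Real.log (weight Γ y o) ^ 2 := by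
        rw [← sq_abs (Real.log (weight Γ y o))]
        exact pow_le_pow_left₀ hL.le h 2
      linarith
    rw [max_eq_right h1, mul_zero]
    positivity
  · have h1 : max (L ^ 2 - Real.log (weight Γ y o) ^ 2) 0 ≤ L ^ 2 := by
      apply max_le _ (by positivity)
      have := sq_nonneg (Real.log (weight Γ y o))
      linarith
    have h2 : √(weight Γ y o) ≤ Real.exp (L / 2) := by
      rw [Real.sqrt_le_left hE.le, ← Real.exp_nat_mul]
      have h3 : weight Γ y o = Real.exp (Real.log (weight Γ y o)) := (Real.exp_log hw).symm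
      rw [h3]
      apply Real.exp_le_exp.2
      have h4 := (abs_lt.1 h).2
      push_cast
      linarith
    exact mul_le_mul h2 h1 (le_max_right _ _) hE.le

/-- the test function vanishes outside of the slab -/
theorem tf_zero {V : Type u} (Γ : Subgroup (Equiv.Perm V)) (o : V) (L : ℝ) (hL : 0 < L) (y : V)
    (hy : y ∉ slab Γ o L) : tf Γ o L y = 0 := by
  unfold tf
  have h : L ≤ |Real.log (weight Γ y o)| := by
    by_contra hc
    exact hy (not_le.1 hc)
  have h1 : L ^ 2 - Real.log (weight Γ y o) ^ 2 ≤ 0 := by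
    have h2 : L ^ 2 ≤ Real.log (weight Γ y o) ^ 2 := by
      rw [← sq_abs (Real.log (weight Γ y o))]
      exact pow_le_pow_left₀ hL.le h 2
    linarith
  rw [max_eq_right h1, mul_zero]

end IX_CO

theorem pr_CO (hB : Basics.{u}) (hW : WeightStmt.{u}) (hGC : StGC) (hGG : StGG.{u})
    (hBP : StBP.{u}) (hD5 : StD5.{u}) (hHV : StHV.{u}) : StCO.{u} := by
  intro b lam1 lam2 hb hb1 hl1 hl12 hlb
  have hl2 : 0 < lam2 := by linarith
  obtain ⟨K, hK0, hK⟩ := hGC (lam2 * b) b (by positivity) hlb hb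
  refine ⟨min ((lam1 - 1) / (2 * (lam2 ^ 2 + K))) ((lam1 - 1) / (8 * K)), ?_, ?_⟩
  · apply lt_min
    · apply div_pos (by linarith) (by positivity)
    · apply div_pos (by linarith) (by positivity)
  intro V Γ H hG o a ha hsg hSp hna hd hda p' hp'
  set ρ : ℝ := min ((lam1 - 1) / (2 * (lam2 ^ 2 + K))) ((lam1 - 1) / (8 * K)) with hρ
  have hρ1 : ρ * (lam2 ^ 2 + K) ≤ (lam1 - 1) / 2 := by
    have h1 : ρ ≤ (lam1 - 1) / (2 * (lam2 ^ 2 + K)) := min_le_left _ _
    rw [le_div_iff₀ (by positivity)] at h1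
    linarith
  have hρ2 : ρ * K ≤ (lam1 - 1) / 8 := by
    have h1 : ρ ≤ (lam1 - 1) / (8 * K) := min_le_right _ _
    rw [le_div_iff₀ (by positivity)] at h1
    linarith
  have hcount : Countable V := hB.countable V H hG.conn hG.lf
  obtain ⟨hW0, -, hW2⟩ := hW V H Γ hG.conn hG.lf hG.pres
  set sg : ℝ := sig Γ H o with hsgd
  set d : ℝ := ((nb H o).card : ℝ) with hdd
  set mo : ℝ := mom Γ H o with hmo
  have hmo0 : 0 ≤ mo := by
    rw [hmo]
    unfold mom
    exact Finset.sum_nonneg fun y _ => mul_nonneg (Real.sqrt_nonneg _) (abs_nonneg _)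
  obtain ⟨mu, hmu⟩ : ∃ mu : ℝ, mu = (lam1 - 1) / 2 := ⟨_, rfl⟩
  have hmu0 : 0 < mu := by rw [hmu]; linarith
  obtain ⟨L, hLd⟩ : ∃ L : ℝ, L = 4 * lam2 * a / mu + 1 := ⟨_, rfl⟩
  have hL : 0 < L := by
    rw [hLd]
    have : 0 ≤ 4 * lam2 * a / mu := by positivity
    linarith
  have hLa : lam2 * a ≤ mu * L / 4 := by
    rw [hLd]
    have h1 : mu * (4 * lam2 * a / mu + 1) / 4 = lam2 * a + mu / 4 := by
      field_simp
    rw [h1]
    linarith
  have hr : d / sg ^ 2 ≤ ρ := by
    rw [div_le_iff₀ (by positivity)]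
    exact hd
  have hra : d / sg ^ 2 * a ≤ ρ * (mo / sg) := by
    have h1 : d / sg ^ 2 * a = (d * a) / sg ^ 2 := by ring
    have h2 : ρ * (mo / sg) = (ρ * sg * mo) / sg ^ 2 := by
      field_simp
    rw [h1, h2]
    exact div_le_div_of_nonneg_right hda (by positivity)
  have hm0 : 0 ≤ mo / sg := by positivity
  have hr0 : 0 ≤ d / sg ^ 2 := by positivity
  -- the bound of phi
  have hphi : ∀ q ∈ Set.Icc (lam1 / sg) (p' : ℝ), ∀ S : Finset V, o ∈ S →
      Real.exp (-(L / 2)) ≤ phi (within H (slab Γ o L)) q S o := by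
    intro q hq S hoS
    obtain ⟨lam, hlam⟩ : ∃ lam : ℝ, lam = q * sg := ⟨_, rfl⟩
    have hq' : q = lam / sg := by
      rw [hlam]
      field_simp
    have hlam1 : lam1 ≤ lam := by
      have h1 := hq.1
      rw [div_le_iff₀ hsg] at h1
      rw [hlam]
      exact h1
    have hlam2 : lam ≤ lam2 := by
      have h1 := hq.2
      rw [hp', le_div_iff₀ hsg] at h1
      rw [hlam]
      exact h1
    have hlam0 : 0 < lam := by linarith
    have hq0 : 0 ≤ q := by rw [hq']; positivity
    have hq1 : q ≤ 1 := hq.2.trans p'.2.2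
    have hKl : ∀ N : ℕ, ∑ n ∈ Finset.Icc 3 N, (n : ℝ) ^ 2 * (lam * b) ^ n / b ^ 4 ≤ K := by
      intro N
      refine le_trans (Finset.sum_le_sum ?_) (hK N)
      intro n _
      have h1 : (lam * b) ^ n ≤ (lam2 * b) ^ n :=
        pow_le_pow_left₀ (by positivity) (mul_le_mul_of_nonneg_right hlam2 hb.le) n
      have h2 : (n : ℝ) ^ 2 * (lam * b) ^ n ≤ (n : ℝ) ^ 2 * (lam2 * b) ^ n :=
        mul_le_mul_of_nonneg_left h1 (by positivity)
      exact div_le_div_of_nonneg_right h2 (by positivity)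
    have hc1 : 1 + lam ^ 2 * (d / sg ^ 2) + d / sg ^ 2 * K + mu ≤ lam := by
      have h1 : lam ^ 2 ≤ lam2 ^ 2 := pow_le_pow_left₀ hlam0.le hlam2 2
      have h2 : lam ^ 2 * (d / sg ^ 2) + d / sg ^ 2 * K ≤ ρ * (lam2 ^ 2 + K) := by
        have h3 : lam ^ 2 * (d / sg ^ 2) ≤ lam2 ^ 2 * (d / sg ^ 2) :=
          mul_le_mul_of_nonneg_right h1 hr0
        have h4 : (d / sg ^ 2) * (lam2 ^ 2 + K) ≤ ρ * (lam2 ^ 2 + K) :=
          mul_le_mul_of_nonneg_right hr (by positivity)
        linarith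
      linarith
    have hc2 : d / sg ^ 2 * K * L * a + lam * a * (mo / sg) ≤ L * mu * (mo / sg) / 2 := by
      have h1 : d / sg ^ 2 * K * L * a ≤ (lam1 - 1) / 8 * (L * (mo / sg)) := by
        have h2 : d / sg ^ 2 * K * L * a = (d / sg ^ 2 * a) * (K * L) := by ring
        have h3 : (d / sg ^ 2 * a) * (K * L) ≤ (ρ * (mo / sg)) * (K * L) :=
          mul_le_mul_of_nonneg_right hra (by positivity)
        have h4 : (ρ * (mo / sg)) * (K * L) = (ρ * K) * (L * (mo / sg)) := by ring
        have h5 : (ρ * K) * (L * (mo / sg)) ≤ (lam1 - 1) / 8 * (L * (mo / sg)) :=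
          mul_le_mul_of_nonneg_right hρ2 (by positivity)
        linarith
      have h6 : lam * a * (mo / sg) ≤ mu * L / 4 * (mo / sg) := by
        have h7 : lam * a ≤ mu * L / 4 :=
          le_trans (mul_le_mul_of_nonneg_right hlam2 ha) hLa
        exact mul_le_mul_of_nonneg_right h7 hm0
      have h8 : (lam1 - 1) / 8 * (L * (mo / sg)) = mu * L / 4 * (mo / sg) := by
        rw [hmu]; ring
      linarith
    have hmain := hGG V Γ H hG o b lam a L K mu hb hb1 hSp hlam0 ha hL hsg hK0 hmu0 hna hKl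
      hc1 hc2
    have hwoo : weight Γ o o = 1 := by
      have h1 := hW2 o o o
      have h2 := hW0 o o
      have h3 : weight Γ o o * (weight Γ o o - 1) = 0 := by linarith
      rcases mul_eq_zero.1 h3 with h | h
      · exact absurd h h2.ne'
      · linarith
    have hoU : o ∈ slab Γ o L := by
      change |Real.log (weight Γ o o)| < L
      rw [hwoo, Real.log_one, abs_zero]
      exact hL
    have hfo : tf Γ o L o = L ^ 2 := by
      unfold tf
      rw [hwoo, Real.log_one, Real.sqrt_one, one_mul]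
      have h1 : (0 : ℝ) ≤ L ^ 2 - 0 ^ 2 := by nlinarith [sq_nonneg L]
      rw [max_eq_left h1]
      ring
    have hbp := hBP V H hG.lf (slab Γ o L) o q (Real.exp (L / 2) * L ^ 2) (tf Γ o L) hq0 hq1
      (by positivity) hoU
      (fun y => mul_nonneg (Real.sqrt_nonneg _) (le_max_right _ _))
      (fun y => IX_CO.tf_le Γ o L hL y (hW0 _ _))
      (fun y hy => IX_CO.tf_zero Γ o L hL y hy)
      (by
        intro z hz S
        have := hmain z hz S
        rw [hq']
        exact this) S hoS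
    have h9 : tf Γ o L o / (Real.exp (L / 2) * L ^ 2) = Real.exp (-(L / 2)) := by
      rw [hfo, Real.exp_neg]
      field_simp
    rw [h9] at hbp
    exact hbp
  have hpp : lam1 / sg < (p' : ℝ) := by
    rw [hp']
    exact div_lt_div_of_pos_right hl12 hsg
  have hfin := hD5 V (within H (slab Γ o L)) (IX_CO.within_lf H hG.lf _) o (lam1 / sg) p'
    (Real.exp (-(L / 2))) (by positivity) hpp.le (Real.exp_pos _).le hphi
  refine lt_of_lt_of_le ?_ (hfin.trans (hHV V Γ H hG o L p' hL))
  rw [ENNReal.ofReal_pos]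
  have h1 : 0 < Real.exp (-(L / 2)) * ((p' : ℝ) - lam1 / sg) :=
    mul_pos (Real.exp_pos _) (by linarith)
  have h2 : Real.exp (-(Real.exp (-(L / 2)) * ((p' : ℝ) - lam1 / sg))) < 1 := by
    rw [Real.exp_lt_one_iff]
    linarith
  linarith

end Pool.Agent.Work.MP_c58d8b_pr.SO
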