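import Pool.Agent.Work.MP_c58d8b_pr.SO.Stmts

/-!
# MP_c58d8b_pr, block SO, item M1: removing an edge
-/

set_option autoImplicit false

namespace Pool.Agent.Work.MP_c58d8b_pr.SO

open MeasureTheory ProbabilityTheory Set
open scoped ENNReal unitInterval Classical

universe u

namespace IX_M1

theorem indep (hPB : StPB.{u}) (hPI : StPI.{u}) (hPL : StPL.{u}) (hPA : StPA.{u}) (ι : Type u)
    (E : Finset ι) (e : ι) (he : e ∈ E) (p : ℝ) (h0 : 0 ≤ p) (h1 : p ≤ 1) (D : Set (Set ι)) :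
    Pr E p {s | e ∈ s ∧ s \ {e} ∈ D} = p * Pr E p {s | s \ {e} ∈ D} := by
  have hsub : ({e} : Finset ι) ⊆ E := Finset.singleton_subset_iff.2 he
  have hun : ({e} : Finset ι) ∪ (E \ {e}) = E := Finset.union_sdiff_of_subset hsub
  have hset : ∀ s : Finset ι, s ⊆ E →
      ((s : Set ι) ∩ ((E \ {e} : Finset ι) : Set ι)) \ {e} = (s : Set ι) \ {e} := by
    intro s hs
    ext i
    constructor
    · rintro ⟨⟨h2, h3⟩, h4⟩
      exact ⟨h2, h4⟩
    · rintro ⟨h2, h3⟩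
      refine ⟨⟨h2, ?_⟩, h3⟩
      rw [Finset.mem_coe, Finset.mem_sdiff, Finset.mem_singleton]
      exact ⟨hs h2, h3⟩
  -- the event without `e`
  have e1 : Pr E p {s | s \ {e} ∈ D} = Pr (E \ {e}) p {s | s \ {e} ∈ D} := by
    refine hPL ι E (E \ {e}) p h0 h1 Finset.sdiff_subset {s | s \ {e} ∈ D} ?_
    intro s hs
    rw [mem_setOf_eq, mem_setOf_eq, hset s hs]
  have e2 : Pr ({e} : Finset ι) p {s | (({e} : Finset ι) : Set ι) ⊆ s} = p := by
    rw [hPA ι {e} {e} p h0 h1 (Finset.Subset.refl _), Finset.card_singleton, pow_one]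
  have e3 := hPI ι {e} (E \ {e}) p h0 h1 Finset.disjoint_sdiff
    {s | (({e} : Finset ι) : Set ι) ⊆ s} {s | s \ {e} ∈ D}
  rw [hun, e2, ← e1] at e3
  rw [← e3]
  have key : ∀ s : Finset ι, s ⊆ E → ((s : Set ι) ∈ {s : Set ι | e ∈ s ∧ s \ {e} ∈ D} ↔
      (s : Set ι) ∈ {s : Set ι | s ∩ (({e} : Finset ι) : Set ι) ∈
        {s : Set ι | (({e} : Finset ι) : Set ι) ⊆ s} ∧
        s ∩ ((E \ {e} : Finset ι) : Set ι) ∈ {s : Set ι | s \ {e} ∈ D}}) := by
    intro s hs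
    rw [mem_setOf_eq, mem_setOf_eq, mem_setOf_eq, mem_setOf_eq, hset s hs]
    refine and_congr_left' ?_
    constructor
    · intro h2 i hi
      refine ⟨?_, hi⟩
      rw [Finset.mem_coe, Finset.mem_singleton] at hi
      rw [hi]
      exact h2
    · intro h2
      exact (h2 (by rw [Finset.mem_coe, Finset.mem_singleton])).1
  refine le_antisymm ?_ ?_
  · exact (hPB ι E p h0 h1).2.2.1 _ _ fun s hs h2 => (key s hs).1 h2
  · exact (hPB ι E p h0 h1).2.2.1 _ _ fun s hs h2 => (key s hs).2 h2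

end IX_M1

theorem pr_M1 (hPB : StPB.{u}) (hPI : StPI.{u}) (hPL : StPL.{u}) (hPA : StPA.{u})
    (hCB : StCB.{u}) : StM1.{u} := by
  intro V H S o x y p h0 h1 he
  have e1 := IX_M1.indep hPB hPI hPL hPA (Sym2 V) (EI H S) s(x, y) he p h0 h1
    {s | x ∈ Cluster s o}
  have e2 := (hPB (Sym2 V) (EI H S) p h0 h1).2.2.2.1 {s | x ∈ Cluster s o}
    {s | s \ {s(x, y)} ∈ {s : Set (Sym2 V) | x ∈ Cluster s o}}
  have e3 : ({s | x ∈ Cluster s o} : Set (Set (Sym2 V))) ∩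
      {s | s \ {s(x, y)} ∈ {s : Set (Sym2 V) | x ∈ Cluster s o}} =
      {s | s \ {s(x, y)} ∈ {s : Set (Sym2 V) | x ∈ Cluster s o}} := by
    rw [inter_eq_right]
    intro s hs
    exact (hCB V (s \ {s(x, y)})).2.2.2.1 s diff_subset o hs
  rw [e3] at e2
  have e4 : tau H p S o x = Pr (EI H S) p {s | x ∈ Cluster s o} := rfl
  rw [e4, e2, mul_add, ← e1]
  rfl

end Pool.Agent.Work.MP_c58d8b_pr.SO
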