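import Pool.Agent.Work.MP_c58d8b_pr.SO.Stmts

/-!
# MP_c58d8b_pr, block SO, item MI: the main inequality
-/

set_option autoImplicit false

namespace Pool.Agent.Work.MP_c58d8b_pr.SO

open MeasureTheory ProbabilityTheory Set
open scoped ENNReal unitInterval Classical

universe u

namespace IX_MI

/-- weight of a configuration -/
noncomputable def wt {ι : Type u} (E : Finset ι) (p : ℝ) (s : Finset ι) : ℝ :=
  p ^ s.card * (1 - p) ^ (E.card - s.card)

theorem wt_nn {ι : Type u} (E : Finset ι) {p : ℝ} (h0 : 0 ≤ p) (h1 : p ≤ 1) (s : Finset ι) :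
    0 ≤ wt E p s :=
  mul_nonneg (pow_nonneg h0 _) (pow_nonneg (sub_nonneg.mpr h1) _)

theorem ex (hPB : StPB.{u}) {ι : Type u} (E : Finset ι) {p : ℝ} (h0 : 0 ≤ p) (h1 : p ≤ 1)
    (A : Set (Set ι)) (c : ℝ) :
    Pr E p A * c = ∑ s ∈ E.powerset, wt E p s * (if (s : Set ι) ∈ A then c else 0) := by
  rw [(hPB ι E p h0 h1).2.2.2.2 A, Finset.sum_mul]
  refine Finset.sum_congr rfl fun s _ => ?_
  unfold wt
  split_ifs
  · ring
  · ring

theorem ex1 (hPB : StPB.{u}) {ι κ : Type u} (E : Finset ι) {p : ℝ} (h0 : 0 ≤ p) (h1 : p ≤ 1)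
    (S : Finset κ) (A : κ → Set (Set ι)) (f : κ → ℝ) :
    ∑ y ∈ S, Pr E p (A y) * f y =
      ∑ s ∈ E.powerset, wt E p s * ∑ y ∈ S, (if (s : Set ι) ∈ A y then f y else 0) := by
  simp_rw [Finset.mul_sum]
  rw [Finset.sum_comm]
  exact Finset.sum_congr rfl fun y _ => ex hPB E h0 h1 (A y) (f y)

theorem ex2 (hPB : StPB.{u}) {ι κ : Type u} (E : Finset ι) {p : ℝ} (h0 : 0 ≤ p) (h1 : p ≤ 1)
    (S : Finset κ) (T : κ → Finset κ) (A : κ → κ → Set (Set ι)) (f : κ → ℝ) :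
    ∑ y ∈ S, ∑ x ∈ T y, Pr E p (A y x) * f y =
      ∑ s ∈ E.powerset, wt E p s *
        ∑ y ∈ S, ∑ x ∈ T y, (if (s : Set ι) ∈ A y x then f y else 0) := by
  have h : ∀ y ∈ S, ∑ x ∈ T y, Pr E p (A y x) * f y = ∑ s ∈ E.powerset, wt E p s *
      ∑ x ∈ T y, (if (s : Set ι) ∈ A y x then f y else 0) := fun y _ =>
    ex1 hPB E h0 h1 (T y) (fun x => A y x) (fun _ => f y)
  rw [Finset.sum_congr rfl h, Finset.sum_comm]
  refine Finset.sum_congr rfl fun s _ => ?_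
  rw [Finset.mul_sum]

theorem ifc {b c : Prop} {i1 : Decidable b} {i2 : Decidable c} {v : ℝ} (h : b ↔ c) :
    @ite ℝ b i1 v 0 = @ite ℝ c i2 v 0 := by
  by_cases hb : b
  · rw [if_pos hb, if_pos (h.mp hb)]
  · rw [if_neg hb, if_neg (fun hc => hb (h.mpr hc))]

theorem mem_EI {V : Type u} (H : SimpleGraph V) (S : Finset V) {x y : V} (hx : x ∈ S)
    (hy : y ∈ S) (h : H.Adj x y) : s(x, y) ∈ EI H S :=
  Finset.mem_image.mpr ⟨(x, y), Finset.mem_filter.mpr ⟨Finset.mem_product.mpr ⟨hx, hy⟩, h⟩, rfl⟩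

end IX_MI

open IX_MI

/-- item MI -/
theorem pr_MI (hPB : StPB.{u}) (hWB : StWB.{u}) (hM1 : StM1.{u}) (hM2 : StM2.{u})
    (hCN : StCN.{u}) (hM4 : StM4.{u}) : StMI.{u} := by
  intro V H hH S o p h0 h1 f hf
  have hadj := (hWB V H hH).1
  obtain ⟨A, hA⟩ : ∃ A : V → V → Set (Set (Sym2 V)), ∀ y x,
      A y x = {s | s(x, y) ∈ s ∧ x ∈ Cluster (s \ {s(x, y)}) o} := ⟨_, fun _ _ => rfl⟩
  obtain ⟨B, hB⟩ : ∃ B : V → V → Set (Set (Sym2 V)), ∀ y x,
      B y x = {s | y ∈ Cluster s o ∧ s(x, y) ∈ s ∧ x ∈ Cluster (s \ {s(x, y)}) y} :=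
    ⟨_, fun _ _ => rfl⟩
  have hPr := (hPB (Sym2 V) (EI H S) p h0 h1).2.1
  -- exchange
  have e1 : ∑ x ∈ S, ∑ y ∈ (nb H x).filter (· ∈ S), p * tau H p S o x * f y =
      ∑ y ∈ S, ∑ x ∈ (nb H y).filter (· ∈ S), p * tau H p S o x * f y := by
    refine Finset.sum_comm' ?_
    intro x y
    rw [Finset.mem_filter, Finset.mem_filter, hadj, hadj, H.adj_comm]
    tauto
  -- single terms
  have e2 : ∀ y ∈ S, ∀ x ∈ (nb H y).filter (· ∈ S), p * tau H p S o x * f y ≤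
      Pr (EI H S) p (A y x) * f y + p ^ 2 * tau H p S o y * f y := by
    intro y hy x hx
    rw [Finset.mem_filter, hadj] at hx
    have hE : s(x, y) ∈ EI H S := mem_EI H S hx.2 hy hx.1.symm
    have h3 := hM1 V H S o x y p h0 h1 hE
    have h4 := hM2 V H S o x y p h0 h1 hE
    rw [← hA y x] at h3
    have h5 : p * tau H p S o x ≤ Pr (EI H S) p (A y x) + p * (p * tau H p S o y) := by
      rw [h3]
      have := mul_le_mul_of_nonneg_left h4 h0
      linarith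
    have h6 := mul_le_mul_of_nonneg_right h5 (hf y)
    calc p * tau H p S o x * f y ≤ _ := h6
      _ = _ := by ring
  have e3 : ∑ y ∈ S, ∑ x ∈ (nb H y).filter (· ∈ S), p * tau H p S o x * f y ≤
      ∑ y ∈ S, ∑ x ∈ (nb H y).filter (· ∈ S), Pr (EI H S) p (A y x) * f y +
        p ^ 2 * ∑ y ∈ S, (nb H y).card * tau H p S o y * f y := by
    rw [Finset.mul_sum, ← Finset.sum_add_distrib]
    refine Finset.sum_le_sum fun y hy => ?_
    refine (Finset.sum_le_sum (e2 y hy)).trans ?_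
    rw [Finset.sum_add_distrib, Finset.sum_const, nsmul_eq_mul]
    have h7 : (((nb H y).filter (· ∈ S)).card : ℝ) ≤ ((nb H y).card : ℝ) := by
      exact_mod_cast Finset.card_filter_le _ _
    have h8 : 0 ≤ p ^ 2 * tau H p S o y * f y :=
      mul_nonneg (mul_nonneg (pow_nonneg h0 2) (hPr _).1) (hf y)
    have h9 := mul_le_mul_of_nonneg_right h7 h8
    have h10 : ((nb H y).card : ℝ) * (p ^ 2 * tau H p S o y * f y) =
        p ^ 2 * ((nb H y).card * tau H p S o y * f y) := by ring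
    linarith
  -- expectation
  have e4 : ∑ y ∈ S, ∑ x ∈ (nb H y).filter (· ∈ S), Pr (EI H S) p (A y x) * f y ≤
      ∑ y ∈ S.erase o, tau H p S o y * f y +
        ∑ y ∈ S, ∑ x ∈ (nb H y).filter (· ∈ S), Pr (EI H S) p (B y x) * f y := by
    have h11 : ∑ y ∈ S.erase o, tau H p S o y * f y =
        ∑ s ∈ (EI H S).powerset, wt (EI H S) p s *
          ∑ y ∈ S.erase o, (if y ∈ Cluster (s : Set (Sym2 V)) o then f y else 0) :=
      ex1 hPB (EI H S) h0 h1 (S.erase o) (fun y => {s | y ∈ Cluster s o}) f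
    rw [h11, ex2 hPB (EI H S) h0 h1 S (fun y => (nb H y).filter (· ∈ S)) A f,
      ex2 hPB (EI H S) h0 h1 S (fun y => (nb H y).filter (· ∈ S)) B f, ← Finset.sum_add_distrib]
    refine Finset.sum_le_sum fun s _ => ?_
    rw [← mul_add]
    refine mul_le_mul_of_nonneg_left ?_ (wt_nn _ h0 h1 s)
    have h12 := hCN V H hH S o f hf (s : Set (Sym2 V))
    refine le_trans (le_of_eq ?_) (h12.trans (le_of_eq ?_))
    · refine Finset.sum_congr rfl fun y _ => Finset.sum_congr rfl fun x _ => ifc ?_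
      rw [hA]
      exact Iff.rfl
    · refine congrArg₂ (· + ·) rfl ?_
      refine Finset.sum_congr rfl fun y _ => Finset.sum_congr rfl fun x _ => ifc ?_
      rw [hB]
      exact Iff.rfl
  have e5 : ∑ y ∈ S, ∑ x ∈ (nb H y).filter (· ∈ S), Pr (EI H S) p (B y x) * f y ≤
      ∑ z ∈ S, tau H p S o z * Rz H p S f z := by
    refine le_trans (le_of_eq ?_) (hM4 V H hH S o p h0 h1 f hf)
    refine Finset.sum_congr rfl fun y _ => Finset.sum_congr rfl fun x _ => ?_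
    rw [hB, mul_comm]
  rw [e1]
  linarith

end Pool.Agent.Work.MP_c58d8b_pr.SO
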