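import Pool.Agent.Work.MP_c58d8b_pr.SO.Stmts

/-!
# MP_c58d8b_pr, block SO, item U0: open walks with different edges
-/

set_option autoImplicit false

namespace Pool.Agent.Work.MP_c58d8b_pr.SO

open MeasureTheory ProbabilityTheory Set
open scoped ENNReal unitInterval Classical

universe u

namespace IX_U0

variable {V : Type u}

theorem card_le (H : SimpleGraph V) [SimpleGraph.LocallyFinite H]
    (hmem : ∀ x y, y ∈ nb H x ↔ H.Adj x y) (n : ℕ) (x y : V) :
    ((H.finsetWalkLength n x y).card : ℝ) ≤ Wk H n x y := by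
  induction n generalizing x with
  | zero =>
    have h1 : Wk H 0 x y = if x = y then 1 else 0 := rfl
    rw [h1]
    by_cases h : x = y
    · subst h
      simp [SimpleGraph.finsetWalkLength]
    · simp [SimpleGraph.finsetWalkLength, h]
  | succ n ih =>
    have h1 : ((H.finsetWalkLength (n + 1) x y).card : ℝ) ≤
        ∑ w : H.neighborSet x, ((H.finsetWalkLength n w y).card : ℝ) := by
      have h2 : (H.finsetWalkLength (n + 1) x y).card ≤
          ∑ w : H.neighborSet x, (H.finsetWalkLength n w y).card := by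
        refine Finset.card_biUnion_le.trans (le_of_eq ?_)
        refine Finset.sum_congr rfl fun w _ => ?_
        rw [Finset.card_map]
      exact_mod_cast h2
    have h3 : Wk H (n + 1) x y = ∑ z ∈ nb H x, Wk H n z y := rfl
    have h4 : ∑ z ∈ nb H x, Wk H n z y = ∑ w : H.neighborSet x, Wk H n w y :=
      Finset.sum_subtype (nb H x) (fun z => hmem x z) (fun z => Wk H n z y)
    rw [h3, h4]
    exact h1.trans (Finset.sum_le_sum fun w _ => ih w)

theorem all_open (hPA : StPA.{u}) (hPM : StPM.{u}) [Countable V] (H : SimpleGraph V) (p : I)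
    (E : Finset (Sym2 V)) (hE : (E : Set (Sym2 V)) ⊆ H.edgeSet) :
    perc H p {s | (E : Set (Sym2 V)) ⊆ s} = ENNReal.ofReal ((p : ℝ) ^ E.card) := by
  have h1 := hPM (Sym2 V) H.edgeSet p E hE {s | (E : Set (Sym2 V)) ⊆ s}
  have h2 := hPA (Sym2 V) E E p p.2.1 p.2.2 (Finset.Subset.refl E)
  rw [h2] at h1
  have h3 : {s : Set (Sym2 V) | s ∩ (E : Set (Sym2 V)) ∈ {s : Set (Sym2 V) | (E : Set (Sym2 V)) ⊆ s}} =
      {s | (E : Set (Sym2 V)) ⊆ s} := by
    ext s
    constructor
    · intro h
      exact fun e he => (h he).1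
    · intro h
      exact fun e he => ⟨h he, he⟩
  rw [h3] at h1
  exact h1

end IX_U0

open IX_U0 in
/-- U0: open walks with different edges. -/
theorem pr_U0 (hPA : StPA.{u}) (hPM : StPM.{u}) (hWB : StWB.{u}) : StU0.{u} := by
  intro V _ H _ hlf p x y
  have hmem := (hWB V H hlf).1
  let _ : SimpleGraph.LocallyFinite H := fun x => (hlf x).fintype
  have hp0 : (0 : ℝ) ≤ p := p.2.1
  -- the walks of length `n` with different edges
  obtain ⟨F, hF⟩ : ∃ F : ℕ → Finset (H.Walk x y),
      ∀ n, F n = (H.finsetWalkLength n x y).filter (fun w => w.edges.Nodup) := ⟨_, fun _ => rfl⟩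
  have hFm : ∀ n (w : H.Walk x y), w ∈ F n ↔ w.length = n ∧ w.edges.Nodup := by
    intro n w
    rw [hF, Finset.mem_filter, SimpleGraph.mem_finsetWalkLength_iff]
  have hae : ∀ᵐ s ∂(perc H p), s ⊆ H.edgeSet := setBernoulli_ae_subset
  have h1 : perc H p {s | y ∈ Cluster s x} ≤ perc H p (⋃ n : ℕ, ⋃ w ∈ F n,
      {s | ((w.edges.toFinset : Finset (Sym2 V)) : Set (Sym2 V)) ⊆ s}) := by
    refine measure_mono_ae ?_
    filter_upwards [hae] with s hs hy
    have hr : (SimpleGraph.fromEdgeSet s).Reachable x y := hy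
    obtain ⟨q, hq⟩ := hr.exists_isPath
    have hqe : ∀ e ∈ q.edges, e ∈ s := by
      intro e he
      have h2 := q.edges_subset_edgeSet he
      rw [SimpleGraph.edgeSet_fromEdgeSet] at h2
      exact h2.1
    have hqH : ∀ e ∈ q.edges, e ∈ H.edgeSet := fun e he => hs (hqe e he)
    refine Set.mem_iUnion.2 ⟨q.length, Set.mem_iUnion.2 ⟨q.transfer H hqH, Set.mem_iUnion.2 ⟨?_, ?_⟩⟩⟩
    · rw [hFm]
      refine ⟨SimpleGraph.Walk.length_transfer q hqH, ?_⟩
      rw [SimpleGraph.Walk.edges_transfer]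
      exact hq.isTrail.edges_nodup
    · intro e he
      rw [Finset.mem_coe, List.mem_toFinset, SimpleGraph.Walk.edges_transfer] at he
      exact hqe e he
  refine h1.trans ((measure_iUnion_le _).trans (ENNReal.tsum_le_tsum fun n => ?_))
  split_ifs with hn
  · refine (measure_biUnion_finset_le _ _).trans ?_
    have h2 : ∀ w ∈ F n, perc H p {s | ((w.edges.toFinset : Finset (Sym2 V)) : Set (Sym2 V)) ⊆ s} =
        ENNReal.ofReal ((p : ℝ) ^ n) := by
      intro w hw
      rw [hFm] at hw
      have hE : ((w.edges.toFinset : Finset (Sym2 V)) : Set (Sym2 V)) ⊆ H.edgeSet := by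
        intro e he
        rw [Finset.mem_coe, List.mem_toFinset] at he
        exact w.edges_subset_edgeSet he
      rw [all_open hPA hPM H p w.edges.toFinset hE, List.toFinset_card_of_nodup hw.2,
        SimpleGraph.Walk.length_edges, hw.1]
    rw [Finset.sum_congr rfl h2, Finset.sum_const, nsmul_eq_mul, ← ENNReal.ofReal_natCast,
      ← ENNReal.ofReal_mul (Nat.cast_nonneg _)]
    refine ENNReal.ofReal_le_ofReal ?_
    rw [mul_comm]
    refine mul_le_mul_of_nonneg_left ?_ (pow_nonneg hp0 n)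
    refine le_trans ?_ (card_le H hmem n x y)
    rw [hF]
    exact_mod_cast Finset.card_filter_le _ _
  · have h3 : (⋃ w ∈ F n, {s | ((w.edges.toFinset : Finset (Sym2 V)) : Set (Sym2 V)) ⊆ s}) = ∅ := by
      refine Set.eq_empty_of_forall_notMem fun s hs => ?_
      obtain ⟨w, hw⟩ := Set.mem_iUnion.1 hs
      obtain ⟨hw1, _⟩ := Set.mem_iUnion.1 hw
      rw [hFm] at hw1
      apply hn
      rw [← hw1.1]
      exact H.dist_le w
    rw [h3, measure_empty]

end Pool.Agent.Work.MP_c58d8b_pr.SO
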