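import Pool.Agent.Work.MP_c58d8b_pr.SO.Stmts

set_option autoImplicit false

namespace Pool.Agent.Work.MP_c58d8b_pr.SO

open MeasureTheory ProbabilityTheory Set
open scoped ENNReal unitInterval Classical

universe u

namespace IX_U3

theorem cluster_univ {V : Type u} (H : SimpleGraph V) (h : H.Connected) (x : V) :
    Cluster H.edgeSet x = Set.univ := by
  ext y
  simp only [Cluster, SimpleGraph.fromEdgeSet_edgeSet, Set.mem_ofPred_eq, Set.mem_univ, iff_true]
  exact h.preconnected x y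

theorem one_mem {V : Type u} [Infinite V] (H : SimpleGraph V) (h : H.Connected) :
    H.edgeSet ∈ UniqueEvent V := by
  obtain ⟨x⟩ := h.nonempty
  refine ⟨Set.univ, ⟨Set.infinite_univ, x, (cluster_univ H h x).symm⟩, ?_⟩
  rintro C ⟨-, y, rfl⟩
  exact cluster_univ H h y

end IX_U3

theorem pr_U3 (hU1 : StU1.{u}) (hU2 : StU2.{u}) : StU3.{u} := by
  intro V _ _ Γ H hG A hA hSp
  unfold pu
  refine le_csInf ⟨1, 1, rfl, ?_⟩ ?_
  · unfold perc
    rw [setBernoulli_one]
    exact Measure.dirac_apply_of_mem (IX_U3.one_mem H hG.conn)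
  · rintro t ⟨p, rfl, hu⟩
    by_contra hlt
    push Not at hlt
    have hp0 : (0 : ℝ) ≤ p := p.2.1
    have hpA : (p : ℝ) * A < 1 := by
      rw [lt_div_iff₀ hA] at hlt
      exact hlt
    have hpA0 : 0 ≤ (p : ℝ) * A := mul_nonneg hp0 hA.le
    refine hU2 V Γ H hG p (fun ε hε => ?_) hu
    have h1 : 0 < 1 - (p : ℝ) * A := by linarith
    obtain ⟨D, hD⟩ := exists_pow_lt_of_lt_one (mul_pos hε h1) hpA
    refine ⟨D, fun x y hxy => (hU1 V Γ H hG A hA.le hSp p hpA x y).trans ?_⟩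
    refine ENNReal.ofReal_le_ofReal ?_
    rw [div_le_iff₀ h1]
    exact (pow_le_pow_of_le_one hpA0 hpA.le hxy).trans hD.le

end Pool.Agent.Work.MP_c58d8b_pr.SO
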