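import Pool.Agent.Work.MP_c58d8b_pr.SO.Stmts

/-!
# MP_c58d8b_pr, block SO, item L1: no heavy cluster for `p σ < 1`
-/

set_option autoImplicit false

namespace Pool.Agent.Work.MP_c58d8b_pr.SO

open MeasureTheory ProbabilityTheory Set
open scoped ENNReal unitInterval Classical

universe u

namespace IX_L1

/-- summability of the square roots implies summability -/
theorem sq_sum {ι : Type u} (a : ι → ℝ≥0∞) (h : ∑' x, a x ≠ ⊤) : ∑' x, a x * a x ≠ ⊤ := by
  have h1 : ∑' x, a x * a x ≤ ∑' x, a x * (∑' y, a y) := by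
    refine ENNReal.tsum_le_tsum fun x => ?_
    gcongr
    exact ENNReal.le_tsum x
  rw [ENNReal.tsum_mul_right] at h1
  exact ne_top_of_le_ne_top (ENNReal.mul_ne_top h h) h1

theorem not_heavy {V : Type u} (Γ : Subgroup (Equiv.Perm V)) (o : V)
    (hw : ∀ x : V, 0 < weight Γ x o) (A : Set V)
    (h : ∑' x, A.indicator (fun x => ENNReal.ofReal √(weight Γ x o)) x ≠ ⊤) :
    ¬ Heavy Γ A := by
  intro hH
  have h1 := hH o
  rw [← tsum_subtype] at h
  have h2 := sq_sum _ h
  refine h2 ?_
  rw [← h1]
  refine tsum_congr fun x => ?_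
  rw [← ENNReal.ofReal_mul (Real.sqrt_nonneg _), Real.mul_self_sqrt (hw _).le]

end IX_L1

theorem pr_L1 (hW : WeightStmt.{u}) (hMS : MeasStmt.{u}) (hU0 : StU0.{u}) (hWS : StWS.{u})
    (hWB : StWB.{u}) : StL1.{u} := by
  intro V _ Γ H hG o p hp
  have hw0 : ∀ x y, 0 < weight Γ x y := (hW V H Γ hG.conn hG.lf hG.pres).1
  have hk : ∀ n x y, 0 ≤ Wk H n x y := (hWB V H hG.lf).2.1
  have hp0 : (0 : ℝ) ≤ (p : ℝ) := p.2.1
  have hσ : 0 ≤ sig Γ H o := Finset.sum_nonneg fun _ _ => Real.sqrt_nonneg _
  have key : ∀ z, perc H p {s | Heavy Γ (Cluster s z)} = 0 := by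
    intro z
    set c : V → ℝ≥0∞ := fun y => ENNReal.ofReal √(weight Γ y o) with hc
    have hm : ∀ y, MeasurableSet {s : Set (Sym2 V) | y ∈ Cluster s z} := fun y => (hMS V).1 z y
    have hmf : ∀ y, Measurable (({s : Set (Sym2 V) | y ∈ Cluster s z}).indicator
        (fun _ => c y)) := fun y => measurable_const.indicator (hm y)
    have e1 : ∫⁻ s, ∑' y, ({s : Set (Sym2 V) | y ∈ Cluster s z}).indicator (fun _ => c y) s
        ∂(perc H p) = ∑' y, c y * perc H p {s | y ∈ Cluster s z} := by
      rw [lintegral_tsum fun y => (hmf y).aemeasurable]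
      refine tsum_congr fun y => ?_
      rw [lintegral_indicator_const (hm y)]
    have e2 : ∀ n : ℕ, ∑' y, c y * ENNReal.ofReal ((p : ℝ) ^ n * Wk H n z y) ≤
        ENNReal.ofReal (√(weight Γ z o) * ((p : ℝ) * sig Γ H o) ^ n) := by
      intro n
      rw [ENNReal.tsum_eq_iSup_sum]
      refine iSup_le fun F => ?_
      have a1 : ∑ y ∈ F, c y * ENNReal.ofReal ((p : ℝ) ^ n * Wk H n z y) =
          ENNReal.ofReal ((p : ℝ) ^ n * ∑ y ∈ F, √(weight Γ y o) * Wk H n z y) := by
        rw [Finset.mul_sum, ENNReal.ofReal_sum_of_nonneg]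
        · refine Finset.sum_congr rfl fun y _ => ?_
          rw [hc]
          simp only
          rw [← ENNReal.ofReal_mul (Real.sqrt_nonneg _)]
          congr 1
          ring
        · intro y _
          have := hk n z y
          positivity
      rw [a1]
      refine ENNReal.ofReal_le_ofReal ?_
      have a2 := hWS V Γ H hG o z n F
      calc (p : ℝ) ^ n * ∑ y ∈ F, √(weight Γ y o) * Wk H n z y
          ≤ (p : ℝ) ^ n * (√(weight Γ z o) * sig Γ H o ^ n) := by gcongr
        _ = √(weight Γ z o) * ((p : ℝ) * sig Γ H o) ^ n := by rw [mul_pow]; ring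
    have e3 : ∑' y, c y * perc H p {s | y ∈ Cluster s z} ≠ ⊤ := by
      have b1 : ∑' y, c y * perc H p {s | y ∈ Cluster s z} ≤
          ∑' n : ℕ, ENNReal.ofReal (√(weight Γ z o) * ((p : ℝ) * sig Γ H o) ^ n) := by
        calc ∑' y, c y * perc H p {s | y ∈ Cluster s z}
            ≤ ∑' y, ∑' n : ℕ, c y * ENNReal.ofReal ((p : ℝ) ^ n * Wk H n z y) := by
              refine ENNReal.tsum_le_tsum fun y => ?_
              rw [ENNReal.tsum_mul_left]
              gcongr
              refine (hU0 V H hG.conn hG.lf p z y).trans (ENNReal.tsum_le_tsum fun n => ?_)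
              split_ifs
              · exact le_refl _
              · exact bot_le
          _ = ∑' n : ℕ, ∑' y, c y * ENNReal.ofReal ((p : ℝ) ^ n * Wk H n z y) :=
              ENNReal.tsum_comm
          _ ≤ _ := ENNReal.tsum_le_tsum e2
      have hs : Summable fun n : ℕ => √(weight Γ z o) * ((p : ℝ) * sig Γ H o) ^ n :=
        (summable_geometric_of_lt_one (by positivity) hp).mul_left _
      rw [← ENNReal.ofReal_tsum_of_nonneg (fun n => by positivity) hs] at b1
      exact ne_top_of_le_ne_top ENNReal.ofReal_ne_top b1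
    rw [← e1] at e3
    have e4 := ae_lt_top (Measurable.tsum hmf) e3
    have e5 : ∀ᵐ s ∂(perc H p), ¬ Heavy Γ (Cluster s z) := by
      filter_upwards [e4] with s hs
      refine IX_L1.not_heavy Γ o (fun x => hw0 x o) _ ?_
      have : ∑' y, ({s : Set (Sym2 V) | y ∈ Cluster s z}).indicator (fun _ => c y) s =
          ∑' x, (Cluster s z).indicator (fun x => ENNReal.ofReal √(weight Γ x o)) x := by
        refine tsum_congr fun y => ?_
        by_cases hy : y ∈ Cluster s z
        · rw [indicator_of_mem hy, indicator_of_mem (show s ∈ {s | y ∈ Cluster s z} from hy)]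
        · rw [indicator_of_notMem hy,
            indicator_of_notMem (show s ∉ {s | y ∈ Cluster s z} from hy)]
      rw [← this]
      exact hs.ne
    have e6 := ae_iff.1 e5
    simpa using e6
  have : HeavyEvent Γ = ⋃ z : V, {s | Heavy Γ (Cluster s z)} := by
    ext s
    simp [HeavyEvent]
  rw [this]
  exact measure_iUnion_null key

end Pool.Agent.Work.MP_c58d8b_pr.SO
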