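import Pool.Agent.Work.MP_c58d8b_pr.SO.Stmts

/-!
# MP_c58d8b_pr, block SO, item CB: basic facts on clusters
-/

set_option autoImplicit false

namespace Pool.Agent.Work.MP_c58d8b_pr.SO

open MeasureTheory ProbabilityTheory Set
open scoped ENNReal unitInterval Classical

universe u

namespace IX_CB

theorem stays {V : Type u} {s : Set (Sym2 V)} {S : Set V}
    (hS : ∀ a ∈ S, ∀ b, s(a, b) ∈ s → b ∈ S) :
    ∀ {x y : V} (_ : (SimpleGraph.fromEdgeSet s).Walk x y), x ∈ S → y ∈ S := by
  intro x y w
  induction w with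
  | nil => exact fun h => h
  | cons h _ ih =>
    intro hx
    rw [SimpleGraph.fromEdgeSet_adj] at h
    exact ih (hS _ hx _ h.1)

end IX_CB

theorem pr_CB : StCB.{u} := by
  intro V s
  refine ⟨fun x => ?_, fun x y h => ?_, fun x y z h1 h2 => ?_, fun t ht x y h => ?_,
    fun x y h => ?_, fun S x hx hS y hy => ?_⟩
  · exact SimpleGraph.Reachable.refl x
  · exact SimpleGraph.Reachable.symm h
  · exact SimpleGraph.Reachable.trans h1 h2
  · exact SimpleGraph.Reachable.mono (SimpleGraph.fromEdgeSet_mono ht) h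
  · by_cases hxy : x = y
    · rw [hxy]
      exact SimpleGraph.Reachable.refl y
    · have h1 : (SimpleGraph.fromEdgeSet s).Adj x y := by
        rw [SimpleGraph.fromEdgeSet_adj]
        exact ⟨h, hxy⟩
      exact h1.reachable
  · obtain ⟨w⟩ := hy
    exact IX_CB.stays hS w hx

end Pool.Agent.Work.MP_c58d8b_pr.SO
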