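import Pool.Agent.Work.MP_c58d8b_pr.SO.Stmts

/-!
# MP_c58d8b_pr, block SO, item D1: pivotal edges
-/

set_option autoImplicit false

namespace Pool.Agent.Work.MP_c58d8b_pr.SO

open MeasureTheory ProbabilityTheory Set
open scoped ENNReal unitInterval Classical

universe u

namespace IX_D1

theorem mem_Sc {V : Type u} {L : Finset V} {s : Set (Sym2 V)} {z : V} :
    z ∈ Sc L s ↔ z ∈ L ∧ ∀ y ∈ Cluster s z, y ∈ L := by
  unfold Sc
  rw [Finset.mem_filter]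

end IX_D1

open IX_D1 in
theorem pr_D1 (hCB : StCB.{u}) : StD1.{u} := by
  intro V H _ L o hoL s hs
  obtain ⟨_, _, ctrans, _, _, _⟩ := hCB V s
  have hin : ∀ y ∈ Cluster s o, y ∈ L := by
    intro y hy
    by_contra hyL
    exact hs ⟨y, hy, hyL⟩
  rw [Finset.sum_sigma', Finset.sum_boole, Finset.sum_boole]
  refine Nat.cast_le.2 (Finset.card_le_card_of_injOn
    (fun q : (_ : V) × V => s(q.1, q.2)) ?_ ?_)
  · rintro ⟨x, y⟩ hq
    rw [Finset.mem_coe, Finset.mem_filter, Finset.mem_sigma, Finset.mem_filter] at hq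
    obtain ⟨⟨hxS, hyn, hyS⟩, hx⟩ := hq
    rw [Finset.mem_coe, Finset.mem_filter]
    obtain ⟨_, _, ctr', cmono', cedge', _⟩ := hCB V (insert s(x, y) s)
    have hxs : x ∈ Cluster s o := (hCB V (s ∩ (EI H (Sc L s) : Set (Sym2 V)))).2.2.2.1 s
      Set.inter_subset_left o hx
    have hsub : ∀ z, Cluster s z ⊆ Cluster (insert s(x, y) s) z :=
      (hCB V s).2.2.2.1 _ (Set.subset_insert _ _)
    have hxo : x ∈ Cluster (insert s(x, y) s) o := hsub o hxs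
    have hyx : y ∈ Cluster (insert s(x, y) s) x := cedge' x y (Set.mem_insert _ _)
    have hyo : y ∈ Cluster (insert s(x, y) s) o := ctr' o x y hxo hyx
    refine ⟨?_, ?_, ?_⟩
    · unfold ET
      exact Finset.mem_biUnion.2 ⟨x, (mem_Sc.1 hxS).1, Finset.mem_image.2 ⟨y, hyn, rfl⟩⟩
    · by_cases hyL : y ∈ L
      · have h1 : ¬ ∀ z ∈ Cluster s y, z ∈ L := fun h => hyS (mem_Sc.2 ⟨hyL, h⟩)
        push Not at h1
        obtain ⟨z, hz, hzL⟩ := h1
        exact ⟨z, ctr' o y z hyo (hsub y hz), hzL⟩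
      · exact ⟨y, hyo, hyL⟩
    · rintro ⟨z, hz, hzL⟩
      exact hzL (hin z ((hCB V (s \ {s(x, y)})).2.2.2.1 s Set.sdiff_subset o hz))
  · rintro ⟨x, y⟩ hq ⟨x', y'⟩ hq' he
    rw [Finset.mem_coe, Finset.mem_filter, Finset.mem_sigma, Finset.mem_filter] at hq hq'
    obtain ⟨⟨hxS, _, hyS⟩, _⟩ := hq
    obtain ⟨⟨hxS', _, hyS'⟩, _⟩ := hq'
    simp only at he hxS hyS hxS' hyS'
    rcases Sym2.eq_iff.1 he with ⟨h1, h2⟩ | ⟨h1, h2⟩
    · rw [h1, h2]
    · exfalso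
      rw [h1] at hxS
      exact hyS' hxS

end Pool.Agent.Work.MP_c58d8b_pr.SO
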