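import Pool.Agent.Work.MP_c58d8b_pr.SO.Stmts

set_option autoImplicit false

namespace Pool.Agent.Work.MP_c58d8b_pr.SO

open MeasureTheory ProbabilityTheory Set
open scoped ENNReal unitInterval Classical

universe u

namespace IX_D2

variable {V : Type u}

theorem mem_Sc {L : Finset V} {s : Set (Sym2 V)} {z : V} :
    z ∈ Sc L s ↔ z ∈ L ∧ ∀ y ∈ Cluster s z, y ∈ L := by
  unfold Sc
  rw [Finset.mem_filter]

theorem mem_EI {H : SimpleGraph V} {S : Finset V} {e : Sym2 V} :
    e ∈ EI H S ↔ ∃ a b : V, a ∈ S ∧ b ∈ S ∧ H.Adj a b ∧ s(a, b) = e := by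
  unfold EI
  rw [Finset.mem_image]
  constructor
  · rintro ⟨⟨a, b⟩, h, rfl⟩
    rw [Finset.mem_filter, Finset.mem_product] at h
    exact ⟨a, b, h.1.1, h.1.2, h.2, rfl⟩
  · rintro ⟨a, b, ha, hb, hab, rfl⟩
    refine ⟨(a, b), ?_, rfl⟩
    rw [Finset.mem_filter, Finset.mem_product]
    exact ⟨⟨ha, hb⟩, hab⟩

theorem EI_mem {H : SimpleGraph V} {S : Finset V} {a b : V} (h : s(a, b) ∈ EI H S) :
    a ∈ S ∧ b ∈ S := by
  obtain ⟨c, d, hc, hd, _, he⟩ := mem_EI.1 h
  rw [Sym2.eq_iff] at he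
  rcases he with ⟨rfl, rfl⟩ | ⟨rfl, rfl⟩
  · exact ⟨hc, hd⟩
  · exact ⟨hd, hc⟩

/-- No edge leaves the set `Sc L s`. -/
theorem Sc_closed (hCB : StCB.{u}) {L : Finset V} {s : Set (Sym2 V)} {a b : V}
    (ha : a ∈ Sc L s) (hab : s(a, b) ∈ s) : b ∈ Sc L s := by
  obtain ⟨_, _, htr, _, hed, _⟩ := hCB V s
  rw [mem_Sc] at ha ⊢
  have hb : b ∈ Cluster s a := hed a b hab
  exact ⟨ha.2 b hb, fun y hy => ha.2 y (htr a b y hb hy)⟩

theorem Sc_iff (hCB : StCB.{u}) (H : SimpleGraph V) (L S : Finset V) (hSL : S ⊆ L)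
    (s : Set (Sym2 V)) :
    Sc L s = S ↔ Sc L (s \ (EI H S : Set (Sym2 V))) = S := by
  obtain ⟨hrefl, hsymm, htr, hmono, hed, hst⟩ := hCB V s
  obtain ⟨hrefl', hsymm', htr', hmono', hed', hst'⟩ := hCB V (s \ (EI H S : Set (Sym2 V)))
  have hsub : ∀ z, Cluster (s \ (EI H S : Set (Sym2 V))) z ⊆ Cluster s z :=
    fun z => hmono' s Set.diff_subset z
  constructor
  · intro h
    apply Finset.Subset.antisymm
    · intro z hz
      by_contra hzS
      rw [mem_Sc] at hz
      have hcl : Cluster s z ⊆ Cluster (s \ (EI H S : Set (Sym2 V))) z := by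
        refine hst _ z (hrefl' z) ?_
        intro a ha b hab
        by_cases hF : s(a, b) ∈ (EI H S : Set (Sym2 V))
        · exfalso
          have haS : a ∈ S := (EI_mem (Finset.mem_coe.1 hF)).1
          rw [← h, mem_Sc] at haS
          apply hzS
          have hza : z ∈ Cluster s a := hsymm z a (hsub z ha)
          rw [← h, mem_Sc]
          exact ⟨haS.2 z hza, fun y hy => haS.2 y (htr a z y hza hy)⟩
        · exact htr' z a b ha (hed' a b ⟨hab, hF⟩)
      apply hzS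
      rw [← h, mem_Sc]
      exact ⟨hz.1, fun y hy => hz.2 y (hcl hy)⟩
    · intro z hz
      have hz' := hz
      rw [← h, mem_Sc] at hz'
      rw [mem_Sc]
      exact ⟨hz'.1, fun y hy => hz'.2 y (hsub z hy)⟩
  · intro h
    apply Finset.Subset.antisymm
    · intro z hz
      rw [mem_Sc] at hz
      rw [← h, mem_Sc]
      exact ⟨hz.1, fun y hy => hz.2 y (hsub z hy)⟩
    · intro z hz
      have hcl : Cluster s z ⊆ (S : Set V) := by
        refine hst _ z hz ?_
        intro a ha b hab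
        by_cases hF : s(a, b) ∈ (EI H S : Set (Sym2 V))
        · exact (EI_mem (Finset.mem_coe.1 hF)).2
        · have ha' : a ∈ Sc L (s \ (EI H S : Set (Sym2 V))) := by
            rw [h]
            exact Finset.mem_coe.1 ha
          have hb := Sc_closed hCB ha' (b := b) ⟨hab, hF⟩
          rw [h] at hb
          exact Finset.mem_coe.2 hb
      rw [mem_Sc]
      exact ⟨hSL hz, fun y hy => hSL (Finset.mem_coe.1 (hcl hy))⟩

theorem EI_subset_ET (hWB : StWB.{u}) (H : SimpleGraph V) (hH : LocFinite H) (L S : Finset V)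
    (hSL : S ⊆ L) : EI H S ⊆ ET H L := by
  obtain ⟨hnb, _⟩ := hWB V H hH
  intro e he
  obtain ⟨a, b, ha, _, hab, rfl⟩ := mem_EI.1 he
  unfold ET
  rw [Finset.mem_biUnion]
  refine ⟨a, hSL ha, ?_⟩
  rw [Finset.mem_image]
  exact ⟨b, (hnb a b).2 hab, rfl⟩

end IX_D2

open IX_D2 in
theorem pr_D2 (hPB : StPB.{u}) (hPI : StPI.{u}) (hPL : StPL.{u}) (hCB : StCB.{u})
    (hWB : StWB.{u}) : StD2.{u} := by
  intro V H hH L S o x q hq0 hq1 hSL
  have hFE : EI H S ⊆ ET H L := EI_subset_ET hWB H hH L S hSL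
  have hdis : Disjoint (ET H L \ EI H S) (EI H S) := Finset.sdiff_disjoint
  have hun : (ET H L \ EI H S) ∪ EI H S = ET H L := Finset.sdiff_union_of_subset hFE
  -- on subsets of `ET H L`
  have hint : ∀ s : Finset (Sym2 V), s ⊆ ET H L →
      (s : Set (Sym2 V)) ∩ ((ET H L \ EI H S : Finset (Sym2 V)) : Set (Sym2 V)) =
        (s : Set (Sym2 V)) \ (EI H S : Set (Sym2 V)) := by
    intro s hs
    ext e
    simp only [Set.mem_inter_iff, Finset.mem_coe, Finset.mem_sdiff, Set.mem_diff]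
    constructor
    · rintro ⟨h1, _, h3⟩
      exact ⟨h1, h3⟩
    · rintro ⟨h1, h2⟩
      exact ⟨h1, hs h1, h2⟩
  have key : ∀ (F : Finset (Sym2 V)) (A : Set (Set (Sym2 V))) (X : ℝ), F = ET H L → Pr F q A = X →
      Pr (ET H L) q A = X := by
    rintro F A X rfl h
    exact h
  have hind := key _ _ _ (by
    ext e
    constructor
    · intro h
      rw [← hun]
      exact Finset.mem_union.2 ((@Finset.mem_union _ (fun a b => Classical.propDecidable (a = b)) _ _ _).1 h)
    · intro h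
      rw [← hun] at h
      exact (@Finset.mem_union _ (fun a b => Classical.propDecidable (a = b)) _ _ _).2 (Finset.mem_union.1 h)) (hPI (Sym2 V) (ET H L \ EI H S) (EI H S) q hq0 hq1
      hdis {s | Sc L s = S} {s | x ∈ Cluster s o})
  have hev : Pr (ET H L) q {s | Sc L s = S ∧ x ∈ Cluster (s ∩ (EI H S : Set (Sym2 V))) o} =
      Pr (ET H L) q {s | s ∩ ((ET H L \ EI H S : Finset (Sym2 V)) : Set (Sym2 V)) ∈
        {s : Set (Sym2 V) | Sc L s = S} ∧ s ∩ ((EI H S : Finset (Sym2 V)) : Set (Sym2 V)) ∈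
        {s : Set (Sym2 V) | x ∈ Cluster s o}} := by
    have hb := (hPB (Sym2 V) (ET H L) q hq0 hq1).2.2.1
    apply le_antisymm
    · refine hb _ _ ?_
      intro s hs h
      refine ⟨?_, h.2⟩
      rw [Set.mem_setOf_eq, hint s hs]
      exact (Sc_iff hCB H L S hSL _).1 h.1
    · refine hb _ _ ?_
      intro s hs h
      refine ⟨?_, h.2⟩
      have h1 := h.1
      rw [Set.mem_setOf_eq, hint s hs] at h1
      exact (Sc_iff hCB H L S hSL _).2 h1
  rw [hev, hind]
  have hL : Pr (ET H L) q {s | Sc L s = S} = Pr (ET H L \ EI H S) q {s | Sc L s = S} := by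
    refine hPL (Sym2 V) (ET H L) (ET H L \ EI H S) q hq0 hq1 Finset.sdiff_subset _ ?_
    intro s hs
    rw [Set.mem_setOf_eq, Set.mem_setOf_eq, hint s hs]
    exact Sc_iff hCB H L S hSL _
  rw [hL]
  rfl

end Pool.Agent.Work.MP_c58d8b_pr.SO
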