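import Pool.Agent.Work.MP_c58d8b_pr.SO.Stmts

/-!
# MP_c58d8b_pr, block SO, item D3: the differential inequality
-/

set_option autoImplicit false

namespace Pool.Agent.Work.MP_c58d8b_pr.SO

open MeasureTheory ProbabilityTheory Set
open scoped ENNReal unitInterval Classical

universe u

namespace IX_D3

/-- the expectation -/
noncomputable def Ex {ι : Type u} (E : Finset ι) (p : ℝ) (X : Finset ι → ℝ) : ℝ :=
  ∑ s ∈ E.powerset, X s * (p ^ s.card * (1 - p) ^ (E.card - s.card))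

/-- the indicator function -/
noncomputable def ind {ι : Type u} (A : Set (Set ι)) (s : Set ι) : ℝ := if s ∈ A then 1 else 0

theorem ind_pos {ι : Type u} {A : Set (Set ι)} {s : Set ι} (h : s ∈ A) : ind A s = 1 := if_pos h

theorem ind_neg {ι : Type u} {A : Set (Set ι)} {s : Set ι} (h : s ∉ A) : ind A s = 0 := if_neg h

theorem ind_nonneg {ι : Type u} (A : Set (Set ι)) (s : Set ι) : 0 ≤ ind A s := by
  unfold ind
  split_ifs <;> norm_num

theorem Ex_sum {ι : Type u} {κ : Type*} (E : Finset ι) (p : ℝ) (T : Finset κ)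
    (X : κ → Finset ι → ℝ) :
    ∑ t ∈ T, Ex E p (X t) = Ex E p (fun s => ∑ t ∈ T, X t s) := by
  unfold Ex
  rw [Finset.sum_comm]
  exact Finset.sum_congr rfl fun s _ => (Finset.sum_mul _ _ _).symm

theorem Ex_mono {ι : Type u} (E : Finset ι) (p : ℝ) (h0 : 0 ≤ p) (h1 : p ≤ 1)
    (X Y : Finset ι → ℝ) (h : ∀ s, X s ≤ Y s) : Ex E p X ≤ Ex E p Y := by
  unfold Ex
  refine Finset.sum_le_sum fun s _ => mul_le_mul_of_nonneg_right (h s) ?_
  exact mul_nonneg (pow_nonneg h0 _) (pow_nonneg (by linarith) _)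

theorem Pr_eq (hPB : StPB.{u}) {ι : Type u} (E : Finset ι) (p : ℝ) (h0 : 0 ≤ p) (h1 : p ≤ 1)
    (A : Set (Set ι)) : Pr E p A = Ex E p (fun s => ind A (s : Set ι)) :=
  (hPB ι E p h0 h1).2.2.2.2 A

variable {V : Type u}

/-- the event in the decoupling -/
def CS (H : SimpleGraph V) (L S : Finset V) (o x : V) : Set (Set (Sym2 V)) :=
  {s | Sc L s = S ∧ x ∈ Cluster (s ∩ (EI H S : Set (Sym2 V))) o}

/-- the edge is pivotal and the event does not hold without it -/
def Pv (L : Finset V) (o : V) (e : Sym2 V) : Set (Set (Sym2 V)) :=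
  {s | insert e s ∈ Out L o ∧ s \ {e} ∉ Out L o}

/-- the event `Sc L s = S` -/
def ES (L S : Finset V) : Set (Set (Sym2 V)) := {s | Sc L s = S}

theorem mem_Sc (L : Finset V) (o : V) (ho : o ∈ L) (s : Set (Sym2 V)) :
    o ∈ Sc L s ↔ s ∉ Out L o := by
  unfold Sc Out
  rw [Finset.mem_filter]
  constructor
  · rintro ⟨-, h⟩ ⟨y, hy, hyL⟩
    exact hyL (h y hy)
  · intro h
    refine ⟨ho, fun y hy => ?_⟩
    by_contra hyL
    exact h ⟨y, hy, hyL⟩

theorem Sc_sub (L : Finset V) (s : Set (Sym2 V)) : Sc L s ⊆ L := Finset.filter_subset _ _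

/-- the pointwise inequality -/
theorem pt (hD1 : StD1.{u}) (H : SimpleGraph V) (hLF : LocFinite H) (L : Finset V) (o : V)
    (ho : o ∈ L) (s : Set (Sym2 V)) :
    ∑ S ∈ L.powerset.filter (o ∈ ·), ∑ x ∈ S, ∑ _y ∈ (nb H x).filter (· ∉ S),
        ind (CS H L S o x) s ≤ ∑ e ∈ ET H L, ind (Pv L o e) s := by
  by_cases hs : s ∈ Out L o
  · have h0 : ∑ S ∈ L.powerset.filter (o ∈ ·), ∑ x ∈ S, ∑ _y ∈ (nb H x).filter (· ∉ S),
        ind (CS H L S o x) s = 0 := by
      refine Finset.sum_eq_zero fun S hS => Finset.sum_eq_zero fun x _ =>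
        Finset.sum_eq_zero fun y _ => ?_
      apply ind_neg
      rintro ⟨h1, -⟩
      have h2 : o ∈ Sc L s := by
        rw [h1]
        exact (Finset.mem_filter.1 hS).2
      exact (mem_Sc L o ho s).1 h2 hs
    rw [h0]
    exact Finset.sum_nonneg fun e _ => ind_nonneg _ _
  · have h1 : ∑ S ∈ L.powerset.filter (o ∈ ·), ∑ x ∈ S, ∑ _y ∈ (nb H x).filter (· ∉ S),
        ind (CS H L S o x) s =
        ∑ x ∈ Sc L s, ∑ _y ∈ (nb H x).filter (· ∉ Sc L s), ind (CS H L (Sc L s) o x) s := by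
      refine Finset.sum_eq_single (Sc L s) (fun S _ hne => ?_) fun hni => ?_
      · refine Finset.sum_eq_zero fun x _ => Finset.sum_eq_zero fun y _ => ?_
        apply ind_neg
        rintro ⟨h2, -⟩
        exact hne h2.symm
      · exfalso
        apply hni
        rw [Finset.mem_filter, Finset.mem_powerset]
        exact ⟨Sc_sub L s, (mem_Sc L o ho s).2 hs⟩
    rw [h1]
    refine le_trans (le_of_eq ?_) ((hD1 V H hLF L o ho s hs).trans (le_of_eq ?_))
    · refine Finset.sum_congr rfl fun x _ => Finset.sum_congr rfl fun y _ => ?_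
      unfold ind
      refine if_congr ?_ rfl rfl
      exact ⟨fun h => h.2, fun h => ⟨rfl, h⟩⟩
    · refine Finset.sum_congr rfl fun e _ => ?_
      unfold ind
      exact if_congr Iff.rfl rfl rfl

/-- the events `Sc L s = S` -/
theorem tot (L : Finset V) (o : V) (ho : o ∈ L) (s : Set (Sym2 V)) :
    ∑ S ∈ L.powerset.filter (o ∈ ·), ind (ES L S) s = ind (Set.univ ∩ (Out L o)ᶜ) s := by
  by_cases hs : s ∈ Out L o
  · rw [ind_neg (fun h : s ∈ Set.univ ∩ (Out L o)ᶜ => h.2 hs)]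
    refine Finset.sum_eq_zero fun S hS => ind_neg fun h1 => ?_
    have h2 : o ∈ Sc L s := by
      rw [show Sc L s = S from h1]
      exact (Finset.mem_filter.1 hS).2
    exact (mem_Sc L o ho s).1 h2 hs
  · rw [ind_pos (show s ∈ Set.univ ∩ (Out L o)ᶜ from ⟨Set.mem_univ _, hs⟩)]
    rw [Finset.sum_eq_single (Sc L s) (fun S _ hne => ?_) fun hni => ?_]
    · exact ind_pos rfl
    · exact ind_neg fun h2 => hne (show Sc L s = S from h2).symm
    · exfalso
      apply hni
      rw [Finset.mem_filter, Finset.mem_powerset]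
      exact ⟨Sc_sub L s, (mem_Sc L o ho s).2 hs⟩

end IX_D3

open IX_D3 in
/-- Item [D3]. -/
theorem pr_D3 (hPB : StPB.{u}) (hPR : StPR.{u}) (hCB : StCB.{u}) (hD1 : StD1.{u})
    (hD2 : StD2.{u}) : StD3.{u} := by
  intro V H hLF L o q c ho hq0 hq1 hc hphi
  have hmono : ∀ s t : Set (Sym2 V), s ⊆ t → s ∈ Out L o → t ∈ Out L o := by
    rintro s t hst ⟨y, hy, hyL⟩
    exact ⟨y, (hCB V s).2.2.2.1 t hst o hy, hyL⟩
  refine ⟨_, hPR (Sym2 V) (ET H L) (Out L o) hmono q, ?_⟩
  have hPr := Pr_eq hPB (ET H L) q hq0 hq1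
  have hbas := hPB (Sym2 V) (ET H L) q hq0 hq1
  -- the lower bound of the derivative
  have h1 : ∑ S ∈ L.powerset.filter (o ∈ ·), ∑ x ∈ S, ∑ _y ∈ (nb H x).filter (· ∉ S),
      Pr (ET H L) q (CS H L S o x) ≤ ∑ e ∈ ET H L, Pr (ET H L) q (Pv L o e) := by
    have e1 : ∑ S ∈ L.powerset.filter (o ∈ ·), ∑ x ∈ S, ∑ _y ∈ (nb H x).filter (· ∉ S),
        Pr (ET H L) q (CS H L S o x) = Ex (ET H L) q (fun s =>
          ∑ S ∈ L.powerset.filter (o ∈ ·), ∑ x ∈ S, ∑ _y ∈ (nb H x).filter (· ∉ S),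
            ind (CS H L S o x) (s : Set (Sym2 V))) := by
      rw [← Ex_sum]
      refine Finset.sum_congr rfl fun S _ => ?_
      rw [← Ex_sum]
      refine Finset.sum_congr rfl fun x _ => ?_
      rw [← Ex_sum]
      exact Finset.sum_congr rfl fun y _ => hPr _
    have e2 : ∑ e ∈ ET H L, Pr (ET H L) q (Pv L o e) =
        Ex (ET H L) q (fun s => ∑ e ∈ ET H L, ind (Pv L o e) (s : Set (Sym2 V))) := by
      rw [← Ex_sum]
      exact Finset.sum_congr rfl fun e _ => hPr _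
    rw [e1, e2]
    exact Ex_mono _ _ hq0 hq1 _ _ fun s => pt hD1 H hLF L o ho s
  -- the sum of the probabilities of the events `Sc L s = S`
  have h2 : ∑ S ∈ L.powerset.filter (o ∈ ·), Pr (ET H L) q (ES L S) =
      1 - Pr (ET H L) q (Out L o) := by
    have e1 : ∑ S ∈ L.powerset.filter (o ∈ ·), Pr (ET H L) q (ES L S) =
        Pr (ET H L) q (Set.univ ∩ (Out L o)ᶜ) := by
      rw [hPr (Set.univ ∩ (Out L o)ᶜ)]
      have e2 : (fun s : Finset (Sym2 V) => ind (Set.univ ∩ (Out L o)ᶜ) (s : Set (Sym2 V))) =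
          fun s : Finset (Sym2 V) => ∑ S ∈ L.powerset.filter (o ∈ ·),
            ind (ES L S) (s : Set (Sym2 V)) := by
        funext s
        rw [tot L o ho (s : Set (Sym2 V))]
      rw [e2, ← Ex_sum]
      exact Finset.sum_congr rfl fun S _ => hPr _
    have e3 := hbas.2.2.2.1 Set.univ (Out L o)
    rw [hbas.1] at e3
    have e4 : Set.univ ∩ Out L o = Out L o := Set.univ_inter _
    rw [e4] at e3
    rw [e1]
    linarith
  -- the comparison for a fixed set
  have h3 : ∀ S ∈ L.powerset.filter (o ∈ ·), c * Pr (ET H L) q (ES L S) ≤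
      ∑ x ∈ S, ∑ _y ∈ (nb H x).filter (· ∉ S), Pr (ET H L) q (CS H L S o x) := by
    intro S hS
    have hSL : S ⊆ L := Finset.mem_powerset.1 (Finset.mem_filter.1 hS).1
    have hoS : o ∈ S := (Finset.mem_filter.1 hS).2
    have hP0 : 0 ≤ Pr (ET H L) q (ES L S) := (hbas.2.1 _).1
    have e1 : ∑ x ∈ S, ∑ _y ∈ (nb H x).filter (· ∉ S), Pr (ET H L) q (CS H L S o x) =
        Pr (ET H L) q (ES L S) *
          ∑ x ∈ S, ∑ _y ∈ (nb H x).filter (· ∉ S), tau H q S o x := by
      rw [Finset.mul_sum]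
      refine Finset.sum_congr rfl fun x _ => ?_
      rw [Finset.mul_sum]
      exact Finset.sum_congr rfl fun y _ => hD2 V H hLF L S o x q hq0 hq1 hSL
    have htau : 0 ≤ ∑ x ∈ S, ∑ _y ∈ (nb H x).filter (· ∉ S), tau H q S o x :=
      Finset.sum_nonneg fun x _ => Finset.sum_nonneg fun y _ =>
        ((hPB (Sym2 V) (EI H S) q hq0 hq1).2.1 _).1
    have e2 : c ≤ ∑ x ∈ S, ∑ _y ∈ (nb H x).filter (· ∉ S), tau H q S o x := by
      refine (hphi S hoS).trans ?_
      unfold phi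
      exact mul_le_of_le_one_left htau hq1
    rw [e1, mul_comm]
    exact mul_le_mul_of_nonneg_left e2 hP0
  rw [← h2, Finset.mul_sum]
  exact (Finset.sum_le_sum h3).trans h1

end Pool.Agent.Work.MP_c58d8b_pr.SO
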