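import Pool.Agent.Work.MP_c58d8b_pr.SO.Stmts

/-!
# MP_c58d8b_pr, block SO, item D4: integration of the differential inequality
-/

set_option autoImplicit false

namespace Pool.Agent.Work.MP_c58d8b_pr.SO

open MeasureTheory ProbabilityTheory Set
open scoped ENNReal unitInterval Classical

universe u

namespace IX_D4

theorem integrate (θ : ℝ → ℝ) (p p' c : ℝ) (hpp : p ≤ p')
    (hD : ∀ q ∈ Set.Icc p p', ∃ θ' : ℝ, HasDerivAt θ θ' q ∧ c * (1 - θ q) ≤ θ')
    (h0 : 0 ≤ θ p) : 1 - Real.exp (-(c * (p' - p))) ≤ θ p' := by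
  have hF : ∀ q ∈ Set.Icc p p', ∃ F' : ℝ,
      HasDerivAt (fun q => (1 - θ q) * Real.exp (c * q)) F' q ∧ F' ≤ 0 := by
    intro q hq
    obtain ⟨θ', h1, h2⟩ := hD q hq
    have h3 : HasDerivAt (fun q : ℝ => Real.exp (c * q)) (Real.exp (c * q) * (c * 1)) q :=
      ((hasDerivAt_id q).const_mul c).exp
    have h4 : HasDerivAt (fun q => 1 - θ q) (-θ') q := h1.const_sub 1
    refine ⟨_, h4.mul h3, ?_⟩
    have h5 : 0 < Real.exp (c * q) := Real.exp_pos _
    have h6 : -θ' * Real.exp (c * q) + (1 - θ q) * (Real.exp (c * q) * (c * 1)) =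
        (c * (1 - θ q) - θ') * Real.exp (c * q) := by ring
    rw [h6]
    exact mul_nonpos_of_nonpos_of_nonneg (by linarith) h5.le
  have hanti : AntitoneOn (fun q => (1 - θ q) * Real.exp (c * q)) (Set.Icc p p') := by
    apply antitoneOn_of_deriv_nonpos (convex_Icc p p')
    · intro q hq
      obtain ⟨F', h1, -⟩ := hF q hq
      exact h1.continuousAt.continuousWithinAt
    · intro q hq
      obtain ⟨F', h1, -⟩ := hF q (interior_subset hq)
      exact h1.differentiableAt.differentiableWithinAt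
    · intro q hq
      obtain ⟨F', h1, h2⟩ := hF q (interior_subset hq)
      rw [h1.deriv]
      exact h2
  have h1 : (1 - θ p') * Real.exp (c * p') ≤ (1 - θ p) * Real.exp (c * p) :=
    hanti (Set.left_mem_Icc.2 hpp) (Set.right_mem_Icc.2 hpp) hpp
  have h2 : (1 - θ p) * Real.exp (c * p) ≤ 1 * Real.exp (c * p) :=
    mul_le_mul_of_nonneg_right (by linarith) (Real.exp_pos _).le
  have h3 : Real.exp (-(c * (p' - p))) * Real.exp (c * p') = Real.exp (c * p) := by
    rw [← Real.exp_add]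
    congr 1
    ring
  have h4 : (1 - θ p') * Real.exp (c * p') ≤
      Real.exp (-(c * (p' - p))) * Real.exp (c * p') := by
    rw [h3]
    linarith
  have h5 : 1 - θ p' ≤ Real.exp (-(c * (p' - p))) := le_of_mul_le_mul_right h4 (Real.exp_pos _)
  linarith

end IX_D4

theorem pr_D4 (hPB : StPB.{u}) (hD3 : StD3.{u}) : StD4.{u} := by
  intro V H hLF L o p p' c ho hp hpp hp1 hc hphi
  refine IX_D4.integrate (fun q => Pr (ET H L) q (Out L o)) p p' c hpp ?_ ?_
  · intro q hq
    exact hD3 V H hLF L o q c ho (hp.trans hq.1) (hq.2.trans hp1) hc (hphi q hq)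
  · exact ((hPB (Sym2 V) (ET H L) p hp (hpp.trans hp1)).2.1 (Out L o)).1

end Pool.Agent.Work.MP_c58d8b_pr.SO
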