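import Pool.Agent.Work.MP_c58d8b_pr.SO.Stmts

/-!
# MP_c58d8b_pr, block SO, item HV: an infinite cluster in the slab is heavy
-/

set_option autoImplicit false

namespace Pool.Agent.Work.MP_c58d8b_pr.SO

open MeasureTheory ProbabilityTheory Set
open scoped ENNReal unitInterval Classical

universe u

namespace IX_HV

/-- The factor measures. -/
noncomputable def fac {ι : Type u} (v : Set ι) (p : I) (i : ι) : Measure Prop :=
  unitInterval.toNNReal p • Measure.dirac (i ∈ v) +
    unitInterval.toNNReal (σ p) • Measure.dirac False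

instance {ι : Type u} (v : Set ι) (p : I) (i : ι) : IsProbabilityMeasure (fac v p i) := by
  unfold fac
  infer_instance

theorem fac_map {ι : Type u} {u v : Set ι} (huv : u ⊆ v) (p : I) (i : ι) :
    (fac v p i).map (fun x : Prop => x ∧ i ∈ u) = fac u p i := by
  have hm : Measurable (fun x : Prop => x ∧ i ∈ u) := measurable_from_top
  have h1 : (i ∈ v ∧ i ∈ u) = (i ∈ u) := propext ⟨fun h => h.2, fun h => ⟨huv h, h⟩⟩
  have h2 : (False ∧ i ∈ u) = False := propext ⟨fun h => h.1, fun h => h.elim⟩
  unfold fac
  have e1 : (Measure.dirac (i ∈ v)).map (fun x : Prop => x ∧ i ∈ u) = Measure.dirac (i ∈ u) := by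
    rw [Measure.map_dirac' hm]
    exact congrArg Measure.dirac h1
  have e2 : (Measure.dirac False).map (fun x : Prop => x ∧ i ∈ u) = Measure.dirac False := by
    rw [Measure.map_dirac' hm]
    exact congrArg Measure.dirac h2
  rw [Measure.map_add _ _ hm, Measure.map_smul, Measure.map_smul, e1, e2]

/-- The law of `s ∩ u`. -/
theorem law {ι : Type u} {u v : Set ι} (huv : u ⊆ v) (p : I) (A : Set (Set ι))
    (hA : MeasurableSet A) : setBernoulli u p A = setBernoulli v p {s | s ∩ u ∈ A} := by
  have hm : ∀ i : ι, Measurable (fun x : Prop => x ∧ i ∈ u) := fun _ => measurable_from_top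
  have hpi := Measure.infinitePi_map_pi (μ := fac v p) (f := fun i (x : Prop) => x ∧ i ∈ u) hm
  have e : ∀ (w : Set ι) (X : Set (Set ι)), setBernoulli w p X =
      Measure.infinitePi (fac w p) ((fun q : ι → Prop => {i | q i}) ⁻¹' X) := fun w X =>
    setBernoulli_apply' X
  rw [e, e]
  have hfac : (fun i => (fac v p i).map (fun x : Prop => x ∧ i ∈ u)) = fac u p := by
    funext i
    exact fac_map huv p i
  rw [hfac] at hpi
  rw [← hpi, Measure.map_apply]
  · rfl
  · exact measurable_pi_lambda _ fun i => (hm i).comp (measurable_pi_apply i)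
  · have hmeas : Measurable (fun q : ι → Prop => {i | q i}) := by
      exact MeasurableEquiv.setOfPred.measurable
    exact hmeas hA

end IX_HV

open IX_HV in
theorem pr_HV (hW : WeightStmt.{u}) (hMS : MeasStmt.{u}) (hCB : StCB.{u}) : StHV.{u} := by
  intro V _ Γ H hG o L p hL
  obtain ⟨hw0, -, hw2⟩ := hW V H Γ hG.conn hG.lf hG.pres
  set U : Set V := slab Γ o L with hU
  have hsub : (within H U).edgeSet ⊆ H.edgeSet := by
    intro e
    induction e with
    | h a b =>
      rw [SimpleGraph.mem_edgeSet, SimpleGraph.mem_edgeSet]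
      exact fun h => h.1
  unfold perc
  rw [law hsub p _ ((hMS V).2.1 o)]
  refine measure_mono ?_
  intro s hs
  have hs' : (Cluster (s ∩ (within H U).edgeSet) o).Infinite := hs
  refine ⟨o, ?_⟩
  intro o'
  obtain ⟨refl, symm, trans, mono, adj, inv⟩ := hCB V (s ∩ (within H U).edgeSet)
  have hC1 : Cluster (s ∩ (within H U).edgeSet) o ⊆ Cluster s o := mono s inter_subset_left o
  have hC2 : Cluster (s ∩ (within H U).edgeSet) o ⊆ insert o U := by
    refine inv _ o (mem_insert _ _) ?_
    intro a _ b hab
    have h1 := hab.2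
    rw [SimpleGraph.mem_edgeSet] at h1
    exact mem_insert_of_mem _ h1.2.2
  have hone : weight Γ o o = 1 := by
    have h1 := hw2 o o o
    have h2 := hw0 o o
    have h3 : weight Γ o o * (weight Γ o o - 1) = 0 := by linarith
    rcases mul_eq_zero.1 h3 with h | h
    · linarith
    · linarith
  have hlow : ∀ x ∈ Cluster (s ∩ (within H U).edgeSet) o,
      Real.exp (-L) * weight Γ o o' ≤ weight Γ x o' := by
    intro x hx
    have h1 : Real.exp (-L) ≤ weight Γ x o := by
      rcases hC2 hx with h | h
      · rw [h, hone]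
        rw [Real.exp_le_one_iff]
        linarith
      · have h3 : |Real.log (weight Γ x o)| < L := h
        have h4 := (abs_lt.1 h3).1
        rw [← Real.log_le_log_iff (Real.exp_pos _) (hw0 x o), Real.log_exp]
        exact h4.le
    rw [← hw2 x o o']
    exact mul_le_mul_of_nonneg_right h1 (hw0 o o').le
  have hcpos : 0 < Real.exp (-L) * weight Γ o o' := mul_pos (Real.exp_pos _) (hw0 o o')
  have : Infinite (Cluster (s ∩ (within H U).edgeSet) o) := hs'.to_subtype
  rw [eq_top_iff]
  calc (⊤ : ℝ≥0∞) = ∑' _ : Cluster (s ∩ (within H U).edgeSet) o,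
        ENNReal.ofReal (Real.exp (-L) * weight Γ o o') :=
        (ENNReal.tsum_const_eq_top_of_ne_zero (by
          rw [Ne, ENNReal.ofReal_eq_zero, not_le]
          exact hcpos)).symm
    _ ≤ ∑' x : Cluster (s ∩ (within H U).edgeSet) o, ENNReal.ofReal (weight Γ x o') := by
        refine ENNReal.tsum_le_tsum fun x => ?_
        exact ENNReal.ofReal_le_ofReal (hlow x x.2)
    _ ≤ ∑' x : Cluster s o, ENNReal.ofReal (weight Γ x o') :=
        ENNReal.tsum_mono_subtype (fun x => ENNReal.ofReal (weight Γ x o')) hC1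

end Pool.Agent.Work.MP_c58d8b_pr.SO
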