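import Pool.Agent.Work.MP_c58d8b_pr.SO.Stmts

/-!
# MP_c58d8b_pr, block SO, item [PA]: all edges of `T` are open
-/

set_option autoImplicit false

namespace Pool.Agent.Work.MP_c58d8b_pr.SO

open MeasureTheory ProbabilityTheory Set
open scoped ENNReal unitInterval Classical

universe u

theorem pr_PA (hPL : StPL.{u}) : StPA.{u} := by
  intro ι E T p hp0 hp1 hT
  have h1 : Pr E p {s : Set ι | (T : Set ι) ⊆ s} = Pr T p {s : Set ι | (T : Set ι) ⊆ s} := by
    refine hPL ι E T p hp0 hp1 hT {s : Set ι | (T : Set ι) ⊆ s} ?_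
    intro s _
    constructor
    · intro h x hx
      exact ⟨h hx, hx⟩
    · intro h x hx
      exact (h hx).1
  rw [h1]
  unfold Pr
  have h2 : T.powerset.filter (fun s : Finset ι => (s : Set ι) ∈ {s : Set ι | (T : Set ι) ⊆ s}) =
      {T} := by
    ext s
    rw [Finset.mem_filter, Finset.mem_powerset, Finset.mem_singleton]
    constructor
    · rintro ⟨h, h'⟩
      exact Finset.Subset.antisymm h (Finset.coe_subset.1 h')
    · rintro rfl
      exact ⟨Finset.Subset.refl _, fun x hx => hx⟩
  rw [h2, Finset.sum_singleton, Nat.sub_self, pow_zero, mul_one]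

end Pool.Agent.Work.MP_c58d8b_pr.SO
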