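import Pool.Agent.Work.MP_c58d8b_pr.SO.Stmts

/-! # Block SO, item PB: basic facts on finite percolation -/

set_option autoImplicit false

namespace Pool.Agent.Work.MP_c58d8b_pr.SO

open MeasureTheory ProbabilityTheory Set
open scoped ENNReal unitInterval Classical

universe u

namespace IX_PB

variable {ι : Type u}

theorem term_nn (E s : Finset ι) (p : ℝ) (h0 : 0 ≤ p) (h1 : p ≤ 1) :
    0 ≤ p ^ s.card * (1 - p) ^ (E.card - s.card) :=
  mul_nonneg (pow_nonneg h0 _) (pow_nonneg (sub_nonneg.2 h1) _)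

theorem mono (E : Finset ι) (p : ℝ) (h0 : 0 ≤ p) (h1 : p ≤ 1) (A B : Set (Set ι))
    (h : ∀ s : Finset ι, s ⊆ E → (s : Set ι) ∈ A → (s : Set ι) ∈ B) : Pr E p A ≤ Pr E p B := by
  unfold Pr
  apply Finset.sum_le_sum_of_subset_of_nonneg
  · intro s hs
    rw [Finset.mem_filter] at hs ⊢
    exact ⟨hs.1, h s (Finset.mem_powerset.1 hs.1) hs.2⟩
  · intro s _ _
    exact term_nn E s p h0 h1

theorem eq_ite (E : Finset ι) (p : ℝ) (A : Set (Set ι)) :
    Pr E p A = ∑ s ∈ E.powerset, (if (s : Set ι) ∈ A then (1 : ℝ) else 0) *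
      (p ^ s.card * (1 - p) ^ (E.card - s.card)) := by
  unfold Pr
  rw [Finset.sum_filter]
  refine Finset.sum_congr rfl ?_
  intro s _
  by_cases h : (s : Set ι) ∈ A
  · simp [h]
  · simp [h]

theorem univ_eq (E : Finset ι) (p : ℝ) : Pr E p Set.univ = 1 := by
  rw [eq_ite]
  refine Eq.trans (Finset.sum_congr rfl (fun s _ => ?_)) (Finset.sum_pow_mul_eq_add_pow p (1 - p) E
    |>.trans ?_)
  · rw [if_pos (Set.mem_univ _), one_mul]
  · simp

end IX_PB

open IX_PB in
theorem pr_PB : StPB.{u} := by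
  intro ι E p h0 h1
  refine ⟨univ_eq E p, ?_, mono E p h0 h1, ?_, eq_ite E p⟩
  · intro A
    constructor
    · unfold Pr
      exact Finset.sum_nonneg (fun s _ => term_nn E s p h0 h1)
    · rw [← univ_eq E p]
      exact mono E p h0 h1 A Set.univ (fun s _ _ => Set.mem_univ _)
  · intro A B
    rw [eq_ite E p A, eq_ite E p (A ∩ B), eq_ite E p (A ∩ Bᶜ), ← Finset.sum_add_distrib]
    refine Finset.sum_congr rfl ?_
    intro s _
    by_cases hA : (s : Set ι) ∈ A
    · by_cases hB : (s : Set ι) ∈ B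
      · simp [hA, hB]
      · simp [hA, hB]
    · simp [hA]

end Pool.Agent.Work.MP_c58d8b_pr.SO
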