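import Pool.Agent.Work.MP_c58d8b_pr.SO.Stmts

/-!
# Item PI of block SO: independence of disjoint sets of edges
-/

set_option autoImplicit false

namespace Pool.Agent.Work.MP_c58d8b_pr.SO

open MeasureTheory ProbabilityTheory Set
open scoped ENNReal unitInterval Classical

universe u

namespace IX_PI

lemma inter_left {ι : Type u} {E₁ E₂ s₁ s₂ : Finset ι} (hd : Disjoint E₁ E₂) (h1 : s₁ ⊆ E₁)
    (h2 : s₂ ⊆ E₂) : (s₁ ∪ s₂) ∩ E₁ = s₁ := by
  ext x
  simp only [Finset.mem_inter, Finset.mem_union]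
  constructor
  · rintro ⟨hx | hx, hE⟩
    · exact hx
    · exact absurd (h2 hx) (Finset.disjoint_left.1 hd hE)
  · intro hx
    exact ⟨Or.inl hx, h1 hx⟩

lemma inter_right {ι : Type u} {E₁ E₂ s₁ s₂ : Finset ι} (hd : Disjoint E₁ E₂) (h1 : s₁ ⊆ E₁)
    (h2 : s₂ ⊆ E₂) : (s₁ ∪ s₂) ∩ E₂ = s₂ := by
  rw [Finset.union_comm]
  exact inter_left hd.symm h2 h1

end IX_PI

theorem pr_PI : StPI.{u} := by
  intro ι E₁ E₂ p _ _ hd A B
  unfold Pr
  rw [Finset.sum_mul_sum, ← Finset.sum_product']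
  refine Finset.sum_nbij' (fun s => (s ∩ E₁, s ∩ E₂)) (fun q => q.1 ∪ q.2) ?_ ?_ ?_ ?_ ?_
  · intro s hs
    simp only [Finset.mem_filter, Finset.mem_powerset, Set.mem_setOf_eq] at hs
    simp only [Finset.mem_product, Finset.mem_filter, Finset.mem_powerset, Finset.coe_inter]
    exact ⟨⟨Finset.inter_subset_right, hs.2.1⟩, ⟨Finset.inter_subset_right, hs.2.2⟩⟩
  · rintro ⟨s₁, s₂⟩ hq
    simp only [Finset.mem_product, Finset.mem_filter, Finset.mem_powerset] at hq
    obtain ⟨⟨h1, hA⟩, ⟨h2, hB⟩⟩ := hq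
    simp only [Finset.mem_filter, Finset.mem_powerset, Set.mem_setOf_eq]
    rw [← Finset.coe_inter, ← Finset.coe_inter, IX_PI.inter_left hd h1 h2, IX_PI.inter_right hd h1 h2]
    exact ⟨Finset.union_subset_union h1 h2, hA, hB⟩
  · intro s hs
    simp only [Finset.mem_filter, Finset.mem_powerset, Set.mem_setOf_eq] at hs
    show s ∩ E₁ ∪ s ∩ E₂ = s
    rw [← Finset.inter_union_distrib_left]
    exact Finset.inter_eq_left.2 hs.1
  · rintro ⟨s₁, s₂⟩ hq
    simp only [Finset.mem_product, Finset.mem_filter, Finset.mem_powerset] at hq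
    obtain ⟨⟨h1, -⟩, ⟨h2, -⟩⟩ := hq
    show ((s₁ ∪ s₂) ∩ E₁, (s₁ ∪ s₂) ∩ E₂) = (s₁, s₂)
    rw [IX_PI.inter_left hd h1 h2, IX_PI.inter_right hd h1 h2]
  · intro s hs
    simp only [Finset.mem_filter, Finset.mem_powerset, Set.mem_setOf_eq] at hs
    show p ^ s.card * (1 - p) ^ ((E₁ ∪ E₂).card - s.card) =
      p ^ (s ∩ E₁).card * (1 - p) ^ (E₁.card - (s ∩ E₁).card) *
        (p ^ (s ∩ E₂).card * (1 - p) ^ (E₂.card - (s ∩ E₂).card))
    have hs' : s.card = (s ∩ E₁).card + (s ∩ E₂).card := by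
      rw [← Finset.card_union_of_disjoint
        (hd.mono Finset.inter_subset_right Finset.inter_subset_right),
        ← Finset.inter_union_distrib_left, Finset.inter_eq_left.2 hs.1]
    have h1 : (s ∩ E₁).card ≤ E₁.card := Finset.card_le_card Finset.inter_subset_right
    have h2 : (s ∩ E₂).card ≤ E₂.card := Finset.card_le_card Finset.inter_subset_right
    have hE : (E₁ ∪ E₂).card - s.card = (E₁.card - (s ∩ E₁).card) + (E₂.card - (s ∩ E₂).card) := by
      rw [Finset.card_union_of_disjoint hd]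
      omega
    rw [hE, hs', pow_add, pow_add]
    ring

end Pool.Agent.Work.MP_c58d8b_pr.SO
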