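import Pool.Agent.Work.MP_c58d8b_pr.SO.Stmts

/-!
# MP_c58d8b_pr, block SO, item PL
-/

set_option autoImplicit false

namespace Pool.Agent.Work.MP_c58d8b_pr.SO

open MeasureTheory ProbabilityTheory Set
open scoped ENNReal unitInterval Classical

universe u

theorem pr_PL (hPB : StPB.{u}) (hPI : StPI.{u}) : StPL.{u} := by
  intro ι E E' p hp0 hp1 hE A hA
  have hU : E' ∪ (E \ E') = E := Finset.union_sdiff_of_subset hE
  have h1 : Pr E p A = Pr E p {s | s ∩ (E' : Set ι) ∈ A ∧ s ∩ ((E \ E' : Finset ι) : Set ι) ∈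
      (Set.univ : Set (Set ι))} := by
    apply le_antisymm
    · apply (hPB ι E p hp0 hp1).2.2.1
      intro s hs hsA
      exact ⟨(hA s hs).1 hsA, Set.mem_univ _⟩
    · apply (hPB ι E p hp0 hp1).2.2.1
      intro s hs hsA
      exact (hA s hs).2 hsA.1
  have h2 := hPI ι E' (E \ E') p hp0 hp1 Finset.disjoint_sdiff A Set.univ
  rw [hU, (hPB ι (E \ E') p hp0 hp1).1, mul_one] at h2
  rw [h1, h2]

end Pool.Agent.Work.MP_c58d8b_pr.SO
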