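import Pool.Agent.Work.MP_c58d8b_pr.SO.Stmts

set_option autoImplicit false

namespace Pool.Agent.Work.MP_c58d8b_pr.SO

open MeasureTheory ProbabilityTheory Set
open scoped ENNReal unitInterval Classical

universe u

namespace IX_PM

theorem preim {ι : Type u} (E t : Finset ι) (ht : t ⊆ E) :
    ((fun q : ι → Prop ↦ {i | q i}) ⁻¹' {s | s ∩ (E : Set ι) = (t : Set ι)})
      = Set.pi (E : Set ι) (fun i => ({i ∈ t} : Set Prop)) := by
  ext q
  simp only [Set.mem_preimage, Set.mem_ofPred_eq, Set.mem_pi, Finset.mem_coe,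
    Set.mem_singleton_iff]
  constructor
  · intro h i hi
    have h1 : (i ∈ {i | q i} ∩ (E : Set ι)) ↔ i ∈ (t : Set ι) := by rw [h]
    refine propext ⟨fun h2 => ?_, fun h2 => ?_⟩
    · exact h1.1 ⟨h2, hi⟩
    · exact (h1.2 h2).1
  · intro h
    ext i
    constructor
    · rintro ⟨h1, h2⟩
      have h3 := h i h2
      have h4 : q i := h1
      rw [h3] at h4
      exact h4
    · intro h1
      have h2 : i ∈ E := ht h1
      refine ⟨?_, h2⟩
      change q i
      rw [h i h2]
      exact h1

theorem cyl {ι : Type u} (v : Set ι) (p : I) (E t : Finset ι) (hE : (E : Set ι) ⊆ v) (ht : t ⊆ E) :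
    setBernoulli v p {s | s ∩ (E : Set ι) = (t : Set ι)} =
      ENNReal.ofReal ((p : ℝ) ^ t.card * (1 - (p : ℝ)) ^ (E.card - t.card)) := by
  have hp0 : (0 : ℝ) ≤ p := p.2.1
  have hp1 : (0 : ℝ) ≤ 1 - p := by linarith [p.2.2]
  rw [setBernoulli_apply', preim E t ht,
    Measure.infinitePi_pi _ (by intro i hi; exact MeasurableSet.of_discrete)]
  have h5 : ((unitInterval.toNNReal (σ p) : NNReal) : ℝ≥0∞) = ENNReal.ofReal (1 - (p : ℝ)) := by
    rw [← ENNReal.ofReal_coe_nnreal, unitInterval.coe_toNNReal, unitInterval.coe_symm_eq]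
  have h6 : ((unitInterval.toNNReal p : NNReal) : ℝ≥0∞) = ENNReal.ofReal (p : ℝ) := by
    rw [← ENNReal.ofReal_coe_nnreal, unitInterval.coe_toNNReal]
  have h3 : ∀ i ∈ E, (unitInterval.toNNReal p • Measure.dirac (i ∈ v)
      + unitInterval.toNNReal (σ p) • Measure.dirac False : Measure Prop) {i ∈ t}
      = if i ∈ t then ENNReal.ofReal (p : ℝ) else ENNReal.ofReal (1 - (p : ℝ)) := by
    intro i hi
    have h4 : i ∈ v := hE hi
    by_cases hit : i ∈ t
    · simpa [h4, hit] using h6
    · simpa [h4, hit] using h5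
  rw [Finset.prod_congr rfl h3, Finset.prod_ite, Finset.prod_const, Finset.prod_const,
    ENNReal.ofReal_mul (by positivity), ENNReal.ofReal_pow hp0, ENNReal.ofReal_pow hp1]
  have c1 : (E.filter (fun i => i ∈ t)).card = t.card := by
    congr 1
    ext i
    simp only [Finset.mem_filter]
    exact ⟨fun h => h.2, fun h => ⟨ht h, h⟩⟩
  have c2 : (E.filter (fun i => ¬ i ∈ t)).card = E.card - t.card := by
    have := Finset.card_filter_add_card_filter_not (s := E) (fun i => i ∈ t)
    omega
  rw [c1, c2]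

theorem meas {ι : Type u} [Countable ι] (E t : Finset ι) (ht : t ⊆ E) :
    MeasurableSet {s : Set ι | s ∩ (E : Set ι) = (t : Set ι)} := by
  have h : {s : Set ι | s ∩ (E : Set ι) = (t : Set ι)} =
      (fun s : Set ι => (fun i => i ∈ s : ι → Prop)) ⁻¹'
        (Set.pi (E : Set ι) (fun i => ({i ∈ t} : Set Prop))) := by
    rw [← preim E t ht]
    rfl
  rw [h]
  refine (MeasurableEquiv.setOfPred (α := ι)).symm.measurable ?_
  exact MeasurableSet.pi (Set.to_countable _) fun i _ => MeasurableSet.of_discrete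

end IX_PM

theorem pr_PM : StPM.{u} := by
  intro ι _ v p E hE A
  have hp0 : (0 : ℝ) ≤ p := p.2.1
  have hp1 : (0 : ℝ) ≤ 1 - p := by linarith [p.2.2]
  have hset : {s : Set ι | s ∩ (E : Set ι) ∈ A} =
      ⋃ t ∈ E.powerset.filter (fun s : Finset ι => (s : Set ι) ∈ A),
        {s : Set ι | s ∩ (E : Set ι) = (t : Set ι)} := by
    ext s
    simp only [Set.mem_ofPred_eq, Set.mem_iUnion, Finset.mem_filter, Finset.mem_powerset]
    constructor
    · intro h
      refine ⟨E.filter (fun i => i ∈ s), ⟨Finset.filter_subset _ _, ?_⟩, ?_⟩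
      · have : ((E.filter (fun i => i ∈ s) : Finset ι) : Set ι) = s ∩ (E : Set ι) := by
          ext i; simp [and_comm]
        rw [this]
        exact h
      · ext i; simp [and_comm]
    · rintro ⟨t, ⟨-, h1⟩, h2⟩
      rw [h2]
      exact h1
  rw [hset, measure_biUnion_finset]
  · unfold Pr
    rw [ENNReal.ofReal_sum_of_nonneg (fun t _ => by positivity)]
    refine Finset.sum_congr rfl fun t ht => ?_
    rw [Finset.mem_filter, Finset.mem_powerset] at ht
    exact IX_PM.cyl v p E t hE ht.1
  · intro t _ t' _ hne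
    rw [Function.onFun, Set.disjoint_left]
    intro s h1 h2
    apply hne
    have h3 : (t : Set ι) = (t' : Set ι) := by
      rw [← (show s ∩ (E : Set ι) = (t : Set ι) from h1)]
      exact h2
    exact_mod_cast h3
  · intro t ht
    rw [Finset.mem_filter, Finset.mem_powerset] at ht
    exact IX_PM.meas E t ht.1

end Pool.Agent.Work.MP_c58d8b_pr.SO
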