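import Pool.Agent.Work.MP_c58d8b_pr.SO.Stmts

/-!
# MP_c58d8b_pr, block SO, item PR: Russo's formula for an increasing event
-/

set_option autoImplicit false

namespace Pool.Agent.Work.MP_c58d8b_pr.SO

open MeasureTheory ProbabilityTheory Set
open scoped ENNReal unitInterval Classical

universe u

namespace IX_PR

variable {ι : Type u}

theorem Pr_eq (E : Finset ι) (p : ℝ) (A : Set (Set ι)) :
    Pr E p A = ∑ s ∈ E.powerset,
      if (s : Set ι) ∈ A then p ^ s.card * (1 - p) ^ (E.card - s.card) else 0 := by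
  unfold Pr
  rw [Finset.sum_filter]

theorem Pr_insert (E : Finset ι) (e : ι) (he : e ∉ E) (p : ℝ) (A : Set (Set ι)) :
    Pr (insert e E) p A = p * Pr E p {s | insert e s ∈ A} + (1 - p) * Pr E p {s | s \ {e} ∈ A} := by
  rw [Pr_eq, Pr_eq, Pr_eq, Finset.sum_powerset_insert he, Finset.mul_sum, Finset.mul_sum, add_comm]
  congr 1
  · apply Finset.sum_congr rfl
    intro t ht
    have hte : e ∉ t := fun h => he (Finset.mem_powerset.1 ht h)
    rw [Finset.coe_insert, Finset.card_insert_of_notMem hte, Finset.card_insert_of_notMem he,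
      mul_ite, mul_zero, Nat.add_sub_add_right]
    by_cases h : insert e (t : Set ι) ∈ A
    · rw [if_pos h, if_pos (show (t : Set ι) ∈ {s : Set ι | insert e s ∈ A} from h)]
      ring
    · rw [if_neg h, if_neg (show ¬ (t : Set ι) ∈ {s : Set ι | insert e s ∈ A} from h)]
  · apply Finset.sum_congr rfl
    intro t ht
    have hte : e ∉ t := fun h => he (Finset.mem_powerset.1 ht h)
    have hte' : e ∉ (t : Set ι) := fun h => hte (Finset.mem_coe.1 h)
    have hc : t.card ≤ E.card := Finset.card_le_card (Finset.mem_powerset.1 ht)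
    have h1 : E.card + 1 - t.card = E.card - t.card + 1 := by omega
    have h2 : (t : Set ι) \ {e} = (t : Set ι) := Set.sdiff_singleton_eq_self hte'
    rw [Finset.card_insert_of_notMem he, mul_ite, mul_zero, h1]
    by_cases h : (t : Set ι) ∈ A
    · rw [if_pos h, if_pos (show (t : Set ι) ∈ {s : Set ι | s \ {e} ∈ A} from by
        change (t : Set ι) \ {e} ∈ A
        rw [h2]; exact h)]
      ring
    · rw [if_neg h, if_neg (show ¬ (t : Set ι) ∈ {s : Set ι | s \ {e} ∈ A} from by
        change ¬ (t : Set ι) \ {e} ∈ A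
        rw [h2]; exact h)]

theorem Pr_sub (E : Finset ι) (p : ℝ) (A B : Set (Set ι)) (h : A ⊆ B) :
    Pr E p {s | s ∈ B ∧ s ∉ A} = Pr E p B - Pr E p A := by
  rw [Pr_eq, Pr_eq, Pr_eq, ← Finset.sum_sub_distrib]
  apply Finset.sum_congr rfl
  intro t _
  by_cases hB : (t : Set ι) ∈ B
  · by_cases hA : (t : Set ι) ∈ A
    · rw [if_pos hB, if_pos hA, if_neg (fun hc => hc.2 hA), sub_self]
    · rw [if_pos hB, if_neg hA, if_pos ⟨hB, hA⟩, sub_zero]
  · rw [if_neg hB, if_neg (fun hA => hB (h hA)), if_neg (fun hc => hB hc.1), sub_zero]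

/-- the event that `f` is pivotal for `A` -/
def piv (f : ι) (A : Set (Set ι)) : Set (Set ι) := {s | insert f s ∈ A ∧ s \ {f} ∉ A}

theorem piv_one (e f : ι) (hf : f ≠ e) (A : Set (Set ι)) :
    {s : Set ι | insert e s ∈ piv f A} = piv f {s : Set ι | insert e s ∈ A} := by
  ext s
  change (insert f (insert e s) ∈ A ∧ insert e s \ {f} ∉ A) ↔
    (insert e (insert f s) ∈ A ∧ insert e (s \ {f}) ∉ A)
  have h1 : insert f (insert e s) = insert e (insert f s) := Set.insert_comm f e s
  have h2 : insert e s \ {f} = insert e (s \ {f}) := by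
    ext x
    simp only [Set.mem_sdiff, Set.mem_insert_iff, Set.mem_singleton_iff]
    constructor
    · rintro ⟨h | h, h'⟩
      · exact Or.inl h
      · exact Or.inr ⟨h, h'⟩
    · rintro (h | ⟨h, h'⟩)
      · exact ⟨Or.inl h, fun h' => hf (h'.symm.trans h)⟩
      · exact ⟨Or.inr h, h'⟩
  rw [h1, h2]

theorem piv_two (e f : ι) (hf : f ≠ e) (A : Set (Set ι)) :
    {s : Set ι | s \ {e} ∈ piv f A} = piv f {s : Set ι | s \ {e} ∈ A} := by
  ext s
  change (insert f (s \ {e}) ∈ A ∧ (s \ {e}) \ {f} ∉ A) ↔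
    ((insert f s) \ {e} ∈ A ∧ (s \ {f}) \ {e} ∉ A)
  have h1 : insert f (s \ {e}) = (insert f s) \ {e} := by
    ext x
    simp only [Set.mem_sdiff, Set.mem_insert_iff, Set.mem_singleton_iff]
    constructor
    · rintro (h | ⟨h, h'⟩)
      · exact ⟨Or.inl h, fun h' => hf (h.symm.trans h')⟩
      · exact ⟨Or.inr h, h'⟩
    · rintro ⟨h | h, h'⟩
      · exact Or.inl h
      · exact Or.inr ⟨h, h'⟩
  have h2 : (s \ {e}) \ {f} = (s \ {f}) \ {e} := by
    ext x
    simp only [Set.mem_sdiff, Set.mem_singleton_iff]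
    tauto
  rw [h1, h2]

theorem piv_three (e : ι) (A : Set (Set ι)) :
    {s : Set ι | insert e s ∈ piv e A} = {s : Set ι | s ∈ {s : Set ι | insert e s ∈ A} ∧
      s ∉ {s : Set ι | s \ {e} ∈ A}} := by
  ext s
  change (insert e (insert e s) ∈ A ∧ insert e s \ {e} ∉ A) ↔ (insert e s ∈ A ∧ s \ {e} ∉ A)
  have h1 : insert e s \ {e} = s \ {e} := by
    ext x
    simp only [Set.mem_sdiff, Set.mem_insert_iff, Set.mem_singleton_iff]
    tauto
  rw [Set.insert_idem, h1]

theorem piv_four (e : ι) (A : Set (Set ι)) :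
    {s : Set ι | s \ {e} ∈ piv e A} = {s : Set ι | s ∈ {s : Set ι | insert e s ∈ A} ∧
      s ∉ {s : Set ι | s \ {e} ∈ A}} := by
  ext s
  change (insert e (s \ {e}) ∈ A ∧ (s \ {e}) \ {e} ∉ A) ↔ (insert e s ∈ A ∧ s \ {e} ∉ A)
  rw [Set.insert_sdiff_singleton, Set.sdiff_sdiff, Set.union_self]

end IX_PR

theorem pr_PR : StPR.{u} := by
  intro ι E
  induction E using Finset.induction_on with
  | empty =>
    intro A _ q
    rw [Finset.sum_empty]
    have h : (fun q => Pr (∅ : Finset ι) q A) = fun _ => if ((∅ : Finset ι) : Set ι) ∈ A then 1 else 0 := by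
      funext p
      rw [IX_PR.Pr_eq, Finset.powerset_empty, Finset.sum_singleton]
      simp
    rw [h]
    exact hasDerivAt_const q _
  | insert e E he ih =>
    intro A hA q
    have hA1 : ∀ s t : Set ι, s ⊆ t → s ∈ {s : Set ι | insert e s ∈ A} → t ∈ {s : Set ι | insert e s ∈ A} :=
      fun s t hst hs => hA _ _ (Set.insert_subset_insert hst) hs
    have hA0 : ∀ s t : Set ι, s ⊆ t → s ∈ {s : Set ι | s \ {e} ∈ A} → t ∈ {s : Set ι | s \ {e} ∈ A} :=
      fun s t hst hs => hA _ _ (Set.sdiff_subset_sdiff_left hst) hs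
    have d1 := ih {s : Set ι | insert e s ∈ A} hA1 q
    have d0 := ih {s : Set ι | s \ {e} ∈ A} hA0 q
    have h : (fun q => Pr (insert e E) q A) = fun q =>
        q * Pr E q {s : Set ι | insert e s ∈ A} + (1 - q) * Pr E q {s : Set ι | s \ {e} ∈ A} := by
      funext p
      exact IX_PR.Pr_insert E e he p A
    have hd := ((hasDerivAt_id' q).mul d1).add (((hasDerivAt_id' q).const_sub 1).mul d0)
    rw [h]
    have hval : (∑ f ∈ insert e E, Pr (insert e E) q {s | insert f s ∈ A ∧ s \ {f} ∉ A}) =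
        (1 * Pr E q {s : Set ι | insert e s ∈ A} +
          q * ∑ f ∈ E, Pr E q {s | insert f s ∈ {s : Set ι | insert e s ∈ A} ∧
            s \ {f} ∉ {s : Set ι | insert e s ∈ A}}) +
        ((-1) * Pr E q {s : Set ι | s \ {e} ∈ A} +
          (1 - q) * ∑ f ∈ E, Pr E q {s | insert f s ∈ {s : Set ι | s \ {e} ∈ A} ∧
            s \ {f} ∉ {s : Set ι | s \ {e} ∈ A}}) := by
      rw [Finset.sum_insert he]
      have e1 : Pr (insert e E) q {s | insert e s ∈ A ∧ s \ {e} ∉ A} =
          Pr E q {s : Set ι | insert e s ∈ A} - Pr E q {s : Set ι | s \ {e} ∈ A} := by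
        have hsub : {s : Set ι | s \ {e} ∈ A} ⊆ {s : Set ι | insert e s ∈ A} := by
          intro s hs
          exact hA _ _ (Set.sdiff_subset.trans (Set.subset_insert e s)) hs
        have e2 := IX_PR.Pr_insert E e he q (IX_PR.piv e A)
        rw [IX_PR.piv_three, IX_PR.piv_four, IX_PR.Pr_sub E q _ _ hsub] at e2
        change Pr (insert e E) q (IX_PR.piv e A) = _
        rw [e2]
        ring
      have e3 : ∀ f ∈ E, Pr (insert e E) q {s | insert f s ∈ A ∧ s \ {f} ∉ A} =
          q * Pr E q {s | insert f s ∈ {s : Set ι | insert e s ∈ A} ∧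
            s \ {f} ∉ {s : Set ι | insert e s ∈ A}} +
          (1 - q) * Pr E q {s | insert f s ∈ {s : Set ι | s \ {e} ∈ A} ∧
            s \ {f} ∉ {s : Set ι | s \ {e} ∈ A}} := by
        intro f hf
        have hfe : f ≠ e := fun h => he (h ▸ hf)
        have e4 := IX_PR.Pr_insert E e he q (IX_PR.piv f A)
        rw [IX_PR.piv_one e f hfe, IX_PR.piv_two e f hfe] at e4
        exact e4
      rw [e1, Finset.sum_congr rfl e3, Finset.sum_add_distrib, ← Finset.mul_sum, ← Finset.mul_sum]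
      ring
    rw [hval]
    exact hd

end Pool.Agent.Work.MP_c58d8b_pr.SO
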