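import Pool.Agent.Work.MP_c58d8b_pr.SO.Stmts

/-!
# MP_c58d8b_pr, block SO, item U2: no unique infinite cluster if the two point function vanishes
-/

set_option autoImplicit false

namespace Pool.Agent.Work.MP_c58d8b_pr.SO

open MeasureTheory ProbabilityTheory Set
open scoped ENNReal unitInterval Classical

universe u

namespace IX_U2

variable {V : Type u}

/-- The image of a cluster under a permutation of the vertices: one inclusion. -/
theorem cluster_map_mem (γ : Equiv.Perm V) (s : Set (Sym2 V)) (x y : V) (h : y ∈ Cluster s x) :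
    γ y ∈ Cluster (Sym2.map γ '' s) (γ x) := by
  let f : SimpleGraph.fromEdgeSet s →g SimpleGraph.fromEdgeSet (Sym2.map γ '' s) :=
    { toFun := γ
      map_rel' := by
        intro a b hab
        rw [SimpleGraph.fromEdgeSet_adj] at hab ⊢
        exact ⟨⟨s(a, b), hab.1, by simp⟩, fun h => hab.2 (γ.injective h)⟩ }
  exact SimpleGraph.Reachable.map f h

/-- The image of a cluster under a permutation of the vertices. -/
theorem cluster_map (γ : Equiv.Perm V) (s : Set (Sym2 V)) (x : V) :
    Cluster (Sym2.map γ '' s) (γ x) = γ '' Cluster s x := by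
  ext y
  constructor
  · intro h
    have h1 := cluster_map_mem γ.symm _ _ _ h
    have h2 : Sym2.map γ.symm '' (Sym2.map γ '' s) = s := by
      rw [← Set.image_comp]
      have : (Sym2.map γ.symm ∘ Sym2.map γ : Sym2 V → Sym2 V) = id := by
        funext e
        rw [Function.comp_apply, Sym2.map_map]
        simp
      rw [this, Set.image_id]
    rw [h2, Equiv.symm_apply_apply] at h1
    exact ⟨γ.symm y, h1, by simp⟩
  · rintro ⟨z, hz, rfl⟩
    exact cluster_map_mem γ s x z hz

/-- The probability that the cluster of `x` is infinite does not depend on `x`. -/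
theorem theta_const [Countable V] (hI : InvStmt.{u}) (hMS : MeasStmt.{u})
    (Γ : Subgroup (Equiv.Perm V)) (H : SimpleGraph V) (hG : Good Γ H) (p : I) (x y : V) :
    perc H p {s | (Cluster s y).Infinite} = perc H p {s | (Cluster s x).Infinite} := by
  obtain ⟨γ, hγ, rfl⟩ := hG.tr x y
  have h := hI V H p γ (hG.pres γ hγ) {s | (Cluster s (γ x)).Infinite} ((hMS V).2.1 (γ x))
  rw [← h]
  congr 1
  ext s
  simp only [mem_ofPred_eq]
  rw [cluster_map]
  exact Set.infinite_image_iff γ.injective.injOn

/-- A vertex far away from all the vertices of a finite set. -/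
theorem exists_far [Infinite V] (hB : Basics.{u}) (H : SimpleGraph V) (hc : H.Connected)
    (hl : LocFinite H) (D : ℕ) (F : Finset V) : ∃ y : V, ∀ x ∈ F, D ≤ H.dist x y := by
  have hfin : (⋃ x ∈ F, {y | H.dist x y ≤ D}).Finite :=
    F.finite_toSet.biUnion fun x _ => hB.ball_finite V H hc hl x D
  obtain ⟨y, hy⟩ := hfin.infinite_compl.nonempty
  refine ⟨y, fun x hx => ?_⟩
  by_contra hlt
  exact hy (Set.mem_iUnion₂.2 ⟨x, hx, (not_le.1 hlt).le⟩)

end IX_U2

open IX_U2 in
theorem pr_U2 (hB : Basics.{u}) (hI : InvStmt.{u}) (hMS : MeasStmt.{u}) (hCB : StCB.{u}) :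
    StU2.{u} := by
  intro V _ _ Γ H hG p hD hU
  have hprob : IsProbabilityMeasure (perc H p) := by unfold perc; infer_instance
  set μ := perc H p with hμ
  set A : V → Set (Set (Sym2 V)) := fun x => {s | (Cluster s x).Infinite} with hA
  have hAm : ∀ x, MeasurableSet (A x) := (hMS V).2.1
  have hUm : MeasurableSet (UniqueEvent V) := (hMS V).2.2.1
  have hUc : μ (UniqueEvent V)ᶜ = 0 := by
    rw [prob_compl_eq_zero_iff hUm]
    exact hU
  obtain ⟨o⟩ := (inferInstance : Nonempty V)
  have hθ : ∀ x, μ.real (A x) = μ.real (A o) := fun x => by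
    rw [measureReal_def, measureReal_def, theta_const hI hMS Γ H hG p o x]
  set θ : ℝ := μ.real (A o) with hθdef
  have hθ0 : 0 < θ := by
    by_contra hle
    have h0 : ∀ x, μ (A x) = 0 := by
      intro x
      have h1 : μ.real (A x) = 0 := by
        rw [hθ x]
        exact le_antisymm (not_lt.1 hle) measureReal_nonneg
      exact (measureReal_eq_zero_iff (measure_ne_top μ _)).1 h1
    have h2 : μ (UniqueEvent V) = 0 := by
      refine measure_mono_null (t := ⋃ x, A x) ?_ (measure_iUnion_null h0)
      rintro s ⟨C, ⟨hC, x, rfl⟩, -⟩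
      exact Set.mem_iUnion.2 ⟨x, hC⟩
    rw [hU] at h2
    exact one_ne_zero h2
  obtain ⟨N, hN⟩ := exists_nat_gt (2 / θ)
  have hN0 : (0 : ℝ) < N := lt_trans (by positivity) hN
  have hNθ : 2 < N * θ := by
    rw [div_lt_iff₀ hθ0] at hN
    exact hN
  obtain ⟨D, hDD⟩ := hD (θ / (2 * N)) (by positivity)
  -- the probability that two far vertices are in infinite clusters
  have hpair : ∀ x y, D ≤ H.dist x y → μ.real (A y ∩ A x) ≤ θ / (2 * N) := by
    intro x y hxy
    have h1 : A y ∩ A x ⊆ {s | y ∈ Cluster s x} ∪ (UniqueEvent V)ᶜ := by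
      rintro s ⟨hy, hx⟩
      by_cases hs : s ∈ UniqueEvent V
      · left
        obtain ⟨C, -, hC⟩ := hs
        have e1 : Cluster s x = C := hC _ ⟨hx, x, rfl⟩
        have e2 : Cluster s y = C := hC _ ⟨hy, y, rfl⟩
        have e3 : y ∈ Cluster s y := (hCB V s).1 y
        rw [e2, ← e1] at e3
        exact e3
      · right
        exact hs
    have h2 : μ (A y ∩ A x) ≤ ENNReal.ofReal (θ / (2 * N)) := by
      refine (measure_mono h1).trans ((measure_union_le _ _).trans ?_)
      rw [hUc, add_zero]
      exact hDD x y hxy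
    rw [measureReal_def]
    exact ENNReal.toReal_le_of_le_ofReal (by positivity) h2
  -- the union over `n` far vertices
  have key : ∀ n : ℕ, n ≤ N → ∃ F : Finset V, F.card ≤ n ∧
      (n : ℝ) * (θ / 2) ≤ μ.real (⋃ x ∈ F, A x) := by
    intro n
    induction n with
    | zero =>
      intro _
      exact ⟨∅, by simp, by simp⟩
    | succ n ih =>
      intro hn
      obtain ⟨F, hF, hFm⟩ := ih (by omega)
      obtain ⟨y, hy⟩ := exists_far hB H hG.conn hG.lf D F
      refine ⟨insert y F, (Finset.card_insert_le _ _).trans (by omega), ?_⟩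
      have e1 : (⋃ x ∈ insert y F, A x) = A y ∪ ⋃ x ∈ F, A x := by
        rw [Finset.set_biUnion_insert]
      have hBm : MeasurableSet (⋃ x ∈ F, A x) :=
        F.measurableSet_biUnion fun x _ => hAm x
      have e2 := measureReal_union_add_inter (μ := μ) (s := A y) (t := ⋃ x ∈ F, A x) hBm
        (measure_ne_top μ _) (measure_ne_top μ _)
      have e3 : μ.real (A y ∩ ⋃ x ∈ F, A x) ≤ θ / 2 := by
        have e4 : A y ∩ (⋃ x ∈ F, A x) = ⋃ x ∈ F, A y ∩ A x := by
          rw [Set.inter_iUnion₂]
        rw [e4]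
        refine (measureReal_biUnion_finset_le F _).trans ?_
        have e5 : ∑ x ∈ F, μ.real (A y ∩ A x) ≤ ∑ _x ∈ F, θ / (2 * N) :=
          Finset.sum_le_sum fun x hx => hpair x y (hy x hx)
        refine e5.trans ?_
        rw [Finset.sum_const, nsmul_eq_mul]
        have e6 : (F.card : ℝ) ≤ N := by exact_mod_cast hF.trans (by omega)
        calc (F.card : ℝ) * (θ / (2 * N)) ≤ N * (θ / (2 * N)) := by gcongr
          _ = θ / 2 := by field_simp
      rw [e1]
      have e7 := hθ y
      push_cast
      nlinarith [e2, e3, e7, hFm]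
  obtain ⟨F, -, hF⟩ := key N le_rfl
  have hle : μ.real (⋃ x ∈ F, A x) ≤ 1 := measureReal_le_one
  nlinarith

end Pool.Agent.Work.MP_c58d8b_pr.SO
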