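import Pool.Agent.Work.MP_c58d8b_pr.SO.Stmts

/-!
# Item BP of block SO: the lower bound for the function of Duminil-Copin and Tassion
-/

set_option autoImplicit false

namespace Pool.Agent.Work.MP_c58d8b_pr.SO

open MeasureTheory ProbabilityTheory Set
open scoped ENNReal unitInterval Classical

universe u

namespace IX_BP

lemma ei_within {V : Type u} (H : SimpleGraph V) (U : Set V) (S : Finset V) :
    EI (within H U) S = EI H (S.filter (· ∈ U)) := by
  unfold EI
  congr 1
  ext ⟨x, y⟩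
  simp only [Finset.mem_filter, Finset.mem_product]
  constructor
  · rintro ⟨⟨hx, hy⟩, h, hxU, hyU⟩
    exact ⟨⟨⟨hx, hxU⟩, ⟨hy, hyU⟩⟩, h⟩
  · rintro ⟨⟨⟨hx, hxU⟩, ⟨hy, hyU⟩⟩, h⟩
    exact ⟨⟨hx, hy⟩, h, hxU, hyU⟩

end IX_BP

theorem pr_BP (hPB : StPB.{u}) (hCB : StCB.{u}) (hWB : StWB.{u}) (hMI : StMI.{u}) : StBP.{u} := by
  intro V H hLF U o p F f hp0 hp1 hF hoU hf0 hfF hfU hyp S hoS
  have hLF' : LocFinite (within H U) := fun x => (hLF x).subset fun y hy => hy.1
  obtain ⟨hadj, -⟩ := hWB V H hLF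
  obtain ⟨hadj', -⟩ := hWB V (within H U) hLF'
  set S' : Finset V := S.filter (· ∈ U) with hS'
  have hmS' : ∀ x, x ∈ S' ↔ x ∈ S ∧ x ∈ U := fun x => by rw [hS', Finset.mem_filter]
  have hoS' : o ∈ S' := (hmS' o).2 ⟨hoS, hoU⟩
  have hPBE := hPB (Sym2 V) (EI H S') p hp0 hp1
  have hτ : ∀ x, tau (within H U) p S o x = tau H p S' o x := by
    intro x
    unfold tau
    rw [IX_BP.ei_within]
  have hτ0 : ∀ x, 0 ≤ tau H p S' o x := fun x => (hPBE.2.1 _).1
  have hτo : tau H p S' o o = 1 := by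
    unfold tau
    have : {s : Set (Sym2 V) | o ∈ Cluster s o} = Set.univ :=
      Set.eq_univ_of_forall fun s => (hCB V s).1 o
    rw [this]
    exact hPBE.1
  have hφ : p * ∑ x ∈ S', tau H p S' o x * ∑ y ∈ (nb H x).filter (· ∉ S'), f y ≤
      F * phi (within H U) p S o := by
    unfold phi
    rw [mul_left_comm]
    refine mul_le_mul_of_nonneg_left ?_ hp0
    rw [Finset.mul_sum]
    have hle : ∀ x ∈ S', tau H p S' o x * ∑ y ∈ (nb H x).filter (· ∉ S'), f y ≤
        F * ∑ _y ∈ (nb (within H U) x).filter (· ∉ S), tau (within H U) p S o x := by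
      intro x hx
      have hxU : x ∈ U := ((hmS' x).1 hx).2
      have hsub : (nb (within H U) x).filter (· ∉ S) ⊆ (nb H x).filter (· ∉ S') := by
        intro y hy
        rw [Finset.mem_filter] at hy ⊢
        exact ⟨(hadj x y).2 ((hadj' x y).1 hy.1).1, fun h => hy.2 ((hmS' y).1 h).1⟩
      have hsum := Finset.sum_subset (f := f) hsub (by
        intro y hy hy'
        by_contra hne
        have hyU : y ∈ U := by
          by_contra hyU
          exact hne (hfU y hyU)
        rw [Finset.mem_filter] at hy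
        apply hy'
        rw [Finset.mem_filter]
        exact ⟨(hadj' x y).2 ⟨(hadj x y).1 hy.1, hxU, hyU⟩, fun h => hy.2 ((hmS' y).2 ⟨h, hyU⟩)⟩)
      rw [← hsum]
      simp only [hτ]
      rw [Finset.mul_sum, Finset.mul_sum]
      refine Finset.sum_le_sum fun y _ => ?_
      rw [mul_comm F]
      exact mul_le_mul_of_nonneg_left (hfF y) (hτ0 x)
    refine (Finset.sum_le_sum hle).trans ?_
    refine Finset.sum_le_sum_of_subset_of_nonneg (Finset.filter_subset _ _) fun x _ _ => ?_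
    exact mul_nonneg hF.le (Finset.sum_nonneg fun y _ => by rw [hτ]; exact hτ0 x)
  have hsplit : p * ∑ x ∈ S', tau H p S' o x * ∑ y ∈ (nb H x).filter (· ∉ S'), f y =
      ∑ x ∈ S', tau H p S' o x * (p * ∑ y ∈ nb H x, f y) -
        ∑ x ∈ S', ∑ y ∈ (nb H x).filter (· ∈ S'), p * tau H p S' o x * f y := by
    rw [Finset.mul_sum, ← Finset.sum_sub_distrib]
    refine Finset.sum_congr rfl fun x _ => ?_
    rw [← Finset.mul_sum, ← Finset.sum_filter_add_sum_filter_not (nb H x) (· ∈ S') f]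
    ring
  have hyp' : ∑ x ∈ S', tau H p S' o x * (f x + p ^ 2 * (nb H x).card * f x + Rz H p S' f x) ≤
      ∑ x ∈ S', tau H p S' o x * (p * ∑ y ∈ nb H x, f y) :=
    Finset.sum_le_sum fun x hx =>
      mul_le_mul_of_nonneg_left (hyp x ((hmS' x).1 hx).2 S') (hτ0 x)
  have hexp : ∑ x ∈ S', tau H p S' o x * (f x + p ^ 2 * (nb H x).card * f x + Rz H p S' f x) =
      ∑ x ∈ S', tau H p S' o x * f x + p ^ 2 * ∑ x ∈ S', (nb H x).card * tau H p S' o x * f x +
        ∑ x ∈ S', tau H p S' o x * Rz H p S' f x := by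
    rw [Finset.mul_sum, ← Finset.sum_add_distrib, ← Finset.sum_add_distrib]
    refine Finset.sum_congr rfl fun x _ => ?_
    ring
  have hmi := hMI V H hLF S' o p hp0 hp1 f hf0
  have herase : ∑ x ∈ S', tau H p S' o x * f x =
      ∑ x ∈ S'.erase o, tau H p S' o x * f x + f o := by
    rw [← Finset.sum_erase_add S' _ hoS', hτo, one_mul]
  rw [div_le_iff₀ hF, mul_comm]
  linarith

end Pool.Agent.Work.MP_c58d8b_pr.SO
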