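import Pool.Agent.Work.MP_c58d8b_pr.SO.Stmts

/-!
# MP_c58d8b_pr, block SO, item CC (helper41): open cycles
-/

set_option autoImplicit false

namespace Pool.Agent.Work.MP_c58d8b_pr.SO

open MeasureTheory ProbabilityTheory Set
open scoped ENNReal unitInterval Classical

universe u

namespace IX_CC

theorem mem_EI {V : Type u} {H : SimpleGraph V} {S : Finset V} {a b : V}
    (h : s(a, b) ∈ EI H S) : a ∈ S ∧ b ∈ S ∧ H.Adj a b := by
  unfold EI at h
  obtain ⟨q, hq, hqe⟩ := Finset.mem_image.1 h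
  obtain ⟨hq1, hq2⟩ := Finset.mem_filter.1 hq
  obtain ⟨h1, h2⟩ := Finset.mem_product.1 hq1
  rcases Sym2.eq_iff.1 hqe with ⟨h3, h4⟩ | ⟨h3, h4⟩
  · rw [← h3, ← h4]; exact ⟨h1, h2, hq2⟩
  · rw [← h3, ← h4]; exact ⟨h2, h1, hq2.symm⟩

end IX_CC

open IX_CC in
theorem pr_CC (hCB : StCB.{u}) : StCC.{u} := by
  intro V H _ S o s hs y hy x hx hxy hxys hyo hxC
  have hr : (SimpleGraph.fromEdgeSet (s \ {s(x, y)})).Reachable x y := by
    have h : (SimpleGraph.fromEdgeSet (s \ {s(x, y)})).Reachable y x := hxC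
    exact h.symm
  obtain ⟨p, hp⟩ := hr.exists_isPath
  set m := p.length with hm
  have hadj : ∀ j, j < m → s(p.getVert j, p.getVert (j + 1)) ∈ s \ {s(x, y)} := by
    intro j hj
    exact ((SimpleGraph.fromEdgeSet_adj _).1 (p.adj_getVert_succ hj)).1
  have h0 : p.getVert 0 = x := p.getVert_zero
  have hl : p.getVert m = y := p.getVert_length
  have hinj : Set.InjOn p.getVert {i | i ≤ m} := hp.getVert_injOn
  have hm0 : m ≠ 0 := by
    intro h
    rw [h, h0] at hl
    exact hxy hl
  have hm1 : m ≠ 1 := by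
    intro h
    have h1 := hadj 0 (by omega)
    rw [h] at hl
    rw [h0, zero_add, hl] at h1
    exact h1.2 rfl
  have hS : ∀ j, j ≤ m → p.getVert j ∈ S := by
    intro j hj
    rcases Nat.eq_zero_or_pos j with h | h
    · rw [h, h0]; exact hx
    · obtain ⟨i, rfl⟩ : ∃ i, j = i + 1 := ⟨j - 1, by omega⟩
      exact (mem_EI (hs (hadj i (by omega)).1)).2.1
  let v : Fin (m + 1 + 1) → V := Fin.cons y fun j : Fin (m + 1) => p.getVert j
  have hv0 : v 0 = y := rfl
  have hvs : ∀ j : Fin (m + 1), v j.succ = p.getVert j := fun j => rfl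
  have hvl : v (Fin.last (m + 1)) = y := by
    rw [← Fin.succ_last, hvs]
    exact hl
  have hv1 : ∀ h : 1 < m + 1 + 1, v ⟨1, h⟩ = x := by
    intro h
    exact (hvs 0).trans h0
  have he0 : s(v (0 : Fin (m + 1)).castSucc, v (0 : Fin (m + 1)).succ) = s(x, y) := by
    have h1 : v (0 : Fin (m + 1)).castSucc = y := rfl
    rw [h1, hvs]
    have h2 : p.getVert ((0 : Fin (m + 1)) : ℕ) = x := h0
    rw [h2]
    exact Sym2.eq_swap
  have hes : ∀ (j : ℕ) (hj : j < m), s(v (⟨j + 1, by omega⟩ : Fin (m + 1)).castSucc,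
      v (⟨j + 1, by omega⟩ : Fin (m + 1)).succ) = s(p.getVert j, p.getVert (j + 1)) := by
    intro j hj
    have h1 : v (⟨j + 1, by omega⟩ : Fin (m + 1)).castSucc = p.getVert j := rfl
    have h2 : v (⟨j + 1, by omega⟩ : Fin (m + 1)).succ = p.getVert (j + 1) := rfl
    rw [h1, h2]
  have hcase : ∀ i : Fin (m + 1), i = 0 ∨ ∃ (j : ℕ) (hj : j < m), i = ⟨j + 1, by omega⟩ := by
    intro i
    rcases Nat.eq_zero_or_pos i.1 with h | h
    · left; exact Fin.ext h
    · right
      refine ⟨i.1 - 1, by omega, Fin.ext ?_⟩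
      show i.1 = i.1 - 1 + 1
      omega
  have hedge : ∀ i : Fin (m + 1), s(v i.castSucc, v i.succ) ∈ s := by
    intro i
    rcases hcase i with rfl | ⟨j, hj, rfl⟩
    · rw [he0]; exact hxys
    · rw [hes j hj]; exact (hadj j hj).1
  have hsub : (edgs v : Set (Sym2 V)) ⊆ s := by
    intro e he
    obtain ⟨i, -, rfl⟩ := Finset.mem_image.1 (Finset.mem_coe.1 he)
    exact hedge i
  have hcard : (edgs v).card = m + 1 := by
    unfold edgs
    rw [Finset.card_image_of_injective, Finset.card_univ, Fintype.card_fin]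
    intro i k hik
    dsimp only at hik
    rcases hcase i with rfl | ⟨j, hj, rfl⟩ <;> rcases hcase k with rfl | ⟨l, hl', rfl⟩
    · rfl
    · exfalso
      rw [he0, hes l hl'] at hik
      exact (hadj l hl').2 hik.symm
    · exfalso
      rw [he0, hes j hj] at hik
      exact (hadj j hj).2 hik
    · rw [hes j hj, hes l hl'] at hik
      have hjm : j ≤ m := by omega
      have hlm : l ≤ m := by omega
      have hjm1 : j + 1 ≤ m := by omega
      have hlm1 : l + 1 ≤ m := by omega
      rcases Sym2.eq_iff.1 hik with ⟨h3, -⟩ | ⟨h3, h4⟩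
      · have := hinj hjm hlm h3
        subst this
        rfl
      · exfalso
        have e1 := hinj hjm hlm1 h3
        have e2 := hinj hjm1 hlm h4
        omega
  refine ⟨m + 1, Finset.mem_Icc.2 ⟨by omega, ?_⟩, v, ?_, hv1, hcard, hsub, ?_⟩
  · have h := Finset.card_le_card_of_injOn (s := Finset.range (m + 1)) (t := S) p.getVert
      (fun j hj => hS j (by have := Finset.mem_range.1 (Finset.mem_coe.1 hj); omega))
      (fun j hj k hk h => hinj
        (show j ≤ m by have := Finset.mem_range.1 (Finset.mem_coe.1 hj); omega)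
        (show k ≤ m by have := Finset.mem_range.1 (Finset.mem_coe.1 hk); omega) h)
    rwa [Finset.card_range] at h
  · unfold CW
    refine Finset.mem_filter.2 ⟨Fintype.mem_piFinset.2 fun i => ?_, hv0, hvl, fun i => ?_⟩
    · refine Fin.cases ?_ (fun j => ?_) i
      · rw [hv0]; exact hy
      · rw [hvs]; exact hS j (by omega)
    · exact (mem_EI (hs (hedge i))).2.2
  · by_contra hno
    push Not at hno
    obtain ⟨b1, -, b3, -, b5, b6⟩ := hCB V (s \ (edgs v : Set (Sym2 V)))
    have hnone : ∀ i : Fin (m + 1 + 1), v i ∉ Cluster (s \ (edgs v : Set (Sym2 V))) o := by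
      intro i
      by_cases hi : i = 0
      · rw [hi, hv0, ← hvl]
        exact hno _ (Fin.last_pos).ne'
      · exact hno i hi
    have hcl : Cluster s o ⊆ Cluster (s \ (edgs v : Set (Sym2 V))) o := by
      refine (hCB V s).2.2.2.2.2 _ o (b1 o) ?_
      intro a ha b hab
      by_cases h : s(a, b) ∈ (edgs v : Set (Sym2 V))
      · exfalso
        obtain ⟨i, -, hi⟩ := Finset.mem_image.1 (Finset.mem_coe.1 h)
        rcases Sym2.eq_iff.1 hi with ⟨h3, -⟩ | ⟨-, h3⟩
        · exact hnone i.castSucc (h3 ▸ ha)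
        · exact hnone i.succ (h3 ▸ ha)
      · exact b3 o a b ha (b5 a b ⟨hab, h⟩)
    have := hnone (Fin.last (m + 1))
    rw [hvl] at this
    exact this (hcl hyo)

end Pool.Agent.Work.MP_c58d8b_pr.SO
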