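import Pool.Agent.Work.MP_c58d8b_pr.SO.Stmts

/-!
# MP_c58d8b_pr, block SO, item CG: at most one good neighbour
-/

set_option autoImplicit false

namespace Pool.Agent.Work.MP_c58d8b_pr.SO

open MeasureTheory ProbabilityTheory Set
open scoped ENNReal unitInterval Classical

universe u

theorem pr_CG (hCB : StCB.{u}) : StCG.{u} := by
  intro V s o y x₁ x₂ h12 h1 h2 he1 he2 ho1 ho2
  by_contra hcon
  rw [not_or] at hcon
  obtain ⟨hn1, hn2⟩ := hcon
  have hne : s(x₂, y) ≠ s(x₁, y) := by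
    intro h
    rw [Sym2.eq_iff] at h
    rcases h with h | h
    · exact h12 h.1.symm
    · exact h2 h.1
  obtain ⟨refl1, symm1, trans1, mono1, adj1, inv1⟩ := hCB V (s \ {s(x₁, y)})
  obtain ⟨refl2, symm2, trans2, mono2, adj2, inv2⟩ := hCB V (s \ {s(x₂, y)})
  obtain ⟨refl3, symm3, trans3, mono3, adj3, inv3⟩ := hCB V ((s \ {s(x₂, y)}) \ {s(x₁, y)})
  have hsub1 : (s \ {s(x₂, y)}) \ {s(x₁, y)} ⊆ s \ {s(x₁, y)} := by
    intro e he
    exact ⟨he.1.1, he.2⟩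
  have hsub2 : (s \ {s(x₂, y)}) \ {s(x₁, y)} ⊆ s \ {s(x₂, y)} := fun e he => he.1
  -- the edge `x₂ y` is open without `x₁ y`
  have hxy : y ∈ Cluster (s \ {s(x₁, y)}) x₂ := adj1 x₂ y ⟨he2, hne⟩
  -- `y` and `x₂` are not connected to `o` without `x₁ y`
  have hy : y ∉ Cluster (s \ {s(x₁, y)}) o := by
    intro h
    exact hn1 (trans1 y o x₁ (symm1 o y h) ho1)
  have hx2 : x₂ ∉ Cluster (s \ {s(x₁, y)}) o := by
    intro h
    exact hy (trans1 o x₂ y h hxy)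
  -- the cluster of `x₂` without both edges
  have ha : o ∉ Cluster ((s \ {s(x₂, y)}) \ {s(x₁, y)}) x₂ := by
    intro h
    exact hx2 (mono3 _ hsub1 o (symm3 x₂ o h))
  have hb : y ∉ Cluster ((s \ {s(x₂, y)}) \ {s(x₁, y)}) x₂ := by
    intro h
    exact hn2 (mono3 _ hsub2 y (symm3 x₂ y h))
  have hc : x₁ ∉ Cluster ((s \ {s(x₂, y)}) \ {s(x₁, y)}) x₂ := by
    intro h
    have h3 : x₁ ∈ Cluster (s \ {s(x₁, y)}) x₂ := mono3 _ hsub1 x₂ h
    exact hn1 (trans1 y x₂ x₁ (symm1 x₂ y hxy) h3)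
  have hcl : Cluster (s \ {s(x₂, y)}) x₂ ⊆ Cluster ((s \ {s(x₂, y)}) \ {s(x₁, y)}) x₂ := by
    refine inv2 _ x₂ (refl3 x₂) ?_
    intro a ha' b hab
    by_cases hE : s(a, b) = s(x₁, y)
    · rw [Sym2.eq_iff] at hE
      rcases hE with h | h
      · rw [h.1] at ha'
        exact absurd ha' hc
      · rw [h.1] at ha'
        exact absurd ha' hb
    · exact trans3 x₂ a b ha' (adj3 a b ⟨hab, hE⟩)
  exact ha (hcl (symm2 o x₂ ho2))

end Pool.Agent.Work.MP_c58d8b_pr.SO
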