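import Pool.Agent.Work.MP_c58d8b_pr.SO.Stmts

/-!
# MP_c58d8b_pr, block SO, item CN: counting
-/

set_option autoImplicit false

namespace Pool.Agent.Work.MP_c58d8b_pr.SO

open MeasureTheory ProbabilityTheory Set
open scoped ENNReal unitInterval Classical

universe u

namespace IX_CN

variable {V : Type u}

theorem ne_of_mem_nb {H : SimpleGraph V} {x y : V} (h : x ∈ nb H y) : x ≠ y := by
  unfold nb at h
  split_ifs at h with hf
  · rw [Set.Finite.mem_toFinset, SimpleGraph.mem_neighborSet] at h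
    exact h.ne'
  · exact absurd h (Finset.notMem_empty x)

theorem key (hCB : StCB.{u}) (hCG : StCG.{u}) (H : SimpleGraph V) (S : Finset V) (o y : V)
    (s : Set (Sym2 V)) :
    (((nb H y).filter (· ∈ S)).filter fun x =>
      s(x, y) ∈ s ∧ x ∈ Cluster (s \ {s(x, y)}) o).card ≤
    (if y ≠ o ∧ y ∈ Cluster s o then 1 else 0) + (((nb H y).filter (· ∈ S)).filter fun x =>
      y ∈ Cluster s o ∧ s(x, y) ∈ s ∧ x ∈ Cluster (s \ {s(x, y)}) y).card := by
  set F := (nb H y).filter (· ∈ S) with hF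
  set N := F.filter fun x => s(x, y) ∈ s ∧ x ∈ Cluster (s \ {s(x, y)}) o with hN
  set M := F.filter fun x => y ∈ Cluster s o ∧ s(x, y) ∈ s ∧ x ∈ Cluster (s \ {s(x, y)}) y
    with hM
  obtain ⟨h1, h2, h3, h4, h5, -⟩ := hCB V s
  by_cases hy : y = o
  · have hsub : N ⊆ M := by
      intro x hx
      rw [hN, Finset.mem_filter] at hx
      rw [hM, Finset.mem_filter]
      refine ⟨hx.1, ?_, hx.2.1, ?_⟩
      · rw [hy]; exact h1 o
      · rw [hy] at hx ⊢; exact hx.2.2
    exact (Finset.card_le_card hsub).trans (Nat.le_add_left _ _)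
  · rcases N.eq_empty_or_nonempty with h0 | ⟨x0, hx0⟩
    · rw [h0, Finset.card_empty]; exact Nat.zero_le _
    · have hyC : y ∈ Cluster s o := by
        rw [hN, Finset.mem_filter] at hx0
        have h6 : x0 ∈ Cluster s o :=
          (hCB V (s \ {s(x0, y)})).2.2.2.1 s Set.diff_subset o hx0.2.2
        exact h3 o x0 y h6 (h5 x0 y hx0.2.1)
      rw [if_pos ⟨hy, hyC⟩]
      have h7 : (N \ M).card ≤ 1 := by
        rw [Finset.card_le_one]
        intro a ha b hb
        by_contra hab
        rw [Finset.mem_sdiff] at ha hb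
        have ha1 := (Finset.mem_filter.1 ha.1)
        have hb1 := (Finset.mem_filter.1 hb.1)
        have hay : a ≠ y := ne_of_mem_nb (Finset.mem_filter.1 ha1.1).1
        have hby : b ≠ y := ne_of_mem_nb (Finset.mem_filter.1 hb1.1).1
        rcases hCG V s o y a b hab hay hby ha1.2.1 hb1.2.1 ha1.2.2 hb1.2.2 with h8 | h8
        · exact ha.2 (Finset.mem_filter.2 ⟨ha1.1, hyC, ha1.2.1, h8⟩)
        · exact hb.2 (Finset.mem_filter.2 ⟨hb1.1, hyC, hb1.2.1, h8⟩)
      calc N.card ≤ ((N \ M) ∪ M).card := by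
            apply Finset.card_le_card
            intro x hx
            by_cases hxM : x ∈ M
            · exact Finset.mem_union_right _ hxM
            · exact Finset.mem_union_left _ (Finset.mem_sdiff.2 ⟨hx, hxM⟩)
        _ ≤ (N \ M).card + M.card := Finset.card_union_le _ _
        _ ≤ 1 + M.card := Nat.add_le_add_right h7 _

end IX_CN

open IX_CN

theorem pr_CN (hCB : StCB.{u}) (hCG : StCG.{u}) : StCN.{u} := by
  intro V H _ S o f hf s
  have h0 : ∑ y ∈ S.erase o, (if y ∈ Cluster s o then f y else 0) =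
      ∑ y ∈ S, (if y ≠ o ∧ y ∈ Cluster s o then f y else 0) := by
    rw [← Finset.filter_ne', Finset.sum_filter]
    refine Finset.sum_congr rfl fun y _ => ?_
    by_cases h1 : y ≠ o
    · rw [if_pos h1]
      by_cases h2 : y ∈ Cluster s o
      · rw [if_pos h2, if_pos ⟨h1, h2⟩]
      · rw [if_neg h2, if_neg fun h => h2 h.2]
    · rw [if_neg h1, if_neg fun h => h1 h.1]
  rw [h0, ← Finset.sum_add_distrib]
  refine Finset.sum_le_sum fun y _ => ?_
  rw [← Finset.sum_filter, ← Finset.sum_filter, Finset.sum_const, Finset.sum_const,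
    nsmul_eq_mul, nsmul_eq_mul]
  have h1 := key hCB hCG H S o y s
  have h2 : (if y ≠ o ∧ y ∈ Cluster s o then f y else 0) =
      (((if y ≠ o ∧ y ∈ Cluster s o then 1 else 0 : ℕ)) : ℝ) * f y := by
    split_ifs <;> simp
  rw [h2, ← add_mul]
  refine mul_le_mul_of_nonneg_right ?_ (hf y)
  exact_mod_cast h1

end Pool.Agent.Work.MP_c58d8b_pr.SO
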