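import Pool.Agent.Work.MP_c58d8b_pr.SO.Stmts

/-!
# MP_c58d8b_pr, block SO, item CR
-/

set_option autoImplicit false

namespace Pool.Agent.Work.MP_c58d8b_pr.SO

open MeasureTheory ProbabilityTheory Set
open scoped ENNReal unitInterval Classical

universe u

theorem pr_CR (hCB : StCB.{u}) : StCR.{u} := by
  intro V s o x y hx hx'
  have he : s(x, y) ∈ s := by
    by_contra hne
    apply hx'
    rwa [Set.sdiff_singleton_eq_self hne]
  refine ⟨he, ?_⟩
  by_contra hy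
  obtain ⟨hr, -, ht, -, hE, -⟩ := hCB V (s \ {s(x, y)})
  obtain ⟨-, -, -, -, -, hcl⟩ := hCB V s
  apply hx'
  apply hcl (Cluster (s \ {s(x, y)}) o) o (hr o) _ hx
  intro a ha b hab
  have hne : s(a, b) ≠ s(x, y) := by
    intro h
    rw [Sym2.eq_iff] at h
    rcases h with ⟨h1, -⟩ | ⟨h1, -⟩
    · exact hx' (h1 ▸ ha)
    · exact hy (h1 ▸ ha)
  exact ht o a b ha (hE a b ⟨hab, hne⟩)

end Pool.Agent.Work.MP_c58d8b_pr.SO
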