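import Pool.Agent.Work.MP_c58d8b_pr.SO.Stmts

/-!
# MP_c58d8b_pr, block SO, item [D5]: infinite volume
-/

set_option autoImplicit false

namespace Pool.Agent.Work.MP_c58d8b_pr.SO

open MeasureTheory ProbabilityTheory Set
open scoped ENNReal unitInterval Classical

universe u

namespace IX_D5

/-- The edges which touch a finite set are edges of the graph. -/
lemma et_subset (hWB : StWB.{u}) {V : Type u} (H : SimpleGraph V) (hH : LocFinite H) (L : Finset V) :
    (ET H L : Set (Sym2 V)) ⊆ H.edgeSet := by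
  intro e he
  rw [Finset.mem_coe, ET, Finset.mem_biUnion] at he
  obtain ⟨x, _, hx⟩ := he
  rw [Finset.mem_image] at hx
  obtain ⟨y, hy, rfl⟩ := hx
  rw [SimpleGraph.mem_edgeSet]
  exact ((hWB V H hH).1 x y).1 hy

/-- Whether the cluster of a vertex of `L` leaves `L` depends only on the edges touching `L`. -/
lemma out_iff (hCB : StCB.{u}) (hWB : StWB.{u}) {V : Type u} (H : SimpleGraph V)
    (hH : LocFinite H) (L : Finset V) (o : V) (s : Set (Sym2 V))
    (hs : s ⊆ H.edgeSet) :
    s ∩ (ET H L : Set (Sym2 V)) ∈ Out L o ↔ s ∈ Out L o := by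
  constructor
  · rintro ⟨y, hy, hyL⟩
    exact ⟨y, (hCB V _).2.2.2.1 s Set.inter_subset_left o hy, hyL⟩
  · intro h
    by_contra hcon
    obtain ⟨y, hy, hyL⟩ := h
    have hin : ∀ z ∈ Cluster (s ∩ (ET H L : Set (Sym2 V))) o, z ∈ L := by
      intro z hz
      by_contra hzL
      exact hcon ⟨z, hz, hzL⟩
    have hsub : Cluster s o ⊆ Cluster (s ∩ (ET H L : Set (Sym2 V))) o := by
      refine (hCB V s).2.2.2.2.2 _ o ((hCB V _).1 o) ?_
      intro a ha b hab
      have haL : a ∈ L := hin a ha
      have hadj : H.Adj a b := hs hab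
      have het : s(a, b) ∈ (ET H L : Set (Sym2 V)) := by
        rw [Finset.mem_coe, ET, Finset.mem_biUnion]
        refine ⟨a, haL, ?_⟩
        rw [Finset.mem_image]
        exact ⟨b, ((hWB V H hH).1 a b).2 hadj, rfl⟩
      exact (hCB V _).2.2.1 o a b ha ((hCB V _).2.2.2.2.1 a b ⟨hab, het⟩)
    exact hyL (hin y (hsub hy))

/-- The events are measurable. -/
lemma out_meas (hMS : MeasStmt.{u}) {V : Type u} [Countable V] (L : Finset V) (o : V) :
    MeasurableSet (Out L o) := by
  have h : Out L o = ⋃ y : V, ⋃ _ : y ∉ L, {s : Set (Sym2 V) | y ∈ Cluster s o} := by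
    ext s
    simp only [Out, Set.mem_ofPred_eq, Set.mem_iUnion]
    constructor
    · rintro ⟨y, hy, hyL⟩
      exact ⟨y, hyL, hy⟩
    · rintro ⟨y, hyL, hy⟩
      exact ⟨y, hy, hyL⟩
  rw [h]
  refine MeasurableSet.iUnion fun y => MeasurableSet.iUnion fun _ => ?_
  exact (hMS V).1 o y

/-- The events are monotone. -/
lemma out_anti {V : Type u} {L L' : Finset V} (o : V) (h : L ⊆ L') : Out L' o ⊆ Out L o := by
  rintro s ⟨y, hy, hyL⟩
  exact ⟨y, hy, fun hh => hyL (h hh)⟩

end IX_D5

open IX_D5 in
theorem pr_D5 (hMS : MeasStmt.{u}) (hPM : StPM.{u}) (hCB : StCB.{u}) (hWB : StWB.{u})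
    (hD4 : StD4.{u}) : StD5.{u} := by
  intro V _ H hH o p p' c hp hpp hc hphi
  have hmeas : ∀ L : Finset V, o ∈ L →
      ENNReal.ofReal (1 - Real.exp (-(c * (p' - p)))) ≤ perc H p' (Out L o) := by
    intro L ho
    have h1 : perc H p' (Out L o) = perc H p' {s | s ∩ (ET H L : Set (Sym2 V)) ∈ Out L o} := by
      refine measure_congr ?_
      have hae : ∀ᵐ s ∂(perc H p'), s ⊆ H.edgeSet := by
        unfold perc
        exact setBernoulli_ae_subset
      filter_upwards [hae] with s hs
      exact propext (out_iff hCB hWB H hH L o s hs).symm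
    rw [h1]
    have h2 : perc H p' {s | s ∩ (ET H L : Set (Sym2 V)) ∈ Out L o} =
        ENNReal.ofReal (Pr (ET H L) p' (Out L o)) := by
      unfold perc
      exact hPM (Sym2 V) H.edgeSet p' (ET H L) (et_subset hWB H hH L) (Out L o)
    rw [h2]
    exact ENNReal.ofReal_le_ofReal (hD4 V H hH L o p p' c ho hp hpp p'.2.2 hc hphi)
  have hprob : IsProbabilityMeasure (perc H p') := by
    unfold perc
    infer_instance
  have hdir : Directed (· ⊇ ·) (fun L : Finset V => Out (insert o L) o) := by
    intro L L'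
    refine ⟨L ∪ L', ?_, ?_⟩
    · exact out_anti o (Finset.insert_subset_insert o Finset.subset_union_left)
    · exact out_anti o (Finset.insert_subset_insert o Finset.subset_union_right)
  have hlim : perc H p' (⋂ L : Finset V, Out (insert o L) o) =
      ⨅ L : Finset V, perc H p' (Out (insert o L) o) := by
    refine hdir.measure_iInter (fun L => (out_meas hMS (insert o L) o).nullMeasurableSet) ?_
    exact ⟨∅, measure_ne_top _ _⟩
  have hsub : (⋂ L : Finset V, Out (insert o L) o) ⊆
      {s : Set (Sym2 V) | (Cluster s o).Infinite} := by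
    intro s hs hfin
    rw [Set.mem_iInter] at hs
    obtain ⟨y, hy, hyL⟩ := hs hfin.toFinset
    exact hyL (Finset.mem_insert_of_mem (hfin.mem_toFinset.2 hy))
  refine le_trans ?_ (measure_mono hsub)
  rw [hlim]
  exact le_iInf fun L => hmeas (insert o L) (Finset.mem_insert_self o L)

end Pool.Agent.Work.MP_c58d8b_pr.SO
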