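import Pool.Agent.Work.MP_c58d8b_pr.SO.Stmts

/-! Item [c58d8b SO GA] (helper51): the gain of the test function. -/

set_option autoImplicit false

namespace Pool.Agent.Work.MP_c58d8b_pr.SO

open MeasureTheory ProbabilityTheory Set
open scoped ENNReal unitInterval Classical

universe u

namespace IX_GA

theorem pt (L s v : ℝ) (hL : 0 < L) (hs : 0 ≤ s) (hsL : s ≤ L) :
    L * ((|v| + v) / 2) ≤ L ^ 2 - s ^ 2 + max ((s + v) ^ 2 - L ^ 2) 0 := by
  have h0 : 0 ≤ L ^ 2 - s ^ 2 := by nlinarith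
  have hm0 := le_max_right ((s + v) ^ 2 - L ^ 2) 0
  have hm1 := le_max_left ((s + v) ^ 2 - L ^ 2) 0
  rcases le_total 0 v with hv | hv
  · rw [abs_of_nonneg hv]
    rcases le_total (L - s) v with h | h
    · nlinarith [mul_nonneg hv (by linarith : 0 ≤ 2 * s + v - L)]
    · nlinarith [mul_nonneg hs (by linarith : 0 ≤ L - s)]
  · rw [abs_of_nonpos hv]
    have : L * ((-v + v) / 2) = 0 := by ring
    rw [this]
    linarith

theorem key {J : Type u} (F : Finset J) (q v : J → ℝ) (L s : ℝ) (hq : ∀ j ∈ F, 0 ≤ q j)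
    (h1 : ∑ j ∈ F, q j = 1) (h0 : ∑ j ∈ F, q j * v j = 0) (hL : 0 < L) (hs : 0 ≤ s) (hsL : s ≤ L) :
    L * (∑ j ∈ F, q j * |v j|) / 2 ≤ L ^ 2 - s ^ 2 + ∑ j ∈ F, q j * max ((s + v j) ^ 2 - L ^ 2) 0 := by
  have h := Finset.sum_le_sum fun j (hj : j ∈ F) =>
    mul_le_mul_of_nonneg_left (pt L s (v j) hL hs hsL) (hq j hj)
  have e1 : ∑ j ∈ F, q j * (L * ((|v j| + v j) / 2)) = L * (∑ j ∈ F, q j * |v j|) / 2 := by
    have : ∀ j, q j * (L * ((|v j| + v j) / 2)) = L / 2 * (q j * |v j|) + L / 2 * (q j * v j) := fun j => by ring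
    rw [Finset.sum_congr rfl fun j _ => this j, Finset.sum_add_distrib, ← Finset.mul_sum, ← Finset.mul_sum, h0]
    ring
  have e2 : ∑ j ∈ F, q j * (L ^ 2 - s ^ 2 + max ((s + v j) ^ 2 - L ^ 2) 0) =
      L ^ 2 - s ^ 2 + ∑ j ∈ F, q j * max ((s + v j) ^ 2 - L ^ 2) 0 := by
    have : ∀ j, q j * (L ^ 2 - s ^ 2 + max ((s + v j) ^ 2 - L ^ 2) 0) =
        q j * (L ^ 2 - s ^ 2) + q j * max ((s + v j) ^ 2 - L ^ 2) 0 := fun j => by ring
    rw [Finset.sum_congr rfl fun j _ => this j, Finset.sum_add_distrib, ← Finset.sum_mul, h1, one_mul]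
  rw [e1, e2] at h
  exact h

theorem key' {J : Type u} (F : Finset J) (q v : J → ℝ) (L s : ℝ) (hq : ∀ j ∈ F, 0 ≤ q j)
    (h1 : ∑ j ∈ F, q j = 1) (h0 : ∑ j ∈ F, q j * v j = 0) (hL : 0 < L) (hsL : |s| ≤ L) :
    L * (∑ j ∈ F, q j * |v j|) / 2 ≤ L ^ 2 - s ^ 2 + ∑ j ∈ F, q j * max ((s + v j) ^ 2 - L ^ 2) 0 := by
  rcases le_total 0 s with hs | hs
  · exact key F q v L s hq h1 h0 hL hs ((le_abs_self s).trans hsL)
  · have h0' : ∑ j ∈ F, q j * (-v j) = 0 := by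
      rw [← neg_eq_zero, ← Finset.sum_neg_distrib, ← h0]
      exact Finset.sum_congr rfl fun j _ => by ring
    have h := key F q (fun j => -v j) L (-s) hq h1 h0' hL (by linarith) ((neg_le_abs s).trans hsL)
    have e1 : ∀ j, |(-v j)| = |v j| := fun j => abs_neg _
    have e2 : ∀ j, (-s + -v j) ^ 2 = (s + v j) ^ 2 := fun j => by ring
    simp only [e1, e2, neg_sq] at h
    exact h

end IX_GA

theorem pr_GA : StGA.{u} := by
  intro J F q v a L s lam mu hq h1 h0 hva hL hs hmu hlam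
  have hk := IX_GA.key' F q v L s hq h1 h0 hL hs
  set m := ∑ j ∈ F, q j * |v j| with hm
  set X := ∑ j ∈ F, q j * max ((s + v j) ^ 2 - L ^ 2) 0 with hX
  have hX0 : 0 ≤ X := Finset.sum_nonneg fun j hj => mul_nonneg (hq j hj) (le_max_right _ _)
  have hv2 : ∑ j ∈ F, q j * v j ^ 2 ≤ a * m := by
    rw [hm, Finset.mul_sum]
    apply Finset.sum_le_sum
    intro j hj
    have h3 := hva j hj
    have h4 : v j ^ 2 = |v j| * |v j| := by rw [← sq, sq_abs]
    have h5 : |v j| * |v j| ≤ a * |v j| := mul_le_mul_of_nonneg_right h3 (abs_nonneg _)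
    have h6 := mul_le_mul_of_nonneg_left h5 (hq j hj)
    rw [h4]
    linarith
  have e : ∑ j ∈ F, q j * max (L ^ 2 - (s + v j) ^ 2) 0 = L ^ 2 - s ^ 2 - ∑ j ∈ F, q j * v j ^ 2 + X := by
    have hpt : ∀ j, q j * max (L ^ 2 - (s + v j) ^ 2) 0 =
        q j * (L ^ 2 - s ^ 2) - 2 * s * (q j * v j) - q j * v j ^ 2 + q j * max ((s + v j) ^ 2 - L ^ 2) 0 := by
      intro j
      rcases le_total (L ^ 2) ((s + v j) ^ 2) with h | h
      · rw [max_eq_right (by linarith), max_eq_left (by linarith)]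
        ring
      · rw [max_eq_left (by linarith), max_eq_right (by linarith)]
        ring
    rw [Finset.sum_congr rfl fun j _ => hpt j, Finset.sum_add_distrib, Finset.sum_sub_distrib,
      Finset.sum_sub_distrib, ← Finset.sum_mul, ← Finset.mul_sum, h1, h0]
    ring
  rw [e]
  have hlam0 : 0 ≤ lam := hmu.trans hlam
  have t1 : lam * ∑ j ∈ F, q j * v j ^ 2 ≤ lam * (a * m) := mul_le_mul_of_nonneg_left hv2 hlam0
  have t2 : mu * X ≤ lam * X := mul_le_mul_of_nonneg_right hlam hX0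
  have t3 : mu * (L * m / 2) ≤ mu * (L ^ 2 - s ^ 2 + X) := mul_le_mul_of_nonneg_left hk hmu
  linarith

end Pool.Agent.Work.MP_c58d8b_pr.SO
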