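import Pool.Agent.Work.MP_c58d8b_pr.SO.Stmts

/-!
# Item GC of block SO: constants
-/

set_option autoImplicit false

namespace Pool.Agent.Work.MP_c58d8b_pr.SO

open MeasureTheory ProbabilityTheory Set
open scoped ENNReal unitInterval Classical

universe u

theorem pr_GC : StGC := by
  intro x b hx0 hx1 hb
  have hs : Summable fun n : ℕ => (n : ℝ) ^ 2 * x ^ n :=
    summable_pow_mul_geometric_of_norm_lt_one 2 (by rw [Real.norm_of_nonneg hx0]; exact hx1)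
  have hnn : ∀ n : ℕ, 0 ≤ (n : ℝ) ^ 2 * x ^ n := fun n => by positivity
  have hT : 0 ≤ ∑' n : ℕ, (n : ℝ) ^ 2 * x ^ n := tsum_nonneg hnn
  refine ⟨(∑' n : ℕ, (n : ℝ) ^ 2 * x ^ n) / b ^ 4 + 1, by positivity, fun N => ?_⟩
  rw [← Finset.sum_div]
  have h1 : ∑ n ∈ Finset.Icc 3 N, (n : ℝ) ^ 2 * x ^ n ≤ ∑' n : ℕ, (n : ℝ) ^ 2 * x ^ n :=
    hs.sum_le_tsum _ fun n _ => hnn n
  have h2 : (∑ n ∈ Finset.Icc 3 N, (n : ℝ) ^ 2 * x ^ n) / b ^ 4 ≤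
      (∑' n : ℕ, (n : ℝ) ^ 2 * x ^ n) / b ^ 4 := div_le_div_of_nonneg_right h1 (by positivity)
  linarith

end Pool.Agent.Work.MP_c58d8b_pr.SO
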