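import Pool.Agent.Work.MP_c58d8b_pr.SO.Stmts

/-! Block SO, item GG: the test function satisfies the hypothesis of `StBP`. -/

set_option autoImplicit false

namespace Pool.Agent.Work.MP_c58d8b_pr.SO

open MeasureTheory ProbabilityTheory Set
open scoped ENNReal unitInterval Classical

universe u

theorem pr_GG (hW : WeightStmt.{u}) (hWB : StWB.{u}) (hSM : StSM.{u}) (hGA : StGA.{u})
    (hGR : StGR.{u}) : StGG.{u} := by
  intro V Γ H hG o b lam a L K mu hb hb1 hSp hlam ha hL hsig hK hmu hbd hKN hcon1 hcon2 z hz S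
  obtain ⟨hw0, hwγ, hwm⟩ := hW V H Γ hG.conn hG.lf hG.pres
  obtain ⟨hnb, -, -, -, -⟩ := hWB V H hG.lf
  obtain ⟨hcard, hsum1, hsum2, hsum3⟩ := hSM V Γ H hG o z
  set sg : ℝ := sig Γ H o with hsgd
  set W : ℝ := weight Γ z o with hWdef
  set s : ℝ := Real.log W with hs
  set r : ℝ := ((nb H o).card : ℝ) / sg ^ 2 with hr
  set m : ℝ := mom Γ H o / sg with hm
  have hW0 : 0 < W := hw0 z o
  have hrW : 0 < √W := Real.sqrt_pos.2 hW0
  have hr0 : 0 ≤ r := by positivity
  have hsL : |s| < L := hz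
  have hg0 : 0 ≤ L ^ 2 - s ^ 2 := by
    have := (sq_lt_sq₀ (abs_nonneg s) hL.le).2 hsL
    rw [sq_abs] at this
    linarith
  have hgmax : max (L ^ 2 - s ^ 2) 0 = L ^ 2 - s ^ 2 := max_eq_left hg0
  -- bound of the steps
  have hva : ∀ y ∈ nb H z, |Real.log (weight Γ y z)| ≤ a := by
    intro y hy
    obtain ⟨γ, hγ, hγz⟩ := hG.tr z o
    have hadj : H.Adj z y := (hnb z y).1 hy
    have hadj' : H.Adj o (γ y) := by
      have := (hG.pres γ hγ z y).2 hadj
      rwa [hγz] at this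
    have h1 := hbd (γ y) ((hnb o (γ y)).2 hadj')
    have h2 := hwγ γ hγ y z
    rw [hγz] at h2
    rwa [h2] at h1
  have hm0 : 0 ≤ m := by
    rw [hm]
    refine div_nonneg ?_ hsig.le
    unfold mom
    exact Finset.sum_nonneg fun y _ => mul_nonneg (Real.sqrt_nonneg _) (abs_nonneg _)
  -- mu'
  set mu' : ℝ := lam - 1 - lam ^ 2 * r - r * K with hmu'
  have hmumu : mu ≤ mu' := by rw [hmu']; linarith
  have hmu'lam : mu' ≤ lam := by
    rw [hmu']
    have h1 : 0 ≤ lam ^ 2 * r := by positivity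
    have h2 : 0 ≤ r * K := by positivity
    linarith
  -- the distribution
  have hq0 : ∀ j ∈ nb H z, 0 ≤ √(weight Γ j z) / sg := fun j _ =>
    div_nonneg (Real.sqrt_nonneg _) hsig.le
  have hq1 : ∑ j ∈ nb H z, √(weight Γ j z) / sg = 1 := by
    rw [← Finset.sum_div, hsum1]
    exact div_self hsig.ne'
  have hqv : ∑ j ∈ nb H z, √(weight Γ j z) / sg * Real.log (weight Γ j z) = 0 := by
    have : ∀ j ∈ nb H z, √(weight Γ j z) / sg * Real.log (weight Γ j z) =
        (√(weight Γ j z) * Real.log (weight Γ j z)) / sg := fun j _ => by ring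
    rw [Finset.sum_congr rfl this, ← Finset.sum_div, hsum3, zero_div]
  have hqm : ∑ j ∈ nb H z, √(weight Γ j z) / sg * |Real.log (weight Γ j z)| = m := by
    have : ∀ j ∈ nb H z, √(weight Γ j z) / sg * |Real.log (weight Γ j z)| =
        (√(weight Γ j z) * |Real.log (weight Γ j z)|) / sg := fun j _ => by ring
    rw [Finset.sum_congr rfl this, ← Finset.sum_div, hsum2]
  have hA := hGA V (nb H z) (fun y => √(weight Γ y z) / sg) (fun y => Real.log (weight Γ y z)) a L s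
    lam mu' hq0 hq1 hqv hva hL hsL.le (hmu.le.trans hmumu) hmu'lam
  simp only [hqm] at hA
  -- the sum over the neighbours
  have hN : lam / sg * ∑ y ∈ nb H z, tf Γ o L y = √W * (lam * ∑ j ∈ nb H z,
      √(weight Γ j z) / sg * max (L ^ 2 - (s + Real.log (weight Γ j z)) ^ 2) 0) := by
    rw [Finset.mul_sum, Finset.mul_sum, Finset.mul_sum]
    refine Finset.sum_congr rfl fun y _ => ?_
    unfold tf
    have h1 : weight Γ y o = weight Γ y z * W := (hwm y z o).symm
    have h2 : Real.log (weight Γ y o) = s + Real.log (weight Γ y z) := by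
      rw [h1, Real.log_mul (hw0 y z).ne' hW0.ne']
      ring
    rw [h2, h1, Real.sqrt_mul (hw0 y z).le]
    ring
  have hR := hGR V Γ H hG o z b lam a L K hb hb1 hSp hlam ha hL hsig hbd hKN S
  have htf : tf Γ o L z = √W * (L ^ 2 - s ^ 2) := by
    unfold tf
    rw [← hWdef, ← hs, hgmax]
  rw [hN, htf, hcard]
  have hR' : Rz H (lam / sg) S (tf Γ o L) z ≤ √W * r * K * ((L ^ 2 - s ^ 2) + L * a) := by
    rw [← hgmax]
    exact hR
  have hcardr : (lam / sg) ^ 2 * ((nb H o).card : ℝ) = lam ^ 2 * r := by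
    rw [hr]; field_simp
  rw [hcardr]
  have hfin : L * mu * m / 2 ≤ L * mu' * m / 2 := by
    have : L * mu * m ≤ L * mu' * m :=
      mul_le_mul_of_nonneg_right (mul_le_mul_of_nonneg_left hmumu hL.le) hm0
    linarith
  have hkey : (L ^ 2 - s ^ 2) + lam ^ 2 * r * (L ^ 2 - s ^ 2) + r * K * ((L ^ 2 - s ^ 2) + L * a) ≤
      lam * ∑ j ∈ nb H z, √(weight Γ j z) / sg *
        max (L ^ 2 - (s + Real.log (weight Γ j z)) ^ 2) 0 := by
    refine le_trans ?_ hA
    have e1 : lam - mu' = 1 + lam ^ 2 * r + r * K := by rw [hmu']; ring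
    rw [e1]
    have e2 : r * K * L * a + lam * a * m ≤ L * mu * m / 2 := hcon2
    nlinarith [e2, hfin]
  calc √W * (L ^ 2 - s ^ 2) + lam ^ 2 * r * (√W * (L ^ 2 - s ^ 2)) +
        Rz H (lam / sg) S (tf Γ o L) z
      ≤ √W * (L ^ 2 - s ^ 2) + lam ^ 2 * r * (√W * (L ^ 2 - s ^ 2)) +
        √W * r * K * ((L ^ 2 - s ^ 2) + L * a) := by linarith
    _ = √W * ((L ^ 2 - s ^ 2) + lam ^ 2 * r * (L ^ 2 - s ^ 2) +
          r * K * ((L ^ 2 - s ^ 2) + L * a)) := by ring
    _ ≤ _ := mul_le_mul_of_nonneg_left hkey hrW.le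

end Pool.Agent.Work.MP_c58d8b_pr.SO
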