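import Pool.Agent.Work.MP_c58d8b_pr.SO.Stmts

/-!
# MP_c58d8b_pr, block SO, item GK: one term of the cycle sum
-/

set_option autoImplicit false

namespace Pool.Agent.Work.MP_c58d8b_pr.SO

open MeasureTheory ProbabilityTheory Set
open scoped ENNReal unitInterval Classical

universe u

namespace IX_GK

variable {V : Type u}

theorem key (hWB : StWB.{u}) (hWS : StWS.{u}) (hWN : StWN.{u}) (hSM : StSM.{u})
    (Γ : Subgroup (Equiv.Perm V)) (H : SimpleGraph V) (hG : Good Γ H) (o z : V) (b : ℝ)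
    (hb : 0 < b) (hb1 : b ≤ 1) (hSp : Sp H (b ^ 2 * sig Γ H o)) (i j : ℕ) (hij : i ≤ j)
    (hj : 2 ≤ j) (F : Finset V) :
    ∑ y ∈ F, √(weight Γ y o) * (Wk H j z y * Wk H i z y) ≤
      √(weight Γ z o) * (b ^ (i + j) / b ^ 4) * sig Γ H o ^ (i + j - 2) * (nb H o).card := by
  have hσ : 0 ≤ sig Γ H o := Finset.sum_nonneg fun _ _ => Real.sqrt_nonneg _
  have hA : 0 ≤ b ^ 2 * sig Γ H o := mul_nonneg (sq_nonneg b) hσ
  have h1 := (hWN V H hG.lf (b ^ 2 * sig Γ H o) (nb H o).card hA hSp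
    (fun x => (hSM V Γ H hG o x).1.le)).2 j hj
  have hnn := (hWB V H hG.lf).2.1
  have hd : (0 : ℝ) ≤ ((nb H o).card : ℝ) := Nat.cast_nonneg _
  calc ∑ y ∈ F, √(weight Γ y o) * (Wk H j z y * Wk H i z y)
      ≤ ∑ y ∈ F, ((b ^ 2 * sig Γ H o) ^ (j - 2) * (nb H o).card) *
          (√(weight Γ y o) * Wk H i z y) := by
        refine Finset.sum_le_sum fun y _ => ?_
        have h2 : 0 ≤ √(weight Γ y o) * Wk H i z y :=
          mul_nonneg (Real.sqrt_nonneg _) (hnn i z y)
        calc √(weight Γ y o) * (Wk H j z y * Wk H i z y)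
            = Wk H j z y * (√(weight Γ y o) * Wk H i z y) := by ring
          _ ≤ _ := mul_le_mul_of_nonneg_right (h1 z y) h2
    _ = ((b ^ 2 * sig Γ H o) ^ (j - 2) * (nb H o).card) *
          ∑ y ∈ F, √(weight Γ y o) * Wk H i z y := by rw [Finset.mul_sum]
    _ ≤ ((b ^ 2 * sig Γ H o) ^ (j - 2) * (nb H o).card) *
          (√(weight Γ z o) * sig Γ H o ^ i) :=
        mul_le_mul_of_nonneg_left (hWS V Γ H hG o z i F)
          (mul_nonneg (pow_nonneg hA _) hd)
    _ = b ^ (2 * (j - 2)) *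
          (√(weight Γ z o) * sig Γ H o ^ (i + j - 2) * (nb H o).card) := by
        rw [mul_pow, ← pow_mul, show i + j - 2 = (j - 2) + i by omega, pow_add]
        ring
    _ ≤ (b ^ (i + j) / b ^ 4) *
          (√(weight Γ z o) * sig Γ H o ^ (i + j - 2) * (nb H o).card) := by
        refine mul_le_mul_of_nonneg_right ?_
          (mul_nonneg (mul_nonneg (Real.sqrt_nonneg _) (pow_nonneg hσ _)) hd)
        rw [le_div_iff₀ (pow_pos hb 4), ← pow_add]
        exact pow_le_pow_of_le_one hb.le hb1 (by omega)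
    _ = _ := by ring

end IX_GK

open IX_GK

theorem pr_GK (hWB : StWB.{u}) (hWS : StWS.{u}) (hWN : StWN.{u}) (hSM : StSM.{u}) :
    StGK.{u} := by
  intro V Γ H hG o z b hb hb1 hSp n hn i hi F
  have hsym := (hWB V H hG.lf).2.2.1
  by_cases h : n - i ≤ i
  · have h1 := key hWB hWS hWN hSM Γ H hG o z b hb hb1 hSp (n - i) i h (by omega) F
    rw [show n - i + i = n by omega] at h1
    refine le_trans (le_of_eq ?_) h1
    refine Finset.sum_congr rfl fun y _ => ?_
    rw [hsym i y z]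
  · have h1 := key hWB hWS hWN hSM Γ H hG o z b hb hb1 hSp i (n - i) (by omega) (by omega) F
    rw [show i + (n - i) = n by omega] at h1
    refine le_trans (le_of_eq ?_) h1
    refine Finset.sum_congr rfl fun y _ => ?_
    rw [hsym i y z]
    ring

end Pool.Agent.Work.MP_c58d8b_pr.SO
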