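import Pool.Agent.Work.MP_c58d8b_pr.SO.Stmts

/-!
# MP_c58d8b_pr, block SO, item GR: the cycle term of the test function
-/

set_option autoImplicit false

namespace Pool.Agent.Work.MP_c58d8b_pr.SO

open MeasureTheory ProbabilityTheory Set
open scoped ENNReal unitInterval Classical

universe u

namespace IX_GR

/-- the truncated parabola is Lipschitz with constant `2 L` -/
theorem par_lip (L s t : ℝ) (hL : 0 < L) :
    max (L ^ 2 - s ^ 2) 0 ≤ max (L ^ 2 - t ^ 2) 0 + 2 * L * |s - t| := by
  have h0 : 0 ≤ 2 * L * |s - t| := by positivity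
  have h1 : 0 ≤ max (L ^ 2 - t ^ 2) 0 := le_max_right _ _
  apply max_le _ (by linarith)
  rcases le_or_gt L |s| with hs | hs
  · have h2 : L ^ 2 ≤ s ^ 2 := by
      rw [← sq_abs s]
      exact pow_le_pow_left₀ hL.le hs 2
    linarith
  · rcases le_or_gt |t| L with ht | ht
    · have h2 : L ^ 2 - t ^ 2 ≤ max (L ^ 2 - t ^ 2) 0 := le_max_left _ _
      have h3 : t ^ 2 - s ^ 2 ≤ 2 * L * |s - t| := by
        have h4 : t ^ 2 - s ^ 2 = (t - s) * (t + s) := by ring
        have h5 : (t - s) * (t + s) ≤ |t - s| * |t + s| := by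
          rw [← abs_mul]
          exact le_abs_self _
        have h6 : |t + s| ≤ 2 * L := by
          have := abs_add_le t s
          linarith
        have h7 : |t - s| = |s - t| := abs_sub_comm t s
        rw [h4]
        calc (t - s) * (t + s) ≤ |t - s| * |t + s| := h5
          _ ≤ |t - s| * (2 * L) := mul_le_mul_of_nonneg_left h6 (abs_nonneg _)
          _ = 2 * L * |s - t| := by rw [h7]; ring
      linarith
    · have h2 : L - |s| ≤ |s - t| := by
        have h3 : |t| - |s| ≤ |t - s| := abs_sub_abs_le_abs_sub t s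
        rw [abs_sub_comm t s] at h3
        linarith
      have h4 : L ^ 2 - s ^ 2 = (L - |s|) * (L + |s|) := by
        rw [← sq_abs s]; ring
      have h5 : (L - |s|) * (L + |s|) ≤ |s - t| * (2 * L) := by
        apply mul_le_mul h2 (by linarith) (by linarith [abs_nonneg s]) (abs_nonneg _)
      nlinarith

end IX_GR

theorem pr_GR (hW : WeightStmt.{u}) (hWB : StWB.{u}) (hGK : StGK.{u}) : StGR.{u} := by
  intro V Γ H hG o z b lam a L K hb hb1 hSp hlam ha hL hsg hna hK S
  obtain ⟨hW0, hW1, hW2⟩ := hW V H Γ hG.conn hG.lf hG.pres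
  obtain ⟨wb1, wb2, wb3, wb4, -⟩ := hWB V H hG.lf
  have hGKz := hGK V Γ H hG o z b hb hb1 hSp
  -- one step
  have step : ∀ x u, H.Adj x u →
      |Real.log (weight Γ x o) - Real.log (weight Γ u o)| ≤ a := by
    intro x u hxu
    obtain ⟨γ, hγ, hγx⟩ := hG.tr u o
    have h1 : weight Γ x u = weight Γ (γ x) o := by
      rw [← hW1 γ hγ x u, hγx]
    have h2 : γ x ∈ nb H o := by
      rw [wb1, ← hγx]
      exact ((hG.pres γ hγ u x).2 hxu.symm)
    have h3 := hna _ h2
    rw [← h1] at h3
    have h4 : Real.log (weight Γ x o) =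
        Real.log (weight Γ x u) + Real.log (weight Γ u o) := by
      rw [← hW2 x u o, Real.log_mul (hW0 _ _).ne' (hW0 _ _).ne']
    rw [h4]
    have h5 : Real.log (weight Γ x u) + Real.log (weight Γ u o) - Real.log (weight Γ u o) =
        Real.log (weight Γ x u) := by ring
    rw [h5]
    exact h3
  have walk : ∀ (m : ℕ) (x y : V), Wk H m x y ≠ 0 →
      |Real.log (weight Γ x o) - Real.log (weight Γ y o)| ≤ a * m := by
    intro m
    induction m with
    | zero =>
      intro x y h
      have hxy : x = y := by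
        by_contra hne
        apply h
        simp [Wk, hne]
      rw [hxy]
      simp
    | succ m ih =>
      intro x y h
      have h1 : ∃ u ∈ nb H x, Wk H m u y ≠ 0 := by
        by_contra hcon
        push Not at hcon
        apply h
        change ∑ u ∈ nb H x, Wk H m u y = 0
        exact Finset.sum_eq_zero hcon
      obtain ⟨u, hu, hu2⟩ := h1
      have h2 := step x u ((wb1 x u).1 hu)
      have h3 := ih u y hu2
      have h4 : Real.log (weight Γ x o) - Real.log (weight Γ y o) =
          (Real.log (weight Γ x o) - Real.log (weight Γ u o)) +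
          (Real.log (weight Γ u o) - Real.log (weight Γ y o)) := by ring
      rw [h4]
      have h5 := abs_add_le (Real.log (weight Γ x o) - Real.log (weight Γ u o))
        (Real.log (weight Γ u o) - Real.log (weight Γ y o))
      push_cast
      linarith
  set gz : ℝ := max (L ^ 2 - Real.log (weight Γ z o) ^ 2) 0 with hgz
  have hgz0 : 0 ≤ gz := le_max_right _ _
  set sg : ℝ := sig Γ H o with hsgdef
  set d : ℝ := ((nb H o).card : ℝ) with hd
  have hd0 : 0 ≤ d := Nat.cast_nonneg _
  have hsz : 0 ≤ √(weight Γ z o) := Real.sqrt_nonneg _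
  -- the key inequality
  have key : ∀ (n i : ℕ), i ≤ n → ∀ y, tf Γ o L y * Wk H i y z * Wk H (n - i) z y ≤
      (gz + L * a * n) * (√(weight Γ y o) * (Wk H i y z * Wk H (n - i) z y)) := by
    intro n i hi y
    by_cases h0 : Wk H i y z * Wk H (n - i) z y = 0
    · have : tf Γ o L y * Wk H i y z * Wk H (n - i) z y =
          tf Γ o L y * (Wk H i y z * Wk H (n - i) z y) := by ring
      rw [this, h0]
      simp
    · have h1 : Wk H i y z ≠ 0 := left_ne_zero_of_mul h0
      have h2 : Wk H (n - i) z y ≠ 0 := right_ne_zero_of_mul h0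
      have h3 := walk i y z h1
      have h4 := walk (n - i) z y h2
      rw [abs_sub_comm] at h4
      have h5 : ((n - i : ℕ) : ℝ) = (n : ℝ) - i := by
        rw [Nat.cast_sub hi]
      rw [h5] at h4
      have h6 : |Real.log (weight Γ y o) - Real.log (weight Γ z o)| ≤ a * n / 2 := by
        linarith
      have h7 := IX_GR.par_lip L (Real.log (weight Γ y o)) (Real.log (weight Γ z o)) hL
      have h8 : 2 * L * |Real.log (weight Γ y o) - Real.log (weight Γ z o)| ≤
          L * a * n := by
        have := mul_le_mul_of_nonneg_left h6 (by positivity : (0 : ℝ) ≤ 2 * L)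
        linarith
      have h9 : max (L ^ 2 - Real.log (weight Γ y o) ^ 2) 0 ≤ gz + L * a * n := by
        rw [hgz]
        linarith
      have h10 : 0 ≤ √(weight Γ y o) * (Wk H i y z * Wk H (n - i) z y) :=
        mul_nonneg (Real.sqrt_nonneg _) (mul_nonneg (wb2 _ _ _) (wb2 _ _ _))
      have h11 : tf Γ o L y * Wk H i y z * Wk H (n - i) z y =
          max (L ^ 2 - Real.log (weight Γ y o) ^ 2) 0 *
            (√(weight Γ y o) * (Wk H i y z * Wk H (n - i) z y)) := by
        unfold tf
        ring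
      rw [h11]
      exact mul_le_mul_of_nonneg_right h9 h10
  -- one value of `n`
  have term : ∀ n : ℕ, 3 ≤ n → (lam / sg) ^ n * ∑ i ∈ Finset.Icc 1 n, ∑ y ∈ S,
      tf Γ o L y * Wk H i y z * Wk H (n - i) z y ≤
      √(weight Γ z o) * (d / sg ^ 2) * (gz + L * a) * ((n : ℝ) ^ 2 * (lam * b) ^ n / b ^ 4) := by
    intro n hn
    have hn1 : (1 : ℝ) ≤ n := by exact_mod_cast (by omega : 1 ≤ n)
    have h1 : ∀ i ∈ Finset.Icc 1 n, ∑ y ∈ S, tf Γ o L y * Wk H i y z * Wk H (n - i) z y ≤
        (gz + L * a * n) * (√(weight Γ z o) * (b ^ n / b ^ 4) * sg ^ (n - 2) * d) := by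
      intro i hi
      have hi2 : i ≤ n := (Finset.mem_Icc.1 hi).2
      calc ∑ y ∈ S, tf Γ o L y * Wk H i y z * Wk H (n - i) z y
          ≤ ∑ y ∈ S, (gz + L * a * n) * (√(weight Γ y o) * (Wk H i y z * Wk H (n - i) z y)) :=
            Finset.sum_le_sum fun y _ => key n i hi2 y
        _ = (gz + L * a * n) * ∑ y ∈ S, √(weight Γ y o) * (Wk H i y z * Wk H (n - i) z y) := by
            rw [Finset.mul_sum]
        _ ≤ _ := mul_le_mul_of_nonneg_left (hGKz n hn i hi2 S) (by positivity)
    have h2 : ∑ i ∈ Finset.Icc 1 n, ∑ y ∈ S, tf Γ o L y * Wk H i y z * Wk H (n - i) z y ≤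
        n * ((gz + L * a * n) * (√(weight Γ z o) * (b ^ n / b ^ 4) * sg ^ (n - 2) * d)) := by
      have h3 := Finset.sum_le_card_nsmul (Finset.Icc 1 n) _ _ h1
      rw [Nat.card_Icc, Nat.add_sub_cancel, nsmul_eq_mul] at h3
      exact h3
    have h4 : (lam / sg) ^ n * sg ^ (n - 2) = lam ^ n / sg ^ 2 := by
      obtain ⟨m, rfl⟩ : ∃ m, n = m + 2 := ⟨n - 2, by omega⟩
      rw [Nat.add_sub_cancel, div_pow]
      have h5 : sg ^ (m + 2) = sg ^ m * sg ^ 2 := pow_add _ _ _
      rw [h5]
      have h6 : sg ^ m ≠ 0 := pow_ne_zero _ hsg.ne'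
      field_simp
    have hp0 : 0 ≤ (lam / sg) ^ n := by positivity
    calc (lam / sg) ^ n * ∑ i ∈ Finset.Icc 1 n, ∑ y ∈ S,
          tf Γ o L y * Wk H i y z * Wk H (n - i) z y
        ≤ (lam / sg) ^ n * (n * ((gz + L * a * n) *
          (√(weight Γ z o) * (b ^ n / b ^ 4) * sg ^ (n - 2) * d))) :=
          mul_le_mul_of_nonneg_left h2 hp0
      _ = ((lam / sg) ^ n * sg ^ (n - 2)) * (n * (gz + L * a * n)) *
          (√(weight Γ z o) * (b ^ n / b ^ 4) * d) := by ring
      _ = (n * (gz + L * a * n)) *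
          (√(weight Γ z o) * (d / sg ^ 2) * ((lam * b) ^ n / b ^ 4)) := by
          rw [h4, mul_pow]; ring
      _ ≤ ((n : ℝ) ^ 2 * (gz + L * a)) *
          (√(weight Γ z o) * (d / sg ^ 2) * ((lam * b) ^ n / b ^ 4)) := by
          apply mul_le_mul_of_nonneg_right _ (by positivity)
          have h7 : (n : ℝ) * gz ≤ (n : ℝ) ^ 2 * gz := by
            apply mul_le_mul_of_nonneg_right _ hgz0
            nlinarith
          nlinarith
      _ = √(weight Γ z o) * (d / sg ^ 2) * (gz + L * a) *
          ((n : ℝ) ^ 2 * (lam * b) ^ n / b ^ 4) := by ring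
  have hC : 0 ≤ √(weight Γ z o) * (d / sg ^ 2) * (gz + L * a) := by positivity
  calc Rz H (lam / sg) S (tf Γ o L) z
      ≤ ∑ n ∈ Finset.Icc 3 S.card, √(weight Γ z o) * (d / sg ^ 2) * (gz + L * a) *
          ((n : ℝ) ^ 2 * (lam * b) ^ n / b ^ 4) := by
        unfold Rz
        exact Finset.sum_le_sum fun n hn => term n (Finset.mem_Icc.1 hn).1
    _ = √(weight Γ z o) * (d / sg ^ 2) * (gz + L * a) *
          ∑ n ∈ Finset.Icc 3 S.card, ((n : ℝ) ^ 2 * (lam * b) ^ n / b ^ 4) := by
        rw [Finset.mul_sum]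
    _ ≤ √(weight Γ z o) * (d / sg ^ 2) * (gz + L * a) * K :=
        mul_le_mul_of_nonneg_left (hK _) hC
    _ = √(weight Γ z o) * (d / sg ^ 2) * K * (gz + L * a) := by ring

end Pool.Agent.Work.MP_c58d8b_pr.SO
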