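import Pool.Agent.Work.MP_c58d8b_pr.SO.Stmts

/-!
# MP_c58d8b_pr, block SO, item M2: the event that `x` is connected to `o` only by the edge `xy`
-/

set_option autoImplicit false

namespace Pool.Agent.Work.MP_c58d8b_pr.SO

open MeasureTheory ProbabilityTheory Set
open scoped ENNReal unitInterval Classical

universe u

namespace IX_M2

theorem un {α : Type u} (i1 i2 : DecidableEq α) (E : Finset α) (e : α) (he : e ∈ E) :
    @Union.union (Finset α) (@Finset.instUnion α i1) {e} (@Finset.erase α i2 E e) = E := by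
  have hi : i1 = i2 := Subsingleton.elim _ _
  subst hi
  ext z
  simp only [Finset.mem_union, Finset.mem_singleton, Finset.mem_erase]
  constructor
  · rintro (h | h)
    · rw [h]
      exact he
    · exact h.2
  · intro hz
    rcases Classical.em (z = e) with h | h
    · exact Or.inl h
    · exact Or.inr ⟨h, hz⟩

end IX_M2

theorem pr_M2 (hPB : StPB.{u}) (hPI : StPI.{u}) (hPL : StPL.{u}) (hPA : StPA.{u})
    (hCB : StCB.{u}) (hCR : StCR.{u}) : StM2.{u} := by
  intro V H S o x y p hp0 hp1 he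
  set E : Finset (Sym2 V) := EI H S with hEdef
  set e : Sym2 V := s(x, y) with hedef
  have hdis : Disjoint ({e} : Finset (Sym2 V)) (E.erase e) := by
    rw [Finset.disjoint_singleton_left]
    exact Finset.notMem_erase e E
  set A : Set (Set (Sym2 V)) := {s | ((({e} : Finset (Sym2 V)) : Set (Sym2 V))) ⊆ s} with hA
  set B : Set (Set (Sym2 V)) := {s | y ∈ Cluster s o} with hB
  have h1 : Pr E p {s | x ∈ Cluster s o ∧ x ∉ Cluster (s \ {e}) o} ≤
      Pr E p {s | s ∩ ((({e} : Finset (Sym2 V)) : Set (Sym2 V))) ∈ A ∧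
        s ∩ ((E.erase e : Finset (Sym2 V)) : Set (Sym2 V)) ∈ B} := by
    refine (hPB (Sym2 V) E p hp0 hp1).2.2.1 _ _ ?_
    intro s hs hmem
    obtain ⟨m1, m2⟩ := hmem
    obtain ⟨k1, k2⟩ := hCR V (s : Set (Sym2 V)) o x y m1 m2
    refine ⟨?_, ?_⟩
    · show ((({e} : Finset (Sym2 V)) : Set (Sym2 V))) ⊆
        (s : Set (Sym2 V)) ∩ ((({e} : Finset (Sym2 V)) : Set (Sym2 V)))
      rw [Finset.coe_singleton, Set.singleton_subset_iff]
      exact ⟨k1, Set.mem_singleton e⟩
    · show y ∈ Cluster ((s : Set (Sym2 V)) ∩ ((E.erase e : Finset (Sym2 V)) : Set (Sym2 V))) o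
      have h2 : (s : Set (Sym2 V)) ∩ ((E.erase e : Finset (Sym2 V)) : Set (Sym2 V)) =
          (s : Set (Sym2 V)) \ {e} := by
        ext z
        simp only [Set.mem_inter_iff, Finset.mem_coe, Finset.mem_erase, Set.mem_sdiff,
          Set.mem_singleton_iff]
        constructor
        · rintro ⟨a, b, _⟩
          exact ⟨a, b⟩
        · rintro ⟨a, b⟩
          exact ⟨a, b, hs a⟩
      rw [h2]
      exact k2
  have h2 : Pr E p {s | s ∩ ((({e} : Finset (Sym2 V)) : Set (Sym2 V))) ∈ A ∧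
        s ∩ ((E.erase e : Finset (Sym2 V)) : Set (Sym2 V)) ∈ B} =
      Pr ({e} : Finset (Sym2 V)) p A * Pr (E.erase e) p B := by
    exact Eq.trans (congrArg (fun F => Pr F p _) (IX_M2.un _ _ E e he).symm)
      (hPI (Sym2 V) {e} (E.erase e) p hp0 hp1 hdis A B)
  have h3 : Pr ({e} : Finset (Sym2 V)) p A = p := by
    have := hPA (Sym2 V) {e} {e} p hp0 hp1 (Finset.Subset.refl _)
    rw [Finset.card_singleton, pow_one] at this
    exact this
  have h4 : Pr (E.erase e) p B ≤ tau H p S o y := by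
    have h5 := hPL (Sym2 V) E (E.erase e) p hp0 hp1 (Finset.erase_subset _ _)
      {s | s ∩ ((E.erase e : Finset (Sym2 V)) : Set (Sym2 V)) ∈ B} (by
        intro s _
        show _ ↔ (s : Set (Sym2 V)) ∩ _ ∩ _ ∈ B
        rw [Set.inter_assoc, Set.inter_self]
        exact Iff.rfl)
    have h6 : Pr (E.erase e) p B ≤ Pr (E.erase e) p
        {s | s ∩ ((E.erase e : Finset (Sym2 V)) : Set (Sym2 V)) ∈ B} := by
      refine (hPB (Sym2 V) (E.erase e) p hp0 hp1).2.2.1 _ _ ?_
      intro s hs hsB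
      show (s : Set (Sym2 V)) ∩ ((E.erase e : Finset (Sym2 V)) : Set (Sym2 V)) ∈ B
      rw [Set.inter_eq_left.mpr (Finset.coe_subset.mpr hs)]
      exact hsB
    have h7 : Pr E p {s | s ∩ ((E.erase e : Finset (Sym2 V)) : Set (Sym2 V)) ∈ B} ≤
        Pr E p {s | y ∈ Cluster s o} := by
      refine (hPB (Sym2 V) E p hp0 hp1).2.2.1 _ _ ?_
      intro s _ hsB
      exact (hCB V _).2.2.2.1 _ Set.inter_subset_left o hsB
    rw [← h5] at h6
    exact h6.trans h7
  calc Pr E p {s | x ∈ Cluster s o ∧ x ∉ Cluster (s \ {e}) o}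
      ≤ _ := h1
    _ = Pr ({e} : Finset (Sym2 V)) p A * Pr (E.erase e) p B := h2
    _ = p * Pr (E.erase e) p B := by rw [h3]
    _ ≤ p * tau H p S o y := mul_le_mul_of_nonneg_left h4 hp0

end Pool.Agent.Work.MP_c58d8b_pr.SO
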