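import Pool.Agent.Work.MP_c58d8b_pr.SO.Stmts

/-!
# MP_c58d8b_pr, block SO, item M3
-/

set_option autoImplicit false

namespace Pool.Agent.Work.MP_c58d8b_pr.SO

open MeasureTheory ProbabilityTheory Set
open scoped ENNReal unitInterval Classical

universe u

namespace IX_M3

lemma gen (hPB : StPB.{u}) (hPI : StPI.{u}) (hPL : StPL.{u}) (hPA : StPA.{u})
    (ι : Type u) (E T : Finset ι) (p : ℝ) (hp0 : 0 ≤ p) (hp1 : p ≤ 1) (hT : T ⊆ E)
    (B : Set (Set ι)) (hB : ∀ s t : Set ι, s ⊆ t → s ∈ B → t ∈ B) :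
    Pr E p {s | (T : Set ι) ⊆ s ∧ s \ (T : Set ι) ∈ B} ≤ p ^ T.card * Pr E p B := by
  have hU : T ∪ (E \ T) = E := Finset.union_sdiff_of_subset hT
  have hin : ∀ s : Finset ι, s ⊆ E →
      (s : Set ι) ∩ ((E \ T : Finset ι) : Set ι) = (s : Set ι) \ (T : Set ι) := by
    intro s hs
    ext e
    simp only [Set.mem_inter_iff, Finset.mem_coe, Finset.mem_sdiff, Set.mem_sdiff]
    constructor
    · rintro ⟨h1, -, h2⟩
      exact ⟨h1, h2⟩
    · rintro ⟨h1, h2⟩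
      exact ⟨h1, hs h1, h2⟩
  have h1 : Pr E p {s | (T : Set ι) ⊆ s ∧ s \ (T : Set ι) ∈ B} ≤
      Pr E p {s | s ∩ (T : Set ι) ∈ {t : Set ι | (T : Set ι) ⊆ t} ∧
        s ∩ ((E \ T : Finset ι) : Set ι) ∈ B} := by
    apply (hPB ι E p hp0 hp1).2.2.1
    intro s hs hsA
    refine ⟨?_, ?_⟩
    · exact Set.subset_inter hsA.1 (le_refl _)
    · rw [hin s hs]
      exact hsA.2
  have h2 := hPI ι T (E \ T) p hp0 hp1 Finset.disjoint_sdiff {t : Set ι | (T : Set ι) ⊆ t} B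
  rw [hU] at h2
  have h3 := hPA ι T T p hp0 hp1 (le_refl _)
  have h4 : Pr (E \ T) p B ≤ Pr E p B := by
    have h5 := hPL ι E (E \ T) p hp0 hp1 Finset.sdiff_subset
      {s | s ∩ ((E \ T : Finset ι) : Set ι) ∈ B} (by
        intro s _
        simp only [Set.mem_setOf_eq, Set.inter_assoc, Set.inter_self])
    have h6 : Pr (E \ T) p B ≤ Pr (E \ T) p {s | s ∩ ((E \ T : Finset ι) : Set ι) ∈ B} := by
      apply (hPB ι (E \ T) p hp0 hp1).2.2.1
      intro s hs hsA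
      show (s : Set ι) ∩ _ ∈ B
      rw [Set.inter_eq_left.2 (by exact_mod_cast hs)]
      exact hsA
    rw [← h5] at h6
    refine h6.trans ?_
    apply (hPB ι E p hp0 hp1).2.2.1
    intro s _ hsA
    exact hB _ _ Set.inter_subset_left hsA
  rw [h2, h3] at h1
  exact h1.trans (mul_le_mul_of_nonneg_left h4 (pow_nonneg hp0 _))

end IX_M3

theorem pr_M3 (hPB : StPB.{u}) (hPI : StPI.{u}) (hPL : StPL.{u}) (hPA : StPA.{u})
    (hCB : StCB.{u}) : StM3.{u} := by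
  intro V H S o z p hp0 hp1 T hT
  exact IX_M3.gen hPB hPI hPL hPA (Sym2 V) (EI H S) T p hp0 hp1 hT {s | z ∈ Cluster s o}
    (fun s t hst hs => (hCB V s).2.2.2.1 t hst o hs)

end Pool.Agent.Work.MP_c58d8b_pr.SO
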