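import Pool.Agent.Work.MP_c58d8b_pr.SO.Stmts

/-!
# MP_c58d8b_pr, block SO, item SA: coarea formula
-/

set_option autoImplicit false

namespace Pool.Agent.Work.MP_c58d8b_pr.SO

open MeasureTheory ProbabilityTheory Set
open scoped ENNReal unitInterval Classical

universe u

namespace IX_SA

theorem main {V : Type u} (w : V → ℝ) (N : V → Finset V) (h : ℝ) (_hw : ∀ x, 0 ≤ w x)
    (hK : ∀ K : Finset V, h * ∑ x ∈ K, w x ≤ ∑ x ∈ K, w x * ((N x).filter (· ∉ K)).card)
    (F : Finset V) : ∀ (n : ℕ) (v : V → ℝ), (∀ x, 0 ≤ v x) → (∀ x, x ∉ F → v x = 0) →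
    (F.filter (fun x => 0 < v x)).card = n →
    h * ∑ x ∈ F, w x * v x ≤ ∑ x ∈ F, ∑ y ∈ N x, w x * max (v x - v y) 0 := by
  intro n
  induction n using Nat.strong_induction_on with
  | _ n ih =>
    intro v hv hF hn
    obtain ⟨K, hKdef⟩ : ∃ K : Finset V, K = F.filter (fun x => 0 < v x) := ⟨_, rfl⟩
    rw [← hKdef] at hn
    have hKF : K ⊆ F := by rw [hKdef]; exact Finset.filter_subset _ _
    have memK : ∀ x, x ∈ K ↔ 0 < v x := by
      intro x
      rw [hKdef, Finset.mem_filter]
      constructor
      · exact fun h => h.2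
      · intro hx
        refine ⟨?_, hx⟩
        by_contra hxF
        rw [hF x hxF] at hx
        exact lt_irrefl _ hx
    have zeroK : ∀ x, x ∉ K → v x = 0 := by
      intro x hx
      rw [memK, not_lt] at hx
      exact le_antisymm hx (hv x)
    rcases K.eq_empty_or_nonempty with hKe | hKn
    · have hv0 : ∀ x, v x = 0 := fun x => zeroK x (by rw [hKe]; exact Finset.notMem_empty x)
      simp [hv0]
    · obtain ⟨x0, hx0, hmin⟩ := Finset.exists_min_image K v hKn
      obtain ⟨t, ht⟩ : ∃ t, t = v x0 := ⟨_, rfl⟩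
      have ht0 : 0 < t := by rw [ht]; exact (memK x0).1 hx0
      obtain ⟨v', hv'⟩ : ∃ v' : V → ℝ, v' = fun x => if x ∈ K then v x - t else 0 := ⟨_, rfl⟩
      have v'in : ∀ x, x ∈ K → v' x = v x - t := fun x hx => by rw [hv']; exact if_pos hx
      have v'out : ∀ x, x ∉ K → v' x = 0 := fun x hx => by rw [hv']; exact if_neg hx
      have hv'0 : ∀ x, 0 ≤ v' x := by
        intro x
        by_cases hx : x ∈ K
        · rw [v'in x hx, ht]
          exact sub_nonneg.2 (hmin x hx)
        · rw [v'out x hx]
      have hF' : ∀ x, x ∉ F → v' x = 0 := fun x hx => v'out x (fun hxK => hx (hKF hxK))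
      have hcard : (F.filter (fun x => 0 < v' x)).card < n := by
        rw [← hn]
        refine Finset.card_lt_card ?_
        rw [Finset.ssubset_iff_of_subset]
        · refine ⟨x0, hx0, ?_⟩
          rw [Finset.mem_filter, v'in x0 hx0, ht, sub_self]
          exact fun h => lt_irrefl _ h.2
        · intro x hx
          rw [Finset.mem_filter] at hx
          by_contra hxK
          rw [v'out x hxK] at hx
          exact lt_irrefl _ hx.2
      have key := ih _ hcard v' hv'0 hF' rfl
      have hL : ∑ x ∈ F, w x * v x = ∑ x ∈ F, w x * v' x + t * ∑ x ∈ K, w x := by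
        have h1 : ∑ x ∈ K, w x * t = ∑ x ∈ F, (if x ∈ K then w x * t else 0) := by
          rw [Finset.sum_ite_mem, Finset.inter_eq_right.2 hKF]
        rw [Finset.mul_sum, show ∑ x ∈ K, t * w x = ∑ x ∈ K, w x * t from
          Finset.sum_congr rfl fun x _ => mul_comm _ _, h1, ← Finset.sum_add_distrib]
        refine Finset.sum_congr rfl fun x _ => ?_
        by_cases hx : x ∈ K
        · rw [if_pos hx, v'in x hx]; ring
        · rw [if_neg hx, v'out x hx, zeroK x hx]; ring
      have hR : ∑ x ∈ F, ∑ y ∈ N x, w x * max (v x - v y) 0 =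
          ∑ x ∈ F, ∑ y ∈ N x, w x * max (v' x - v' y) 0 +
            t * ∑ x ∈ K, w x * ((N x).filter (· ∉ K)).card := by
        have h1 : ∑ x ∈ K, w x * ((N x).filter (· ∉ K)).card * t =
            ∑ x ∈ F, (if x ∈ K then w x * ((N x).filter (· ∉ K)).card * t else 0) := by
          rw [Finset.sum_ite_mem, Finset.inter_eq_right.2 hKF]
        rw [Finset.mul_sum, show ∑ x ∈ K, t * (w x * ((N x).filter (· ∉ K)).card) =
          ∑ x ∈ K, w x * ((N x).filter (· ∉ K)).card * t from
          Finset.sum_congr rfl fun x _ => mul_comm _ _, h1, ← Finset.sum_add_distrib]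
        refine Finset.sum_congr rfl fun x _ => ?_
        by_cases hx : x ∈ K
        · rw [if_pos hx]
          have h2 : w x * ((N x).filter (· ∉ K)).card * t =
              ∑ y ∈ N x, (if y ∉ K then w x * t else 0) := by
            rw [← Finset.sum_filter, Finset.sum_const, nsmul_eq_mul]
            ring
          rw [h2, ← Finset.sum_add_distrib]
          refine Finset.sum_congr rfl fun y _ => ?_
          by_cases hy : y ∈ K
          · rw [if_neg (not_not.2 hy), v'in x hx, v'in y hy, sub_sub_sub_cancel_right, add_zero]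
          · rw [if_pos hy, v'in x hx, v'out y hy, zeroK y hy, sub_zero, sub_zero,
              max_eq_left (hv x), max_eq_left (by rw [ht]; exact sub_nonneg.2 (hmin x hx))]
            ring
        · rw [if_neg hx, add_zero]
          refine Finset.sum_congr rfl fun y _ => ?_
          rw [zeroK x hx, v'out x hx, zero_sub, zero_sub, max_eq_right (neg_nonpos.2 (hv y)),
            max_eq_right (neg_nonpos.2 (hv'0 y))]
      rw [hL, hR, mul_add]
      refine add_le_add key ?_
      have h3 := mul_le_mul_of_nonneg_left (hK K) ht0.le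
      calc h * (t * ∑ x ∈ K, w x) = t * (h * ∑ x ∈ K, w x) := by ring
        _ ≤ _ := h3

end IX_SA

theorem pr_SA : StSA.{u} := by
  intro V Γ G _ h o _ hw hK F v hv hF
  exact IX_SA.main (fun x => weight Γ x o) (nb G) h hw hK F _ v hv hF rfl

end Pool.Agent.Work.MP_c58d8b_pr.SO
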