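import Pool.Agent.Work.MP_c58d8b_pr.SO.Stmts

/-!
# MP_c58d8b_pr, block SO, item SB: size of the powers
-/

set_option autoImplicit false

namespace Pool.Agent.Work.MP_c58d8b_pr.SO

open MeasureTheory ProbabilityTheory Set
open scoped ENNReal unitInterval Classical

universe u

namespace IX_SB

variable {V : Type u}

theorem mem_nb {H : SimpleGraph V} (hf : LocFinite H) (x y : V) : y ∈ nb H x ↔ H.Adj x y := by
  unfold nb
  rw [dif_pos (hf x)]
  simp

theorem dist_le {G : SimpleGraph V} (hG : G.Connected) {γ : Equiv.Perm V}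
    (hγ : ∀ x y : V, G.Adj (γ x) (γ y) ↔ G.Adj x y) (x y : V) :
    G.dist (γ x) (γ y) ≤ G.dist x y := by
  obtain ⟨p, hp⟩ := hG.exists_walk_length_eq_dist x y
  let f : G →g G := ⟨γ, fun {a b} h => (hγ a b).2 h⟩
  have h1 : (p.map f).length = G.dist x y := by rw [SimpleGraph.Walk.length_map, hp]
  rw [← h1]
  exact SimpleGraph.dist_le (p.map f)

theorem dist_eq {G : SimpleGraph V} (hG : G.Connected) {γ : Equiv.Perm V}
    (hγ : ∀ x y : V, G.Adj (γ x) (γ y) ↔ G.Adj x y) (x y : V) :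
    G.dist (γ x) (γ y) = G.dist x y := by
  refine le_antisymm (dist_le hG hγ x y) ?_
  have hγ' : ∀ x y : V, G.Adj (γ.symm x) (γ.symm y) ↔ G.Adj x y := by
    intro a b
    have := hγ (γ.symm a) (γ.symm b)
    rw [γ.apply_symm_apply, γ.apply_symm_apply] at this
    exact this.symm
  have := dist_le hG hγ' (γ x) (γ y)
  rwa [γ.symm_apply_apply, γ.symm_apply_apply] at this

theorem pow_lf (hB : Basics.{u}) {G : SimpleGraph V} (hG : G.Connected) (hf : LocFinite G) (k : ℕ) :
    LocFinite (pow G k) := by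
  intro x
  exact (hB.ball_finite V G hG hf x k).subset fun y hy => hy.2

theorem le_pow {G : SimpleGraph V} {k : ℕ} (hk : 1 ≤ k) : G ≤ pow G k := by
  intro x y h
  exact ⟨h.ne, by rw [SimpleGraph.dist_eq_one_iff_adj.2 h]; exact hk⟩

theorem pow_good (hB : Basics.{u}) {Γ : Subgroup (Equiv.Perm V)} {G : SimpleGraph V}
    (hG : Good Γ G) {k : ℕ} (hk : 1 ≤ k) : Good Γ (pow G k) := by
  refine ⟨hG.conn.mono (le_pow hk), pow_lf hB hG.conn hG.lf k, ?_, hG.tr⟩
  intro γ hγ x y
  have h1 := dist_eq hG.conn (hG.pres γ hγ) x y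
  change (γ x ≠ γ y ∧ G.dist (γ x) (γ y) ≤ k) ↔ (x ≠ y ∧ G.dist x y ≤ k)
  rw [h1, γ.injective.ne_iff]

theorem exists_mid {G : SimpleGraph V} (hG : G.Connected) {k : ℕ} {o y : V}
    (h : G.dist o y ≤ k) (ho : y ≠ o) : ∃ z, G.dist o z ≤ k - 1 ∧ (y = z ∨ G.Adj z y) := by
  by_cases h1 : G.dist o y ≤ k - 1
  · exact ⟨y, h1, Or.inl rfl⟩
  obtain ⟨p, hp⟩ := hG.exists_walk_length_eq_dist y o
  cases p with
  | nil => exact absurd rfl ho
  | @cons _ z _ hadj q =>
    refine ⟨z, ?_, Or.inr hadj.symm⟩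
    have h2 : G.dist z o ≤ q.length := SimpleGraph.dist_le q
    rw [SimpleGraph.Walk.length_cons] at hp
    rw [G.dist_comm] at h2 hp
    omega

end IX_SB

theorem pr_SB (hB : Basics.{u}) (hW : WeightStmt.{u}) (hSM : StSM.{u}) : StSB.{u} := by
  intro V Γ G hG k hk
  refine ⟨IX_SB.pow_good hB hG hk, IX_SB.le_pow hk, fun o => ?_⟩
  obtain ⟨hpos, -, hmul⟩ := hW V G Γ hG.conn hG.lf hG.pres
  have hone : weight Γ o o = 1 := by
    have h1 := hmul o o o
    have h2 := hpos o o
    exact mul_left_cancel₀ h2.ne' (by rw [h1, mul_one])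
  have hlP : LocFinite (pow G (k - 1)) := IX_SB.pow_lf hB hG.conn hG.lf (k - 1)
  have hlQ : LocFinite (pow G k) := IX_SB.pow_lf hB hG.conn hG.lf k
  set A : Finset V := insert o (nb (pow G (k - 1)) o) with hA
  have hoA : o ∉ nb (pow G (k - 1)) o := by
    rw [IX_SB.mem_nb hlP]
    exact fun h => h.1 rfl
  have hin : ∀ y ∈ nb (pow G k) o, ∃ z ∈ A, y ∈ insert z (nb G z) := by
    intro y hy
    rw [IX_SB.mem_nb hlQ] at hy
    obtain ⟨z, hz1, hz2⟩ := IX_SB.exists_mid hG.conn hy.2 hy.1.symm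
    refine ⟨z, ?_, ?_⟩
    · rw [hA, Finset.mem_insert, IX_SB.mem_nb hlP]
      by_cases hzo : z = o
      · exact Or.inl hzo
      · exact Or.inr ⟨fun h => hzo h.symm, hz1⟩
    · rw [Finset.mem_insert, IX_SB.mem_nb hG.lf]
      exact hz2
  have hinner : ∀ z : V, ∑ y ∈ insert z (nb G z), √(weight Γ y o) =
      √(weight Γ z o) * (1 + sig Γ G o) := by
    intro z
    have hz : z ∉ nb G z := by
      rw [IX_SB.mem_nb hG.lf]
      exact G.irrefl
    rw [Finset.sum_insert hz, mul_add, mul_one]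
    congr 1
    rw [← (hSM V Γ G hG o z).2.1, Finset.mul_sum]
    refine Finset.sum_congr rfl fun y _ => ?_
    rw [← hmul y z o, Real.sqrt_mul (hpos y z).le, mul_comm]
  have houter : ∑ z ∈ A, √(weight Γ z o) = 1 + sig Γ (pow G (k - 1)) o := by
    rw [hA, Finset.sum_insert hoA, hone, Real.sqrt_one]
    rfl
  calc sig Γ (pow G k) o = ∑ y ∈ nb (pow G k) o, √(weight Γ y o) := rfl
    _ ≤ ∑ y ∈ nb (pow G k) o, ∑ z ∈ A,
          (if y ∈ insert z (nb G z) then √(weight Γ y o) else 0) := by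
        refine Finset.sum_le_sum fun y hy => ?_
        obtain ⟨z, hzA, hz⟩ := hin y hy
        have h1 : (if y ∈ insert z (nb G z) then √(weight Γ y o) else 0) = √(weight Γ y o) :=
          if_pos hz
        refine h1.symm.le.trans ?_
        refine Finset.single_le_sum (f := fun z => if y ∈ insert z (nb G z) then
          √(weight Γ y o) else 0) (fun z _ => ?_) hzA
        split_ifs
        · exact Real.sqrt_nonneg _
        · exact le_rfl
    _ = ∑ z ∈ A, ∑ y ∈ nb (pow G k) o,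
          (if y ∈ insert z (nb G z) then √(weight Γ y o) else 0) := Finset.sum_comm
    _ ≤ ∑ z ∈ A, ∑ y ∈ insert z (nb G z), √(weight Γ y o) := by
        refine Finset.sum_le_sum fun z _ => ?_
        rw [← Finset.sum_filter]
        refine Finset.sum_le_sum_of_subset_of_nonneg ?_ fun y _ _ => Real.sqrt_nonneg _
        intro y hy
        exact (Finset.mem_filter.1 hy).2
    _ = ∑ z ∈ A, √(weight Γ z o) * (1 + sig Γ G o) := Finset.sum_congr rfl fun z _ => hinner z
    _ = (1 + sig Γ (pow G (k - 1)) o) * (1 + sig Γ G o) := by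
        rw [← Finset.sum_mul, houter]

end Pool.Agent.Work.MP_c58d8b_pr.SO
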