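import Pool.Agent.Work.MP_c58d8b_pr.SO.Stmts

/-!
# MP_c58d8b_pr, block SO, item SC: weighted Cheeger inequality
-/

set_option autoImplicit false

namespace Pool.Agent.Work.MP_c58d8b_pr.SO

open MeasureTheory ProbabilityTheory Set
open scoped ENNReal unitInterval Classical

universe u

namespace IX_SC

/-- Cauchy-Schwarz for double sums. -/
theorem cs {V : Type u} (F : Finset V) (N : V → Finset V) (c : V → V → ℝ)
    (hc : ∀ x y, 0 ≤ c x y) (g : V → ℝ) :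
    (∑ x ∈ F, ∑ y ∈ N x, c x y * |g x ^ 2 - g y ^ 2|) ^ 2 ≤
      (∑ x ∈ F, ∑ y ∈ N x, c x y * (g x - g y) ^ 2) *
        (∑ x ∈ F, ∑ y ∈ N x, c x y * (g x + g y) ^ 2) := by
  have h1 := Finset.sum_mul_sq_le_sq_mul_sq (F.sigma N)
    (fun p : (_ : V) × V => √(c p.1 p.2) * |g p.1 - g p.2|)
    (fun p : (_ : V) × V => √(c p.1 p.2) * |g p.1 + g p.2|)
  rw [Finset.sum_sigma, Finset.sum_sigma, Finset.sum_sigma] at h1
  have e1 : ∀ x y, √(c x y) * |g x - g y| * (√(c x y) * |g x + g y|) =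
      c x y * |g x ^ 2 - g y ^ 2| := by
    intro x y
    have h2 : g x ^ 2 - g y ^ 2 = (g x - g y) * (g x + g y) := by ring
    rw [h2, abs_mul]
    have h3 := Real.mul_self_sqrt (hc x y)
    calc √(c x y) * |g x - g y| * (√(c x y) * |g x + g y|)
        = (√(c x y) * √(c x y)) * (|g x - g y| * |g x + g y|) := by ring
      _ = _ := by rw [h3]
  have e2 : ∀ x y t, (√(c x y) * |t|) ^ 2 = c x y * t ^ 2 := by
    intro x y t
    rw [mul_pow, Real.sq_sqrt (hc x y), sq_abs]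
  simp only [e1, e2] at h1
  exact h1

end IX_SC

/-- item SC -/
theorem pr_SC (hW : WeightStmt.{u}) (hWB : StWB.{u}) (hSM : StSM.{u}) (hSA : StSA.{u}) :
    StSC.{u} := by
  intro V Γ G hG hN
  obtain ⟨h, hh, hN⟩ := hN
  obtain ⟨o0⟩ := hG.conn.nonempty
  obtain ⟨w1, w2, w3⟩ := hW V G Γ hG.conn hG.lf hG.pres
  obtain ⟨n1, -⟩ := hWB V G hG.lf
  obtain ⟨Q, hQ0⟩ : ∃ Q : ℝ, Q = sig Γ G o0 := ⟨_, rfl⟩
  have hQ : ∀ x, ∑ y ∈ nb G x, √(weight Γ y x) = Q := fun x => by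
    rw [hQ0]
    exact (hSM V Γ G hG o0 x).2.1
  have hQn : 0 ≤ Q := by
    rw [← hQ o0]
    exact Finset.sum_nonneg fun _ _ => Real.sqrt_nonneg _
  refine ⟨h ^ 2 / (4 * Q ^ 3 + 1), by positivity, ?_⟩
  intro o F g hg
  obtain ⟨s, hs⟩ : ∃ s : V → ℝ, ∀ x, s x = √(weight Γ x o) := ⟨_, fun _ => rfl⟩
  have s0 : ∀ x, 0 ≤ s x := fun x => by rw [hs]; exact Real.sqrt_nonneg _
  have ss : ∀ x, s x * s x = weight Γ x o := fun x => by
    rw [hs]
    exact Real.mul_self_sqrt (w1 x o).le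
  have sm : ∀ x y, √(weight Γ y x) * s x = s y := by
    intro x y
    rw [hs, hs, ← Real.sqrt_mul (w1 y x).le, w3]
  have sg : ∀ x, ∑ y ∈ nb G x, s x * s y = Q * weight Γ x o := by
    intro x
    rw [← hQ x, Finset.sum_mul]
    refine Finset.sum_congr rfl fun y _ => ?_
    rw [← sm x y, ← ss x]
    ring
  have hA : ∀ x, ∀ y ∈ nb G x, weight Γ x o ≤ Q * (s x * s y) := by
    intro x y hy
    have hx : x ∈ nb G y := (n1 y x).2 ((n1 x y).1 hy).symm
    have h1 : √(weight Γ x y) ≤ Q := by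
      rw [← hQ y]
      exact Finset.single_le_sum (f := fun z => √(weight Γ z y))
        (fun _ _ => Real.sqrt_nonneg _) hx
    calc weight Γ x o = √(weight Γ x y) * (s x * s y) := by
          rw [← ss x]
          nth_rewrite 2 [← sm y x]
          ring
      _ ≤ Q * (s x * s y) := mul_le_mul_of_nonneg_right h1 (mul_nonneg (s0 x) (s0 y))
  -- notation
  obtain ⟨A, hAdef⟩ : ∃ A : ℝ, A = ∑ x ∈ F, ∑ y ∈ nb G x, s x * s y * |g x ^ 2 - g y ^ 2| :=
    ⟨_, rfl⟩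
  obtain ⟨B, hBdef⟩ : ∃ B : ℝ, B = ∑ x ∈ F, ∑ y ∈ nb G x, s x * s y * (g x - g y) ^ 2 :=
    ⟨_, rfl⟩
  obtain ⟨D, hDdef⟩ : ∃ D : ℝ, D = ∑ x ∈ F, ∑ y ∈ nb G x, s x * s y * (g x + g y) ^ 2 :=
    ⟨_, rfl⟩
  have hCS : A ^ 2 ≤ B * D := by
    rw [hAdef, hBdef, hDdef]
    exact IX_SC.cs F (nb G) (fun x y => s x * s y) (fun x y => mul_nonneg (s0 x) (s0 y)) g
  have hNn : 0 ≤ Nw Γ o F g :=
    Finset.sum_nonneg fun x _ => mul_nonneg (w1 x o).le (sq_nonneg _)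
  have hE : B ≤ En Γ G o F g := by
    rw [hBdef]
    have h1 : En Γ G o F g = ∑ x ∈ Fn G F, ∑ y ∈ nb G x, s x * s y * (g x - g y) ^ 2 := by
      show ∑ x ∈ Fn G F, ∑ y ∈ nb G x, √(weight Γ x o) * √(weight Γ y o) * (g x - g y) ^ 2 = _
      refine Finset.sum_congr rfl fun x _ => Finset.sum_congr rfl fun y _ => ?_
      rw [hs, hs]
    rw [h1]
    refine Finset.sum_le_sum_of_subset_of_nonneg (fun x hx => Finset.mem_union_left _ hx)
      fun x _ _ => Finset.sum_nonneg fun y _ => ?_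
    exact mul_nonneg (mul_nonneg (s0 x) (s0 y)) (sq_nonneg _)
  have hB0 : 0 ≤ B := by
    rw [hBdef]
    exact Finset.sum_nonneg fun x _ => Finset.sum_nonneg fun y _ =>
      mul_nonneg (mul_nonneg (s0 x) (s0 y)) (sq_nonneg _)
  -- the two simple sums
  have hX1 : ∑ x ∈ F, ∑ y ∈ nb G x, s x * s y * g x ^ 2 = Q * Nw Γ o F g := by
    show _ = Q * ∑ x ∈ F, weight Γ x o * g x ^ 2
    rw [Finset.mul_sum]
    refine Finset.sum_congr rfl fun x _ => ?_
    rw [← Finset.sum_mul, sg]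
    ring
  have hX2 : ∑ x ∈ F, ∑ y ∈ nb G x, s x * s y * g y ^ 2 ≤ Q * Nw Γ o F g := by
    have h1 : ∑ x ∈ F, ∑ y ∈ nb G x, s x * s y * g y ^ 2 =
        ∑ x ∈ F, ∑ y ∈ (nb G x).filter (· ∈ F), s x * s y * g y ^ 2 := by
      refine Finset.sum_congr rfl fun x _ => ?_
      symm
      refine Finset.sum_subset (Finset.filter_subset _ _) fun y hy hyF => ?_
      have h2 : y ∉ F := fun h3 => hyF (Finset.mem_filter.2 ⟨hy, h3⟩)
      rw [hg y h2]
      ring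
    have h2 : ∑ x ∈ F, ∑ y ∈ (nb G x).filter (· ∈ F), s x * s y * g y ^ 2 =
        ∑ y ∈ F, ∑ x ∈ (nb G y).filter (· ∈ F), s x * s y * g y ^ 2 := by
      refine Finset.sum_comm' fun x y => ?_
      simp only [Finset.mem_filter, n1]
      constructor
      · rintro ⟨a, b, c⟩
        exact ⟨⟨b.symm, a⟩, c⟩
      · rintro ⟨⟨a, b⟩, c⟩
        exact ⟨b, a.symm, c⟩
    have h3 : ∑ y ∈ F, ∑ x ∈ (nb G y).filter (· ∈ F), s x * s y * g y ^ 2 ≤
        ∑ y ∈ F, ∑ x ∈ nb G y, s x * s y * g y ^ 2 := by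
      refine Finset.sum_le_sum fun y _ => ?_
      refine Finset.sum_le_sum_of_subset_of_nonneg (Finset.filter_subset _ _) fun x _ _ => ?_
      exact mul_nonneg (mul_nonneg (s0 x) (s0 y)) (sq_nonneg _)
    have h4 : ∑ y ∈ F, ∑ x ∈ nb G y, s x * s y * g y ^ 2 = Q * Nw Γ o F g := by
      rw [← hX1]
      refine Finset.sum_congr rfl fun x _ => Finset.sum_congr rfl fun y _ => ?_
      ring
    rw [h1, h2]
    exact h3.trans h4.le
  have hD : D ≤ 4 * Q * Nw Γ o F g := by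
    have h1 : D ≤ ∑ x ∈ F, ∑ y ∈ nb G x, (2 * (s x * s y * g x ^ 2) +
        2 * (s x * s y * g y ^ 2)) := by
      rw [hDdef]
      refine Finset.sum_le_sum fun x _ => Finset.sum_le_sum fun y _ => ?_
      have h2 := mul_nonneg (s0 x) (s0 y)
      nlinarith [mul_nonneg h2 (sq_nonneg (g x - g y))]
    simp only [Finset.sum_add_distrib, ← Finset.mul_sum] at h1
    linarith
  -- the coarea inequality
  have hS := hSA V Γ G hG h o hh.le (fun x => (w1 x o).le) (fun K => hN o K) F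
    (fun x => g x ^ 2) (fun x => sq_nonneg _) (fun x hx => by
      show g x ^ 2 = 0
      rw [hg x hx]
      ring)
  have hS2 : h * Nw Γ o F g ≤ Q * A := by
    refine hS.trans ?_
    rw [hAdef, Finset.mul_sum]
    refine Finset.sum_le_sum fun x _ => ?_
    rw [Finset.mul_sum]
    refine Finset.sum_le_sum fun y hy => ?_
    have h1 : max (g x ^ 2 - g y ^ 2) 0 ≤ |g x ^ 2 - g y ^ 2| :=
      max_le (le_abs_self _) (abs_nonneg _)
    calc weight Γ x o * max (g x ^ 2 - g y ^ 2) 0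
        ≤ weight Γ x o * |g x ^ 2 - g y ^ 2| := mul_le_mul_of_nonneg_left h1 (w1 x o).le
      _ ≤ (Q * (s x * s y)) * |g x ^ 2 - g y ^ 2| :=
          mul_le_mul_of_nonneg_right (hA x y hy) (abs_nonneg _)
      _ = Q * (s x * s y * |g x ^ 2 - g y ^ 2|) := by ring
  have hEn : 0 ≤ En Γ G o F g := hB0.trans hE
  rcases eq_or_lt_of_le hNn with h0 | h0
  · rw [← h0, mul_zero]
    exact hEn
  · have hq : (h * Nw Γ o F g) ^ 2 ≤ (Q * A) ^ 2 :=
      pow_le_pow_left₀ (mul_nonneg hh.le hNn) hS2 2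
    have hBD : B * D ≤ En Γ G o F g * (4 * Q * Nw Γ o F g) := by
      have hD0 : 0 ≤ D := by
        rw [hDdef]
        exact Finset.sum_nonneg fun x _ => Finset.sum_nonneg fun y _ =>
          mul_nonneg (mul_nonneg (s0 x) (s0 y)) (sq_nonneg _)
      exact mul_le_mul hE hD hD0 hEn
    have h1 : h ^ 2 * Nw Γ o F g * Nw Γ o F g ≤
        (4 * Q ^ 3 * En Γ G o F g) * Nw Γ o F g := by
      have h2 : (Q * A) ^ 2 ≤ Q ^ 2 * (En Γ G o F g * (4 * Q * Nw Γ o F g)) := by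
        rw [mul_pow]
        exact mul_le_mul_of_nonneg_left (hCS.trans hBD) (sq_nonneg _)
      nlinarith
    have h3 : h ^ 2 * Nw Γ o F g ≤ 4 * Q ^ 3 * En Γ G o F g := le_of_mul_le_mul_right h1 h0
    rw [div_mul_eq_mul_div, div_le_iff₀ (by positivity)]
    nlinarith

end Pool.Agent.Work.MP_c58d8b_pr.SO
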