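import Pool.Agent.Work.MP_c58d8b_pr.SO.Stmts

/-!
# MP_c58d8b_pr, block SO, item SE: the energy is monotone in the graph
-/

set_option autoImplicit false

namespace Pool.Agent.Work.MP_c58d8b_pr.SO

open MeasureTheory ProbabilityTheory Set
open scoped ENNReal unitInterval Classical

universe u

namespace IX_SE

theorem nb_mono {V : Type u} {H H' : SimpleGraph V} (hH : H ≤ H')
    (hf : ∀ x, (H'.neighborSet x).Finite) (x : V) : nb H x ⊆ nb H' x := by
  have hs : H.neighborSet x ⊆ H'.neighborSet x := fun y hy => hH hy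
  have h1 : (H.neighborSet x).Finite := (hf x).subset hs
  unfold nb
  rw [dif_pos h1, dif_pos (hf x)]
  exact Set.Finite.toFinset_subset_toFinset.mpr hs

theorem Fn_mono {V : Type u} {H H' : SimpleGraph V} (hH : H ≤ H')
    (hf : ∀ x, (H'.neighborSet x).Finite) (F : Finset V) : Fn H F ⊆ Fn H' F := by
  unfold Fn
  refine Finset.union_subset_union (Finset.Subset.refl F) ?_
  exact Finset.biUnion_mono fun x _ => nb_mono hH hf x

end IX_SE

theorem pr_SE : StSE.{u} := by
  intro V Γ H H' hH hf o F g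
  have hf' : ∀ x, (H'.neighborSet x).Finite := fun x => hf x
  have hpos : ∀ x y : V, 0 ≤ √(weight Γ x o) * √(weight Γ y o) * (g x - g y) ^ 2 := fun x y =>
    mul_nonneg (mul_nonneg (Real.sqrt_nonneg _) (Real.sqrt_nonneg _)) (sq_nonneg _)
  unfold En
  calc ∑ x ∈ Fn H F, ∑ y ∈ nb H x, √(weight Γ x o) * √(weight Γ y o) * (g x - g y) ^ 2
      ≤ ∑ x ∈ Fn H F, ∑ y ∈ nb H' x, √(weight Γ x o) * √(weight Γ y o) * (g x - g y) ^ 2 := by
        refine Finset.sum_le_sum fun x _ => ?_
        exact Finset.sum_le_sum_of_subset_of_nonneg (IX_SE.nb_mono hH hf' x)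
          fun y _ _ => hpos x y
    _ ≤ ∑ x ∈ Fn H' F, ∑ y ∈ nb H' x, √(weight Γ x o) * √(weight Γ y o) * (g x - g y) ^ 2 :=
        Finset.sum_le_sum_of_subset_of_nonneg (IX_SE.Fn_mono hH hf' F)
          fun x _ _ => Finset.sum_nonneg fun y _ => hpos x y

end Pool.Agent.Work.MP_c58d8b_pr.SO
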