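import Pool.Agent.Work.MP_c58d8b_pr.SO.Stmts

/-!
# MP_c58d8b_pr, block SO, item SG: the uniform spectral gap
-/

set_option autoImplicit false

namespace Pool.Agent.Work.MP_c58d8b_pr.SO

open MeasureTheory ProbabilityTheory Set
open scoped ENNReal unitInterval Classical

universe u

theorem pr_SG (hW : WeightStmt.{u}) (hSI : StSI.{u}) (hSC : StSC.{u}) (hSP : StSP.{u})
    (hSE : StSE.{u}) : StSG.{u} := by
  intro V Γ G hG hNA C hC
  obtain ⟨η, hη, h1⟩ := hSC V Γ G hG hNA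
  obtain ⟨B, hB, h2⟩ := hSP V Γ G hG
  have hC0 : 0 < C := lt_of_lt_of_le one_pos hC
  have hd0 : 0 < η / (2 * B * C) := by positivity
  refine ⟨min (η / (2 * B * C)) (1 / 2), lt_min hd0 (by norm_num),
    lt_of_le_of_lt (min_le_right _ _) (by norm_num), ?_⟩
  intro k hk H hH hle o hsig F f
  obtain ⟨w0, -, -⟩ := hW V H Γ hH.conn hH.lf hH.pres
  have hd1 : min (η / (2 * B * C)) (1 / 2) ≤ η / (2 * B * C) := min_le_left _ _
  generalize min (η / (2 * B * C)) (1 / 2) = δ at hd1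
  have hsq : ∀ x, 0 < √(weight Γ x o) := fun x => Real.sqrt_pos.2 (w0 x o)
  obtain ⟨g, hg⟩ : ∃ g : V → ℝ, g = fun x => if x ∈ F then f x / √(weight Γ x o) else 0 := ⟨_, rfl⟩
  have hg0 : ∀ x, x ∉ F → g x = 0 := by
    intro x hx
    rw [hg]
    exact if_neg hx
  have hgF : ∀ x, x ∈ F → √(weight Γ x o) * g x = f x := by
    intro x hx
    rw [hg]
    simp only [if_pos hx]
    rw [mul_div_cancel₀]
    exact (hsq x).ne'
  have hNw : Nw Γ o F g = ∑ x ∈ F, f x ^ 2 := by
    unfold Nw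
    refine Finset.sum_congr rfl fun x hx => ?_
    rw [← hgF x hx, mul_pow, Real.sq_sqrt (w0 x o).le]
  have hX : ∑ x ∈ F, ∑ y ∈ (nb H x).filter (· ∈ F),
      (√(weight Γ x o) * g x) * (√(weight Γ y o) * g y) =
      ∑ x ∈ F, ∑ y ∈ (nb H x).filter (· ∈ F), f x * f y := by
    refine Finset.sum_congr rfl fun x hx => Finset.sum_congr rfl fun y hy => ?_
    rw [hgF x hx, hgF y (Finset.mem_filter.1 hy).2]
  have hE := hSI V Γ H hH o F g hg0
  rw [hX] at hE
  have e1 := hSE V Γ (pow G k) H hle hH.lf o F g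
  have e2 := h2 k hk o F g hg0
  have e3 := h1 o F g hg0
  have hs0 : 0 ≤ sig Γ (pow G k) o := Finset.sum_nonneg fun y _ => Real.sqrt_nonneg _
  have hq0 : 0 ≤ sig Γ H o := Finset.sum_nonneg fun y _ => Real.sqrt_nonneg _
  have hN0 : 0 ≤ Nw Γ o F g := by
    rw [hNw]
    exact Finset.sum_nonneg fun x _ => sq_nonneg _
  rw [← hNw]
  generalize Nw Γ o F g = N at *
  generalize En Γ H o F g = E at *
  generalize En Γ (pow G k) o F g = E' at *
  generalize En Γ G o F g = E'' at *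
  generalize sig Γ (pow G k) o = s at *
  generalize sig Γ H o = q at *
  generalize ∑ x ∈ F, ∑ y ∈ (nb H x).filter (· ∈ F), f x * f y = X at *
  -- B * E ≥ s * η * N
  have k1 : s * (η * N) ≤ B * E := by
    calc s * (η * N) ≤ s * E'' := mul_le_mul_of_nonneg_left e3 hs0
      _ ≤ B * E' := e2
      _ ≤ B * E := mul_le_mul_of_nonneg_left e1 hB.le
  have k2 : q * (η * N) ≤ C * (B * E) := by
    calc q * (η * N) ≤ C * s * (η * N) :=
          mul_le_mul_of_nonneg_right hsig (mul_nonneg hη.le hN0)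
      _ = C * (s * (η * N)) := by ring
      _ ≤ C * (B * E) := mul_le_mul_of_nonneg_left k1 hC0.le
  have k3 : 2 * (η / (2 * B * C)) * (q * N) ≤ E := by
    have : 2 * (η / (2 * B * C)) * (q * N) = (q * (η * N)) / (C * B) := by
      field_simp
    rw [this, div_le_iff₀ (mul_pos hC0 hB)]
    linarith [k2]
  have k4 : δ * (q * N) ≤ η / (2 * B * C) * (q * N) :=
    mul_le_mul_of_nonneg_right hd1 (mul_nonneg hq0 hN0)
  nlinarith [k3, k4, hE]

end Pool.Agent.Work.MP_c58d8b_pr.SO
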