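import Pool.Agent.Work.MP_c58d8b_pr.SO.Stmts

/-!
# Block SO, item SI: the energy identity
-/

set_option autoImplicit false

namespace Pool.Agent.Work.MP_c58d8b_pr.SO

open MeasureTheory ProbabilityTheory Set
open scoped ENNReal unitInterval Classical

universe u

namespace IX_SI

variable {V : Type u}

theorem swap_sum (H : SimpleGraph V) (hnb : ∀ x y, y ∈ nb H x ↔ H.Adj x y) (F : Finset V)
    (f : V → V → ℝ) :
    ∑ x ∈ Fn H F, ∑ y ∈ (nb H x).filter (· ∈ F), f x y = ∑ y ∈ F, ∑ x ∈ nb H y, f x y := by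
  refine Finset.sum_comm' fun x y => ?_
  simp only [Finset.mem_filter, Fn, Finset.mem_union, Finset.mem_biUnion, hnb]
  constructor
  · rintro ⟨-, h1, h2⟩
    exact ⟨h1.symm, h2⟩
  · rintro ⟨h1, h2⟩
    exact ⟨Or.inr ⟨y, h2, h1⟩, h1.symm, h2⟩

theorem restr_x (H : SimpleGraph V) (F : Finset V) (f : V → V → ℝ)
    (hf : ∀ x, x ∉ F → ∀ y, f x y = 0) :
    ∑ x ∈ Fn H F, ∑ y ∈ nb H x, f x y = ∑ x ∈ F, ∑ y ∈ nb H x, f x y := by
  symm
  refine Finset.sum_subset (fun x hx => ?_) fun x _ hx => ?_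
  · unfold Fn
    exact Finset.mem_union_left _ hx
  · exact Finset.sum_eq_zero fun y _ => hf x hx y

theorem restr_y (H : SimpleGraph V) (F G : Finset V) (f : V → V → ℝ)
    (hf : ∀ y, y ∉ F → ∀ x, f x y = 0) :
    ∑ x ∈ G, ∑ y ∈ nb H x, f x y = ∑ x ∈ G, ∑ y ∈ (nb H x).filter (· ∈ F), f x y := by
  refine Finset.sum_congr rfl fun x _ => ?_
  symm
  refine Finset.sum_subset (Finset.filter_subset _ _) fun y hy h2 => ?_
  refine hf y (fun h3 => h2 ?_) x
  exact Finset.mem_filter.2 ⟨hy, h3⟩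

end IX_SI

open IX_SI in
/-- item SI -/
theorem pr_SI (hW : WeightStmt.{u}) (hWB : StWB.{u}) (hSM : StSM.{u}) : StSI.{u} := by
  intro V Γ H hG o F g hg
  obtain ⟨hpos, -, hmul⟩ := hW V H Γ hG.conn hG.lf hG.pres
  have hnb := (hWB V H hG.lf).1
  have hsum : ∀ x, ∑ y ∈ nb H x, √(weight Γ y o) = √(weight Γ x o) * sig Γ H o := by
    intro x
    rw [← (hSM V Γ H hG o x).2.1, Finset.mul_sum]
    refine Finset.sum_congr rfl fun y _ => ?_
    rw [← hmul y x o, Real.sqrt_mul (hpos y x).le, mul_comm]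
  have hsq : ∀ x, √(weight Γ x o) * √(weight Γ x o) = weight Γ x o := fun x =>
    Real.mul_self_sqrt (hpos x o).le
  have hT : ∀ x, ∑ y ∈ nb H x, √(weight Γ x o) * √(weight Γ y o) * g x ^ 2 =
      sig Γ H o * (weight Γ x o * g x ^ 2) := by
    intro x
    have e1 : ∑ y ∈ nb H x, √(weight Γ x o) * √(weight Γ y o) * g x ^ 2 =
        √(weight Γ x o) * (∑ y ∈ nb H x, √(weight Γ y o)) * g x ^ 2 := by
      rw [Finset.mul_sum, Finset.sum_mul]
    rw [e1, hsum, ← mul_assoc, hsq]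
    ring
  have h1 : ∑ x ∈ Fn H F, ∑ y ∈ nb H x, √(weight Γ x o) * √(weight Γ y o) * g x ^ 2 =
      sig Γ H o * Nw Γ o F g := by
    rw [restr_x H F _ (fun x hx y => by rw [hg x hx]; ring), Nw, Finset.mul_sum]
    exact Finset.sum_congr rfl fun x _ => hT x
  have h2 : ∑ x ∈ Fn H F, ∑ y ∈ nb H x, √(weight Γ x o) * √(weight Γ y o) * g y ^ 2 =
      sig Γ H o * Nw Γ o F g := by
    rw [restr_y H F _ _ (fun y hy x => by rw [hg y hy]; ring), swap_sum H hnb, Nw, Finset.mul_sum]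
    refine Finset.sum_congr rfl fun y _ => ?_
    rw [← hT y]
    exact Finset.sum_congr rfl fun x _ => by ring
  have h3 : ∑ x ∈ Fn H F, ∑ y ∈ nb H x, (√(weight Γ x o) * g x) * (√(weight Γ y o) * g y) =
      ∑ x ∈ F, ∑ y ∈ (nb H x).filter (· ∈ F), (√(weight Γ x o) * g x) * (√(weight Γ y o) * g y) := by
    rw [restr_x H F _ (fun x hx y => by rw [hg x hx]; ring),
      restr_y H F _ _ (fun y hy x => by rw [hg y hy]; ring)]
  have h4 : En Γ H o F g =
      ∑ x ∈ Fn H F, ∑ y ∈ nb H x, √(weight Γ x o) * √(weight Γ y o) * g x ^ 2 +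
      ∑ x ∈ Fn H F, ∑ y ∈ nb H x, √(weight Γ x o) * √(weight Γ y o) * g y ^ 2 -
      2 * ∑ x ∈ Fn H F, ∑ y ∈ nb H x, (√(weight Γ x o) * g x) * (√(weight Γ y o) * g y) := by
    rw [En, ← Finset.sum_add_distrib, Finset.mul_sum, ← Finset.sum_sub_distrib]
    refine Finset.sum_congr rfl fun x _ => ?_
    rw [← Finset.sum_add_distrib, Finset.mul_sum, ← Finset.sum_sub_distrib]
    exact Finset.sum_congr rfl fun y _ => by ring
  rw [h4, h1, h2, h3]
  ring

end Pool.Agent.Work.MP_c58d8b_pr.SO
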