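import Pool.Agent.Work.MP_c58d8b_pr.SO.Stmts

/-!
# MP_c58d8b_pr, block SO, item SM: sums over neighbours
-/

set_option autoImplicit false

namespace Pool.Agent.Work.MP_c58d8b_pr.SO

open MeasureTheory ProbabilityTheory Set
open scoped ENNReal unitInterval Classical

universe u

namespace IX_SM

/-- an invariant function has the same sum over the neighbours of every vertex -/
theorem inv_sum {V : Type u} (Γ : Subgroup (Equiv.Perm V)) (H : SimpleGraph V) (hG : Good Γ H)
    (wb1 : ∀ x y, y ∈ nb H x ↔ H.Adj x y) (F : V → V → ℝ)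
    (hF : ∀ γ ∈ Γ, ∀ y x, F (γ y) (γ x) = F y x) (o x : V) :
    ∑ y ∈ nb H x, F y x = ∑ y ∈ nb H o, F y o := by
  obtain ⟨γ, hγ, hγx⟩ := hG.tr x o
  apply Finset.sum_equiv γ
  · intro y
    rw [wb1, wb1, ← hγx]
    exact (hG.pres γ hγ x y).symm
  · intro y _
    rw [← hγx]
    exact (hF γ hγ y x).symm

/-- the one step identity -/
theorem step_id (w : ℝ) (hw : 0 < w) :
    ENNReal.ofReal (√(w⁻¹) * max (Real.log (w⁻¹)) 0) * ENNReal.ofReal w =
      ENNReal.ofReal (√w * max (-Real.log w) 0) := by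
  have h0 : 0 ≤ √(w⁻¹) * max (Real.log (w⁻¹)) 0 :=
    mul_nonneg (Real.sqrt_nonneg _) (le_max_right _ _)
  rw [← ENNReal.ofReal_mul h0]
  congr 1
  rw [Real.log_inv, Real.sqrt_inv]
  have h1 : 0 < √w := Real.sqrt_pos.2 hw
  have h2 : √w * √w = w := Real.mul_self_sqrt hw.le
  have h3 : (√w)⁻¹ * w = √w := by
    rw [inv_mul_eq_iff_eq_mul₀ h1.ne', h2]
  calc (√w)⁻¹ * max (-Real.log w) 0 * w = ((√w)⁻¹ * w) * max (-Real.log w) 0 := by ring
    _ = √w * max (-Real.log w) 0 := by rw [h3]

end IX_SM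

theorem pr_SM (hW : WeightStmt.{u}) (hM : MtpStmt.{u}) (hWB : StWB.{u}) : StSM.{u} := by
  intro V Γ H hG o x
  obtain ⟨hW0, hW1, hW2⟩ := hW V H Γ hG.conn hG.lf hG.pres
  obtain ⟨wb1, -, -, -, -⟩ := hWB V H hG.lf
  have hww : ∀ z, weight Γ z z = 1 := by
    intro z
    have h1 := hW2 z z z
    have h2 := hW0 z z
    have h3 : weight Γ z z * weight Γ z z = 1 * weight Γ z z := by rw [h1, one_mul]
    exact mul_right_cancel₀ h2.ne' h3
  have hinv : ∀ y z, weight Γ z y = (weight Γ y z)⁻¹ := by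
    intro y z
    have h1 := hW2 z y z
    rw [hww] at h1
    exact eq_inv_of_mul_eq_one_left h1
  refine ⟨?_, ?_, ?_, ?_⟩
  · have h1 := IX_SM.inv_sum Γ H hG wb1 (fun _ _ => 1) (fun _ _ _ _ => rfl) o x
    simp only [Finset.sum_const, nsmul_eq_mul, mul_one] at h1
    exact_mod_cast h1
  · exact IX_SM.inv_sum Γ H hG wb1 (fun y z => √(weight Γ y z))
      (fun γ hγ y z => by simp only [hW1 γ hγ]) o x
  · exact IX_SM.inv_sum Γ H hG wb1 (fun y z => √(weight Γ y z) * |Real.log (weight Γ y z)|)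
      (fun γ hγ y z => by simp only [hW1 γ hγ]) o x
  · set f : V → V → ℝ≥0∞ := fun a b =>
      if b ∈ nb H a then ENNReal.ofReal (√(weight Γ b a) * max (Real.log (weight Γ b a)) 0)
      else 0 with hf
    have hfinv : ∀ γ ∈ Γ, ∀ a b, f (γ a) (γ b) = f a b := by
      intro γ hγ a b
      simp only [hf, hW1 γ hγ, wb1, hG.pres γ hγ]
    have hm := hM V H Γ hG.conn hG.lf hG.pres hG.tr f hfinv x
    have hR : ∑' y, f x y =
        ENNReal.ofReal (∑ y ∈ nb H x, √(weight Γ y x) * max (Real.log (weight Γ y x)) 0) := by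
      rw [tsum_eq_sum (s := nb H x) (by
        intro y hy
        simp only [hf, hy, if_false])]
      rw [ENNReal.ofReal_sum_of_nonneg (fun y _ =>
        mul_nonneg (Real.sqrt_nonneg _) (le_max_right _ _))]
      apply Finset.sum_congr rfl
      intro y hy
      simp only [hf, hy, if_true]
    have hL : ∑' y, f y x * ENNReal.ofReal (weight Γ y x) =
        ENNReal.ofReal (∑ y ∈ nb H x, √(weight Γ y x) * max (-Real.log (weight Γ y x)) 0) := by
      rw [tsum_eq_sum (s := nb H x) (by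
        intro y hy
        have h1 : x ∉ nb H y := by
          intro h
          apply hy
          rw [wb1] at h ⊢
          exact h.symm
        simp only [hf, h1, if_false, zero_mul])]
      rw [ENNReal.ofReal_sum_of_nonneg (fun y _ =>
        mul_nonneg (Real.sqrt_nonneg _) (le_max_right _ _))]
      apply Finset.sum_congr rfl
      intro y hy
      have h1 : x ∈ nb H y := by
        rw [wb1] at hy ⊢
        exact hy.symm
      simp only [hf, h1, if_true]
      rw [hinv y x]
      exact IX_SM.step_id _ (hW0 y x)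
    rw [hL, hR] at hm
    have hn1 : 0 ≤ ∑ y ∈ nb H x, √(weight Γ y x) * max (-Real.log (weight Γ y x)) 0 :=
      Finset.sum_nonneg fun y _ => mul_nonneg (Real.sqrt_nonneg _) (le_max_right _ _)
    have hn2 : 0 ≤ ∑ y ∈ nb H x, √(weight Γ y x) * max (Real.log (weight Γ y x)) 0 :=
      Finset.sum_nonneg fun y _ => mul_nonneg (Real.sqrt_nonneg _) (le_max_right _ _)
    have hm2 := (ENNReal.ofReal_eq_ofReal_iff hn1 hn2).1 hm
    have h5 : ∑ y ∈ nb H x, √(weight Γ y x) * Real.log (weight Γ y x) =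
        ∑ y ∈ nb H x, √(weight Γ y x) * max (Real.log (weight Γ y x)) 0 -
        ∑ y ∈ nb H x, √(weight Γ y x) * max (-Real.log (weight Γ y x)) 0 := by
      rw [← Finset.sum_sub_distrib]
      apply Finset.sum_congr rfl
      intro y _
      rw [← mul_sub]
      congr 1
      exact (max_zero_sub_max_neg_zero_eq_self _).symm
    rw [h5, hm2, sub_self]

end Pool.Agent.Work.MP_c58d8b_pr.SO
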