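import Pool.Agent.Work.MP_c58d8b_pr.SO.Stmts

/-!
# MP_c58d8b_pr, block SO, item SP (helper78): comparison of energies
-/

set_option autoImplicit false

namespace Pool.Agent.Work.MP_c58d8b_pr.SO

open MeasureTheory ProbabilityTheory Set
open scoped ENNReal unitInterval Classical

universe u

namespace IX_SP

variable {V : Type u}

theorem nb_pow_zero (G : SimpleGraph V) (hc : G.Connected) (x : V) : nb (pow G 0) x = ∅ := by
  have h : (pow G 0).neighborSet x = ∅ := by
    ext y
    simp only [SimpleGraph.mem_neighborSet, Set.mem_empty_iff_false, iff_false]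
    rintro ⟨h1, h2⟩
    exact h1 (hc.dist_eq_zero_iff.1 (Nat.le_zero.1 h2))
  unfold nb
  split_ifs with hf
  · ext y
    rw [Set.Finite.mem_toFinset, h]
    simp
  · rfl

end IX_SP

open IX_SP in
/-- item **SP** -/
theorem pr_SP (hW : WeightStmt.{u}) (hWB : StWB.{u}) (hSM : StSM.{u}) (hSB : StSB.{u}) :
    StSP.{u} := by
  intro V Γ G hG
  obtain ⟨o0⟩ := hG.conn.nonempty
  set sg : ℝ := sig Γ G o0 with hsg
  set D : ℕ := (nb G o0).card with hD
  have hsg0 : 0 ≤ sg := Finset.sum_nonneg fun _ _ => Real.sqrt_nonneg _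
  have hsgo : ∀ o, sig Γ G o = sg := fun o => (hSM V Γ G hG o0 o).2.1
  have hDo : ∀ x, (nb G x).card = D := fun x => (hSM V Γ G hG o0 x).1
  obtain ⟨hwpos, -, hwmul⟩ := hW V G Γ hG.conn hG.lf hG.pres
  have hmem := (hWB V G hG.lf).1
  refine ⟨(1 + sg) * (2 * D * (sg + 1)) + 1, by positivity, ?_⟩
  intro k hk o F g hg
  -- the powers
  obtain ⟨hgk, hGk, hsb⟩ := hSB V Γ G hG k hk
  have hmemK := (hWB V (pow G k) hgk.lf).1
  have hJ : ∀ x, (∀ z, z ∈ nb (pow G (k - 1)) x → x ≠ z ∧ G.dist x z ≤ k - 1) ∧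
      ∑ z ∈ nb (pow G (k - 1)) x, √(weight Γ z x) = sig Γ (pow G (k - 1)) o := by
    intro x
    rcases Nat.eq_zero_or_pos (k - 1) with h0 | h0
    · rw [h0]
      unfold sig
      rw [nb_pow_zero G hG.conn x, nb_pow_zero G hG.conn o]
      refine ⟨fun z hz => absurd hz (Finset.notMem_empty z), by simp⟩
    · obtain ⟨hgj, -, -⟩ := hSB V Γ G hG (k - 1) h0
      refine ⟨fun z hz => ?_, (hSM V Γ (pow G (k - 1)) hgj o x).2.1⟩
      exact ((hWB V (pow G (k - 1)) hgj.lf).1 x z).1 hz
  set s1 : ℝ := 1 + sig Γ (pow G (k - 1)) o with hs1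
  have hsigJ : 0 ≤ sig Γ (pow G (k - 1)) o := Finset.sum_nonneg fun _ _ => Real.sqrt_nonneg _
  set W : V → ℝ := fun x => √(weight Γ x o) with hWdef
  have hW0 : ∀ x, 0 ≤ W x := fun x => Real.sqrt_nonneg _
  have hWmul : ∀ x z, W z = √(weight Γ z x) * W x := by
    intro x z
    rw [hWdef]
    simp only
    rw [← Real.sqrt_mul (hwpos z x).le, hwmul]
  set B : V → Finset V := fun x => insert x (nb (pow G (k - 1)) x) with hBdef
  have hBsum : ∀ x, ∑ z ∈ B x, W z = s1 * W x := by
    intro x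
    rw [hBdef]
    simp only
    rw [Finset.sum_insert (fun h => ((hJ x).1 x h).1 rfl)]
    have e1 : ∑ z ∈ nb (pow G (k - 1)) x, W z = sig Γ (pow G (k - 1)) o * W x := by
      rw [← (hJ x).2, Finset.sum_mul]
      exact Finset.sum_congr rfl fun z _ => hWmul x z
    rw [e1, hs1]
    ring
  have hBdist : ∀ x z, z ∈ B x → G.dist x z ≤ k - 1 := by
    intro x z hz
    rcases Finset.mem_insert.1 hz with h | h
    · rw [h, SimpleGraph.dist_self]
      exact Nat.zero_le _
    · exact ((hJ x).1 z h).2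
  -- the energy of the power
  set φ : V → V → ℝ := fun u z => W u * W z * (g u - g z) ^ 2 with hφ
  have hφ0 : ∀ u z, 0 ≤ φ u z := fun u z => mul_nonneg (mul_nonneg (hW0 u) (hW0 z)) (sq_nonneg _)
  have hφself : ∀ u, φ u u = 0 := by
    intro u
    rw [hφ]
    simp
  set χ : V → ℝ := fun u => ∑ z ∈ nb (pow G k) u, φ u z with hχ
  have hχ0 : ∀ u, 0 ≤ χ u := fun u => Finset.sum_nonneg fun z _ => hφ0 u z
  set U : Finset V := Fn (pow G k) F with hU
  have hEk : En Γ (pow G k) o F g = ∑ u ∈ U, χ u := rfl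
  have hEk0 : 0 ≤ En Γ (pow G k) o F g := by
    rw [hEk]
    exact Finset.sum_nonneg fun u _ => hχ0 u
  -- a ball of radius `k` is contained in the neighbours
  have hball : ∀ (u : V) (S : Finset V), (∀ z ∈ S, G.dist u z ≤ k) → ∑ z ∈ S, φ u z ≤ χ u := by
    intro u S hS
    have e1 : ∑ z ∈ S, φ u z = ∑ z ∈ S.erase u, φ u z := by
      by_cases hu : u ∈ S
      · rw [← Finset.add_sum_erase S _ hu, hφself, zero_add]
      · rw [Finset.erase_eq_of_notMem hu]
    rw [e1]
    refine Finset.sum_le_sum_of_subset_of_nonneg ?_ fun z _ _ => hφ0 u z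
    intro z hz
    rw [Finset.mem_erase] at hz
    rw [hmemK]
    exact ⟨fun h => hz.1 h.symm, hS z hz.2⟩
  have hFn : Fn G F ⊆ U := by
    intro x hx
    rw [hU]
    unfold Fn at hx ⊢
    rw [Finset.mem_union, Finset.mem_biUnion] at hx ⊢
    rcases hx with h | ⟨y, hy, h⟩
    · exact Or.inl h
    · refine Or.inr ⟨y, hy, ?_⟩
      rw [hmem] at h
      rw [hmemK]
      exact hGk h
  have hUmem : ∀ u z, z ∈ F → u ≠ z → G.dist u z ≤ k → u ∈ U := by
    intro u z hz huz hd
    rw [hU]
    unfold Fn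
    rw [Finset.mem_union, Finset.mem_biUnion]
    refine Or.inr ⟨z, hz, ?_⟩
    rw [hmemK]
    exact ⟨fun h => huz h.symm, by rw [G.dist_comm]; exact hd⟩
  have hdist1 : ∀ x x', x' ∈ nb G x → G.dist x x' ≤ 1 := by
    intro x x' hx
    rw [hmem] at hx
    exact (SimpleGraph.dist_eq_one_iff_adj.2 hx).le
  have hdistk : ∀ x x' z, x' ∈ nb G x → z ∈ B x → G.dist x' z ≤ k := by
    intro x x' z hx hz
    have e1 := hdist1 x x' hx
    have e2 := hBdist x z hz
    have e3 := hG.conn.dist_triangle (u := x') (v := x) (w := z)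
    rw [G.dist_comm (u := x') (v := x)] at e3
    omega
  -- the first sum
  have hfirst : ∑ x ∈ Fn G F, ∑ x' ∈ nb G x, ∑ z ∈ B x, W z * W x' * (g x - g z) ^ 2 ≤
      D * sg * En Γ (pow G k) o F g := by
    have e1 : ∀ x ∈ Fn G F, ∑ x' ∈ nb G x, ∑ z ∈ B x, W z * W x' * (g x - g z) ^ 2 ≤
        D * sg * χ x := by
      intro x _
      have e2 : ∀ x' ∈ nb G x, ∑ z ∈ B x, W z * W x' * (g x - g z) ^ 2 ≤ sg * χ x := by
        intro x' hx'
        have e3 : W x' ≤ sg * W x := by
          rw [hWmul x x']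
          refine mul_le_mul_of_nonneg_right ?_ (hW0 x)
          rw [← hsgo x]
          exact Finset.single_le_sum (f := fun y => √(weight Γ y x))
            (fun y _ => Real.sqrt_nonneg _) hx'
        have e4 : ∑ z ∈ B x, W z * W x' * (g x - g z) ^ 2 ≤ ∑ z ∈ B x, sg * φ x z := by
          refine Finset.sum_le_sum fun z _ => ?_
          have e5 : sg * φ x z = W z * (sg * W x) * (g x - g z) ^ 2 := by
            rw [hφ]
            ring
          rw [e5]
          exact mul_le_mul_of_nonneg_right (mul_le_mul_of_nonneg_left e3 (hW0 z)) (sq_nonneg _)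
        refine e4.trans ?_
        rw [← Finset.mul_sum]
        refine mul_le_mul_of_nonneg_left (hball x (B x) fun z hz => ?_) hsg0
        have := hBdist x z hz
        omega
      refine (Finset.sum_le_sum e2).trans ?_
      rw [Finset.sum_const, hDo x, nsmul_eq_mul]
      exact le_of_eq (by ring)
    refine (Finset.sum_le_sum e1).trans ?_
    rw [← Finset.mul_sum, hEk]
    refine mul_le_mul_of_nonneg_left ?_ (by positivity)
    exact Finset.sum_le_sum_of_subset_of_nonneg hFn fun u _ _ => hχ0 u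
  -- the second sum
  have hsecond : ∑ x ∈ Fn G F, ∑ x' ∈ nb G x, ∑ z ∈ B x, W z * W x' * (g z - g x') ^ 2 ≤
      D * En Γ (pow G k) o F g := by
    have e1 : ∀ x ∈ Fn G F, ∀ x' ∈ nb G x, ∑ z ∈ B x, W z * W x' * (g z - g x') ^ 2 ≤
        if x' ∈ U then χ x' else 0 := by
      intro x _ x' hx'
      have e2 : ∑ z ∈ B x, W z * W x' * (g z - g x') ^ 2 = ∑ z ∈ B x, φ x' z := by
        refine Finset.sum_congr rfl fun z _ => ?_
        rw [hφ]
        ring
      rw [e2]
      split_ifs with hx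
      · exact hball x' (B x) fun z hz => hdistk x x' z hx' hz
      · refine le_of_eq (Finset.sum_eq_zero fun z hz => ?_)
        have e3 : g x' = 0 := by
          refine hg x' fun h => hx ?_
          rw [hU]
          unfold Fn
          exact Finset.mem_union_left _ h
        have e4 : g z = 0 := by
          by_contra h
          have hzF : z ∈ F := by
            by_contra h'
            exact h (hg z h')
          refine hx (hUmem x' z hzF ?_ (hdistk x x' z hx' hz))
          intro h'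
          rw [← h'] at h
          exact h e3
        rw [hφ]
        simp only
        rw [e3, e4]
        ring
    have e5 : ∑ x ∈ Fn G F, ∑ x' ∈ nb G x, (if x' ∈ U then χ x' else 0) =
        ∑ x' ∈ U, ∑ x ∈ (nb G x').filter (· ∈ Fn G F), χ x' := by
      have e6 : ∀ x ∈ Fn G F, ∑ x' ∈ nb G x, (if x' ∈ U then χ x' else 0) =
          ∑ x' ∈ (nb G x).filter (· ∈ U), χ x' := by
        intro x _
        rw [Finset.sum_filter]
      rw [Finset.sum_congr rfl e6]
      refine Finset.sum_comm' ?_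
      intro x x'
      simp only [Finset.mem_filter, hmem]
      constructor
      · rintro ⟨h1, h2, h3⟩
        exact ⟨⟨h2.symm, h1⟩, h3⟩
      · rintro ⟨⟨h1, h2⟩, h3⟩
        exact ⟨h2, h1.symm, h3⟩
    refine (Finset.sum_le_sum fun x hx => Finset.sum_le_sum (e1 x hx)).trans ?_
    rw [e5, hEk, Finset.mul_sum]
    refine Finset.sum_le_sum fun x' _ => ?_
    rw [Finset.sum_const, nsmul_eq_mul]
    refine mul_le_mul_of_nonneg_right ?_ (hχ0 x')
    rw [← hDo x']
    exact_mod_cast Finset.card_le_card (Finset.filter_subset _ _)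
  -- the main inequality
  have hmain : s1 * En Γ G o F g ≤ 2 * D * (sg + 1) * En Γ (pow G k) o F g := by
    have e1 : s1 * En Γ G o F g = ∑ x ∈ Fn G F, ∑ x' ∈ nb G x, ∑ z ∈ B x,
        W z * W x' * (g x - g x') ^ 2 := by
      unfold En
      rw [Finset.mul_sum]
      refine Finset.sum_congr rfl fun x _ => ?_
      rw [Finset.mul_sum]
      refine Finset.sum_congr rfl fun x' _ => ?_
      have e2 : ∑ z ∈ B x, W z * W x' * (g x - g x') ^ 2 =
          (∑ z ∈ B x, W z) * (W x' * (g x - g x') ^ 2) := by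
        rw [Finset.sum_mul]
        exact Finset.sum_congr rfl fun z _ => by ring
      rw [e2, hBsum x]
      ring
    have e3 : ∑ x ∈ Fn G F, ∑ x' ∈ nb G x, ∑ z ∈ B x, W z * W x' * (g x - g x') ^ 2 ≤
        2 * (∑ x ∈ Fn G F, ∑ x' ∈ nb G x, ∑ z ∈ B x, W z * W x' * (g x - g z) ^ 2) +
        2 * (∑ x ∈ Fn G F, ∑ x' ∈ nb G x, ∑ z ∈ B x, W z * W x' * (g z - g x') ^ 2) := by
      rw [Finset.mul_sum, Finset.mul_sum, ← Finset.sum_add_distrib]
      refine Finset.sum_le_sum fun x _ => ?_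
      rw [Finset.mul_sum, Finset.mul_sum, ← Finset.sum_add_distrib]
      refine Finset.sum_le_sum fun x' _ => ?_
      rw [Finset.mul_sum, Finset.mul_sum, ← Finset.sum_add_distrib]
      refine Finset.sum_le_sum fun z _ => ?_
      have e4 : 0 ≤ W z * W x' := mul_nonneg (hW0 z) (hW0 x')
      have e5 : (g x - g x') ^ 2 ≤ 2 * (g x - g z) ^ 2 + 2 * (g z - g x') ^ 2 := by
        nlinarith [sq_nonneg ((g x - g z) - (g z - g x'))]
      calc W z * W x' * (g x - g x') ^ 2
          ≤ W z * W x' * (2 * (g x - g z) ^ 2 + 2 * (g z - g x') ^ 2) :=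
            mul_le_mul_of_nonneg_left e5 e4
        _ = 2 * (W z * W x' * (g x - g z) ^ 2) + 2 * (W z * W x' * (g z - g x') ^ 2) := by ring
    rw [e1]
    refine e3.trans ?_
    calc 2 * (∑ x ∈ Fn G F, ∑ x' ∈ nb G x, ∑ z ∈ B x, W z * W x' * (g x - g z) ^ 2) +
        2 * (∑ x ∈ Fn G F, ∑ x' ∈ nb G x, ∑ z ∈ B x, W z * W x' * (g z - g x') ^ 2)
        ≤ 2 * (D * sg * En Γ (pow G k) o F g) + 2 * (D * En Γ (pow G k) o F g) := by
          linarith [hfirst, hsecond]
      _ = 2 * D * (sg + 1) * En Γ (pow G k) o F g := by ring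
  have hE0 : 0 ≤ En Γ G o F g := by
    unfold En
    exact Finset.sum_nonneg fun x _ => Finset.sum_nonneg fun y _ =>
      mul_nonneg (mul_nonneg (Real.sqrt_nonneg _) (Real.sqrt_nonneg _)) (sq_nonneg _)
  have hsb' : sig Γ (pow G k) o ≤ s1 * (1 + sg) := by
    have := hsb o
    rw [hsgo o] at this
    exact this
  calc sig Γ (pow G k) o * En Γ G o F g ≤ s1 * (1 + sg) * En Γ G o F g :=
        mul_le_mul_of_nonneg_right hsb' hE0
    _ = (1 + sg) * (s1 * En Γ G o F g) := by ring
    _ ≤ (1 + sg) * (2 * D * (sg + 1) * En Γ (pow G k) o F g) :=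
        mul_le_mul_of_nonneg_left hmain (by linarith)
    _ ≤ ((1 + sg) * (2 * D * (sg + 1)) + 1) * En Γ (pow G k) o F g := by
        nlinarith [hEk0]

end Pool.Agent.Work.MP_c58d8b_pr.SO
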