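import Pool.Agent.Work.MP_c58d8b_pr.SO.Stmts

/-!
# MP_c58d8b_pr, block SO, item TA
-/

set_option autoImplicit false

namespace Pool.Agent.Work.MP_c58d8b_pr.SO

open MeasureTheory ProbabilityTheory Set
open scoped ENNReal unitInterval Classical

universe u

theorem pr_TA (hW : WeightStmt.{u}) (hWB : StWB.{u}) : StTA.{u} := by
  intro V _ Γ G hG
  obtain ⟨hpos, hinv, hmul⟩ := hW V G Γ hG.conn hG.lf hG.pres
  have hnb : ∀ x y, y ∈ nb G x ↔ G.Adj x y := (hWB V G hG.lf).1
  have hone : ∀ x, weight Γ x x = 1 := by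
    intro x
    have h1 := hmul x x x
    have h2 := hpos x x
    have h3 : weight Γ x x * (weight Γ x x - 1) = 0 := by linarith
    rcases mul_eq_zero.mp h3 with h | h
    · linarith
    · linarith
  have hinvw : ∀ x y, Real.log (weight Γ x y) = -Real.log (weight Γ y x) := by
    intro x y
    have h1 := hmul x y x
    rw [hone] at h1
    have h2 := Real.log_mul (hpos x y).ne' (hpos y x).ne'
    rw [h1, Real.log_one] at h2
    linarith
  obtain ⟨o₀⟩ : Nonempty V := inferInstance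
  have hne : (nb G o₀).Nonempty := by
    obtain ⟨v, hv⟩ := exists_ne o₀
    obtain ⟨q⟩ := hG.conn.preconnected o₀ v
    cases q with
    | nil => exact absurd rfl hv
    | cons h _ => exact ⟨_, (hnb _ _).2 h⟩
  obtain ⟨y₀, hy₀, hmax⟩ := Finset.exists_max_image (nb G o₀) (fun y => Real.log (weight Γ y o₀)) hne
  set a : ℝ := Real.log (weight Γ y₀ o₀) with ha
  have hup : ∀ o y, y ∈ nb G o → Real.log (weight Γ y o) ≤ a := by
    intro o y hy
    obtain ⟨γ, hγ, hγo⟩ := hG.tr o o₀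
    have h1 : γ y ∈ nb G o₀ := by
      rw [hnb, ← hγo, hG.pres γ hγ]
      exact (hnb _ _).1 hy
    have h2 := hmax (γ y) h1
    rw [← hinv γ hγ y o, hγo]
    exact h2
  have habs : ∀ o : V, ∀ y ∈ nb G o, |Real.log (weight Γ y o)| ≤ a := by
    intro o y hy
    rw [abs_le]
    refine ⟨?_, hup o y hy⟩
    have h1 : o ∈ nb G y := (hnb _ _).2 ((hnb _ _).1 hy).symm
    have h2 := hup y o h1
    rw [hinvw y o]
    linarith
  refine ⟨a, (abs_nonneg _).trans (habs o₀ y₀ hy₀), habs, ?_⟩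
  intro o i
  induction i with
  | zero =>
    refine ⟨o, ?_, ?_⟩
    · rw [SimpleGraph.dist_self]
    · rw [hone, Real.log_one]; simp
  | succ i ih =>
    obtain ⟨x, hx, hxl⟩ := ih
    obtain ⟨γ, hγ, hγo⟩ := hG.tr o₀ x
    refine ⟨γ y₀, ?_, ?_⟩
    · have h1 : G.Adj x (γ y₀) := by
        rw [← hγo, hG.pres γ hγ]
        exact (hnb _ _).1 hy₀
      have h2 : G.dist x (γ y₀) ≤ 1 := by
        rw [SimpleGraph.dist_eq_one_iff_adj.2 h1]
      have h3 := hG.conn.dist_triangle (u := o) (v := x) (w := γ y₀)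
      omega
    · have h1 : weight Γ (γ y₀) x = weight Γ y₀ o₀ := by
        rw [← hγo, hinv γ hγ]
      rw [← hmul (γ y₀) x o, Real.log_mul (hpos _ _).ne' (hpos _ _).ne', h1, hxl, ← ha]
      push_cast
      ring

end Pool.Agent.Work.MP_c58d8b_pr.SO
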