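import Pool.Agent.Work.MP_c58d8b_pr.SO.Stmts

/-!
# MP_c58d8b_pr, block SO, item TB: mass transport between the levels
-/

set_option autoImplicit false

namespace Pool.Agent.Work.MP_c58d8b_pr.SO

open MeasureTheory ProbabilityTheory Set
open scoped ENNReal unitInterval Classical

universe u

namespace IX_TB

/-- the sum of a constant over a finite set of indices -/
theorem tsum_const_on {V : Type u} (A : Set V) (hA : A.Finite) (a : ℝ≥0∞) (f : V → ℝ≥0∞)
    (h1 : ∀ x ∈ A, f x = a) (h0 : ∀ x, x ∉ A → f x = 0) :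
    ∑' x, f x = (A.ncard : ℝ≥0∞) * a := by
  rw [tsum_eq_sum (s := hA.toFinset) (fun b hb => h0 b (fun h => hb (hA.mem_toFinset.mpr h)))]
  rw [Finset.sum_congr rfl (fun x hx => h1 x (hA.mem_toFinset.mp hx)), Finset.sum_const,
    nsmul_eq_mul, Set.ncard_eq_toFinset_card A hA]

end IX_TB

open IX_TB in
theorem pr_TB (hB : Basics.{u}) (hW : WeightStmt.{u}) (hM : MtpStmt.{u}) : StTB.{u} := by
  intro V Γ G hG o j c hc
  obtain ⟨hpos, hinv, hmul⟩ := hW V G Γ hG.conn hG.lf hG.pres
  have hone : weight Γ o o = 1 := by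
    have h1 := hmul o o o
    have h2 := hpos o o
    have h3 : weight Γ o o * (weight Γ o o - 1) = 0 := by linear_combination h1
    rcases mul_eq_zero.mp h3 with h4 | h4
    · exact absurd h4 h2.ne'
    · linarith
  have hsw : ∀ y, weight Γ o y = c ↔ weight Γ y o = 1 / c := by
    intro y
    have h1 : weight Γ o y * weight Γ y o = 1 := by rw [hmul, hone]
    have h2 := hpos o y
    have h3 := hpos y o
    constructor
    · intro h
      rw [h] at h1
      field_simp
      linarith
    · intro h
      rw [h] at h1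
      field_simp at h1
      exact h1
  have hfin : ∀ c' : ℝ, ({x | G.dist o x ≤ j ∧ weight Γ x o = c'} : Set V).Finite := fun c' =>
    (hB.ball_finite V G hG.conn hG.lf o j).subset fun x hx => hx.1
  have hmt := hM V G Γ hG.conn hG.lf hG.pres hG.tr
    (fun x y => if G.dist x y ≤ j ∧ weight Γ x y = c then 1 else 0)
    (fun γ hγ x y => by
      simp only [hinv γ hγ, hB.dist_image V G γ (fun a b => hG.pres γ hγ a b)]) o
  rw [tsum_const_on {x | G.dist o x ≤ j ∧ weight Γ x o = c} (hfin c) (ENNReal.ofReal c) _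
      (fun x hx => by
        have h1 : G.dist x o ≤ j ∧ weight Γ x o = c := ⟨by rw [G.dist_comm]; exact hx.1, hx.2⟩
        simp only [if_pos h1, one_mul]
        rw [hx.2])
      (fun x hx => by
        have h1 : ¬ (G.dist x o ≤ j ∧ weight Γ x o = c) := fun h =>
          hx ⟨by rw [G.dist_comm]; exact h.1, h.2⟩
        simp only [if_neg h1, zero_mul]),
    tsum_const_on {x | G.dist o x ≤ j ∧ weight Γ x o = 1 / c} (hfin (1 / c)) 1 _
      (fun x hx => by
        have h1 : G.dist o x ≤ j ∧ weight Γ o x = c := ⟨hx.1, (hsw x).mpr hx.2⟩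
        simp only [if_pos h1])
      (fun x hx => by
        have h1 : ¬ (G.dist o x ≤ j ∧ weight Γ o x = c) := fun h =>
          hx ⟨h.1, (hsw x).mp h.2⟩
        simp only [if_neg h1])] at hmt
  have h5 := congrArg ENNReal.toReal hmt
  rw [ENNReal.toReal_mul, ENNReal.toReal_natCast, ENNReal.toReal_ofReal hc.le, mul_one,
    ENNReal.toReal_natCast] at h5
  rw [mul_comm]
  exact h5

end Pool.Agent.Work.MP_c58d8b_pr.SO
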