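import Pool.Agent.Work.MP_c58d8b_pr.SO.Stmts

/-!
# MP_c58d8b_pr, block SO, item TC: up and down
-/

set_option autoImplicit false

namespace Pool.Agent.Work.MP_c58d8b_pr.SO

open MeasureTheory ProbabilityTheory Set
open scoped ENNReal unitInterval Classical

universe u

theorem pr_TC (hB : Basics.{u}) (hW : WeightStmt.{u}) (hTB : StTB.{u}) : StTC.{u} := by
  intro V Γ G hG a ha hx o i j
  obtain ⟨hw1, hw2, hw3⟩ := hW V G Γ hG.conn hG.lf hG.pres
  obtain ⟨x, hx1, hx2⟩ := hx o i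
  obtain ⟨z, hz1, hz2⟩ := hx x j
  have hc : 0 < Real.exp (j * a) := Real.exp_pos _
  have hzc : weight Γ z x = Real.exp (j * a) := by
    rw [← hz2, Real.exp_log (hw1 z x)]
  have h1 := hTB V Γ G hG x j (Real.exp (j * a)) hc
  have hfin : ∀ (v : V) (r : ℕ) (c : ℝ),
      ({y | G.dist v y ≤ r ∧ weight Γ y v = c} : Set V).Finite := fun v r c =>
    (hB.ball_finite V G hG.conn hG.lf v r).subset fun y hy => hy.1
  have h2 : 1 ≤ ({y | G.dist x y ≤ j ∧ weight Γ y x = Real.exp (j * a)} : Set V).ncard := by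
    rw [Nat.one_le_iff_ne_zero, Ne, Set.ncard_eq_zero (hfin x j _)]
    intro h3
    have h4 : z ∈ ({y | G.dist x y ≤ j ∧ weight Γ y x = Real.exp (j * a)} : Set V) := ⟨hz1, hzc⟩
    rw [h3] at h4
    exact h4
  have h3 : Real.exp (j * a) ≤
      ({y | G.dist x y ≤ j ∧ weight Γ y x = 1 / Real.exp (j * a)} : Set V).ncard := by
    rw [← h1]
    have h4 : (1 : ℝ) ≤
        ({y | G.dist x y ≤ j ∧ weight Γ y x = Real.exp (j * a)} : Set V).ncard := by
      exact_mod_cast h2
    nlinarith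
  refine h3.trans ?_
  have h5 : ({y | G.dist x y ≤ j ∧ weight Γ y x = 1 / Real.exp (j * a)} : Set V).ncard ≤
      ({y | G.dist o y ≤ i + j ∧ Real.log (weight Γ y o) = ((i : ℝ) - j) * a} : Set V).ncard := by
    refine Set.ncard_le_ncard ?_ ((hB.ball_finite V G hG.conn hG.lf o (i + j)).subset
      fun y hy => hy.1)
    rintro y ⟨hy1, hy2⟩
    refine ⟨(hG.conn.dist_triangle).trans (add_le_add hx1 hy1), ?_⟩
    rw [← hw3 y x o, Real.log_mul (hw1 y x).ne' (hw1 x o).ne', hx2, hy2, one_div,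
      Real.log_inv, Real.log_exp]
    ring
  exact_mod_cast h5

end Pool.Agent.Work.MP_c58d8b_pr.SO
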