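import Pool.Agent.Work.MP_c58d8b_pr.SO.Stmts

/-!
# MP_c58d8b_pr, block SO, item TE
-/

set_option autoImplicit false

namespace Pool.Agent.Work.MP_c58d8b_pr.SO

open MeasureTheory ProbabilityTheory Set
open scoped ENNReal unitInterval Classical

universe u

namespace IX_TE

lemma weight_self {V : Type u} {Γ : Subgroup (Equiv.Perm V)}
    (hpos : ∀ x y, 0 < weight Γ x y)
    (hmul : ∀ x y z, weight Γ x y * weight Γ y z = weight Γ x z) (x : V) : weight Γ x x = 1 := by
  have h := hmul x x x
  have hp := hpos x x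
  have : weight Γ x x * weight Γ x x = weight Γ x x * 1 := by rw [mul_one]; exact h
  exact mul_left_cancel₀ hp.ne' this

lemma log_walk {V : Type u} {Γ : Subgroup (Equiv.Perm V)} {G : SimpleGraph V}
    (hpos : ∀ x y, 0 < weight Γ x y)
    (hmul : ∀ x y z, weight Γ x y * weight Γ y z = weight Γ x z) (a : ℝ)
    (ha : ∀ o y : V, G.Adj o y → |Real.log (weight Γ y o)| ≤ a) {x y : V} (p : G.Walk x y) :
    |Real.log (weight Γ y x)| ≤ p.length * a := by
  induction p with
  | nil =>
      rw [weight_self hpos hmul]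
      simp
  | cons h q ih =>
      rename_i u v w
      have h1 : weight Γ w u = weight Γ w v * weight Γ v u := (hmul w v u).symm
      rw [h1, Real.log_mul (hpos _ _).ne' (hpos _ _).ne']
      have h2 := ha u v h
      have h3 := abs_add_le (Real.log (weight Γ w v)) (Real.log (weight Γ v u))
      rw [SimpleGraph.Walk.length_cons]
      push_cast
      linarith

end IX_TE

theorem pr_TE (hW : WeightStmt.{u}) (hWB : StWB.{u}) (hSB : StSB.{u}) : StTE.{u} := by
  intro V Γ G hG a ha0 ha k C H hk hC hPr hkH hHC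
  have hCk : 1 ≤ C * k := Nat.one_le_iff_ne_zero.2 (by positivity)
  obtain ⟨hGk, hGle, -⟩ := hSB V Γ G hG k hk
  obtain ⟨hGC, -, -⟩ := hSB V Γ G hG (C * k) hCk
  have hlf : LocFinite H := by
    intro x
    refine (hGC.lf x).subset ?_
    intro y hy
    exact hHC hy
  have hgood : Good Γ H := ⟨hG.conn.mono (hGle.trans hkH), hlf, hPr, hG.tr⟩
  obtain ⟨hpos, -, hmul⟩ := hW V G Γ hG.conn hG.lf hG.pres
  have hnbG := (hWB V G hG.lf).1
  have hnbH := (hWB V H hlf).1
  have hnbk := (hWB V (pow G k) hGk.lf).1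
  refine ⟨hgood, fun o => ?_⟩
  have hsub : nb (pow G k) o ⊆ nb H o := by
    intro y hy
    exact (hnbH o y).2 (hkH ((hnbk o y).1 hy))
  refine ⟨?_, ?_, ?_⟩
  · intro y hy
    have h1 : (pow G (C * k)).Adj o y := hHC ((hnbH o y).1 hy)
    have h2 : G.dist o y ≤ C * k := h1.2
    obtain ⟨p, hp⟩ := hG.conn.exists_walk_length_eq_dist o y
    have h3 := IX_TE.log_walk hpos hmul a (fun o y h => ha o y ((hnbG o y).2 h)) p
    have h4 : (p.length : ℝ) ≤ C * k := by
      rw [hp]
      exact_mod_cast h2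
    exact h3.trans (mul_le_mul_of_nonneg_right h4 ha0)
  · unfold sig
    exact Finset.sum_le_sum_of_subset_of_nonneg hsub (fun y _ _ => Real.sqrt_nonneg _)
  · unfold mom
    exact Finset.sum_le_sum_of_subset_of_nonneg hsub
      (fun y _ _ => mul_nonneg (Real.sqrt_nonneg _) (abs_nonneg _))

end Pool.Agent.Work.MP_c58d8b_pr.SO
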