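import Pool.Agent.Work.MP_c58d8b_pr.SO.Stmts

/-!
# Item U1 of block SO: the two point function decays
-/

set_option autoImplicit false

namespace Pool.Agent.Work.MP_c58d8b_pr.SO

open MeasureTheory ProbabilityTheory Set
open scoped ENNReal unitInterval Classical

universe u

namespace IX_U1

lemma tail {q : ℝ} (hq0 : 0 ≤ q) (hq1 : q < 1) (D : ℕ) :
    (∑' n : ℕ, if D ≤ n then ENNReal.ofReal (q ^ n) else 0) = ENNReal.ofReal (q ^ D / (1 - q)) := by
  have hinj : Function.Injective fun m : ℕ => m + D := fun a b h => by simpa using h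
  have h1 := hinj.tsum_eq (f := fun n : ℕ => if D ≤ n then ENNReal.ofReal (q ^ n) else 0) (by
    intro n hn
    by_cases h : D ≤ n
    · exact ⟨n - D, Nat.sub_add_cancel h⟩
    · exact absurd (if_neg h) hn)
  rw [← h1]
  have h2 : ∀ m : ℕ, (if D ≤ m + D then ENNReal.ofReal (q ^ (m + D)) else 0) =
      ENNReal.ofReal (q ^ D) * ENNReal.ofReal q ^ m := by
    intro m
    rw [if_pos (Nat.le_add_left D m), pow_add, ENNReal.ofReal_mul (pow_nonneg hq0 m), mul_comm,
      ENNReal.ofReal_pow hq0 m]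
  simp only [h2]
  rw [ENNReal.tsum_mul_left, ENNReal.tsum_geometric, div_eq_mul_inv,
    ENNReal.ofReal_mul (pow_nonneg hq0 D), ENNReal.ofReal_inv_of_pos (by linarith),
    ENNReal.ofReal_sub _ hq0, ENNReal.ofReal_one]

end IX_U1

theorem pr_U1 (hWN : StWN.{u}) (hWB : StWB.{u}) (hU0 : StU0.{u}) : StU1.{u} := by
  intro V _ Γ H hG A hA hSp p hpA x y
  obtain ⟨hadj, -⟩ := hWB V H hG.lf
  have hd : ∀ z, (nb H z).card ≤ (nb H x).card := by
    intro z
    obtain ⟨γ, hγ, hz⟩ := hG.tr z x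
    refine Finset.card_le_card_of_injOn γ (fun t ht => ?_) γ.injective.injOn
    have ht' : H.Adj z t := (hadj z t).1 ht
    have := (hG.pres γ hγ z t).2 ht'
    rw [hz] at this
    exact (hadj x (γ t)).2 this
  obtain ⟨hW, -⟩ := hWN V H hG.lf A (nb H x).card hA hSp hd
  have hp0 : (0 : ℝ) ≤ p := p.2.1
  have hq0 : 0 ≤ (p : ℝ) * A := mul_nonneg hp0 hA
  refine (hU0 V H hG.conn hG.lf p x y).trans ?_
  rw [← IX_U1.tail hq0 hpA (H.dist x y)]
  refine ENNReal.tsum_le_tsum fun n => ?_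
  by_cases h : H.dist x y ≤ n
  · rw [if_pos h, if_pos h]
    refine ENNReal.ofReal_le_ofReal ?_
    rw [mul_pow]
    exact mul_le_mul_of_nonneg_left (hW n x y) (pow_nonneg hp0 n)
  · rw [if_neg h, if_neg h]

end Pool.Agent.Work.MP_c58d8b_pr.SO
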