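import Pool.Agent.Work.MP_c58d8b_pr.SO.Stmts

/-! Item [c58d8b SO WB] (helper51): basic facts on the number of walks. -/

set_option autoImplicit false

namespace Pool.Agent.Work.MP_c58d8b_pr.SO

open MeasureTheory ProbabilityTheory Set
open scoped ENNReal unitInterval Classical

universe u

namespace IX_WB

theorem mem {V : Type u} (H : SimpleGraph V) (hL : LocFinite H) (x y : V) : y ∈ nb H x ↔ H.Adj x y := by
  have h : (H.neighborSet x).Finite := hL x
  unfold nb
  rw [dif_pos h, Set.Finite.mem_toFinset, SimpleGraph.mem_neighborSet]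

theorem nonneg {V : Type u} (H : SimpleGraph V) (n : ℕ) : ∀ x y : V, 0 ≤ Wk H n x y := by
  induction n with
  | zero =>
    intro x y
    unfold Wk
    split_ifs
    · exact zero_le_one
    · exact le_rfl
  | succ n ih =>
    intro x y
    unfold Wk
    exact Finset.sum_nonneg fun z _ => ih z y

theorem right {V : Type u} (H : SimpleGraph V) (hL : LocFinite H) (n : ℕ) :
    ∀ x y : V, Wk H (n + 1) x y = ∑ z ∈ nb H y, Wk H n x z := by
  induction n with
  | zero =>
    intro x y
    have h1 : Wk H (0 + 1) x y = ∑ z ∈ nb H x, (if z = y then (1 : ℝ) else 0) := rfl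
    have h2 : ∑ z ∈ nb H y, Wk H 0 x z = ∑ z ∈ nb H y, (if x = z then (1 : ℝ) else 0) := rfl
    rw [h1, h2, Finset.sum_ite_eq', Finset.sum_ite_eq]
    by_cases h : H.Adj x y
    · rw [if_pos ((mem H hL x y).2 h), if_pos ((mem H hL y x).2 h.symm)]
    · rw [if_neg fun h' => h ((mem H hL x y).1 h'), if_neg fun h' => h ((mem H hL y x).1 h').symm]
  | succ n ih =>
    intro x y
    have h1 : Wk H (n + 1 + 1) x y = ∑ z ∈ nb H x, Wk H (n + 1) z y := rfl
    have h2 : ∀ w, Wk H (n + 1) x w = ∑ z ∈ nb H x, Wk H n z w := fun w => rfl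
    rw [h1, Finset.sum_congr rfl fun z _ => ih z y, Finset.sum_comm]
    exact Finset.sum_congr rfl fun w _ => (h2 w).symm

theorem symm {V : Type u} (H : SimpleGraph V) (hL : LocFinite H) (n : ℕ) :
    ∀ x y : V, Wk H n x y = Wk H n y x := by
  induction n with
  | zero =>
    intro x y
    have h1 : Wk H 0 x y = (if x = y then (1 : ℝ) else 0) := rfl
    have h2 : Wk H 0 y x = (if y = x then (1 : ℝ) else 0) := rfl
    rw [h1, h2]
    simp only [eq_comm]
  | succ n ih =>
    intro x y
    have h1 : Wk H (n + 1) x y = ∑ z ∈ nb H x, Wk H n z y := rfl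
    rw [h1, right H hL n y x]
    exact Finset.sum_congr rfl fun z _ => ih z y

theorem dist {V : Type u} (H : SimpleGraph V) (hL : LocFinite H) (hC : H.Connected) (n : ℕ) :
    ∀ x y : V, Wk H n x y ≠ 0 → H.dist x y ≤ n := by
  induction n with
  | zero =>
    intro x y h
    have h1 : Wk H 0 x y = (if x = y then (1 : ℝ) else 0) := rfl
    rw [h1] at h
    by_cases hxy : x = y
    · subst hxy
      simp
    · rw [if_neg hxy] at h
      exact absurd rfl h
  | succ n ih =>
    intro x y h
    have h1 : Wk H (n + 1) x y = ∑ z ∈ nb H x, Wk H n z y := rfl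
    rw [h1] at h
    obtain ⟨z, hz, hz0⟩ := Finset.exists_ne_zero_of_sum_ne_zero h
    have h2 : H.dist x z = 1 := SimpleGraph.dist_eq_one_iff_adj.2 ((mem H hL x z).1 hz)
    have h3 := ih z y hz0
    have h4 := hC.dist_triangle (u := x) (v := z) (w := y)
    omega

end IX_WB

theorem pr_WB : StWB.{u} := fun _ H hL =>
  ⟨IX_WB.mem H hL, IX_WB.nonneg H, IX_WB.symm H hL, IX_WB.right H hL, fun hC n => IX_WB.dist H hL hC n⟩

end Pool.Agent.Work.MP_c58d8b_pr.SO
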