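import Pool.Agent.Work.MP_c58d8b_pr.SO.Stmts

/-!
# MP_c58d8b_pr, block SO, item WC: the number of the closed walks through a vertex
-/

set_option autoImplicit false

namespace Pool.Agent.Work.MP_c58d8b_pr.SO

open MeasureTheory ProbabilityTheory Set
open scoped ENNReal unitInterval Classical

universe u

namespace IX_WC

variable {V : Type u}

/-- The walks of length `n` in `S` from `a` to `b`. -/
noncomputable def WS (H : SimpleGraph V) (S : Finset V) (n : ℕ) (a b : V) :
    Finset (Fin (n + 1) → V) :=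
  (Fintype.piFinset fun _ : Fin (n + 1) => S).filter fun v =>
    v 0 = a ∧ v (Fin.last n) = b ∧ ∀ i : Fin n, H.Adj (v i.castSucc) (v i.succ)

theorem mem_WS (H : SimpleGraph V) (S : Finset V) (n : ℕ) (a b : V) (v : Fin (n + 1) → V) :
    v ∈ WS H S n a b ↔ (∀ i, v i ∈ S) ∧ v 0 = a ∧ v (Fin.last n) = b ∧
      ∀ i : Fin n, H.Adj (v i.castSucc) (v i.succ) := by
  rw [WS, Finset.mem_filter, Fintype.mem_piFinset]

theorem step (H : SimpleGraph V) (hnb : ∀ x y, y ∈ nb H x ↔ H.Adj x y) (S : Finset V) (n : ℕ)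
    (a b : V) (P : (Fin (n + 1) → V) → Prop) :
    ((WS H S (n + 1) a b).filter fun v => P (Fin.tail v)).card ≤
      ∑ c ∈ nb H a, ((WS H S n c b).filter P).card := by
  refine le_trans (Finset.card_le_card_of_injOn (t := (nb H a).biUnion fun c =>
    (WS H S n c b).filter P) Fin.tail ?_ ?_) Finset.card_biUnion_le
  · intro v hv
    rw [Finset.mem_coe, Finset.mem_filter, mem_WS] at hv
    obtain ⟨⟨h1, h2, h3, h4⟩, h5⟩ := hv
    rw [Finset.mem_coe, Finset.mem_biUnion]
    refine ⟨v 1, ?_, ?_⟩
    · rw [hnb, ← h2]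
      exact h4 0
    · rw [Finset.mem_filter, mem_WS]
      refine ⟨⟨fun i => h1 i.succ, rfl, ?_, fun i => ?_⟩, h5⟩
      · show v (Fin.last n).succ = b
        rw [Fin.succ_last]
        exact h3
      · show H.Adj (v i.castSucc.succ) (v i.succ.succ)
        rw [Fin.succ_castSucc]
        exact h4 i.succ
  · intro v hv w hw hvw
    rw [Finset.mem_coe, Finset.mem_filter, mem_WS] at hv hw
    rw [← Fin.cons_self_tail v, ← Fin.cons_self_tail w, hvw, hv.1.2.1, hw.1.2.1]

theorem aux1 {α : Type u} (A : Finset α) (P : α → Prop) (h : ∀ v, P v) :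
    A.card ≤ (A.filter P).card :=
  Finset.card_le_card fun v hv => Finset.mem_filter.2 ⟨hv, h v⟩

theorem aux2 {α : Type u} (A : Finset α) (P : α → Prop) : (A.filter P).card ≤ A.card :=
  Finset.card_filter_le _ _

theorem cardA (H : SimpleGraph V) (hnb : ∀ x y, y ∈ nb H x ↔ H.Adj x y) (S : Finset V) (n : ℕ) :
    ∀ a b : V, ((WS H S n a b).card : ℝ) ≤ Wk H n a b := by
  induction n with
  | zero =>
    intro a b
    by_cases hab : a = b
    · have h1 : (WS H S 0 a b).card ≤ 1 := by
        rw [Finset.card_le_one]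
        intro v hv w hw
        rw [mem_WS] at hv hw
        funext x
        have hx : x = 0 := Fin.ext (by have := x.2; simp only [Fin.val_zero]; omega)
        rw [hx, hv.2.1, hw.2.1]
      have h2 : Wk H 0 a b = 1 := if_pos hab
      rw [h2]
      exact_mod_cast h1
    · have h1 : WS H S 0 a b = ∅ := by
        rw [Finset.eq_empty_iff_forall_notMem]
        intro v hv
        rw [mem_WS] at hv
        exact hab (hv.2.1.symm.trans hv.2.2.1)
      have h2 : Wk H 0 a b = 0 := if_neg hab
      rw [h1, h2]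
      simp
  | succ n ih =>
    intro a b
    have h1 := step H hnb S n a b (fun _ => True)
    have h2 : (WS H S (n + 1) a b).card ≤ ∑ c ∈ nb H a, (WS H S n c b).card := by
      exact le_trans (aux1 _ _ fun _ => trivial) (h1.trans (Finset.sum_le_sum fun c _ => aux2 _ _))
    calc ((WS H S (n + 1) a b).card : ℝ) ≤ ((∑ c ∈ nb H a, (WS H S n c b).card : ℕ) : ℝ) := by
          exact_mod_cast h2
      _ = ∑ c ∈ nb H a, ((WS H S n c b).card : ℝ) := by push_cast; rfl
      _ ≤ ∑ c ∈ nb H a, Wk H n c b := Finset.sum_le_sum fun c _ => ih c b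
      _ = Wk H (n + 1) a b := rfl

theorem cardZ (H : SimpleGraph V) (hnb : ∀ x y, y ∈ nb H x ↔ H.Adj x y)
    (hpos : ∀ n x y, 0 ≤ Wk H n x y) (S : Finset V) (n : ℕ) (a b z : V) :
    (((WS H S n a b).filter fun v => v 0 = z).card : ℝ) ≤ Wk H 0 a z * Wk H n z b := by
  by_cases haz : a = z
  · have h2 : Wk H 0 a z = 1 := if_pos haz
    rw [h2, one_mul, ← haz]
    refine le_trans ?_ (cardA H hnb S n a b)
    exact_mod_cast Finset.card_filter_le _ _
  · have h1 : ((WS H S n a b).filter fun v => v 0 = z) = ∅ := by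
      rw [Finset.eq_empty_iff_forall_notMem]
      intro v hv
      rw [Finset.mem_filter, mem_WS] at hv
      exact haz (hv.1.2.1.symm.trans hv.2)
    rw [h1]
    simp only [Finset.card_empty, Nat.cast_zero]
    exact mul_nonneg (hpos _ _ _) (hpos _ _ _)

theorem cardB (H : SimpleGraph V) (hnb : ∀ x y, y ∈ nb H x ↔ H.Adj x y)
    (hpos : ∀ n x y, 0 ≤ Wk H n x y) (S : Finset V) (z : V) (n : ℕ) :
    ∀ (i : Fin (n + 1)) (a b : V), (((WS H S n a b).filter fun v => v i = z).card : ℝ) ≤
      Wk H (i : ℕ) a z * Wk H (n - (i : ℕ)) z b := by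
  induction n with
  | zero =>
    intro i a b
    have hi : i = 0 := Fin.ext (by have := i.2; simp only [Fin.val_zero]; omega)
    rw [hi]
    exact cardZ H hnb hpos S 0 a b z
  | succ n ih =>
    intro i a b
    refine Fin.cases ?_ (fun j => ?_) i
    · exact cardZ H hnb hpos S (n + 1) a b z
    · have h1 := step H hnb S n a b (fun u => u j = z)
      have h3 : Wk H ((j.succ : Fin (n + 2)) : ℕ) a z = ∑ c ∈ nb H a, Wk H (j : ℕ) c z := rfl
      have h4 : n + 1 - ((j.succ : Fin (n + 2)) : ℕ) = n - (j : ℕ) := by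
        rw [Fin.val_succ]
        omega
      rw [h3, h4, Finset.sum_mul]
      calc (((WS H S (n + 1) a b).filter fun v => v j.succ = z).card : ℝ)
          ≤ ((∑ c ∈ nb H a, ((WS H S n c b).filter fun u => u j = z).card : ℕ) : ℝ) := by
            exact_mod_cast h1
        _ = ∑ c ∈ nb H a, (((WS H S n c b).filter fun u => u j = z).card : ℝ) := by
            push_cast
            rfl
        _ ≤ ∑ c ∈ nb H a, Wk H (j : ℕ) c z * Wk H (n - (j : ℕ)) z b :=
            Finset.sum_le_sum fun c _ => ih j c b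

end IX_WC

theorem pr_WC (hWB : StWB.{u}) : StWC.{u} := by
  intro V H hlf S n y z i
  obtain ⟨hnb, hpos, _⟩ := hWB V H hlf
  exact IX_WC.cardB H hnb hpos S z n i y y

end Pool.Agent.Work.MP_c58d8b_pr.SO

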