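import Pool.Agent.Work.MP_c58d8b_pr.SO.Stmts

/-!
# MP_c58d8b_pr, block SO, item WN: spectral bounds for the numbers of walks
-/

set_option autoImplicit false

namespace Pool.Agent.Work.MP_c58d8b_pr.SO

open MeasureTheory ProbabilityTheory Set
open scoped ENNReal unitInterval Classical

universe u

namespace IX_WN

variable {V : Type u}

theorem mem_nb (H : SimpleGraph V) (hlf : LocFinite H) (x y : V) : y ∈ nb H x ↔ H.Adj x y := by
  unfold nb
  rw [dif_pos (hlf x), Set.Finite.mem_toFinset, SimpleGraph.mem_neighborSet]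

/-- the adjacency form on the set `F` -/
noncomputable def Bf (H : SimpleGraph V) (F : Finset V) (u v : V → ℝ) : ℝ :=
  ∑ x ∈ F, ∑ y ∈ F, if H.Adj x y then u x * v y else 0

theorem bf_symm (H : SimpleGraph V) (F : Finset V) (u v : V → ℝ) : Bf H F u v = Bf H F v u := by
  unfold Bf
  rw [Finset.sum_comm]
  refine Finset.sum_congr rfl fun x _ => Finset.sum_congr rfl fun y _ => ?_
  by_cases h : H.Adj x y
  · rw [if_pos h, if_pos h.symm, mul_comm]
  · rw [if_neg h, if_neg (fun h' => h h'.symm)]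

theorem bf_row (H : SimpleGraph V) (hlf : LocFinite H) (F : Finset V) (v : V → ℝ) (x : V) (c : ℝ) :
    (∑ y ∈ F, if H.Adj x y then c * v y else 0) = ∑ y ∈ (nb H x).filter (· ∈ F), c * v y := by
  rw [← Finset.sum_filter]
  refine Finset.sum_congr ?_ fun _ _ => rfl
  ext y
  rw [Finset.mem_filter, Finset.mem_filter, mem_nb H hlf]
  exact and_comm

theorem bf_le (H : SimpleGraph V) (hlf : LocFinite H) (A : ℝ) (hS : Sp H A) (F : Finset V)
    (u : V → ℝ) : Bf H F u u ≤ A * ∑ x ∈ F, u x ^ 2 := by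
  have h := hS F u
  have e : Bf H F u u = ∑ x ∈ F, ∑ y ∈ (nb H x).filter (· ∈ F), u x * u y := by
    unfold Bf
    exact Finset.sum_congr rfl fun x _ => bf_row H hlf F u x (u x)
  rw [e]
  exact h

theorem bf_neg (H : SimpleGraph V) (hlf : LocFinite H) (A : ℝ) (hS : Sp H A) (F : Finset V)
    (u : V → ℝ) : -Bf H F u u ≤ A * ∑ x ∈ F, u x ^ 2 := by
  have h := bf_le H hlf A hS F (fun x => |u x|)
  have e : -Bf H F u u ≤ Bf H F (fun x => |u x|) (fun x => |u x|) := by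
    unfold Bf
    rw [← Finset.sum_neg_distrib]
    refine Finset.sum_le_sum fun x _ => ?_
    rw [← Finset.sum_neg_distrib]
    refine Finset.sum_le_sum fun y _ => ?_
    by_cases hxy : H.Adj x y
    · rw [if_pos hxy, if_pos hxy, ← abs_mul]
      exact neg_le_abs _
    · rw [if_neg hxy, if_neg hxy, neg_zero]
  refine e.trans (h.trans (le_of_eq ?_))
  congr 1
  exact Finset.sum_congr rfl fun x _ => sq_abs _

theorem bf_pol (H : SimpleGraph V) (F : Finset V) (h g : V → ℝ) :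
    Bf H F (fun x => h x + g x) (fun x => h x + g x) -
      Bf H F (fun x => h x - g x) (fun x => h x - g x) = 4 * Bf H F h g := by
  have e : Bf H F (fun x => h x + g x) (fun x => h x + g x) -
      Bf H F (fun x => h x - g x) (fun x => h x - g x) = 2 * Bf H F h g + 2 * Bf H F g h := by
    unfold Bf
    rw [← Finset.sum_sub_distrib, Finset.mul_sum, Finset.mul_sum, ← Finset.sum_add_distrib]
    refine Finset.sum_congr rfl fun x _ => ?_
    rw [← Finset.sum_sub_distrib, Finset.mul_sum, Finset.mul_sum, ← Finset.sum_add_distrib]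
    refine Finset.sum_congr rfl fun y _ => ?_
    by_cases hxy : H.Adj x y
    · simp only [if_pos hxy]
      ring
    · simp only [if_neg hxy]
      ring
  rw [e, bf_symm H F g h]
  ring

theorem bf_two (H : SimpleGraph V) (hlf : LocFinite H) (A : ℝ) (hS : Sp H A) (F : Finset V)
    (h g : V → ℝ) : 2 * Bf H F h g ≤ A * (∑ x ∈ F, h x ^ 2 + ∑ x ∈ F, g x ^ 2) := by
  have h1 := bf_le H hlf A hS F (fun x => h x + g x)
  have h2 := bf_neg H hlf A hS F (fun x => h x - g x)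
  have h3 := bf_pol H F h g
  have h4 : ∑ x ∈ F, (h x + g x) ^ 2 + ∑ x ∈ F, (h x - g x) ^ 2 =
      2 * (∑ x ∈ F, h x ^ 2 + ∑ x ∈ F, g x ^ 2) := by
    rw [← Finset.sum_add_distrib, ← Finset.sum_add_distrib, Finset.mul_sum]
    refine Finset.sum_congr rfl fun x _ => ?_
    ring
  have h5 : A * ∑ x ∈ F, (h x + g x) ^ 2 + A * ∑ x ∈ F, (h x - g x) ^ 2 =
      2 * (A * (∑ x ∈ F, h x ^ 2 + ∑ x ∈ F, g x ^ 2)) := by
    rw [← mul_add, h4]
    ring
  linarith

theorem step (H : SimpleGraph V) (hlf : LocFinite H) (A : ℝ) (hA : 0 ≤ A) (hS : Sp H A)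
    (F : Finset V) (g : V → ℝ) (hg : ∀ x, x ∉ F → g x = 0) :
    (∀ x, x ∉ Fn H F → ∑ z ∈ nb H x, g z = 0) ∧
      ∑ x ∈ Fn H F, (∑ z ∈ nb H x, g z) ^ 2 ≤ A ^ 2 * ∑ x ∈ F, g x ^ 2 := by
  have hsub : F ⊆ Fn H F := Finset.subset_union_left
  refine ⟨?_, ?_⟩
  · intro x hx
    refine Finset.sum_eq_zero fun z hz => hg z fun hzF => hx ?_
    refine Finset.mem_union_right _ (Finset.mem_biUnion.2 ⟨z, hzF, ?_⟩)
    rw [mem_nb H hlf] at hz ⊢
    exact hz.symm
  · obtain ⟨N1, hN1⟩ : ∃ N1, N1 = ∑ x ∈ Fn H F, (∑ z ∈ nb H x, g z) ^ 2 := ⟨_, rfl⟩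
    obtain ⟨N0, hN0⟩ : ∃ N0, N0 = ∑ x ∈ F, g x ^ 2 := ⟨_, rfl⟩
    have hN0' : ∑ x ∈ Fn H F, g x ^ 2 = N0 := by
      rw [hN0]
      symm
      refine Finset.sum_subset hsub fun x _ hx => ?_
      rw [hg x hx]
      simp
    have key : ∀ t : ℝ, 2 * (t * N1) ≤ A * (t ^ 2 * N1 + N0) := by
      intro t
      have h1 := bf_two H hlf A hS (Fn H F) (fun x => t * ∑ z ∈ nb H x, g z) g
      have h2 : Bf H (Fn H F) (fun x => t * ∑ z ∈ nb H x, g z) g = t * N1 := by
        unfold Bf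
        rw [hN1, Finset.mul_sum]
        refine Finset.sum_congr rfl fun x _ => ?_
        rw [bf_row H hlf, ← Finset.mul_sum]
        have h3 : ∑ y ∈ (nb H x).filter (· ∈ Fn H F), g y = ∑ z ∈ nb H x, g z := by
          refine Finset.sum_subset (Finset.filter_subset _ _) fun z hz hz' => ?_
          refine hg z fun hzF => hz' (Finset.mem_filter.2 ⟨hz, hsub hzF⟩)
        rw [h3]
        ring
      have h4 : ∑ x ∈ Fn H F, (t * ∑ z ∈ nb H x, g z) ^ 2 = t ^ 2 * N1 := by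
        rw [hN1, Finset.mul_sum]
        refine Finset.sum_congr rfl fun x _ => ?_
        ring
      rw [h2, h4, hN0'] at h1
      exact h1
    rw [← hN1, ← hN0]
    rcases hA.eq_or_lt with h0 | h0
    · have h1 := key 1
      rw [← h0] at h1 ⊢
      linarith
    · have h1 := key (1 / A)
      have h2 : A * ((1 / A) ^ 2 * N1 + N0) = 1 / A * N1 + A * N0 := by
        field_simp
      rw [h2] at h1
      have h3 : 1 / A * N1 ≤ A * N0 := by linarith
      have h4 : N1 = A * (1 / A * N1) := by field_simp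
      rw [h4]
      calc A * (1 / A * N1) ≤ A * (A * N0) := mul_le_mul_of_nonneg_left h3 hA
        _ = A ^ 2 * N0 := by ring

theorem iter (H : SimpleGraph V) (hlf : LocFinite H) (A : ℝ) (hA : 0 ≤ A) (hS : Sp H A) (y : V)
    (m : ℕ) (F : Finset V) (c : ℝ) (h1 : ∀ x, x ∉ F → Wk H m x y = 0)
    (h2 : ∑ x ∈ F, Wk H m x y ^ 2 ≤ c) (n : ℕ) :
    ∃ F' : Finset V, (∀ x, x ∉ F' → Wk H (m + n) x y = 0) ∧
      ∑ x ∈ F', Wk H (m + n) x y ^ 2 ≤ (A ^ n) ^ 2 * c := by
  induction n with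
  | zero => exact ⟨F, h1, by simpa using h2⟩
  | succ n ih =>
    obtain ⟨F', h3, h4⟩ := ih
    obtain ⟨h5, h6⟩ := step H hlf A hA hS F' (fun x => Wk H (m + n) x y) h3
    refine ⟨Fn H F', h5, ?_⟩
    calc ∑ x ∈ Fn H F', Wk H (m + (n + 1)) x y ^ 2
        = ∑ x ∈ Fn H F', (∑ z ∈ nb H x, Wk H (m + n) z y) ^ 2 := rfl
      _ ≤ A ^ 2 * ∑ x ∈ F', Wk H (m + n) x y ^ 2 := h6
      _ ≤ A ^ 2 * ((A ^ n) ^ 2 * c) := mul_le_mul_of_nonneg_left h4 (sq_nonneg A)
      _ = (A ^ (n + 1)) ^ 2 * c := by ring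

end IX_WN

open IX_WN in
/-- WN: spectral bounds. -/
theorem pr_WN : StWN.{u} := by
  intro V H hlf A d hA hS hd
  refine ⟨?_, ?_⟩
  · intro n x y
    have h0 : ∀ x, x ∉ ({y} : Finset V) → Wk H 0 x y = 0 := by
      intro x hx
      rw [Finset.mem_singleton] at hx
      exact if_neg hx
    have h1 : ∑ x ∈ ({y} : Finset V), Wk H 0 x y ^ 2 ≤ 1 := by
      rw [Finset.sum_singleton]
      simp [Wk]
    obtain ⟨F, h2, h3⟩ := iter H hlf A hA hS y 0 {y} 1 h0 h1 n
    rw [Nat.zero_add] at h2 h3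
    have hAn : 0 ≤ A ^ n := pow_nonneg hA n
    by_cases hx : x ∈ F
    · have h4 : Wk H n x y ^ 2 ≤ (A ^ n) ^ 2 := by
        rw [mul_one] at h3
        exact (Finset.single_le_sum (f := fun x => Wk H n x y ^ 2)
          (fun _ _ => sq_nonneg _) hx).trans h3
      exact le_of_sq_le_sq h4 hAn
    · rw [h2 x hx]
      exact hAn
  · intro n hn x y
    obtain ⟨m, rfl⟩ : ∃ m, n = (1 + m) + 1 := ⟨n - 2, by omega⟩
    have e1 : ∀ x, Wk H 1 x y = if y ∈ nb H x then 1 else 0 := by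
      intro x
      have : Wk H 1 x y = ∑ z ∈ nb H x, (if z = y then (1 : ℝ) else 0) := rfl
      rw [this, Finset.sum_ite_eq']
    have h0 : ∀ x, x ∉ nb H y → Wk H 1 x y = 0 := by
      intro x hx
      rw [e1, if_neg]
      intro h
      rw [mem_nb H hlf] at h hx
      exact hx h.symm
    have h1 : ∑ x ∈ nb H y, Wk H 1 x y ^ 2 ≤ d := by
      have h2 : ∀ x ∈ nb H y, Wk H 1 x y ^ 2 ≤ 1 := by
        intro x _
        rw [e1]
        split_ifs <;> norm_num
      refine (Finset.sum_le_sum h2).trans ?_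
      rw [Finset.sum_const, nsmul_eq_mul, mul_one]
      exact_mod_cast hd y
    obtain ⟨F, h2, h3⟩ := iter H hlf A hA hS y 1 (nb H y) d h0 h1 m
    have h4 : Wk H (1 + m + 1) x y = ∑ z ∈ nb H x, Wk H (1 + m) z y := rfl
    have h5 : (∑ z ∈ nb H x, Wk H (1 + m) z y) ^ 2 ≤
        (nb H x).card * ∑ z ∈ nb H x, Wk H (1 + m) z y ^ 2 := sq_sum_le_card_mul_sum_sq
    have h6 : ∑ z ∈ nb H x, Wk H (1 + m) z y ^ 2 ≤ ∑ z ∈ F, Wk H (1 + m) z y ^ 2 := by
      rw [← Finset.sum_filter_add_sum_filter_not (nb H x) (· ∈ F)]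
      have h7 : ∑ z ∈ (nb H x).filter (fun z => ¬ z ∈ F), Wk H (1 + m) z y ^ 2 = 0 := by
        refine Finset.sum_eq_zero fun z hz => ?_
        rw [h2 z (Finset.mem_filter.1 hz).2]
        simp
      rw [h7, add_zero]
      refine Finset.sum_le_sum_of_subset_of_nonneg ?_ fun _ _ _ => sq_nonneg _
      intro z hz
      exact (Finset.mem_filter.1 hz).2
    have hd0 : (0 : ℝ) ≤ d := Nat.cast_nonneg d
    have h8 : (∑ z ∈ nb H x, Wk H (1 + m) z y) ^ 2 ≤ (A ^ m * d) ^ 2 := by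
      calc (∑ z ∈ nb H x, Wk H (1 + m) z y) ^ 2
          ≤ (nb H x).card * ∑ z ∈ nb H x, Wk H (1 + m) z y ^ 2 := h5
        _ ≤ d * ((A ^ m) ^ 2 * d) := by
            refine mul_le_mul ?_ (h6.trans h3) (Finset.sum_nonneg fun _ _ => sq_nonneg _) hd0
            exact_mod_cast hd x
        _ = (A ^ m * d) ^ 2 := by ring
    have h9 : 1 + m + 1 - 2 = m := by omega
    rw [h4, h9]
    exact le_of_sq_le_sq h8 (mul_nonneg (pow_nonneg hA m) hd0)

end Pool.Agent.Work.MP_c58d8b_pr.SO
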