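import Pool.Agent.Work.MP_c58d8b_pr.SO.Stmts

/-!
# Block SO, item WS: weighted number of walks
-/

set_option autoImplicit false

namespace Pool.Agent.Work.MP_c58d8b_pr.SO

open MeasureTheory ProbabilityTheory Set
open scoped ENNReal unitInterval Classical

universe u

/-- item WS -/
theorem pr_WS (hW : WeightStmt.{u}) (hSM : StSM.{u}) : StWS.{u} := by
  intro V Γ H hG o z n F
  obtain ⟨hpos, -, hmul⟩ := hW V H Γ hG.conn hG.lf hG.pres
  induction n generalizing z with
  | zero =>
    have h1 : ∀ y ∈ F, √(weight Γ y o) * Wk H 0 z y = if z = y then √(weight Γ z o) else 0 := by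
      intro y _
      by_cases h : z = y
      · subst h; simp [Wk]
      · simp [Wk, h]
    rw [Finset.sum_congr rfl h1, Finset.sum_ite_eq]
    split_ifs
    · simp
    · simp
  | succ n ih =>
    have h1 : ∑ y ∈ F, √(weight Γ y o) * Wk H (n + 1) z y =
        ∑ u ∈ nb H z, ∑ y ∈ F, √(weight Γ y o) * Wk H n u y := by
      rw [Finset.sum_comm]
      refine Finset.sum_congr rfl fun y _ => ?_
      simp only [Wk]
      rw [Finset.mul_sum]
    rw [h1]
    have h2 : ∀ u ∈ nb H z, ∑ y ∈ F, √(weight Γ y o) * Wk H n u y ≤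
        √(weight Γ u z) * (√(weight Γ z o) * sig Γ H o ^ n) := by
      intro u _
      refine (ih u).trans (le_of_eq ?_)
      rw [← hmul u z o, Real.sqrt_mul (hpos u z).le, mul_assoc]
    refine (Finset.sum_le_sum h2).trans (le_of_eq ?_)
    rw [← Finset.sum_mul, (hSM V Γ H hG o z).2.1, pow_succ]
    ring

end Pool.Agent.Work.MP_c58d8b_pr.SO
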