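import Pool.Agent.Work.MP_c58d8b_pr.SO.StmtsX

/-!
# MP_c58d8b_pr, block SO, item X1: composition of walks
-/

set_option autoImplicit false

namespace Pool.Agent.Work.MP_c58d8b_pr.SO

open MeasureTheory ProbabilityTheory Set
open scoped ENNReal unitInterval Classical

universe u

namespace IX_X1

variable {V : Type u}

theorem nonneg (H : SimpleGraph V) (n : ℕ) : ∀ x y : V, 0 ≤ Wk H n x y := by
  induction n with
  | zero =>
    intro x y
    show (0 : ℝ) ≤ if x = y then 1 else 0
    split_ifs <;> norm_num
  | succ n ih =>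
    intro x y
    exact Finset.sum_nonneg fun z _ => ih z y

theorem comp (H : SimpleGraph V) (S : Finset V) (j : ℕ) (z : V) (i : ℕ) :
    ∀ x : V, ∑ y ∈ S, Wk H i x y * Wk H j y z ≤ Wk H (i + j) x z := by
  induction i with
  | zero =>
    intro x
    rw [Nat.zero_add]
    have h1 : ∀ y ∈ S, Wk H 0 x y * Wk H j y z = if x = y then Wk H j y z else 0 := by
      intro y _
      show (if x = y then (1 : ℝ) else 0) * Wk H j y z = _
      split_ifs <;> ring
    rw [Finset.sum_congr rfl h1, Finset.sum_ite_eq]
    split_ifs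
    · exact le_refl _
    · exact nonneg H j x z
  | succ i ih =>
    intro x
    have h0 : i + 1 + j = (i + j) + 1 := by omega
    rw [h0]
    have h1 : ∀ y ∈ S, Wk H (i + 1) x y * Wk H j y z =
        ∑ v ∈ nb H x, Wk H i v y * Wk H j y z := by
      intro y _
      show (∑ v ∈ nb H x, Wk H i v y) * Wk H j y z = _
      rw [Finset.sum_mul]
    rw [Finset.sum_congr rfl h1, Finset.sum_comm]
    show _ ≤ ∑ v ∈ nb H x, Wk H (i + j) v z
    exact Finset.sum_le_sum fun v _ => ih v

end IX_X1

theorem pr_X1 : StX1.{u} := by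
  intro V H _ S i j x z
  exact IX_X1.comp H S j z i x

end Pool.Agent.Work.MP_c58d8b_pr.SO

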