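import Pool.Agent.Work.MP_c58d8b_pr.SO.StmtsX

/-!
# MP_c58d8b_pr, block SO, item X2: the cycle term for the constant function
-/

set_option autoImplicit false

namespace Pool.Agent.Work.MP_c58d8b_pr.SO

open MeasureTheory ProbabilityTheory Set
open scoped ENNReal unitInterval Classical

universe u

namespace IX_X2

theorem series (x : ℝ) (hx0 : 0 ≤ x) (hx1 : x < 1) (N : ℕ) :
    ∑ n ∈ Finset.Icc 3 N, (n : ℝ) * x ^ (n - 2) ≤ x / (1 - x) ^ 2 + 2 * x / (1 - x) := by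
  have hn : ‖x‖ < 1 := by
    rw [Real.norm_eq_abs, abs_of_nonneg hx0]
    exact hx1
  have h1 : HasSum (fun m : ℕ => (m : ℝ) * x ^ m) (x / (1 - x) ^ 2) :=
    hasSum_coe_mul_geometric_of_norm_lt_one hn
  have h2 : HasSum (fun m : ℕ => x ^ m) (1 - x)⁻¹ := hasSum_geometric_of_norm_lt_one hn
  have h3 : HasSum (fun m : ℕ => x * ((m : ℝ) * x ^ m) + 3 * x * x ^ m)
      (x * (x / (1 - x) ^ 2) + 3 * x * (1 - x)⁻¹) := (h1.mul_left x).add (h2.mul_left (3 * x))
  have h4 : ∑ n ∈ Finset.Icc 3 N, (n : ℝ) * x ^ (n - 2) =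
      ∑ m ∈ Finset.range (N + 1 - 3), (x * ((m : ℝ) * x ^ m) + 3 * x * x ^ m) := by
    have e : Finset.Icc 3 N = Finset.Ico 3 (N + 1) := by
      ext n
      simp only [Finset.mem_Icc, Finset.mem_Ico]
      omega
    rw [e, Finset.sum_Ico_eq_sum_range]
    refine Finset.sum_congr rfl fun m _ => ?_
    have e2 : 3 + m - 2 = m + 1 := by omega
    rw [e2]
    push_cast
    ring
  rw [h4]
  have h5 := sum_le_hasSum (Finset.range (N + 1 - 3)) (fun m _ => by positivity) h3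
  refine h5.trans (le_of_eq ?_)
  have h6 : (1 - x) ≠ 0 := by linarith
  field_simp
  ring

end IX_X2

theorem pr_X2 (hWB : StWB.{u}) (hWN : StWN.{u}) (hX1 : StX1.{u}) : StX2.{u} := by
  intro V H hH A p d hA hSp hd hp hpA S z
  obtain ⟨-, hpos, -, -, -⟩ := hWB V H hH
  obtain ⟨-, hWN2⟩ := hWN V H hH A d hA hSp hd
  have hx0 : 0 ≤ p * A := mul_nonneg hp hA
  have hser := IX_X2.series (p * A) hx0 hpA S.card
  unfold Rz
  have step : ∀ n ∈ Finset.Icc 3 S.card, p ^ n * ∑ i ∈ Finset.Icc 1 n, ∑ y ∈ S,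
      (1 : ℝ) * Wk H i y z * Wk H (n - i) z y ≤ p ^ 2 * d * ((n : ℝ) * (p * A) ^ (n - 2)) := by
    intro n hn
    have hn3 : 3 ≤ n := (Finset.mem_Icc.1 hn).1
    have h1 : ∀ i ∈ Finset.Icc 1 n, ∑ y ∈ S, (1 : ℝ) * Wk H i y z * Wk H (n - i) z y ≤
        A ^ (n - 2) * d := by
      intro i hi
      have hin : n - i + i = n := Nat.sub_add_cancel (Finset.mem_Icc.1 hi).2
      have h2 := hX1 V H hH S (n - i) i z z
      rw [hin] at h2
      refine le_trans (le_of_eq ?_) (h2.trans (hWN2 n (by omega) z z))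
      refine Finset.sum_congr rfl fun y _ => ?_
      ring
    have h3 : ∑ i ∈ Finset.Icc 1 n, ∑ y ∈ S, (1 : ℝ) * Wk H i y z * Wk H (n - i) z y ≤
        (n : ℝ) * (A ^ (n - 2) * d) := by
      have h4 := Finset.sum_le_card_nsmul (Finset.Icc 1 n) _ _ h1
      rw [Nat.card_Icc, Nat.add_sub_cancel, nsmul_eq_mul] at h4
      exact h4
    have h5 := mul_le_mul_of_nonneg_left h3 (pow_nonneg hp n)
    refine h5.trans (le_of_eq ?_)
    obtain ⟨k, rfl⟩ := Nat.exists_eq_add_of_le (show 2 ≤ n by omega)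
    rw [Nat.add_sub_cancel_left, mul_pow, pow_add]
    ring
  refine (Finset.sum_le_sum step).trans ?_
  rw [← Finset.mul_sum]
  refine (mul_le_mul_of_nonneg_left hser (by positivity)).trans (le_of_eq ?_)
  ring

end Pool.Agent.Work.MP_c58d8b_pr.SO
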