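import Pool.Agent.Work.MP_c58d8b_pr.SO.StmtsX

/-!
# MP_c58d8b_pr, block SO, item X3: continuity in the parameter
-/

set_option autoImplicit false

namespace Pool.Agent.Work.MP_c58d8b_pr.SO

open MeasureTheory ProbabilityTheory Set
open scoped ENNReal unitInterval Classical

universe u

namespace IX_X3

theorem step (ρ d l : ℝ) (hd : 0 < d) (hx : l * ρ < 1)
    (h : l ^ 2 * (1 + l * ρ - (l * ρ) ^ 2) ≤ d * (l - 1) * (1 - l * ρ) ^ 2) :
    1 + l ^ 2 / d * (1 + l * ρ / (1 - l * ρ) ^ 2 + 2 * (l * ρ) / (1 - l * ρ)) ≤ l := by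
  set x := l * ρ with hxd
  have hy : 0 < 1 - x := by linarith
  have e : 1 + x / (1 - x) ^ 2 + 2 * x / (1 - x) = (1 + x - x ^ 2) / (1 - x) ^ 2 := by
    field_simp
    ring
  rw [e]
  have e2 : l ^ 2 / d * ((1 + x - x ^ 2) / (1 - x) ^ 2) =
      (l ^ 2 * (1 + x - x ^ 2)) / (d * (1 - x) ^ 2) := by
    rw [div_mul_div_comm]
  rw [e2]
  have e3 : (l ^ 2 * (1 + x - x ^ 2)) / (d * (1 - x) ^ 2) ≤ l - 1 := by
    rw [div_le_iff₀ (by positivity)]
    calc _ ≤ _ := h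
      _ = (l - 1) * (d * (1 - x) ^ 2) := by ring
  linarith

end IX_X3

theorem pr_X3 : StX3 := by
  intro ρ d lam hρ hd hlam hx h
  have hc : Continuous fun l : ℝ => d * (l - 1) * (1 - l * ρ) ^ 2 -
      l ^ 2 * (1 + l * ρ - (l * ρ) ^ 2) := by fun_prop
  have h0 : 0 < d * (lam - 1) * (1 - lam * ρ) ^ 2 -
      lam ^ 2 * (1 + lam * ρ - (lam * ρ) ^ 2) := by linarith
  obtain ⟨δ, hδ, hb⟩ := Metric.eventually_nhds_iff.1 (hc.continuousAt.eventually (lt_mem_nhds h0))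
  refine ⟨max ((1 + lam) / 2) (lam - δ / 2), ?_, ?_, ?_⟩
  · exact lt_max_of_lt_left (by linarith)
  · exact max_lt (by linarith) (by linarith)
  · intro l hl hl2
    have h1 : lam - δ / 2 ≤ l := (le_max_right _ _).trans hl
    have h2 : l * ρ < 1 := lt_of_le_of_lt (mul_le_mul_of_nonneg_right hl2 hρ.le) hx
    refine ⟨h2, IX_X3.step ρ d l hd h2 ?_⟩
    have h3 := hb (y := l) (by
      rw [Real.dist_eq, abs_lt]
      constructor <;> linarith)
    linarith

end Pool.Agent.Work.MP_c58d8b_pr.SO
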