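import Pool.Agent.Work.MP_c58d8b_pr.SO.StmtsX

/-!
# MP_c58d8b_pr, block SO: theorem X (explicit criterion for unimodular graphs)
-/

set_option autoImplicit false

namespace Pool.Agent.Work.MP_c58d8b_pr.SO

open MeasureTheory ProbabilityTheory Set
open scoped ENNReal unitInterval Classical

universe u

namespace IX_X4

lemma nb_nonempty {V : Type u} [Infinite V] (H : SimpleGraph V) (hWB : StWB.{u})
    (hc : H.Connected) (hl : LocFinite H) (o : V) : (nb H o).Nonempty := by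
  obtain ⟨y, hy⟩ := exists_ne o
  obtain ⟨w⟩ := hc.preconnected o y
  cases w with
  | nil => exact absurd rfl hy
  | cons h p => exact ⟨_, ((hWB V H hl).1 o _).2 h⟩

lemma within_univ {V : Type u} (H : SimpleGraph V) : within H Set.univ = H := by
  ext x y
  simp [within]

lemma heavy_of_infinite {V : Type u} (Γ : Subgroup (Equiv.Perm V)) (hw : ∀ x y, weight Γ x y = 1)
    (A : Set V) (hA : A.Infinite) : Heavy Γ A := by
  intro o
  have : Infinite A := hA.to_subtype
  have h1 : (fun x : A => ENNReal.ofReal (weight Γ (x : V) o)) = fun _ => (1 : ℝ≥0∞) := by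
    funext x
    rw [hw]; simp
  rw [h1]
  exact ENNReal.tsum_const_eq_top_of_ne_zero one_ne_zero

end IX_X4

theorem pr_X4 (hB : Basics.{u}) (hWB : StWB.{u}) (hSM : StSM.{u}) (hX2 : StX2.{u}) (hX3 : StX3)
    (hBP : StBP.{u}) (hD5 : StD5.{u}) (hU3 : StU3.{u}) (hL1 : StL1.{u}) : StX4.{u} := by
  intro V _ Γ H hg hw1 o ρ lam hρ hlam hlr hsp hineq
  have : Countable V := hB.countable V H hg.conn hg.lf
  have hne := IX_X4.nb_nonempty H hWB hg.conn hg.lf o
  set d : ℕ := (nb H o).card with hd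
  have hd1 : (1 : ℝ) ≤ d := by
    have : 1 ≤ (nb H o).card := Finset.card_pos.2 hne
    exact_mod_cast this
  have hd0 : (0 : ℝ) < d := by linarith
  have hcard : ∀ x, (nb H x).card = d := fun x => (hSM V Γ H hg o x).1
  have hsig : sig Γ H o = d := by
    unfold sig
    simp [hw1, hd]
  have hlr0 : 0 < lam * ρ := by positivity
  have hlamd : lam ≤ d := by
    have h1 : lam ^ 2 ≤ lam ^ 2 * (1 + lam * ρ - (lam * ρ) ^ 2) := by
      have : 0 ≤ lam * ρ - (lam * ρ) ^ 2 := by nlinarith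
      nlinarith [sq_nonneg lam]
    have h2 : (d : ℝ) * (lam - 1) * (1 - lam * ρ) ^ 2 ≤ d * (lam - 1) := by
      have h3 : (1 - lam * ρ) ^ 2 ≤ 1 := by nlinarith
      have h4 : 0 ≤ (d : ℝ) * (lam - 1) := mul_nonneg hd0.le (by linarith)
      nlinarith
    have h5 : lam ^ 2 < d * (lam - 1) := by linarith
    by_contra hlt
    push Not at hlt
    nlinarith
  obtain ⟨lam1, h1, h2, h3⟩ := hX3 ρ d lam hρ hd0 hlam hlr hineq
  have hphi : ∀ q : ℝ, lam1 / d ≤ q → q ≤ lam / d → ∀ S : Finset V, o ∈ S → 1 ≤ phi H q S o := by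
    intro q hq1 hq2 S hoS
    have hq0 : 0 ≤ q := le_trans (by positivity) hq1
    have hqd1 : lam1 ≤ q * d := by rwa [div_le_iff₀ hd0] at hq1
    have hqd2 : q * d ≤ lam := by rwa [le_div_iff₀ hd0] at hq2
    have hq1' : q ≤ 1 := by
      have : q * d ≤ d := hqd2.trans hlamd
      by_contra hc
      push Not at hc
      nlinarith
    obtain ⟨hx, hmain⟩ := h3 (q * d) hqd1 hqd2
    have key := hBP V H hg.lf Set.univ o q 1 (fun _ => 1) hq0 hq1' one_pos (Set.mem_univ o)
      (fun _ => zero_le_one) (fun _ => le_refl _) (fun y hy => absurd (Set.mem_univ y) hy) ?_ S hoS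
    · rw [IX_X4.within_univ] at key
      simpa using key
    · intro z _ S'
      have hA0 : 0 ≤ ρ * (d : ℝ) := by positivity
      have hpA : q * (ρ * (d : ℝ)) < 1 := by
        have : q * (ρ * (d : ℝ)) = q * d * ρ := by ring
        linarith
      have hR := hX2 V H hg.lf (ρ * d) q d hA0 hsp (fun x => (hcard x).le) hq0 hpA S' z
      have e1 : q * (ρ * (d : ℝ)) = q * d * ρ := by ring
      rw [e1] at hR
      have e2 : q ^ 2 * (d : ℝ) = (q * d) ^ 2 / d := by field_simp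
      rw [e2] at hR
      rw [hcard z]
      have e3 : q * ∑ _y ∈ nb H z, (1 : ℝ) = q * d := by
        rw [Finset.sum_const, hcard z]; simp
      rw [e3, e2]
      have e4 : 1 + (q * d) ^ 2 / d * (1 + q * d * ρ / (1 - q * d * ρ) ^ 2 +
          2 * (q * d * ρ) / (1 - q * d * ρ)) = 1 + (q * (d : ℝ)) ^ 2 / d * 1 + (q * d) ^ 2 / d *
          (q * d * ρ / (1 - q * d * ρ) ^ 2 + 2 * (q * d * ρ) / (1 - q * d * ρ)) := by ring
      linarith
  have hpI : lam / (d : ℝ) ∈ I := ⟨by positivity, (div_le_one hd0).2 hlamd⟩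
  have hinf := hD5 V H hg.lf o (lam1 / d) (⟨lam / d, hpI⟩ : I) 1 (by positivity)
    (by
      change lam1 / (d : ℝ) ≤ lam / d
      exact div_le_div_of_nonneg_right h2.le hd0.le) zero_le_one
    (fun q hq S hoS => hphi q hq.1 hq.2 S hoS)
  have hperc : 0 < perc H (⟨lam / d, hpI⟩ : I) (HeavyEvent Γ) := by
    refine lt_of_lt_of_le ?_ (measure_mono (fun s (hs : (Cluster s o).Infinite) =>
      ⟨o, IX_X4.heavy_of_infinite Γ hw1 _ hs⟩))
    refine lt_of_lt_of_le ?_ hinf
    rw [ENNReal.ofReal_pos]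
    have h4 : lam1 / (d : ℝ) < lam / d := div_lt_div_of_pos_right h2 hd0
    have h5 : Real.exp (-(1 * (lam / (d : ℝ) - lam1 / d))) < 1 := by
      rw [Real.exp_lt_one_iff]
      linarith
    linarith
  have hbdd : BddBelow {t : ℝ | ∃ p : I, (p : ℝ) = t ∧ 0 < perc H p (HeavyEvent Γ)} := by
    refine ⟨0, ?_⟩
    rintro t ⟨p, rfl, _⟩
    exact p.2.1
  have hph1 : ph H Γ ≤ lam / d := csInf_le hbdd ⟨_, rfl, hperc⟩
  have hph2 : 1 / (d : ℝ) ≤ ph H Γ := by
    refine le_csInf ⟨_, ⟨_, rfl, hperc⟩⟩ ?_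
    rintro t ⟨p, rfl, hp⟩
    by_contra hlt
    push Not at hlt
    have h1 : (p : ℝ) * sig Γ H o < 1 := by
      rw [lt_div_iff₀ hd0] at hlt
      rw [hsig]; exact hlt
    exact absurd (hL1 V Γ H hg o p h1) hp.ne'
  have hpu1 : 1 / (ρ * d) ≤ pu H := hU3 V Γ H hg _ (by positivity) hsp
  refine ⟨hph2, hph1, hpu1, hph1.trans_lt (lt_of_lt_of_le ?_ hpu1)⟩
  rw [div_lt_div_iff₀ hd0 (by positivity)]
  nlinarith

end Pool.Agent.Work.MP_c58d8b_pr.SO
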