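import Pool.Agent.Work.MP_c58d8b_pr.SO.StmtsX

/-!
# MP_c58d8b_pr, block SO, item X5: the numbers
-/

set_option autoImplicit false

namespace Pool.Agent.Work.MP_c58d8b_pr.SO

open MeasureTheory ProbabilityTheory Set
open scoped ENNReal unitInterval Classical

universe u

/-- item X5 -/
theorem pr_X5 : StX5 := by
  intro r d lam h0 h1 hd h27 hl
  have hx : lam * r = (1 + 2 * r) / 3 := by
    rw [hl]
    field_simp
  obtain ⟨x, hxdef⟩ : ∃ x : ℝ, x = (1 + 2 * r) / 3 := ⟨_, rfl⟩
  rw [← hxdef] at hx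
  have hx1 : x < 1 := by linarith
  have hx0 : 0 < x := by linarith
  refine ⟨?_, ?_, ?_⟩
  · rw [hl, lt_div_iff₀ (by positivity)]
    linarith
  · rw [hx]
    exact hx1
  · rw [hx]
    have hq : x ^ 2 * (1 + x - x ^ 2) < 1 := by
      have h2 : 0 < (1 - x) * (1 + x - x ^ 3) := by
        have h3 : x ^ 3 < 1 := by
          have h4 := pow_lt_one₀ hx0.le hx1 (n := 3) (by norm_num)
          exact h4
        exact mul_pos (by linarith) (by linarith)
      nlinarith
    have hR : 1 ≤ r ^ 2 * (d * (lam - 1) * (1 - x) ^ 2) := by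
      have h5 : r ^ 2 * (d * (lam - 1) * (1 - x) ^ 2) =
          r * d * (lam * r - r) * (1 - x) ^ 2 := by ring
      rw [h5, hx, hxdef]
      have h6 : r * d * ((1 + 2 * r) / 3 - r) * (1 - (1 + 2 * r) / 3) ^ 2 =
          4 * d * r * (1 - r) ^ 3 / 27 := by ring
      rw [h6]
      linarith
    have hL : r ^ 2 * (lam ^ 2 * (1 + x - x ^ 2)) = x ^ 2 * (1 + x - x ^ 2) := by
      rw [← hx]
      ring
    have key : r ^ 2 * (lam ^ 2 * (1 + x - x ^ 2)) < r ^ 2 * (d * (lam - 1) * (1 - x) ^ 2) := by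
      rw [hL]
      linarith
    exact lt_of_mul_lt_mul_left key (sq_nonneg r)

end Pool.Agent.Work.MP_c58d8b_pr.SO
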