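import Pool.Agent.Work.MP_c58d8b_pr.SO.Stmts

/-!
# MP_c58d8b_pr, block SO: the criterion YC and the theorem ZZ
-/

set_option autoImplicit false

namespace Pool.Agent.Work.MP_c58d8b_pr.SO

open MeasureTheory ProbabilityTheory Set
open scoped ENNReal unitInterval Classical

universe u

/-- [YC] The criterion. -/
def StYC : Prop := ∀ b ε : ℝ, 0 < b → b < 1 → 0 < ε → ∃ ρ : ℝ, 0 < ρ ∧
  ∀ (V : Type u) [Infinite V] (Γ : Subgroup (Equiv.Perm V)) (H : SimpleGraph V), Good Γ H →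
  ∀ (o : V) (a : ℝ), Sp H (b ^ 2 * sig Γ H o) → (∀ y ∈ nb H o, |Real.log (weight Γ y o)| ≤ a) →
  (nb H o).card ≤ ρ * sig Γ H o ^ 2 → (nb H o).card * a ≤ ρ * sig Γ H o * mom Γ H o →
    1 ≤ sig Γ H o * ph H Γ ∧ sig Γ H o * ph H Γ ≤ 1 + ε ∧ 1 / b ^ 2 ≤ sig Γ H o * pu H ∧
      ph H Γ < pu H

namespace IX_ZZ

lemma nb_nonempty {V : Type u} [Infinite V] (H : SimpleGraph V) (hWB : StWB.{u})
    (hc : H.Connected) (hl : LocFinite H) (o : V) : (nb H o).Nonempty := by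
  obtain ⟨y, hy⟩ := exists_ne o
  obtain ⟨w⟩ := hc.preconnected o y
  cases w with
  | nil => exact absurd rfl hy
  | cons h p => exact ⟨_, ((hWB V H hl).1 o _).2 h⟩

end IX_ZZ

theorem pr_YC (hB : Basics.{u}) (hW : WeightStmt.{u}) (hWB : StWB.{u}) (hCO : StCO.{u})
    (hL1 : StL1.{u}) (hU3 : StU3.{u}) : StYC.{u} := by
  intro b ε hb0 hb1 hε
  set lam2 : ℝ := min (1 + ε) ((1 + 1 / b) / 2) with hlam2
  have hb' : 1 < 1 / b := by rw [lt_div_iff₀ hb0]; linarith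
  have h2a : 1 < lam2 := lt_min (by linarith) (by linarith)
  have h2b : lam2 ≤ 1 + ε := min_le_left _ _
  have h2c : lam2 * b < 1 := by
    have h1 : lam2 ≤ (1 + 1 / b) / 2 := min_le_right _ _
    have h2 : lam2 * b ≤ (1 + 1 / b) / 2 * b := mul_le_mul_of_nonneg_right h1 hb0.le
    have h3 : (1 + 1 / b) / 2 * b = (b + 1) / 2 := by field_simp
    linarith
  obtain ⟨ρ₀, hρ₀, hco⟩ := hCO b ((1 + lam2) / 2) lam2 hb0 hb1.le (by linarith) (by linarith) h2c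
  refine ⟨min ρ₀ (1 / lam2 ^ 2), lt_min hρ₀ (by positivity), ?_⟩
  intro V _ Γ H hg o a hsp ha hd hda
  haveI : Countable V := hB.countable V H hg.conn hg.lf
  have hw := hW V H Γ hg.conn hg.lf hg.pres
  have hne := IX_ZZ.nb_nonempty H hWB hg.conn hg.lf o
  have hs0 : 0 < sig Γ H o := by
    unfold sig
    exact Finset.sum_pos (fun y _ => Real.sqrt_pos.2 (hw.1 y o)) hne
  have hm0 : 0 ≤ mom Γ H o := by
    unfold mom
    exact Finset.sum_nonneg fun y _ => mul_nonneg (Real.sqrt_nonneg _) (abs_nonneg _)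
  have ha0 : 0 ≤ a := by
    obtain ⟨y, hy⟩ := hne
    exact (abs_nonneg _).trans (ha y hy)
  have hc1 : (1 : ℝ) ≤ (nb H o).card := by
    have : 1 ≤ (nb H o).card := Finset.card_pos.2 hne
    exact_mod_cast this
  have hρ1 : min ρ₀ (1 / lam2 ^ 2) ≤ ρ₀ := min_le_left _ _
  have hρ2 : min ρ₀ (1 / lam2 ^ 2) ≤ 1 / lam2 ^ 2 := min_le_right _ _
  have hσ : lam2 ≤ sig Γ H o := by
    have h1 : (1 : ℝ) ≤ 1 / lam2 ^ 2 * sig Γ H o ^ 2 :=
      (hc1.trans hd).trans (mul_le_mul_of_nonneg_right hρ2 (by positivity))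
    have h2 : lam2 ^ 2 ≤ sig Γ H o ^ 2 := by
      have h3 : lam2 ^ 2 * 1 ≤ lam2 ^ 2 * (1 / lam2 ^ 2 * sig Γ H o ^ 2) :=
        mul_le_mul_of_nonneg_left h1 (by positivity)
      have h4 : lam2 ^ 2 * (1 / lam2 ^ 2 * sig Γ H o ^ 2) = sig Γ H o ^ 2 := by
        have : lam2 ^ 2 ≠ 0 := by positivity
        field_simp
      linarith
    exact (pow_le_pow_iff_left₀ (by linarith) hs0.le (by norm_num)).1 h2
  have hpI : lam2 / sig Γ H o ∈ I :=
    ⟨by positivity, (div_le_one hs0).2 hσ⟩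
  have hperc : 0 < perc H (⟨lam2 / sig Γ H o, hpI⟩ : I) (HeavyEvent Γ) := by
    refine hco V Γ H hg o a ha0 hs0 hsp ha ?_ ?_ _ rfl
    · exact hd.trans (mul_le_mul_of_nonneg_right hρ1 (by positivity))
    · refine hda.trans ?_
      exact mul_le_mul_of_nonneg_right (mul_le_mul_of_nonneg_right hρ1 hs0.le) hm0
  have hbdd : BddBelow {t : ℝ | ∃ p : I, (p : ℝ) = t ∧ 0 < perc H p (HeavyEvent Γ)} := by
    refine ⟨0, ?_⟩
    rintro t ⟨p, rfl, _⟩
    exact p.2.1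
  have hph1 : ph H Γ ≤ lam2 / sig Γ H o := csInf_le hbdd ⟨_, rfl, hperc⟩
  have hph2 : 1 / sig Γ H o ≤ ph H Γ := by
    refine le_csInf ⟨_, ⟨_, rfl, hperc⟩⟩ ?_
    rintro t ⟨p, rfl, hp⟩
    by_contra hlt
    push Not at hlt
    have h1 : (p : ℝ) * sig Γ H o < 1 := by
      rw [lt_div_iff₀ hs0] at hlt; exact hlt
    exact absurd (hL1 V Γ H hg o p h1) hp.ne'
  have hpu1 : 1 / (b ^ 2 * sig Γ H o) ≤ pu H := hU3 V Γ H hg _ (by positivity) hsp
  have e1 : sig Γ H o * (lam2 / sig Γ H o) = lam2 := by field_simp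
  have e2 : sig Γ H o * (1 / sig Γ H o) = 1 := by field_simp
  have e3 : sig Γ H o * (1 / (b ^ 2 * sig Γ H o)) = 1 / b ^ 2 := by
    have : b ≠ 0 := hb0.ne'
    field_simp
  refine ⟨?_, ?_, ?_, ?_⟩
  · have := mul_le_mul_of_nonneg_left hph2 hs0.le
    linarith
  · have := mul_le_mul_of_nonneg_left hph1 hs0.le
    linarith
  · have := mul_le_mul_of_nonneg_left hpu1 hs0.le
    linarith
  · refine hph1.trans_lt (lt_of_lt_of_le ?_ hpu1)
    rw [div_lt_div_iff₀ hs0 (by positivity)]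
    have h5 : lam2 * b ^ 2 < 1 := by
      have h6 : lam2 * b * b < 1 * 1 := by
        refine mul_lt_mul'' h2c hb1 (by positivity) hb0.le
      nlinarith
    nlinarith

theorem pr_ZZ (hW : WeightStmt.{u}) (hSG : StSG.{u})
    (hYC : StYC.{u}) (hTA : StTA.{u}) (hTD : StTD.{u}) (hTE : StTE.{u}) : StZZ.{u} := by
  intro V Γ G hg hna C hC
  have hw := hW V G Γ hg.conn hg.lf hg.pres
  haveI : Infinite V := by
    by_contra hfin
    rw [not_infinite_iff_finite] at hfin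
    haveI := hfin
    haveI : Fintype V := Fintype.ofFinite V
    obtain ⟨h, hh, hK⟩ := hna
    obtain ⟨o⟩ := hg.conn.nonempty
    have h1 := hK o Finset.univ
    have h2 : ∑ x : V, weight Γ x o * (((nb G x).filter (· ∉ (Finset.univ : Finset V))).card : ℝ) = 0 := by
      refine Finset.sum_eq_zero fun x _ => ?_
      simp
    rw [h2] at h1
    have h3 : 0 < ∑ x : V, weight Γ x o :=
      Finset.sum_pos (fun x _ => hw.1 x o) ⟨o, Finset.mem_univ o⟩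
    have h4 : 0 < h * ∑ x : V, weight Γ x o := mul_pos hh h3
    linarith
  have hC1 : (1 : ℝ) ≤ C := by exact_mod_cast hC
  obtain ⟨δ, hδ0, hδ1, hδ⟩ := hSG V Γ G hg hna C hC1
  have hb0 : 0 < √(1 - δ) := Real.sqrt_pos.2 (by linarith)
  have hb2 : √(1 - δ) ^ 2 = 1 - δ := Real.sq_sqrt (by linarith)
  have hb1 : √(1 - δ) < 1 := by
    rw [Real.sqrt_lt' one_pos]; linarith
  obtain ⟨a, ha0, ha, hlev⟩ := hTA V Γ G hg
  refine ⟨1 / √(1 - δ) ^ 2, ?_, ?_⟩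
  · rw [hb2, lt_div_iff₀ (by linarith)]; linarith
  intro ε hε
  obtain ⟨ρ, hρ, hcrit⟩ := hYC (√(1 - δ)) ε hb0 hb1 hε
  obtain ⟨k₁, hk₁⟩ := exists_nat_ge (2 * (C : ℝ) ^ 2 / ρ)
  refine ⟨k₁ + 1, ?_⟩
  intro k hk H hpres hle hle2 o hcard hsig
  have hk1 : 1 ≤ k := by omega
  have hkr : (1 : ℝ) ≤ k := by exact_mod_cast hk1
  have hkk : 2 * (C : ℝ) ^ 2 ≤ ρ * k := by
    have h1 : (k₁ : ℝ) ≤ k := by exact_mod_cast (by omega : k₁ ≤ k)
    have h2 : 2 * (C : ℝ) ^ 2 / ρ ≤ k := hk₁.trans h1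
    rw [div_le_iff₀ hρ] at h2
    linarith
  obtain ⟨hgH, hTEo⟩ := hTE V Γ G hg a ha0 ha k C H hk1 hC hpres hle hle2
  obtain ⟨hlogH, hsk, hmk⟩ := hTEo o
  obtain ⟨hskpos, hd1, hd2⟩ := hTD V Γ G hg a ha0 ha hlev o k hk1
  have hsp := hδ k hk1 H hgH hle o hsig
  rw [← hb2] at hsp
  have hmk0 : 0 ≤ mom Γ (pow G k) o := by
    unfold mom
    exact Finset.sum_nonneg fun y _ => mul_nonneg (Real.sqrt_nonneg _) (abs_nonneg _)
  have hsH0 : 0 < sig Γ H o := hskpos.trans_le hsk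
  have hmH0 : 0 ≤ mom Γ H o := hmk0.trans hmk
  have hsq : sig Γ (pow G k) o ^ 2 ≤ sig Γ H o ^ 2 := pow_le_pow_left₀ hskpos.le hsk 2
  have hsm : sig Γ (pow G k) o * mom Γ (pow G k) o ≤ sig Γ H o * mom Γ H o :=
    mul_le_mul hsk hmk hmk0 hsH0.le
  have hCC : (C : ℝ) ≤ 2 * (C : ℝ) ^ 2 := by nlinarith
  have hkpos : (0 : ℝ) < k := by linarith
  have hcard : ((nb H o).card : ℝ) ≤ C * (nb (pow G k) o).card := by exact_mod_cast hcard
  have c1 : ((nb H o).card : ℝ) ≤ ρ * sig Γ H o ^ 2 := by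
    have h1 : (k : ℝ) * (nb H o).card ≤ C * sig Γ H o ^ 2 := by
      calc (k : ℝ) * (nb H o).card ≤ k * (C * (nb (pow G k) o).card) :=
            mul_le_mul_of_nonneg_left hcard hkpos.le
        _ = C * (k * (nb (pow G k) o).card) := by ring
        _ ≤ C * sig Γ (pow G k) o ^ 2 := mul_le_mul_of_nonneg_left hd1 (by linarith)
        _ ≤ C * sig Γ H o ^ 2 := mul_le_mul_of_nonneg_left hsq (by linarith)
    have h2 : (C : ℝ) * sig Γ H o ^ 2 ≤ (ρ * k) * sig Γ H o ^ 2 :=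
      mul_le_mul_of_nonneg_right (hCC.trans hkk) (by positivity)
    have h3 : (k : ℝ) * (nb H o).card ≤ k * (ρ * sig Γ H o ^ 2) := by
      calc (k : ℝ) * (nb H o).card ≤ (ρ * k) * sig Γ H o ^ 2 := h1.trans h2
        _ = k * (ρ * sig Γ H o ^ 2) := by ring
    exact le_of_mul_le_mul_left h3 hkpos
  have c2 : ((nb H o).card : ℝ) * (C * k * a) ≤ ρ * sig Γ H o * mom Γ H o := by
    have h1 : (k : ℝ) * ((nb H o).card * (C * k * a)) ≤ 2 * (C : ℝ) ^ 2 * (sig Γ H o * mom Γ H o) := by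
      calc (k : ℝ) * ((nb H o).card * (C * k * a))
          ≤ (k : ℝ) * ((C * (nb (pow G k) o).card) * (C * k * a)) := by
            refine mul_le_mul_of_nonneg_left (mul_le_mul_of_nonneg_right hcard ?_) hkpos.le
            positivity
        _ = (C : ℝ) ^ 2 * ((k : ℝ) ^ 2 * a * (nb (pow G k) o).card) := by ring
        _ ≤ (C : ℝ) ^ 2 * (2 * sig Γ (pow G k) o * mom Γ (pow G k) o) :=
            mul_le_mul_of_nonneg_left hd2 (by positivity)
        _ = 2 * (C : ℝ) ^ 2 * (sig Γ (pow G k) o * mom Γ (pow G k) o) := by ring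
        _ ≤ 2 * (C : ℝ) ^ 2 * (sig Γ H o * mom Γ H o) :=
            mul_le_mul_of_nonneg_left hsm (by positivity)
    have h2 : 2 * (C : ℝ) ^ 2 * (sig Γ H o * mom Γ H o) ≤ (ρ * k) * (sig Γ H o * mom Γ H o) :=
      mul_le_mul_of_nonneg_right hkk (mul_nonneg hsH0.le hmH0)
    have h3 : (k : ℝ) * ((nb H o).card * (C * k * a)) ≤ k * (ρ * sig Γ H o * mom Γ H o) := by
      calc (k : ℝ) * ((nb H o).card * (C * k * a)) ≤ (ρ * k) * (sig Γ H o * mom Γ H o) := h1.trans h2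
        _ = k * (ρ * sig Γ H o * mom Γ H o) := by ring
    exact le_of_mul_le_mul_left h3 hkpos
  exact hcrit V Γ H hgH o (C * k * a) hsp hlogH c1 c2

end Pool.Agent.Work.MP_c58d8b_pr.SO
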