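import Pool.Agent.Work.MP_c58d8b_pr.I_BASICS
import Pool.Agent.Work.MP_c58d8b_pr.I_WEIGHT
import Pool.Agent.Work.MP_c58d8b_pr.I_MTP
import Pool.Agent.Work.MP_c58d8b_pr.I_INV
import Pool.Agent.Work.MP_c58d8b_pr.I_MEAS
import Pool.Agent.Work.MP_c58d8b_pr.SO.I_PB
import Pool.Agent.Work.MP_c58d8b_pr.SO.I_PI
import Pool.Agent.Work.MP_c58d8b_pr.SO.I_PL
import Pool.Agent.Work.MP_c58d8b_pr.SO.I_PA
import Pool.Agent.Work.MP_c58d8b_pr.SO.I_PM
import Pool.Agent.Work.MP_c58d8b_pr.SO.I_PR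
import Pool.Agent.Work.MP_c58d8b_pr.SO.I_CB
import Pool.Agent.Work.MP_c58d8b_pr.SO.I_CR
import Pool.Agent.Work.MP_c58d8b_pr.SO.I_CG
import Pool.Agent.Work.MP_c58d8b_pr.SO.I_CN
import Pool.Agent.Work.MP_c58d8b_pr.SO.I_CC
import Pool.Agent.Work.MP_c58d8b_pr.SO.I_WB
import Pool.Agent.Work.MP_c58d8b_pr.SO.I_WC
import Pool.Agent.Work.MP_c58d8b_pr.SO.I_SM
import Pool.Agent.Work.MP_c58d8b_pr.SO.I_WS
import Pool.Agent.Work.MP_c58d8b_pr.SO.I_WN
import Pool.Agent.Work.MP_c58d8b_pr.SO.I_M1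
import Pool.Agent.Work.MP_c58d8b_pr.SO.I_M2
import Pool.Agent.Work.MP_c58d8b_pr.SO.I_M3
import Pool.Agent.Work.MP_c58d8b_pr.SO.I_M4
import Pool.Agent.Work.MP_c58d8b_pr.SO.I_MI
import Pool.Agent.Work.MP_c58d8b_pr.SO.I_BP
import Pool.Agent.Work.MP_c58d8b_pr.SO.I_D1
import Pool.Agent.Work.MP_c58d8b_pr.SO.I_D2
import Pool.Agent.Work.MP_c58d8b_pr.SO.I_D3
import Pool.Agent.Work.MP_c58d8b_pr.SO.I_D4
import Pool.Agent.Work.MP_c58d8b_pr.SO.I_D5
import Pool.Agent.Work.MP_c58d8b_pr.SO.I_HV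
import Pool.Agent.Work.MP_c58d8b_pr.SO.I_GA
import Pool.Agent.Work.MP_c58d8b_pr.SO.I_GC
import Pool.Agent.Work.MP_c58d8b_pr.SO.I_GK
import Pool.Agent.Work.MP_c58d8b_pr.SO.I_GR
import Pool.Agent.Work.MP_c58d8b_pr.SO.I_GG
import Pool.Agent.Work.MP_c58d8b_pr.SO.I_CO
import Pool.Agent.Work.MP_c58d8b_pr.SO.I_U0
import Pool.Agent.Work.MP_c58d8b_pr.SO.I_U1
import Pool.Agent.Work.MP_c58d8b_pr.SO.I_U2
import Pool.Agent.Work.MP_c58d8b_pr.SO.I_U3
import Pool.Agent.Work.MP_c58d8b_pr.SO.I_L1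
import Pool.Agent.Work.MP_c58d8b_pr.SO.I_SI
import Pool.Agent.Work.MP_c58d8b_pr.SO.I_SA
import Pool.Agent.Work.MP_c58d8b_pr.SO.I_SC
import Pool.Agent.Work.MP_c58d8b_pr.SO.I_SB
import Pool.Agent.Work.MP_c58d8b_pr.SO.I_SP
import Pool.Agent.Work.MP_c58d8b_pr.SO.I_SE
import Pool.Agent.Work.MP_c58d8b_pr.SO.I_SG
import Pool.Agent.Work.MP_c58d8b_pr.SO.I_TA
import Pool.Agent.Work.MP_c58d8b_pr.SO.I_TB
import Pool.Agent.Work.MP_c58d8b_pr.SO.I_TC
import Pool.Agent.Work.MP_c58d8b_pr.SO.I_TD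
import Pool.Agent.Work.MP_c58d8b_pr.SO.I_TE
import Pool.Agent.Work.MP_c58d8b_pr.SO.I_ZZ
import Pool.Agent.Work.MP_c58d8b_pr.SO.I_X1
import Pool.Agent.Work.MP_c58d8b_pr.SO.I_X2
import Pool.Agent.Work.MP_c58d8b_pr.SO.I_X3
import Pool.Agent.Work.MP_c58d8b_pr.SO.I_X4
import Pool.Agent.Work.MP_c58d8b_pr.SO.I_X5

/-!
# MP_c58d8b_pr, block SO: assembly
-/

set_option autoImplicit false

namespace Pool.Agent.Work.MP_c58d8b_pr.SO

universe u

theorem all_PB : StPB.{u} := pr_PB 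

theorem all_PI : StPI.{u} := pr_PI 

theorem all_PL : StPL.{u} := pr_PL all_PB all_PI

theorem all_PA : StPA.{u} := pr_PA all_PL

theorem all_PM : StPM.{u} := pr_PM 

theorem all_PR : StPR.{u} := pr_PR 

theorem all_CB : StCB.{u} := pr_CB 

theorem all_CR : StCR.{u} := pr_CR all_CB

theorem all_CG : StCG.{u} := pr_CG all_CB

theorem all_CN : StCN.{u} := pr_CN all_CB all_CG

theorem all_CC : StCC.{u} := pr_CC all_CB

theorem all_WB : StWB.{u} := pr_WB 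

theorem all_WC : StWC.{u} := pr_WC all_WB

theorem all_SM : StSM.{u} := pr_SM (NWEIGHT.prf NBASICS.prf) (NMTP.prf (NWEIGHT.prf NBASICS.prf) NBASICS.prf) all_WB

theorem all_WS : StWS.{u} := pr_WS (NWEIGHT.prf NBASICS.prf) all_SM

theorem all_WN : StWN.{u} := pr_WN 

theorem all_M1 : StM1.{u} := pr_M1 all_PB all_PI all_PL all_PA all_CB

theorem all_M2 : StM2.{u} := pr_M2 all_PB all_PI all_PL all_PA all_CB all_CR

theorem all_M3 : StM3.{u} := pr_M3 all_PB all_PI all_PL all_PA all_CB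

theorem all_M4 : StM4.{u} := pr_M4 all_PB all_CC all_WB all_WC all_M3

theorem all_MI : StMI.{u} := pr_MI all_PB all_WB all_M1 all_M2 all_CN all_M4

theorem all_BP : StBP.{u} := pr_BP all_PB all_CB all_WB all_MI

theorem all_D1 : StD1.{u} := pr_D1 all_CB

theorem all_D2 : StD2.{u} := pr_D2 all_PB all_PI all_PL all_CB all_WB

theorem all_D3 : StD3.{u} := pr_D3 all_PB all_PR all_CB all_D1 all_D2

theorem all_D4 : StD4.{u} := pr_D4 all_PB all_D3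

theorem all_D5 : StD5.{u} := pr_D5 NMEAS.prf all_PM all_CB all_WB all_D4

theorem all_HV : StHV.{u} := pr_HV (NWEIGHT.prf NBASICS.prf) NMEAS.prf all_CB

theorem all_GA : StGA.{u} := pr_GA 

theorem all_GC : StGC := pr_GC 

theorem all_GK : StGK.{u} := pr_GK all_WB all_WS all_WN all_SM

theorem all_GR : StGR.{u} := pr_GR (NWEIGHT.prf NBASICS.prf) all_WB all_GK

theorem all_GG : StGG.{u} := pr_GG (NWEIGHT.prf NBASICS.prf) all_WB all_SM all_GA all_GR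

theorem all_CO : StCO.{u} := pr_CO NBASICS.prf (NWEIGHT.prf NBASICS.prf) all_GC all_GG all_BP all_D5 all_HV

theorem all_U0 : StU0.{u} := pr_U0 all_PA all_PM all_WB

theorem all_U1 : StU1.{u} := pr_U1 all_WN all_WB all_U0

theorem all_U2 : StU2.{u} := pr_U2 NBASICS.prf NINV.prf NMEAS.prf all_CB

theorem all_U3 : StU3.{u} := pr_U3 all_U1 all_U2

theorem all_L1 : StL1.{u} := pr_L1 (NWEIGHT.prf NBASICS.prf) NMEAS.prf all_U0 all_WS all_WB

theorem all_SI : StSI.{u} := pr_SI (NWEIGHT.prf NBASICS.prf) all_WB all_SM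

theorem all_SA : StSA.{u} := pr_SA 

theorem all_SC : StSC.{u} := pr_SC (NWEIGHT.prf NBASICS.prf) all_WB all_SM all_SA

theorem all_SB : StSB.{u} := pr_SB NBASICS.prf (NWEIGHT.prf NBASICS.prf) all_SM

theorem all_SP : StSP.{u} := pr_SP (NWEIGHT.prf NBASICS.prf) all_WB all_SM all_SB

theorem all_SE : StSE.{u} := pr_SE 

theorem all_SG : StSG.{u} := pr_SG (NWEIGHT.prf NBASICS.prf) all_SI all_SC all_SP all_SE

theorem all_TA : StTA.{u} := pr_TA (NWEIGHT.prf NBASICS.prf) all_WB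

theorem all_TB : StTB.{u} := pr_TB NBASICS.prf (NWEIGHT.prf NBASICS.prf) (NMTP.prf (NWEIGHT.prf NBASICS.prf) NBASICS.prf)

theorem all_TC : StTC.{u} := pr_TC NBASICS.prf (NWEIGHT.prf NBASICS.prf) all_TB

theorem all_TD : StTD.{u} := pr_TD NBASICS.prf (NWEIGHT.prf NBASICS.prf) all_TC

theorem all_TE : StTE.{u} := pr_TE (NWEIGHT.prf NBASICS.prf) all_WB all_SB

theorem all_YC : StYC.{u} := pr_YC NBASICS.prf (NWEIGHT.prf NBASICS.prf) all_WB all_CO all_L1 all_U3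

theorem all_ZZ : StZZ.{u} := pr_ZZ (NWEIGHT.prf NBASICS.prf) all_SG all_YC all_TA all_TD all_TE

theorem all_X1 : StX1.{u} := pr_X1 

theorem all_X2 : StX2.{u} := pr_X2 all_WB all_WN all_X1

theorem all_X3 : StX3 := pr_X3 

theorem all_X4 : StX4.{u} := pr_X4 NBASICS.prf all_WB all_SM all_X2 all_X3 all_BP all_D5 all_U3 all_L1

theorem all_X5 : StX5 := pr_X5 

end Pool.Agent.Work.MP_c58d8b_pr.SO
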