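import Pool.Agent.Work.MP_c58d8b_pr.Stmts2

/-!
# MP_c58d8b_pr, block SO (spread-out graphs; captain helper80): definitions
-/

set_option autoImplicit false

namespace Pool.Agent.Work.MP_c58d8b_pr.SO

open MeasureTheory ProbabilityTheory Set
open scoped ENNReal unitInterval Classical

universe u

variable {V : Type u}

/-! ### The graphs -/

/-- The finite set of the neighbours of `x`. -/
noncomputable def nb (H : SimpleGraph V) (x : V) : Finset V :=
  if h : (H.neighborSet x).Finite then h.toFinset else ∅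

/-- The power `G^k`: two different vertices are joined if their distance in `G` is at most `k`. -/
def pow (G : SimpleGraph V) (k : ℕ) : SimpleGraph V where
  Adj x y := x ≠ y ∧ G.dist x y ≤ k
  symm := ⟨fun _ _ h => ⟨h.1.symm, by rw [G.dist_comm]; exact h.2⟩⟩
  loopless := ⟨fun _ h => h.1 rfl⟩

/-- `σ(H)`: the sum of `√w(y, o)` over the neighbours `y` of `o` in `H`. -/
noncomputable def sig (Γ : Subgroup (Equiv.Perm V)) (H : SimpleGraph V) (o : V) : ℝ :=
  ∑ y ∈ nb H o, √(weight Γ y o)

/-- `G` is not weighted-amenable: there is `h > 0` such that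
`∑_{x ∈ K} w(x) |{y ∉ K : y ~ x}| ≥ h ∑_{x ∈ K} w(x)` for every finite set `K`. -/
def NonAmen (G : SimpleGraph V) (Γ : Subgroup (Equiv.Perm V)) : Prop :=
  ∃ h : ℝ, 0 < h ∧ ∀ (o : V) (K : Finset V),
    h * ∑ x ∈ K, weight Γ x o ≤ ∑ x ∈ K, weight Γ x o * ((nb G x).filter (· ∉ K)).card

/-- The sum of `√w(y, o) |log w(y, o)|` over the neighbours `y` of `o` in `H`. -/
noncomputable def mom (Γ : Subgroup (Equiv.Perm V)) (H : SimpleGraph V) (o : V) : ℝ :=
  ∑ y ∈ nb H o, √(weight Γ y o) * |Real.log (weight Γ y o)|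

/-! ### Finite percolation -/

/-- The probability of `A` if every element of the finite set `E` is open with probability `p`
independently, and everything else is closed. -/
noncomputable def Pr {ι : Type u} (E : Finset ι) (p : ℝ) (A : Set (Set ι)) : ℝ :=
  ∑ s ∈ E.powerset.filter (fun s : Finset ι => (s : Set ι) ∈ A),
    p ^ s.card * (1 - p) ^ (E.card - s.card)

/-- The edges of `H` inside `S`. -/
noncomputable def EI (H : SimpleGraph V) (S : Finset V) : Finset (Sym2 V) :=
  ((S ×ˢ S).filter fun q => H.Adj q.1 q.2).image fun q => s(q.1, q.2)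

/-- The edges of `H` with an endpoint in `S`. -/
noncomputable def ET (H : SimpleGraph V) (S : Finset V) : Finset (Sym2 V) :=
  S.biUnion fun x => (nb H x).image fun y => s(x, y)

/-- The probability that `x` is connected to `o` inside `S`. -/
noncomputable def tau (H : SimpleGraph V) (p : ℝ) (S : Finset V) (o x : V) : ℝ :=
  Pr (EI H S) p {s | x ∈ Cluster s o}

/-- `φ_p(S) = p ∑_{x ∈ S, y ∉ S, x ~ y} P(o ↔ x in S)` (Duminil-Copin and Tassion). -/
noncomputable def phi (H : SimpleGraph V) (p : ℝ) (S : Finset V) (o : V) : ℝ :=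
  p * ∑ x ∈ S, ∑ _y ∈ (nb H x).filter (· ∉ S), tau H p S o x

/-- The number of walks of length `n` from `x` to `y`. -/
noncomputable def Wk (H : SimpleGraph V) : ℕ → V → V → ℝ
  | 0, x, y => if x = y then 1 else 0
  | n + 1, x, y => ∑ z ∈ nb H x, Wk H n z y

/-- The cycle term of the main inequality. -/
noncomputable def Rz (H : SimpleGraph V) (p : ℝ) (S : Finset V) (f : V → ℝ) (z : V) : ℝ :=
  ∑ n ∈ Finset.Icc 3 S.card, p ^ n * ∑ i ∈ Finset.Icc 1 n, ∑ y ∈ S,
    f y * Wk H i y z * Wk H (n - i) z y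

/-- The closed walks of length `n` in `S` which start at `y`. -/
noncomputable def CW (H : SimpleGraph V) (S : Finset V) (n : ℕ) (y : V) :
    Finset (Fin (n + 1) → V) :=
  (Fintype.piFinset fun _ : Fin (n + 1) => S).filter fun v =>
    v 0 = y ∧ v (Fin.last n) = y ∧ ∀ i : Fin n, H.Adj (v i.castSucc) (v i.succ)

/-- The set of the edges of a walk. -/
noncomputable def edgs {n : ℕ} (v : Fin (n + 1) → V) : Finset (Sym2 V) :=
  Finset.univ.image fun i : Fin n => s(v i.castSucc, v i.succ)

/-- The event that the cluster of `o` leaves `L`. -/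
def Out (L : Finset V) (o : V) : Set (Set (Sym2 V)) := {s | ∃ y ∈ Cluster s o, y ∉ L}

/-- The vertices of `L` whose clusters do not leave `L`. -/
noncomputable def Sc (L : Finset V) (s : Set (Sym2 V)) : Finset V :=
  L.filter fun z => ∀ y ∈ Cluster s z, y ∈ L

/-! ### Quadratic forms -/

/-- The adjacency form of `H` is at most `A` times the square of the norm. -/
def Sp (H : SimpleGraph V) (A : ℝ) : Prop := ∀ (F : Finset V) (g : V → ℝ),
  ∑ x ∈ F, ∑ y ∈ (nb H x).filter (· ∈ F), g x * g y ≤ A * ∑ x ∈ F, g x ^ 2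

/-- `F` together with the neighbours of its elements. -/
noncomputable def Fn (H : SimpleGraph V) (F : Finset V) : Finset V := F ∪ F.biUnion (nb H)

/-- The energy of a function `g` which vanishes outside `F` (ordered pairs of neighbours). -/
noncomputable def En (Γ : Subgroup (Equiv.Perm V)) (H : SimpleGraph V) (o : V) (F : Finset V)
    (g : V → ℝ) : ℝ :=
  ∑ x ∈ Fn H F, ∑ y ∈ nb H x, √(weight Γ x o) * √(weight Γ y o) * (g x - g y) ^ 2

/-- The weighted norm. -/
noncomputable def Nw (Γ : Subgroup (Equiv.Perm V)) (o : V) (F : Finset V) (g : V → ℝ) : ℝ :=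
  ∑ x ∈ F, weight Γ x o * g x ^ 2

/-- The test function `√w(x) (L² - (log w(x))²)⁺`. -/
noncomputable def tf (Γ : Subgroup (Equiv.Perm V)) (o : V) (L : ℝ) (x : V) : ℝ :=
  √(weight Γ x o) * max (L ^ 2 - Real.log (weight Γ x o) ^ 2) 0

/-- The set of the vertices with `|log w(x)| < L`. -/
def slab (Γ : Subgroup (Equiv.Perm V)) (o : V) (L : ℝ) : Set V :=
  {x | |Real.log (weight Γ x o)| < L}

end Pool.Agent.Work.MP_c58d8b_pr.SO
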