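import Pool.Agent.Work.MP_c58d8b_pr.SO.Stmts

/-!
# MP_c58d8b_pr, block SO, item TD (helper60): growth of the powers
-/

set_option autoImplicit false

namespace Pool.Agent.Work.MP_c58d8b_pr.SO

open MeasureTheory ProbabilityTheory Set
open scoped ENNReal unitInterval Classical

universe u

namespace IX_TD

variable {V : Type u}

theorem pow_lf (hB : Basics.{u}) {G : SimpleGraph V} (hc : G.Connected) (hl : LocFinite G) (k : ℕ) :
    LocFinite (pow G k) := by
  intro x
  refine (hB.ball_finite V G hc hl x k).subset ?_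
  intro y hy
  exact hy.2

theorem mem_nb {H : SimpleGraph V} (hl : LocFinite H) (x y : V) : y ∈ nb H x ↔ H.Adj x y := by
  unfold nb
  rw [dif_pos (hl x)]
  simp

theorem w_self {Γ : Subgroup (Equiv.Perm V)} (hpos : ∀ x y, 0 < weight Γ x y)
    (hco : ∀ x y z, weight Γ x y * weight Γ y z = weight Γ x z) (o : V) : weight Γ o o = 1 := by
  have h := hco o o o
  have hp := hpos o o
  exact mul_left_cancel₀ hp.ne' (by rw [h, mul_one])

theorem log_walk {Γ : Subgroup (Equiv.Perm V)} {G : SimpleGraph V}
    (hpos : ∀ x y, 0 < weight Γ x y)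
    (hco : ∀ x y z, weight Γ x y * weight Γ y z = weight Γ x z) (a : ℝ)
    (ha : ∀ o y, G.Adj o y → |Real.log (weight Γ y o)| ≤ a) {o y : V} (p : G.Walk o y) :
    |Real.log (weight Γ y o)| ≤ p.length * a := by
  induction p with
  | nil => simp [w_self hpos hco]
  | @cons o z y h q ih =>
    have e : weight Γ y o = weight Γ y z * weight Γ z o := (hco y z o).symm
    rw [e, Real.log_mul (hpos _ _).ne' (hpos _ _).ne', SimpleGraph.Walk.length_cons]
    push_cast
    calc |Real.log (weight Γ y z) + Real.log (weight Γ z o)|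
        ≤ |Real.log (weight Γ y z)| + |Real.log (weight Γ z o)| := abs_add_le _ _
      _ ≤ q.length * a + a := add_le_add ih (ha _ _ h)
      _ = (q.length + 1) * a := by ring

theorem log_dist {Γ : Subgroup (Equiv.Perm V)} {G : SimpleGraph V} (hc : G.Connected)
    (hpos : ∀ x y, 0 < weight Γ x y)
    (hco : ∀ x y z, weight Γ x y * weight Γ y z = weight Γ x z) (a : ℝ) (ha0 : 0 ≤ a)
    (ha : ∀ o y, G.Adj o y → |Real.log (weight Γ y o)| ≤ a) {o y : V} (k : ℕ)
    (hk : G.dist o y ≤ k) : |Real.log (weight Γ y o)| ≤ k * a := by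
  obtain ⟨p, hp⟩ := hc.exists_walk_length_eq_dist o y
  have h := log_walk hpos hco a ha p
  rw [hp] at h
  refine h.trans (mul_le_mul_of_nonneg_right ?_ ha0)
  exact_mod_cast hk

theorem ball_card (hB : Basics.{u}) [Infinite V] {G : SimpleGraph V} (hc : G.Connected)
    (hl : LocFinite G) (o : V) (j : ℕ) :
    j + 1 ≤ ((hB.ball_finite V G hc hl o j).toFinset).card := by
  induction j with
  | zero =>
    have h : o ∈ (hB.ball_finite V G hc hl o 0).toFinset := by simp
    exact Finset.card_pos.mpr ⟨o, h⟩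
  | succ j ih =>
    obtain ⟨z, hz⟩ : ∃ z, z ∉ {y | G.dist o y ≤ j} := by
      by_contra hcon
      push Not at hcon
      exact Set.infinite_univ ((hB.ball_finite V G hc hl o j).subset fun y _ => hcon y)
    obtain ⟨p⟩ := hc.preconnected o z
    obtain ⟨d, -, hd1, hd2⟩ := p.exists_boundary_dart {y | G.dist o y ≤ j} (by simp) hz
    have hd3 : G.dist o d.snd ≤ j + 1 := by
      have h1 : G.dist o d.snd ≤ G.dist o d.fst + G.dist d.fst d.snd := hc.dist_triangle
      have h2 : G.dist d.fst d.snd = 1 := SimpleGraph.dist_eq_one_iff_adj.mpr d.adj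
      have h3 : G.dist o d.fst ≤ j := hd1
      omega
    have hss : (hB.ball_finite V G hc hl o j).toFinset ⊂
        (hB.ball_finite V G hc hl o (j + 1)).toFinset := by
      rw [Finset.ssubset_iff_of_subset]
      · refine ⟨d.snd, ?_, ?_⟩
        · rw [Set.Finite.mem_toFinset]
          exact hd3
        · rw [Set.Finite.mem_toFinset]
          exact hd2
      · intro y hy
        rw [Set.Finite.mem_toFinset] at hy ⊢
        exact Nat.le_succ_of_le hy
    have := Finset.card_lt_card hss
    omega

theorem nb_card (hB : Basics.{u}) [Infinite V] {G : SimpleGraph V} (hc : G.Connected)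
    (hl : LocFinite G) (o : V) (k : ℕ) : k ≤ (nb (pow G k) o).card := by
  have h1 := ball_card hB hc hl o k
  have h2 : (hB.ball_finite V G hc hl o k).toFinset.erase o ⊆ nb (pow G k) o := by
    intro y hy
    rw [Finset.mem_erase, Set.Finite.mem_toFinset] at hy
    rw [mem_nb (pow_lf hB hc hl k)]
    exact ⟨hy.1.symm, hy.2⟩
  have h3 := Finset.card_le_card h2
  have h4 := Finset.pred_card_le_card_erase (s := (hB.ball_finite V G hc hl o k).toFinset) (a := o)
  omega

theorem sum_abs (k : ℕ) : (k : ℝ) ^ 2 / 2 ≤ ∑ j ∈ Finset.range (k + 1), |(k : ℝ) - 2 * j| ∧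
    ((k : ℝ) + 1) ^ 2 / 2 ≤ ∑ j ∈ Finset.range (k + 1 + 1), |((k + 1 : ℕ) : ℝ) - 2 * j| := by
  induction k with
  | zero =>
    constructor
    · simp
    · rw [Finset.sum_range_succ, Finset.sum_range_succ]
      norm_num
  | succ k ih =>
    refine ⟨?_, ?_⟩
    · have := ih.2
      push_cast at this ⊢
      exact this
    · have h1 : ∑ j ∈ Finset.range (k + 1 + 1 + 1), |((k + 1 + 1 : ℕ) : ℝ) - 2 * j| =
          ∑ j ∈ Finset.range (k + 1), |(k : ℝ) - 2 * j| + 2 * (k + 2) := by
        rw [Finset.sum_range_succ, Finset.sum_range_succ']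
        have e1 : ∀ j : ℕ, |((k + 1 + 1 : ℕ) : ℝ) - 2 * ((j + 1 : ℕ) : ℝ)| = |(k : ℝ) - 2 * j| := by
          intro j
          congr 1
          push_cast
          ring
        simp only [e1]
        have e2 : |((k + 1 + 1 : ℕ) : ℝ) - 2 * ((0 : ℕ) : ℝ)| = k + 2 := by
          have h0 : ((k + 1 + 1 : ℕ) : ℝ) - 2 * ((0 : ℕ) : ℝ) = k + 2 := by
            push_cast
            ring
          rw [h0, abs_of_nonneg (by positivity)]
        have e3 : |(k : ℝ) - 2 * ((k + 1 : ℕ) : ℝ)| = k + 2 := by
          have h0 : (k : ℝ) - 2 * ((k + 1 : ℕ) : ℝ) = -(k + 2) := by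
            push_cast
            ring
          rw [h0, abs_neg, abs_of_nonneg (by positivity)]
        rw [e2, e3]
        ring
      rw [h1]
      have h2 := ih.1
      push_cast
      nlinarith

theorem low {Γ : Subgroup (Equiv.Perm V)} {G : SimpleGraph V} {a : ℝ} (ha : 0 < a) {o : V}
    (h0 : weight Γ o o = 1)
    (hTC : ∀ i j : ℕ, Real.exp (j * a) ≤
      ({y | G.dist o y ≤ i + j ∧ Real.log (weight Γ y o) = ((i : ℝ) - j) * a} : Set V).ncard)
    (k : ℕ) (N : Finset V) (hN : ∀ y, y ∈ N ↔ o ≠ y ∧ G.dist o y ≤ k) (f : ℝ → ℝ)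
    (hf : ∀ t, 0 ≤ f t) :
    ∑ j ∈ (Finset.range (k + 1)).filter (fun j => 2 * j ≠ k),
      Real.exp (j * a) * f (((k : ℝ) - 2 * j) * a) ≤ ∑ y ∈ N, f (Real.log (weight Γ y o)) := by
  set L : ℕ → Finset V := fun j => N.filter (fun y => Real.log (weight Γ y o) =
    ((k : ℝ) - 2 * j) * a) with hL
  set J := (Finset.range (k + 1)).filter (fun j => 2 * j ≠ k) with hJ
  have hdis : (J : Set ℕ).PairwiseDisjoint L := by
    intro i _ j _ hij
    rw [Function.onFun, Finset.disjoint_left]
    intro y hy1 hy2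
    rw [hL, Finset.mem_filter] at hy1 hy2
    apply hij
    have h1 := hy1.2.symm.trans hy2.2
    have h2 := mul_right_cancel₀ ha.ne' h1
    have h3 : (i : ℝ) = j := by linarith
    exact_mod_cast h3
  have hsub : J.biUnion L ⊆ N := by
    intro y hy
    rw [Finset.mem_biUnion] at hy
    obtain ⟨j, -, hy⟩ := hy
    exact (Finset.mem_filter.mp hy).1
  calc ∑ j ∈ J, Real.exp (j * a) * f (((k : ℝ) - 2 * j) * a)
      ≤ ∑ j ∈ J, ∑ y ∈ L j, f (Real.log (weight Γ y o)) := by
        refine Finset.sum_le_sum fun j hj => ?_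
        rw [hJ, Finset.mem_filter, Finset.mem_range] at hj
        have h1 : ∀ y ∈ L j, f (Real.log (weight Γ y o)) = f (((k : ℝ) - 2 * j) * a) := by
          intro y hy
          rw [(Finset.mem_filter.mp hy).2]
        rw [Finset.sum_congr rfl h1, Finset.sum_const, nsmul_eq_mul]
        refine mul_le_mul_of_nonneg_right ?_ (hf _)
        have h2 := hTC (k - j) j
        have h3 : ({y | G.dist o y ≤ (k - j) + j ∧ Real.log (weight Γ y o) =
            (((k - j : ℕ) : ℝ) - j) * a} : Set V) = (L j : Set V) := by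
          ext y
          rw [hL, Finset.mem_coe, Finset.mem_filter, hN, Set.mem_ofPred_eq]
          have e1 : k - j + j = k := by omega
          have e2 : (((k - j : ℕ) : ℝ) - j) * a = ((k : ℝ) - 2 * j) * a := by
            rw [Nat.cast_sub (by omega)]
            ring
          rw [e1, e2]
          constructor
          · rintro ⟨h4, h5⟩
            refine ⟨⟨?_, h4⟩, h5⟩
            rintro rfl
            rw [h0, Real.log_one] at h5
            have h6 : (k : ℝ) - 2 * j = 0 := by
              rcases mul_eq_zero.mp h5.symm with h | h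
              · exact h
              · exact absurd h ha.ne'
            have h7 : (2 * j : ℝ) = k := by linarith
            exact hj.2 (by exact_mod_cast h7)
          · rintro ⟨⟨_, h4⟩, h5⟩
            exact ⟨h4, h5⟩
        rw [h3, Set.ncard_coe_finset] at h2
        exact h2
    _ = ∑ y ∈ J.biUnion L, f (Real.log (weight Γ y o)) := (Finset.sum_biUnion hdis).symm
    _ ≤ ∑ y ∈ N, f (Real.log (weight Γ y o)) :=
        Finset.sum_le_sum_of_subset_of_nonneg hsub (fun _ _ _ => hf _)

theorem sqrt_w {w : ℝ} (hw : 0 < w) : √w = Real.exp (Real.log w / 2) := by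
  rw [Real.exp_half, Real.exp_log hw]

theorem J_card (k : ℕ) : k ≤ ((Finset.range (k + 1)).filter (fun j => 2 * j ≠ k)).card := by
  have h : (Finset.range (k + 1)).erase (k / 2) ⊆
      (Finset.range (k + 1)).filter (fun j => 2 * j ≠ k) := by
    intro j hj
    rw [Finset.mem_erase] at hj
    rw [Finset.mem_filter]
    exact ⟨hj.2, fun h => hj.1 (by omega)⟩
  have h1 := Finset.card_le_card h
  have h2 := Finset.pred_card_le_card_erase (s := Finset.range (k + 1)) (a := k / 2)
  rw [Finset.card_range] at h2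
  omega

end IX_TD

open IX_TD in
theorem pr_TD (hB : Basics.{u}) (hW : WeightStmt.{u}) (hTC : StTC.{u}) : StTD.{u} := by
  intro V _ Γ G hG a ha0 ha hx o k hk
  obtain ⟨hpos, -, hco⟩ := hW V G Γ hG.conn hG.lf hG.pres
  have hadj : ∀ o y, G.Adj o y → |Real.log (weight Γ y o)| ≤ a := by
    intro o y h
    exact ha o y ((mem_nb hG.lf o y).mpr h)
  have hmem := mem_nb (pow_lf hB hG.conn hG.lf k)
  have hdist : ∀ y ∈ nb (pow G k) o, |Real.log (weight Γ y o)| ≤ k * a := by
    intro y hy
    rw [hmem] at hy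
    exact log_dist hG.conn hpos hco a ha0 hadj k hy.2
  have hcard := nb_card hB hG.conn hG.lf o k
  have hdk : (k : ℝ) ≤ ((nb (pow G k) o).card : ℝ) := by exact_mod_cast hcard
  have hk1 : (1 : ℝ) ≤ k := by exact_mod_cast hk
  -- the number of the neighbours and sig
  have hds : ((nb (pow G k) o).card : ℝ) ≤ Real.exp (k * a / 2) * sig Γ (pow G k) o := by
    unfold sig
    rw [Finset.mul_sum, Finset.card_eq_sum_ones]
    push_cast
    refine Finset.sum_le_sum fun y hy => ?_
    rw [sqrt_w (hpos y o), ← Real.exp_add]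
    apply Real.one_le_exp
    have := (abs_le.mp (hdist y hy)).1
    linarith
  have hep : 0 < Real.exp (k * a / 2) := Real.exp_pos _
  have hsig : 0 < sig Γ (pow G k) o := by
    by_contra hcon
    have h1 : Real.exp (k * a / 2) * sig Γ (pow G k) o ≤ 0 :=
      mul_nonpos_of_nonneg_of_nonpos hep.le (not_lt.mp hcon)
    linarith
  have hmom : 0 ≤ mom Γ (pow G k) o :=
    Finset.sum_nonneg fun y _ => mul_nonneg (Real.sqrt_nonneg _) (abs_nonneg _)
  refine ⟨hsig, ?_⟩
  rcases ha0.eq_or_lt with h0 | h0
  · subst h0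
    have hs : sig Γ (pow G k) o = (nb (pow G k) o).card := by
      unfold sig
      rw [Finset.card_eq_sum_ones]
      push_cast
      refine Finset.sum_congr rfl fun y hy => ?_
      have h1 := hdist y hy
      rw [mul_zero] at h1
      have h2 : Real.log (weight Γ y o) = 0 := abs_eq_zero.mp (le_antisymm h1 (abs_nonneg _))
      rw [sqrt_w (hpos y o), h2, zero_div, Real.exp_zero]
    refine ⟨?_, ?_⟩
    · rw [hs, sq]
      exact mul_le_mul_of_nonneg_right hdk (Nat.cast_nonneg _)
    · rw [mul_zero, zero_mul]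
      positivity
  · have hT := hTC V Γ G hG a ha0 hx o
    have hN : ∀ y, y ∈ nb (pow G k) o ↔ o ≠ y ∧ G.dist o y ≤ k := fun y => hmem o y
    have hl1 := low h0 (w_self hpos hco o) hT k (nb (pow G k) o) hN (fun t => Real.exp (t / 2))
      (fun t => (Real.exp_pos _).le)
    have hl2 := low h0 (w_self hpos hco o) hT k (nb (pow G k) o) hN
      (fun t => Real.exp (t / 2) * |t|) (fun t => mul_nonneg (Real.exp_pos _).le (abs_nonneg _))
    have hexp : ∀ j : ℕ, Real.exp (j * a) * Real.exp (((k : ℝ) - 2 * j) * a / 2) =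
        Real.exp (k * a / 2) := by
      intro j
      rw [← Real.exp_add]
      congr 1
      ring
    have hs1 : (k : ℝ) * Real.exp (k * a / 2) ≤ sig Γ (pow G k) o := by
      have h1 : ∑ y ∈ nb (pow G k) o, Real.exp (Real.log (weight Γ y o) / 2) =
          sig Γ (pow G k) o := by
        unfold sig
        exact Finset.sum_congr rfl fun y _ => (sqrt_w (hpos y o)).symm
      rw [← h1]
      refine le_trans ?_ hl1
      simp only [hexp]
      rw [Finset.sum_const, nsmul_eq_mul]
      refine mul_le_mul_of_nonneg_right ?_ hep.le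
      exact_mod_cast J_card k
    have hm1 : (k : ℝ) ^ 2 / 2 * a * Real.exp (k * a / 2) ≤ mom Γ (pow G k) o := by
      have h1 : ∑ y ∈ nb (pow G k) o, Real.exp (Real.log (weight Γ y o) / 2) *
          |Real.log (weight Γ y o)| = mom Γ (pow G k) o := by
        unfold mom
        exact Finset.sum_congr rfl fun y _ => by rw [sqrt_w (hpos y o)]
      rw [← h1]
      refine le_trans ?_ hl2
      have h2 : ∀ j : ℕ, Real.exp (j * a) * (Real.exp (((k : ℝ) - 2 * j) * a / 2) *
          |((k : ℝ) - 2 * j) * a|) = |(k : ℝ) - 2 * j| * (a * Real.exp (k * a / 2)) := by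
        intro j
        rw [← mul_assoc, hexp, abs_mul, abs_of_pos h0]
        ring
      simp only [h2]
      rw [Finset.sum_filter_of_ne, ← Finset.sum_mul, mul_assoc]
      · exact mul_le_mul_of_nonneg_right (sum_abs k).1 (mul_pos h0 hep).le
      · intro j _ hne h3
        apply hne
        have h4 : (k : ℝ) - 2 * j = 0 := by
          rw [← h3]
          push_cast
          ring
        rw [h4, abs_zero, zero_mul]
    refine ⟨?_, ?_⟩
    · calc (k : ℝ) * (nb (pow G k) o).card
          ≤ k * (Real.exp (k * a / 2) * sig Γ (pow G k) o) :=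
            mul_le_mul_of_nonneg_left hds (Nat.cast_nonneg _)
        _ = k * Real.exp (k * a / 2) * sig Γ (pow G k) o := by ring
        _ ≤ sig Γ (pow G k) o * sig Γ (pow G k) o := mul_le_mul_of_nonneg_right hs1 hsig.le
        _ = sig Γ (pow G k) o ^ 2 := by ring
    · calc (k : ℝ) ^ 2 * a * (nb (pow G k) o).card
          ≤ (k : ℝ) ^ 2 * a * (Real.exp (k * a / 2) * sig Γ (pow G k) o) :=
            mul_le_mul_of_nonneg_left hds (by positivity)
        _ = 2 * sig Γ (pow G k) o * ((k : ℝ) ^ 2 / 2 * a * Real.exp (k * a / 2)) := by ring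
        _ ≤ 2 * sig Γ (pow G k) o * mom Γ (pow G k) o :=
            mul_le_mul_of_nonneg_left hm1 (by positivity)

end Pool.Agent.Work.MP_c58d8b_pr.SO
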