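import Pool.Agent.Work.MP_c58d8b_pr.SO.All

/-!
MP_c58d8b_pr (transfer of `p_h < p_u` between graphs sharing a transitive group): an explicit
criterion for `p_h < p_u`, unimodular groups, in terms of the degree and the spectral gap.
This was the hand-in SpectralGap (helper80); it was moved here to keep at most four hand-ins.
Its claim file was:

Proves: Let Γ be a transitive unimodular group (all weights 1) of automorphisms of an infinite connected locally finite graph G' of degree d whose adjacency operator has norm ≤ ρd, 0<ρ<1. If 4dρ(1−ρ)³ ≥ 27 then p_h(G',Γ) ≤ (1+2ρ)/(3ρd) < 1/(ρd) ≤ p_u(G'). More generally, if 1<l<1/ρ and l²(1+lρ−l²ρ²) < d(l−1)(1−lρ)² then 1/d ≤ p_h(G',Γ) ≤ l/d < 1/(ρd) ≤ p_u(G').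
Definitions: Preserves, Transitive, LocFinite: Γ consists of automorphisms, is transitive, degrees are finite. nb: set of neighbours. weight, perc, Cluster, Heavy(Event), UniqueEvent, ph, pu: as in the problem (here ph = p_c). Sp G' A: Σ g(x)g(y) over ordered pairs x~y in F is ≤ A Σ_F g² for all finite F and real g, i.e. the adjacency operator has norm ≤ A.
Relation: Partial answer: Q1 for all such G' (whatever G is): for every ρ<1 all unimodular transitive graphs of spectral radius ≤ρ and degree d ≥ 27/(4ρ(1−ρ)³) satisfy p_c<p_u. Known criteria: ρ≤1/2 (Benjamini–Schramm, Pak–Smirnova-Nagnibeda; p_u ≥ 1/(ρd) is theirs), edge expansion ≥1/√2 (Schonmann), large girth (Nachmias–Peres 2012, closest in spirit: large girth in place of large degree). New: the bound for p_c; it goes beyond ρ≤1/2 for d>108, e.g. ρ≤0.79 for d≥1000, with no condition on short cycles. Proof: Duminil-Copin–Tassion argument; open cycles are bounded by closed walks, no BK inequality.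 Different from SpreadOut (no powers, explicit).
-/

set_option autoImplicit false

namespace Pool.Agent.Work.MP_c58d8b_pr.SO.SpectralGapFinal

open Pool.Agent.Work.MP_c58d8b_pr Pool.Agent.Work.MP_c58d8b_pr.SO

universe u

/-- Let `Γ` be a transitive unimodular group (all weights are `1`) of automorphisms of the infinite
connected locally finite graph `G'` of degree `d`, and let the norm of the adjacency operator on
`ℓ²(V)` be at most `ρ d`, `0 < ρ < 1`. If `4 d ρ (1 - ρ)³ ≥ 27` then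
`p_h ≤ (1 + 2 ρ) / (3 ρ d) < 1 / (ρ d) ≤ p_u`. More generally, if `1 < l < 1 / ρ` and
`l² (1 + l ρ - l² ρ²) < d (l - 1) (1 - l ρ)²` then `1 / d ≤ p_h ≤ l / d < 1 / (ρ d) ≤ p_u`. -/
theorem result {V : Type u} [Infinite V] (Γ : Subgroup (Equiv.Perm V)) (G' : SimpleGraph V)
    (hG : G'.Connected) (lG : LocFinite G') (pG : Preserves Γ G') (tr : Transitive Γ)
    (um : ∀ x y, weight Γ x y = 1) (o : V) (ρ : ℝ) (hρ : 0 < ρ) (hρ1 : ρ < 1)
    (hsp : Sp G' (ρ * (nb G' o).card)) :
    (27 ≤ 4 * (nb G' o).card * ρ * (1 - ρ) ^ 3 →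
      ph G' Γ ≤ (1 + 2 * ρ) / (3 * ρ * (nb G' o).card) ∧
      1 / (ρ * (nb G' o).card) ≤ pu G' ∧ ph G' Γ < pu G') ∧
    ∀ l : ℝ, 1 < l → l * ρ < 1 →
      l ^ 2 * (1 + l * ρ - (l * ρ) ^ 2) < (nb G' o).card * (l - 1) * (1 - l * ρ) ^ 2 →
        1 / (nb G' o).card ≤ ph G' Γ ∧ ph G' Γ ≤ l / (nb G' o).card ∧
        1 / (ρ * (nb G' o).card) ≤ pu G' ∧ ph G' Γ < pu G' := by
  have hX : ∀ l : ℝ, 1 < l → l * ρ < 1 →
      l ^ 2 * (1 + l * ρ - (l * ρ) ^ 2) < (nb G' o).card * (l - 1) * (1 - l * ρ) ^ 2 →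
        1 / (nb G' o).card ≤ ph G' Γ ∧ ph G' Γ ≤ l / (nb G' o).card ∧
        1 / (ρ * (nb G' o).card) ≤ pu G' ∧ ph G' Γ < pu G' :=
    fun l hl hl' h => all_X4 V Γ G' ⟨hG, lG, pG, tr⟩ um o ρ l hρ hl hl' hsp h
  refine ⟨fun h27 => ?_, hX⟩
  have hd : (0 : ℝ) < (nb G' o).card := by
    by_contra hc
    have h0 : ((nb G' o).card : ℝ) = 0 := le_antisymm (not_lt.1 hc) (Nat.cast_nonneg _)
    rw [h0] at h27
    norm_num at h27
  obtain ⟨a1, a2, a3⟩ := all_X5 ρ _ ((1 + 2 * ρ) / (3 * ρ)) hρ hρ1 hd h27 rfl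
  obtain ⟨-, b2, b3, b4⟩ := hX _ a1 a2 a3
  rw [div_div] at b2
  exact ⟨b2, b3, b4⟩

end Pool.Agent.Work.MP_c58d8b_pr.SO.SpectralGapFinal
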