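import Pool.Agent.Work.MP_c58d8b_pr.SO.Defs

/-!
# MP_c58d8b_pr, block SO (spread-out graphs; captain helper80): statements with complete proofs

Item `X`: statement `StX`, file `SO/I_X.lean`, theorem `pr_X`, hypotheses = the statements named in the
docstring ((hY : StY)); nobody waits for anybody. Landed theorems of the old block (`Stmts.lean`,
`Stmts2.lean`): `NBASICS.prf : Basics`, `weight_prf : WeightStmt`, `mtp_prf : MtpStmt`, `NINV.prf : InvStmt`,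
`NINDEP.prf : IndepStmt`, `NMEAS.prf : MeasStmt` may be used by `import
Pool.Agent.Work.MP_c58d8b_pr.All` (slow) or better as hypotheses `(hB : Basics.{u})` etc.
Notation in the docstrings: `w x = weight Γ x o`, `l x = log (w x)`, `C` = cluster of `o`,
`C_e` = cluster of `o` if the edge `e` is removed, `σ = sig Γ H o`, `d = (nb H o).card`.
-/

set_option autoImplicit false

namespace Pool.Agent.Work.MP_c58d8b_pr.SO

open MeasureTheory ProbabilityTheory Set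
open scoped ENNReal unitInterval Classical

universe u

/-! ## P. Finite probability -/

/-- [PB] (EASY) Basic facts. `Pr E p univ = 1` is `Finset.sum_pow_mul_eq_add_pow`; the rest: all terms
are nonnegative, sums over subsets. -/
def StPB : Prop := ∀ (ι : Type u) (E : Finset ι) (p : ℝ), 0 ≤ p → p ≤ 1 →
  Pr E p Set.univ = 1 ∧ (∀ A, 0 ≤ Pr E p A ∧ Pr E p A ≤ 1) ∧
  (∀ A B : Set (Set ι), (∀ s : Finset ι, s ⊆ E → (s : Set ι) ∈ A → (s : Set ι) ∈ B) →
    Pr E p A ≤ Pr E p B) ∧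
  (∀ A B : Set (Set ι), Pr E p A = Pr E p (A ∩ B) + Pr E p (A ∩ Bᶜ)) ∧
  (∀ A : Set (Set ι), Pr E p A = ∑ s ∈ E.powerset, (if (s : Set ι) ∈ A then (1 : ℝ) else 0) *
    (p ^ s.card * (1 - p) ^ (E.card - s.card)))

/-- [PI] (EASY-MEDIUM) Independence of disjoint sets of edges. The subsets of `E₁ ∪ E₂` are the unions
`s₁ ∪ s₂` (`Finset.sum_nbij'` with `s ↦ (s ∩ E₁, s ∩ E₂)`, `Finset.powerset_union` or
`Finset.sum_product`), `card (s₁ ∪ s₂) = card s₁ + card s₂`, the weight is a product. -/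
def StPI : Prop := ∀ (ι : Type u) (E₁ E₂ : Finset ι) (p : ℝ), 0 ≤ p → p ≤ 1 → Disjoint E₁ E₂ →
  ∀ A B : Set (Set ι), Pr (E₁ ∪ E₂) p {s | s ∩ (E₁ : Set ι) ∈ A ∧ s ∩ (E₂ : Set ι) ∈ B} =
    Pr E₁ p A * Pr E₂ p B

/-- [PL] (EASY) An event which depends only on the edges in `E'`. `E = E' ∪ (E \ E')`, `StPI` with
`B = univ`, and `Pr .. univ = 1` (StPB); the two events contain the same subsets of `E`.
(hPB : StPB) (hPI : StPI) -/
def StPL : Prop := ∀ (ι : Type u) (E E' : Finset ι) (p : ℝ), 0 ≤ p → p ≤ 1 → E' ⊆ E →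
  ∀ A : Set (Set ι), (∀ s : Finset ι, s ⊆ E → ((s : Set ι) ∈ A ↔ (s : Set ι) ∩ (E' : Set ι) ∈ A)) →
    Pr E p A = Pr E' p A

/-- [PA] (EASY) All edges of `T` are open. `StPL` reduces to `E = T`: only `s = T`.
(hPL : StPL) -/
def StPA : Prop := ∀ (ι : Type u) (E T : Finset ι) (p : ℝ), 0 ≤ p → p ≤ 1 → T ⊆ E →
  Pr E p {s | (T : Set ι) ⊆ s} = p ^ T.card

/-- [PM] (EASY-MEDIUM) Comparison with the infinite product measure. The event is the disjoint union
over the `t ⊆ E`, `t ∈ A`, of `{s | s ∩ E = t}`; its measure is `p^|t| (1-p)^(|E| - |t|)`: by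
`setBernoulli_apply'` and `Measure.infinitePi_cylinder` (or `Measure.infinitePi_pi`) as in `I_CYL.lean`, or
because the law of `s ∩ E` is `setBernoulli E p` and `setBernoulli_singleton`. -/
def StPM : Prop := ∀ (ι : Type u) [Countable ι] (v : Set ι) (p : I) (E : Finset ι), (E : Set ι) ⊆ v →
  ∀ A : Set (Set ι), setBernoulli v p {s | s ∩ (E : Set ι) ∈ A} = ENNReal.ofReal (Pr E p A)

/-- [PR] (MEDIUM) Russo's formula for an increasing event. Induction on `E` (or `HasDerivAt` of the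
function `∑ s, 1_A(s) ∏_(e ∈ s) q_e ∏_(e ∈ E \ s) (1 - q_e)` of the vector `(q_e)`, which is affine in each
`q_e`). Induction: for `E = insert e E'` `Pr E q A = q Pr E' q A₁ + (1 - q) Pr E' q A₀`,
`A₁ = {s | insert e s ∈ A}`, `A₀ = {s | s \ {e} ∈ A}` (on subsets of `E'`: `s ∈ A`), `A₀ ⊆ A₁`; the derivative is
`Pr E' q A₁ - Pr E' q A₀ + q (..) + (1 - q) (..)` and `Pr A₁ - Pr A₀` is the probability that `e` is pivotal. -/
def StPR : Prop := ∀ (ι : Type u) (E : Finset ι) (A : Set (Set ι)),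
  (∀ s t : Set ι, s ⊆ t → s ∈ A → t ∈ A) → ∀ q : ℝ,
    HasDerivAt (fun q => Pr E q A) (∑ e ∈ E, Pr E q {s | insert e s ∈ A ∧ s \ {e} ∉ A}) q

/-! ## C. Clusters -/

/-- [CB] (EASY) Basic facts on clusters (`SimpleGraph.Reachable`, `fromEdgeSet_adj`,
`Reachable.mono`). The last one: a walk which starts in `S` stays in `S`. -/
def StCB : Prop := ∀ (V : Type u) (s : Set (Sym2 V)),
  (∀ x, x ∈ Cluster s x) ∧ (∀ x y, y ∈ Cluster s x → x ∈ Cluster s y) ∧
  (∀ x y z, y ∈ Cluster s x → z ∈ Cluster s y → z ∈ Cluster s x) ∧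
  (∀ t : Set (Sym2 V), s ⊆ t → ∀ x, Cluster s x ⊆ Cluster t x) ∧
  (∀ x y, s(x, y) ∈ s → y ∈ Cluster s x) ∧
  (∀ (S : Set V) (x : V), x ∈ S → (∀ a ∈ S, ∀ b, s(a, b) ∈ s → b ∈ S) → Cluster s x ⊆ S)

/-- [CR] (EASY) If `x` is connected to `o` but not without `e = xy`, then `e` is open and `y` is connected
to `o` without `e`. (If `e` is not in `s` then `s \ {e} = s`. Otherwise let `S` be the cluster of `o` in
`s \ {e}`; `x ∉ S`; if also `y ∉ S`, no edge of `s` leaves `S`, so `Cluster s o ⊆ S`, contradiction.)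
(hCB : StCB) -/
def StCR : Prop := ∀ (V : Type u) (s : Set (Sym2 V)) (o x y : V), x ∈ Cluster s o →
  x ∉ Cluster (s \ {s(x, y)}) o → s(x, y) ∈ s ∧ y ∈ Cluster (s \ {s(x, y)}) o

/-- [CG] (EASY-MEDIUM) At most one good neighbour. Let `e₁ = x₁y`, `e₂ = x₂y` be different open edges,
`xᵢ` connected to `o` without `eᵢ`, and `xᵢ` not connected to `y` without `eᵢ`. `y` is not connected to `o`
without `e₁` (otherwise `x₁ ~ o ~ y` without `e₁`). `x₂` is connected to `y` by `e₂`, which is different from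
`e₁`, so `x₂` is not connected to `o` without `e₁`. But `x₂` is connected to `o` without `e₂`; by CR-type
argument this connection needs `e₁`: if `x₂` were not connected to `y` without `e₂`, then in `s \ {e₂}` the
vertices `x₂` and `o` are connected but not in `s \ {e₁, e₂}`, so `e₁ = x₁y` is used and `x₂` is connected in
`s \ {e₁, e₂}` to `x₁` or `y`; `y` is excluded; `x₁`: then `x₁` is connected to `x₂` and `x₂` by `e₂` to `y`, all
without `e₁`: contradiction to the assumption on `x₁`. (hCB : StCB) (hCR : StCR) -/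
def StCG : Prop := ∀ (V : Type u) (s : Set (Sym2 V)) (o y x₁ x₂ : V), x₁ ≠ x₂ → x₁ ≠ y → x₂ ≠ y →
  s(x₁, y) ∈ s → s(x₂, y) ∈ s →
  x₁ ∈ Cluster (s \ {s(x₁, y)}) o → x₂ ∈ Cluster (s \ {s(x₂, y)}) o →
  x₁ ∈ Cluster (s \ {s(x₁, y)}) y ∨ x₂ ∈ Cluster (s \ {s(x₂, y)}) y

/-- [CN] (EASY-MEDIUM) Counting. For fixed `y` let `N = {x ∈ nb y ∩ S : e = xy ∈ s, x ∈ C_e}`, `M` the same
with `x ∈ Cluster (s \ {e}) y`. If `N` is not empty then `y ∈ Cluster s o`. `N \ M` has at most one element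
(`StCG`), and none if `y = o`. So `∑_(x ∈ N) f y ≤ f y [y ≠ o, y ∈ C] + ∑_(x ∈ M) f y [y ∈ C]`. Sum over `y`.
(hCB : StCB) (hCG : StCG) -/
def StCN : Prop := ∀ (V : Type u) (H : SimpleGraph V), LocFinite H → ∀ (S : Finset V) (o : V)
  (f : V → ℝ), (∀ y, 0 ≤ f y) → ∀ s : Set (Sym2 V),
  ∑ y ∈ S, ∑ x ∈ (nb H y).filter (· ∈ S),
      (if s(x, y) ∈ s ∧ x ∈ Cluster (s \ {s(x, y)}) o then f y else 0) ≤
    ∑ y ∈ S.erase o, (if y ∈ Cluster s o then f y else 0) +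
    ∑ y ∈ S, ∑ x ∈ (nb H y).filter (· ∈ S),
      (if y ∈ Cluster s o ∧ s(x, y) ∈ s ∧ x ∈ Cluster (s \ {s(x, y)}) y then f y else 0)

/-- [CC] (MEDIUM) Open cycles. Take a path (no repeated vertex) from `x` to `y` in
`fromEdgeSet (s \ {s(x, y)})` (`Reachable.exists_isPath`); it has length `m ≥ 2`, its vertices are in `S`
and different, so `m + 1 ≤ |S|`; `v = (y, x, ..., y)` with `n = m + 1`; the `n` edges are different (a path
repeats no edge, and `s(x, y)` is not on it). Let `i` be such that `v i` is connected to `o` without the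
edges of `v`: a walk in `s` from `o` to `y`; let `z` be the first vertex on the walk which is one of the `v i`
(exists: `y`); before it no edge of `v` is used, because both endpoints of such an edge are vertices of `v`.
(Or: let `A` be the cluster of `o` in `s \ edgs v`; if it contains no `v i`, no edge of `s` leaves `A`, so
`Cluster s o ⊆ A`, contradiction to `y ∈ Cluster s o`.) As `v 0 = v n`, we may take `i ≠ 0`.
(hCB : StCB) -/
def StCC : Prop := ∀ (V : Type u) (H : SimpleGraph V), LocFinite H → ∀ (S : Finset V) (o : V)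
  (s : Set (Sym2 V)), s ⊆ (EI H S : Set (Sym2 V)) → ∀ y ∈ S, ∀ x ∈ S, x ≠ y → s(x, y) ∈ s →
  y ∈ Cluster s o → x ∈ Cluster (s \ {s(x, y)}) y →
  ∃ n ∈ Finset.Icc 3 S.card, ∃ v ∈ CW H S n y, (∀ h : 1 < n + 1, v ⟨1, h⟩ = x) ∧
    (edgs v).card = n ∧ (edgs v : Set (Sym2 V)) ⊆ s ∧
    ∃ i : Fin (n + 1), i ≠ 0 ∧ v i ∈ Cluster (s \ (edgs v : Set (Sym2 V))) o

/-! ## W. Walks -/

/-- [WB] (EASY) Basic facts on `Wk`: induction. `y ∈ nb H x ↔ H.Adj x y`. The sum formula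
`Wk (n+1) x y = ∑_(z ∈ nb y) Wk n x z` and the symmetry together by induction on `n` (both sides of
`Wk (m + n)` formulas are finite sums; `Finset.sum_comm'`). If `H` is connected, `Wk n x y ≠ 0` implies
`H.dist x y ≤ n`. -/
def StWB : Prop := ∀ (V : Type u) (H : SimpleGraph V), LocFinite H →
  (∀ x y, y ∈ nb H x ↔ H.Adj x y) ∧ (∀ n x y, 0 ≤ Wk H n x y) ∧ (∀ n x y, Wk H n x y = Wk H n y x) ∧
  (∀ n x y, Wk H (n + 1) x y = ∑ z ∈ nb H y, Wk H n x z) ∧
  (H.Connected → ∀ n x y, Wk H n x y ≠ 0 → H.dist x y ≤ n)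

/-- [WC] (EASY-MEDIUM) Number of the closed walks through `z`. Induction, or: the map
`v ↦ (v restricted to [0, i], v restricted to [i, n])` is injective, and the number of the functions
`Fin (m + 1) → V` with values in `S` which are walks from `a` to `b` is at most `Wk H m a b` (induction on
`m`: remove the first step, `Fin.cons`). (hWB : StWB) -/
def StWC : Prop := ∀ (V : Type u) (H : SimpleGraph V), LocFinite H → ∀ (S : Finset V) (n : ℕ)
  (y z : V) (i : Fin (n + 1)),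
  (((CW H S n y).filter fun v => v i = z).card : ℝ) ≤ Wk H (i : ℕ) y z * Wk H (n - (i : ℕ)) z y

/-- The graph `H` is connected, locally finite, `Γ` preserves it and is transitive. -/
structure Good {V : Type u} (Γ : Subgroup (Equiv.Perm V)) (H : SimpleGraph V) : Prop where
  conn : H.Connected
  lf : LocFinite H
  pres : Preserves Γ H
  tr : Transitive Γ

/-- [SM] (EASY-MEDIUM) Sums over neighbours. `Γ` maps `nb x` to `nb (γ x)` and preserves `weight`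
(`WeightStmt`): the first two. Last one: mass transport (`MtpStmt`) for
`f x y = ofReal (√(weight y x) (log (weight y x))⁺)` if `y ∈ nb x`, else `0`: with
`weight o x = 1 / weight x o` it gives `∑_(x ∈ nb o) √(w x) (- log w x)⁺ = ∑_(y ∈ nb o) √(w y) (log w y)⁺`
(`tsum` over the finite set). (hW : WeightStmt.{u}) (hM : MtpStmt.{u}) (hWB : StWB) -/
def StSM : Prop := ∀ (V : Type u) (Γ : Subgroup (Equiv.Perm V)) (H : SimpleGraph V), Good Γ H →
  ∀ o x : V, (nb H x).card = (nb H o).card ∧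
    ∑ y ∈ nb H x, √(weight Γ y x) = sig Γ H o ∧
    ∑ y ∈ nb H x, √(weight Γ y x) * |Real.log (weight Γ y x)| = mom Γ H o ∧
    ∑ y ∈ nb H x, √(weight Γ y x) * Real.log (weight Γ y x) = 0

/-- [WS] (EASY) Weighted number of walks. Induction on `n`: `∑_(y ∈ F) √(w y) Wk (n+1) z y =
∑_(u ∈ nb z) ∑_(y ∈ F) √(w y) Wk n u y ≤ ∑_(u ∈ nb z) √(w u) σ^n`, and `w u = weight u z * w z`, `StSM`.
(hW : WeightStmt.{u}) (hWB : StWB) (hSM : StSM) -/
def StWS : Prop := ∀ (V : Type u) (Γ : Subgroup (Equiv.Perm V)) (H : SimpleGraph V), Good Γ H →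
  ∀ (o z : V) (n : ℕ) (F : Finset V),
    ∑ y ∈ F, √(weight Γ y o) * Wk H n z y ≤ √(weight Γ z o) * sig Γ H o ^ n

/-- [WN] (MEDIUM) Spectral bounds. Fix a finite set `F` containing all vertices at distance at most `n`
from `x`, and for `g : V → ℝ` vanishing outside `F` let `(A g) u = ∑_(y ∈ nb u ∩ F) g y` for `u ∈ F`.
`Sp` and polarisation (`4 <A g, h> = <A (g+h), g+h> - <A (g-h), g-h> ≤ A' (‖g+h‖² + ‖g-h‖²) =
2 A' (‖g‖² + ‖h‖²)`, also for `-h`: `<A u, u> ≥ - <A |u|, |u|> ≥ - A' ‖u‖²`; then scaling) give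
`‖A g‖ ≤ A' ‖g‖`. So `Wk m x y = <δ_x, A^m δ_y> ≤ A'^m`, and for `m ≥ 2`
`<A δ_x, A^(m-2) A δ_y> ≤ A'^(m-2) ‖A δ_x‖ ‖A δ_y‖ ≤ A'^(m-2) d` (`‖A δ_x‖² = |nb x| ≤ d`), for all `m ≤ n`
(walks of length `≤ n` from `x` stay in `F`; for `y` take `F` containing also the ball around `y`, or use the
symmetric roles). A suitable induction: for all `g ≥ 0` vanishing outside a finite set,
`‖A^m g‖ ≤ A'^m ‖g‖` in the whole graph (`A g` vanishes outside `Fn H F`). (hWB : StWB) -/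
def StWN : Prop := ∀ (V : Type u) (H : SimpleGraph V), LocFinite H → ∀ (A : ℝ) (d : ℕ), 0 ≤ A → Sp H A →
  (∀ x, (nb H x).card ≤ d) → (∀ n x y, Wk H n x y ≤ A ^ n) ∧
  ∀ n, 2 ≤ n → ∀ x y, Wk H n x y ≤ A ^ (n - 2) * d

/-! ## M. The main inequality -/

/-- [M1] (EASY-MEDIUM) Let `E = EI H S`, `e = xy ∈ E`. `{x ∈ C} = {x ∈ C_e} ∪ ({x ∈ C} \ {x ∈ C_e})`
disjoint, and `{x ∈ C_e}` depends only on `E \ {e}`, so it is independent of `{e ∈ s}` (StPI, StPL, StPA).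
(hPB : StPB) (hPI : StPI) (hPL : StPL) (hPA : StPA) (hCB : StCB) -/
def StM1 : Prop := ∀ (V : Type u) (H : SimpleGraph V) (S : Finset V) (o x y : V) (p : ℝ), 0 ≤ p →
  p ≤ 1 → s(x, y) ∈ EI H S →
  p * tau H p S o x = Pr (EI H S) p {s | s(x, y) ∈ s ∧ x ∈ Cluster (s \ {s(x, y)}) o} +
    p * Pr (EI H S) p {s | x ∈ Cluster s o ∧ x ∉ Cluster (s \ {s(x, y)}) o}

/-- [M2] (EASY-MEDIUM) By `StCR` the event is contained in `{e ∈ s} ∩ {y ∈ C_e}`, of probability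
`p Pr(y ∈ C_e) ≤ p tau y`. (hPB : StPB) (hPI : StPI) (hPL : StPL) (hPA : StPA) (hCB : StCB) (hCR : StCR) -/
def StM2 : Prop := ∀ (V : Type u) (H : SimpleGraph V) (S : Finset V) (o x y : V) (p : ℝ), 0 ≤ p →
  p ≤ 1 → s(x, y) ∈ EI H S →
  Pr (EI H S) p {s | x ∈ Cluster s o ∧ x ∉ Cluster (s \ {s(x, y)}) o} ≤ p * tau H p S o y

/-- [M3] (EASY-MEDIUM) `{z ∈ Cluster (s \ T) o}` depends only on `E \ T`, so it is independent of
`{T ⊆ s}`; `Cluster (s \ T) o ⊆ Cluster s o`. (hPB : StPB) (hPI : StPI) (hPL : StPL) (hPA : StPA) (hCB : StCB) -/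
def StM3 : Prop := ∀ (V : Type u) (H : SimpleGraph V) (S : Finset V) (o z : V) (p : ℝ), 0 ≤ p →
  p ≤ 1 → ∀ T : Finset (Sym2 V), T ⊆ EI H S →
  Pr (EI H S) p {s | (T : Set (Sym2 V)) ⊆ s ∧ z ∈ Cluster (s \ (T : Set (Sym2 V))) o} ≤
    p ^ T.card * tau H p S o z

/-- [M4] (MEDIUM) The cycle term. By `StCC` the event for `(y, x)` is contained in the union over
`n ∈ [3, |S|]`, `v ∈ CW H S n y` with `v 1 = x`, `|edgs v| = n`, and `i = 1, ..., n` of the events of `StM3` for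
`T = edgs v`, `z = v i`, each of probability at most `p^n tau (v i)`. Summing over `x` all `v ∈ CW H S n y` are
counted at most once: `∑_x Pr(..) ≤ ∑_n ∑_(i=1)^n ∑_(v ∈ CW) p^n tau (v i) =
∑_n ∑_i ∑_(z ∈ S) p^n tau z |{v : v i = z}|` and `StWC`; symmetry of nothing is needed. Multiply by `f y`, sum
over `y`, exchange the sums. (hPB : StPB) (hCC : StCC) (hWB : StWB) (hWC : StWC) (hM3 : StM3) -/
def StM4 : Prop := ∀ (V : Type u) (H : SimpleGraph V), LocFinite H → ∀ (S : Finset V) (o : V) (p : ℝ),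
  0 ≤ p → p ≤ 1 → ∀ f : V → ℝ, (∀ y, 0 ≤ f y) →
  ∑ y ∈ S, ∑ x ∈ (nb H y).filter (· ∈ S), f y * Pr (EI H S) p
      {s | y ∈ Cluster s o ∧ s(x, y) ∈ s ∧ x ∈ Cluster (s \ {s(x, y)}) y} ≤
    ∑ z ∈ S, tau H p S o z * Rz H p S f z

/-- [MI] (MEDIUM) THE MAIN INEQUALITY. Exchange the sums on the left (`Finset.sum_comm'`, outer sum over
`y`, inner sum over `x ∈ nb y ∩ S`, as in `StCN` and `StM4`). Sum `StM1` times `f y` over the pairs, `StM2` for the second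
terms (`∑_(x ∈ nb y ∩ S) p (p tau y) f y ≤ p² |nb y| tau y f y`), write the first terms as expectations of the
left side of `StCN` (StPB, last part), `StCN`, `StM4`.
(hPB : StPB) (hWB : StWB) (hM1 : StM1) (hM2 : StM2) (hCN : StCN) (hM4 : StM4) -/
def StMI : Prop := ∀ (V : Type u) (H : SimpleGraph V), LocFinite H → ∀ (S : Finset V) (o : V) (p : ℝ),
  0 ≤ p → p ≤ 1 → ∀ f : V → ℝ, (∀ y, 0 ≤ f y) →
  ∑ x ∈ S, ∑ y ∈ (nb H x).filter (· ∈ S), p * tau H p S o x * f y ≤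
    ∑ y ∈ S.erase o, tau H p S o y * f y + p ^ 2 * ∑ y ∈ S, (nb H y).card * tau H p S o y * f y +
    ∑ z ∈ S, tau H p S o z * Rz H p S f z

/-- [BP] (MEDIUM) The lower bound for `φ`. Let `S' = {x ∈ S : x ∈ U}`. `EI (within H U) S = EI H S'`, so
`tau (within H U) p S o = tau H p S' o`; `nb (within H U) x = nb H x ∩ U` for `x ∈ U`, and `∅` otherwise. So
`F φ = F p ∑_(x ∈ S') ∑_(y ∈ nb x, y ∈ U \ S) tau x ≥ p ∑_(x ∈ S') tau x ∑_(y ∈ nb x, y ∉ S') f y` (`f` vanishes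
outside `U`) `= ∑_(x ∈ S') tau x (p ∑_(y ∈ nb x) f y) - ∑_(x ∈ S') ∑_(y ∈ nb x ∩ S') p tau x f y`. The hypothesis
for the first sum and `StMI` (for `S'`) for the second one give at least
`∑_(x ∈ S') tau x f x - ∑_(y ∈ S' \ o) tau y f y = tau o f o = f o` (`tau o = 1`).
(hPB : StPB) (hCB : StCB) (hWB : StWB) (hMI : StMI) -/
def StBP : Prop := ∀ (V : Type u) (H : SimpleGraph V), LocFinite H → ∀ (U : Set V) (o : V) (p F : ℝ)
  (f : V → ℝ), 0 ≤ p → p ≤ 1 → 0 < F → o ∈ U → (∀ y, 0 ≤ f y) → (∀ y, f y ≤ F) →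
  (∀ y, y ∉ U → f y = 0) →
  (∀ z ∈ U, ∀ S : Finset V, f z + p ^ 2 * (nb H z).card * f z + Rz H p S f z ≤
    p * ∑ y ∈ nb H z, f y) →
  ∀ S : Finset V, o ∈ S → f o / F ≤ phi (within H U) p S o

/-! ## D. The argument of Duminil-Copin and Tassion -/

/-- [D1] (EASY-MEDIUM) Pivotal edges. Let `S = Sc L s`, `o ∈ S` since `s ∉ Out`. Let `x ∈ S`, `y ∈ nb x`,
`y ∉ S`, `x ∈ Cluster (s ∩ EI S) o`, `e = xy`. Then `e ∈ ET H L`; `e ∉ s` (else the cluster of `x` contains `y`;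
if `y ∉ L` this contradicts `x ∈ S`; if `y ∈ L \ S` the cluster of `y`, which is that of `x`, leaves `L`);
`insert e s ∈ Out`: `o ~ x ~ y`, and `y ∉ L` or the cluster of `y` leaves `L`. Different pairs `(x, y)` give
different edges (`x ∈ S`, `y ∉ S`). (hCB : StCB) (hWB : StWB) -/
def StD1 : Prop := ∀ (V : Type u) (H : SimpleGraph V), LocFinite H → ∀ (L : Finset V) (o : V), o ∈ L →
  ∀ s : Set (Sym2 V), s ∉ Out L o →
  ∑ x ∈ Sc L s, ∑ _y ∈ (nb H x).filter (· ∉ Sc L s),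
      (if x ∈ Cluster (s ∩ (EI H (Sc L s) : Set (Sym2 V))) o then (1 : ℝ) else 0) ≤
    ∑ e ∈ ET H L, (if insert e s ∈ Out L o ∧ s \ {e} ∉ Out L o then (1 : ℝ) else 0)

/-- [D2] (MEDIUM) Decoupling. The event `{Sc L s = S}` depends only on the edges of `E = ET H L` which
are not in `EI H S`: claim: for `s ⊆ E`, `Sc L s = S` iff `Sc L (s \ EI S) = S`. (`→`: an edge of `s` with one
endpoint in `S` has the other one in `S` [else the cluster of the first one contains the second one, which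
is outside `L` or has a cluster leaving `L`]. So for `z ∈ S` the cluster in `s \ EI S` is `{z}`, and for
`z ∈ L \ S` a connection of `z` to the outside of `L` in `s` never meets `S`, so it uses no edge of `EI S`.
`←`: if `Sc L (s \ EI S) = S`, then no edge of `s \ EI S` with an endpoint in `S` leaves `S` by the same argument, so
no edge of `s` leaves `S`, so clusters of `z ∈ S` in `s` stay in `S ⊆ L`; for `z ∈ L \ S` the cluster in the smaller
set leaves `L`.) So for `o, x ∈ S` the events `{Sc L s = S}` and `{x ∈ Cluster (s ∩ EI S) o}` are independent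
(StPI for `E = (E \ EI S) ∪ EI S`, `EI S ⊆ E` for `S ⊆ L`; StPL), and the second one has the probability
`tau H q S o x`. (hPB : StPB) (hPI : StPI) (hPL : StPL) (hCB : StCB) (hWB : StWB) -/
def StD2 : Prop := ∀ (V : Type u) (H : SimpleGraph V), LocFinite H → ∀ (L S : Finset V) (o x : V)
  (q : ℝ), 0 ≤ q → q ≤ 1 → S ⊆ L →
  Pr (ET H L) q {s | Sc L s = S ∧ x ∈ Cluster (s ∩ (EI H S : Set (Sym2 V))) o} =
    Pr (ET H L) q {s | Sc L s = S} * tau H q S o x

/-- [D3] (MEDIUM) The differential inequality. `StPR` for the increasing event `Out L o`; the sum over the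
edges of the pivotal probabilities is the expectation of the right side of `StD1` (StPB, last part), at
least the expectation over `s ∉ Out` of the left side, which is
`∑_(S ⊆ L, o ∈ S) ∑_(x ∈ S) ∑_(y ∈ nb x \ S) Pr(Sc = S, x ∈ Cluster (s ∩ EI S) o)` (`s ∉ Out` iff `o ∈ Sc L s`)
`= ∑_S Pr(Sc = S) phi(S) / q ≥ c Pr(not Out)` by `StD2` and `c ≤ phi(S) = q (..) ≤ (..)`.
(hPB : StPB) (hPR : StPR) (hCB : StCB) (hWB : StWB) (hD1 : StD1) (hD2 : StD2) -/
def StD3 : Prop := ∀ (V : Type u) (H : SimpleGraph V), LocFinite H → ∀ (L : Finset V) (o : V) (q c : ℝ),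
  o ∈ L → 0 ≤ q → q ≤ 1 → 0 ≤ c → (∀ S : Finset V, o ∈ S → c ≤ phi H q S o) →
  ∃ θ' : ℝ, HasDerivAt (fun q => Pr (ET H L) q (Out L o)) θ' q ∧
    c * (1 - Pr (ET H L) q (Out L o)) ≤ θ'

/-- [D4] (EASY) Integration. `h q = (1 - θ q) exp (c q)` has derivative `(c (1 - θ) - θ') exp (c q) ≤ 0` on
`[p, p']`, so it is antitone (`antitoneOn_of_deriv_nonpos`), `1 - θ p' ≤ (1 - θ p) exp(-c (p' - p)) ≤
exp(-c (p' - p))`. (hPB : StPB) (hD3 : StD3) -/
def StD4 : Prop := ∀ (V : Type u) (H : SimpleGraph V), LocFinite H → ∀ (L : Finset V) (o : V)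
  (p p' c : ℝ), o ∈ L → 0 ≤ p → p ≤ p' → p' ≤ 1 → 0 ≤ c →
  (∀ q ∈ Set.Icc p p', ∀ S : Finset V, o ∈ S → c ≤ phi H q S o) →
  1 - Real.exp (-(c * (p' - p))) ≤ Pr (ET H L) p' (Out L o)

/-- [D5] (MEDIUM) Infinite volume. For finite `L` with `o ∈ L` the event `Out L o` for `s ⊆ H.edgeSet` depends
only on `s ∩ ET H L` (a walk from `o` to the outside: up to its first vertex outside `L` all edges touch `L`), so by
`StPM` and `setBernoulli_ae_subset` its measure is `ofReal (Pr (ET H L) p' (Out L o)) ≥ ofReal (1 - exp ..)`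
(StD4). `V` is countable: it is the union of an increasing sequence of finite sets `L_j` containing `o`; the
events `Out L_j o` decrease and their intersection is contained in `{Cluster s o infinite}` (a finite
cluster is contained in some `L_j`). Continuity from above
(`tendsto_measure_iInter_atTop` or `measure_iInter_eq_iInf`; measurability: `MeasStmt`, or replace
`Out L o` by the cylinder event `{s | s ∩ ET H L ∈ Out L o}`, which is measurable). (hB : Basics.{u})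
(hMS : MeasStmt.{u}) (hPM : StPM) (hCB : StCB) (hWB : StWB) (hD4 : StD4) -/
def StD5 : Prop := ∀ (V : Type u) [Countable V] (H : SimpleGraph V), LocFinite H → ∀ (o : V)
  (p : ℝ) (p' : I) (c : ℝ), 0 ≤ p → p ≤ p' → 0 ≤ c →
  (∀ q ∈ Set.Icc p (p' : ℝ), ∀ S : Finset V, o ∈ S → c ≤ phi H q S o) →
  ENNReal.ofReal (1 - Real.exp (-(c * (p' - p)))) ≤ perc H p' {s | (Cluster s o).Infinite}

/-- [HV] (MEDIUM) An infinite cluster in the slab is heavy. The law of `s ∩ (within H U).edgeSet` under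
`perc H p` is `perc (within H U) p`: (setBernoulli of a smaller set; by `setBernoulli_eq_map` and the product
structure, or a short uniqueness argument; or only for this event: both are limits of the finite volume
probabilities of `StPM`). If the cluster of `o` in `s ∩ (within H U).edgeSet` is infinite then it is contained
in `U ∪ {o}` and in `Cluster s o`, so `∑_(x ∈ Cluster s o) w(x, o') = ∞` for every `o'`:
`w(x, o') = w(x, o) w(o, o')` (`WeightStmt`) and `w(x, o) > exp(-L)` on `U`. Measurability: `MeasStmt`.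
(hW : WeightStmt.{u}) (hMS : MeasStmt.{u}) (hCB : StCB) -/
def StHV : Prop := ∀ (V : Type u) [Countable V] (Γ : Subgroup (Equiv.Perm V)) (H : SimpleGraph V),
  Good Γ H → ∀ (o : V) (L : ℝ) (p : I), 0 < L →
  perc (within H (slab Γ o L)) p {s | (Cluster s o).Infinite} ≤ perc H p (HeavyEvent Γ)

/-! ## G. The test function -/

/-- [GA] (EASY-MEDIUM) The gain. `g s = max (L² - s²) 0`. `∑ q g(s+u) = ∑ q (L² - (s+u)²) + X`,
`X = ∑ q max ((s+u)² - L²) 0`, and `∑ q (L² - (s+u)²) = L² - s² - ∑ q u²` (`∑ q u = 0`), `∑ q u² ≤ a m`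
(`|u| ≤ a`). So the left side is at least `(lam - mu)(L² - s²) + mu ((L² - s²) + X) - lam a m` and it remains
`(L² - s²) + X ≥ L m / 2`. Let `s ≥ 0` (the other case is symmetric), `t = L - s ∈ [0, L]`: `L² - s² ≥ t L`, and
`(s+u)² - L² ≥ L (u - t)` if `u ≥ t`, so `X ≥ L ∑ q (u - t)⁺`, and `t + ∑ q (u - t)⁺ ≥ ∑ q u⁺ = m / 2`
(`t + (u - t)⁺ ≥ u⁺`; `∑ q u⁺ = ∑ q u⁻`). -/
def StGA : Prop := ∀ (J : Type u) (F : Finset J) (q v : J → ℝ) (a L s lam mu : ℝ),
  (∀ j ∈ F, 0 ≤ q j) → ∑ j ∈ F, q j = 1 → ∑ j ∈ F, q j * v j = 0 → (∀ j ∈ F, |v j| ≤ a) →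
  0 < L → |s| ≤ L → 0 ≤ mu → mu ≤ lam →
  (lam - mu) * (L ^ 2 - s ^ 2) + L * mu * (∑ j ∈ F, q j * |v j|) / 2 -
      lam * a * (∑ j ∈ F, q j * |v j|) ≤
    lam * ∑ j ∈ F, q j * max (L ^ 2 - (s + v j) ^ 2) 0

/-- [GC] (EASY) Constants: `∑ n² x^n` converges for `0 ≤ x < 1`
(`summable_pow_mul_geometric_of_norm_lt_one`); partial sums are bounded. -/
def StGC : Prop := ∀ x b : ℝ, 0 ≤ x → x < 1 → 0 < b → ∃ K : ℝ, 0 < K ∧ ∀ N : ℕ,
  ∑ n ∈ Finset.Icc 3 N, (n : ℝ) ^ 2 * x ^ n / b ^ 4 ≤ K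

/-- [GK] (EASY-MEDIUM) One term of the cycle sum. Let `j = max i (n - i)`, `j ≥ 2` as `n ≥ 3`. If `j = i`:
`Wk i y z ≤ (b² σ)^(i-2) d` (StWN) and `∑_y √(w y) Wk (n-i) z y ≤ √(w z) σ^(n-i)` (StWS); the other case is
the same with the symmetry (StWB). So the sum is at most `√(w z) σ^(n-j) (b² σ)^(j-2) d =
√(w z) b^(2 (j-2)) σ^(n-2) d`, and `b^(2(j-2)) ≤ b^n / b^4` because `2 j ≥ n`, `0 < b ≤ 1`.
(hWB : StWB) (hWS : StWS) (hWN : StWN) (hSM : StSM) -/
def StGK : Prop := ∀ (V : Type u) (Γ : Subgroup (Equiv.Perm V)) (H : SimpleGraph V), Good Γ H →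
  ∀ (o z : V) (b : ℝ), 0 < b → b ≤ 1 → Sp H (b ^ 2 * sig Γ H o) → ∀ n, 3 ≤ n → ∀ i, i ≤ n →
  ∀ F : Finset V, ∑ y ∈ F, √(weight Γ y o) * (Wk H i y z * Wk H (n - i) z y) ≤
    √(weight Γ z o) * (b ^ n / b ^ 4) * sig Γ H o ^ (n - 2) * (nb H o).card

/-- [GR] (MEDIUM) The cycle term of the test function. `g y = max (L² - (l y)²) 0`. If
`Wk i y z Wk (n-i) z y ≠ 0` then `|l y - l z| ≤ a min(i, n-i) ≤ a n / 2` (each step changes `l` by at most `a`:
`WeightStmt`, transitivity; induction on the length) and `g y ≤ g z + 2 L |l y - l z| ≤ g z + L a n` (for all real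
numbers: if `|l y| ≥ L` trivial; else `g y = (L - |l y|)(L + |l y|)`, compare). So by `StGK`
`p^n ∑_i ∑_y f y Wk Wk ≤ n (g z + L a n) √(w z) (lam b)^n / b^4 * d / σ²` with `p = lam / σ`, and
`n (g z + L a n) ≤ n² (g z + L a)`. Sum over `n`. (hW : WeightStmt.{u}) (hWB : StWB) (hGK : StGK) -/
def StGR : Prop := ∀ (V : Type u) (Γ : Subgroup (Equiv.Perm V)) (H : SimpleGraph V), Good Γ H →
  ∀ (o z : V) (b lam a L K : ℝ), 0 < b → b ≤ 1 → Sp H (b ^ 2 * sig Γ H o) → 0 < lam → 0 ≤ a → 0 < L →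
  0 < sig Γ H o → (∀ y ∈ nb H o, |Real.log (weight Γ y o)| ≤ a) →
  (∀ N : ℕ, ∑ n ∈ Finset.Icc 3 N, (n : ℝ) ^ 2 * (lam * b) ^ n / b ^ 4 ≤ K) →
  ∀ S : Finset V, Rz H (lam / sig Γ H o) S (tf Γ o L) z ≤
    √(weight Γ z o) * ((nb H o).card / sig Γ H o ^ 2) * K *
      (max (L ^ 2 - Real.log (weight Γ z o) ^ 2) 0 + L * a)

/-- [GG] (MEDIUM) The test function satisfies the hypothesis of `StBP`. Let `z` be in the slab, `s = l z`,
`q y = √(weight y z) / σ`, `v y = log (weight y z) = l y - l z` for `y ∈ nb z`: `∑ q = 1`, `∑ q v = 0`,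
`∑ q |v| = mom / σ = m` (`StSM`), `|v| ≤ a` (transitivity). `p ∑_(y ∈ nb z) f y = √(w z) lam ∑ q_y g(s + v_y)`
(`√(w y) = √(weight y z) √(w z)`), `p² |nb z| = lam² r`, `r = d / σ²`. `StGA` with
`mu' = lam - 1 - lam² r - r K ≥ mu` and `StGR` reduce the claim (divided by `√(w z)`) to
`(1 + lam² r) g + r K (g + L a) ≤ (lam - mu') g + L mu' m / 2 - lam a m`, i.e. `r K L a + lam a m ≤ L mu' m / 2`.
(hW : WeightStmt.{u}) (hWB : StWB) (hSM : StSM) (hGA : StGA) (hGR : StGR) -/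
def StGG : Prop := ∀ (V : Type u) (Γ : Subgroup (Equiv.Perm V)) (H : SimpleGraph V), Good Γ H →
  ∀ (o : V) (b lam a L K mu : ℝ), 0 < b → b ≤ 1 → Sp H (b ^ 2 * sig Γ H o) → 0 < lam → 0 ≤ a → 0 < L →
  0 < sig Γ H o → 0 < K → 0 < mu → (∀ y ∈ nb H o, |Real.log (weight Γ y o)| ≤ a) →
  (∀ N : ℕ, ∑ n ∈ Finset.Icc 3 N, (n : ℝ) ^ 2 * (lam * b) ^ n / b ^ 4 ≤ K) →
  1 + lam ^ 2 * ((nb H o).card / sig Γ H o ^ 2) + (nb H o).card / sig Γ H o ^ 2 * K + mu ≤ lam →
  (nb H o).card / sig Γ H o ^ 2 * K * L * a + lam * a * (mom Γ H o / sig Γ H o) ≤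
    L * mu * (mom Γ H o / sig Γ H o) / 2 →
  ∀ z ∈ slab Γ o L, ∀ S : Finset V,
    tf Γ o L z + (lam / sig Γ H o) ^ 2 * (nb H z).card * tf Γ o L z +
      Rz H (lam / sig Γ H o) S (tf Γ o L) z ≤ lam / sig Γ H o * ∑ y ∈ nb H z, tf Γ o L y

/-- [CO] (MEDIUM) CORE. Let `K` be the constant of `StGC` for `x = lam2 * b`, `mu = (lam1 - 1) / 2`,
`ρ = min ((lam1 - 1) / (2 (lam2² + K))) ((lam1 - 1) / (8 K))`. Given `H`: `r = d/σ² ≤ ρ`,
`r a ≤ ρ m`, `m = mom / σ`. `L = 4 lam2 a / mu + 1`. For `q ∈ [p, p']`, `p = lam1/σ`, `p' = lam2/σ`, write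
`q = lam/σ`; the constant `K` also works for `lam ≤ lam2`; the two conditions of `StGG`:
`1 + lam² r + r K + mu ≤ 1 + ρ (lam2² + K) + mu ≤ lam1 ≤ lam`, and `r K L a + lam a m ≤ L (ρ K m) + L mu m / 4 ≤
L mu m / 2` (`ρ K ≤ mu / 4`). `StBP` with `U` = slab, `F = exp(L/2) L²` (`tf ≤ F`: in the slab `w < exp L`),
`f o = L²` (`weight o o = 1`): `phi (within H U) q S o ≥ c = exp(-L/2)`. `StD5` for `within H U`
(locally finite) and `StHV`: `perc H p' (HeavyEvent Γ) ≥ ofReal (1 - exp(-c (p' - p))) > 0`.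
(hB : Basics.{u}) (hW : WeightStmt.{u}) (hGC : StGC) (hGG : StGG) (hBP : StBP) (hD5 : StD5) (hHV : StHV) -/
def StCO : Prop := ∀ b lam1 lam2 : ℝ, 0 < b → b ≤ 1 → 1 < lam1 → lam1 < lam2 → lam2 * b < 1 →
  ∃ ρ : ℝ, 0 < ρ ∧ ∀ (V : Type u) (Γ : Subgroup (Equiv.Perm V)) (H : SimpleGraph V), Good Γ H →
  ∀ (o : V) (a : ℝ), 0 ≤ a → 0 < sig Γ H o → Sp H (b ^ 2 * sig Γ H o) →
  (∀ y ∈ nb H o, |Real.log (weight Γ y o)| ≤ a) → (nb H o).card ≤ ρ * sig Γ H o ^ 2 →
  (nb H o).card * a ≤ ρ * sig Γ H o * mom Γ H o →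
  ∀ p' : I, (p' : ℝ) = lam2 / sig Γ H o → 0 < perc H p' (HeavyEvent Γ)

/-! ## U. The uniqueness threshold, L. the lower bound for `p_h` -/

/-- [U0] (EASY-MEDIUM) Open walks with different edges. If `y ∈ Cluster s x` and `s ⊆ H.edgeSet`, there is a
path from `x` to `y` in `fromEdgeSet s`, of length `n ≥ H.dist x y`, with `n` different edges, all in `s`. For a
walk `v` with `n` different edges (all in `H.edgeSet`) the probability that they are open is `p^n`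
(`StPM` for `E` = the edges, `StPA`), and the number of walks of length `n` from `x` to `y` is `Wk H n x y`.
Countable union over `n` and the walks (`measure_iUnion_le`, `setBernoulli_ae_subset`).
(hPA : StPA) (hPM : StPM) (hWB : StWB) -/
def StU0 : Prop := ∀ (V : Type u) [Countable V] (H : SimpleGraph V), H.Connected → LocFinite H →
  ∀ (p : I) (x y : V), perc H p {s | y ∈ Cluster s x} ≤
    ∑' n : ℕ, if H.dist x y ≤ n then ENNReal.ofReal ((p : ℝ) ^ n * Wk H n x y) else 0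

/-- [U1] (EASY) `Wk n x y ≤ A^n` (StWN) and the geometric series. (hWN : StWN) (hWB : StWB) (hU0 : StU0) -/
def StU1 : Prop := ∀ (V : Type u) [Countable V] (Γ : Subgroup (Equiv.Perm V)) (H : SimpleGraph V),
  Good Γ H → ∀ (A : ℝ), 0 ≤ A → Sp H A → ∀ p : I, (p : ℝ) * A < 1 → ∀ x y : V,
  perc H p {s | y ∈ Cluster s x} ≤ ENNReal.ofReal (((p : ℝ) * A) ^ (H.dist x y) / (1 - p * A))

/-- [U2] (MEDIUM) Second moment. Suppose `P(Unique) = 1`. `θ = P(Cluster s x infinite)` does not depend on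
`x` (`InvStmt`, transitivity; `Cluster (Sym2.map γ '' s) (γ x) = γ '' Cluster s x`) and `θ > 0` (otherwise a.s.
no cluster is infinite; countable union). Let `N > 2 / θ`, `ε = θ² / 4`, `D` the corresponding distance,
`x_1, ..., x_N` vertices with mutual distances at least `D` (`V` is infinite, connected, locally finite: balls
are finite; choose them one after the other). `M s = #{i : Cluster s x_i infinite}`:
`∫ M = N θ`, `∫ M² = ∑_(i,j) P(both infinite) ≤ N θ + N² ε` (a.s. two infinite clusters are equal), and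
`(∫ M)² ≤ ∫ M²`: `N² θ² ≤ N θ + N² ε`, so `θ² ≤ θ/N + θ²/4 < θ²/2 + θ²/4`, contradiction.
(hB : Basics.{u}) (hI : InvStmt.{u}) (hMS : MeasStmt.{u}) (hCB : StCB) -/
def StU2 : Prop := ∀ (V : Type u) [Countable V] [Infinite V] (Γ : Subgroup (Equiv.Perm V))
  (H : SimpleGraph V), Good Γ H → ∀ p : I,
  (∀ ε : ℝ, 0 < ε → ∃ D : ℕ, ∀ x y : V, D ≤ H.dist x y →
    perc H p {s | y ∈ Cluster s x} ≤ ENNReal.ofReal ε) →
  perc H p (UniqueEvent V) ≠ 1

/-- [U3] (EASY-MEDIUM) For `p < 1/A` `StU1` gives the hypothesis of `StU2`. So every `p` with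
`P_p(Unique) = 1` is at least `1/A`; there is such a `p`: for `p = 1` the set of the open edges is `H.edgeSet`
(`setBernoulli_one`), all clusters are `V` (connected), infinite. So `1/A ≤ sInf`.
(hU1 : StU1) (hU2 : StU2) (hCB : StCB) -/
def StU3 : Prop := ∀ (V : Type u) [Countable V] [Infinite V] (Γ : Subgroup (Equiv.Perm V))
  (H : SimpleGraph V), Good Γ H → ∀ A : ℝ, 0 < A → Sp H A → 1 / A ≤ pu H

/-- [L1] (MEDIUM) No heavy cluster for `p σ < 1`. For each `o`: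
`∑'_x P(x ∈ Cluster s o) ofReal √(w x) ≤ ∑'_n ∑'_x p^n Wk n o x √(w x) ≤ ∑'_n (p σ)^n < ∞` (`StU0` without the
restriction `dist ≤ n`, `StWS` for all finite `F`), so a.s. `∑'_(x ∈ Cluster s o) √(w x) < ∞`
(`lintegral_tsum`, `ae_lt_top`; measurability `MeasStmt`), hence `∑ w x < ∞` (only finitely many `x` in the cluster
have `w x > 1`, and `w ≤ √w` for the others), so the cluster of `o` is not heavy; `V` is countable.
(hW : WeightStmt.{u}) (hMS : MeasStmt.{u}) (hU0 : StU0) (hWS : StWS) (hWB : StWB) -/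
def StL1 : Prop := ∀ (V : Type u) [Countable V] (Γ : Subgroup (Equiv.Perm V)) (H : SimpleGraph V),
  Good Γ H → ∀ (o : V) (p : I), (p : ℝ) * sig Γ H o < 1 → perc H p (HeavyEvent Γ) = 0

/-! ## S. The spectral gap -/

/-- [SI] (EASY-MEDIUM) Energy identity. Expand the square. `∑_(x ∈ Fn) ∑_(y ∈ nb x) √w_x √w_y g_x² =
∑_(x ∈ F) w_x g_x² ∑_(y ∈ nb x) √(weight y x) = σ Nw` (`StSM`, `w_y = weight y x * w_x`). The sum with `g_y²`: only
`y ∈ F` contribute, and all neighbours `x` of `y` are in `Fn`; exchange: the same value. The mixed term: only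
`x, y ∈ F` contribute. (hW : WeightStmt.{u}) (hWB : StWB) (hSM : StSM) -/
def StSI : Prop := ∀ (V : Type u) (Γ : Subgroup (Equiv.Perm V)) (H : SimpleGraph V), Good Γ H →
  ∀ (o : V) (F : Finset V) (g : V → ℝ), (∀ x, x ∉ F → g x = 0) →
  En Γ H o F g = 2 * (sig Γ H o * Nw Γ o F g - ∑ x ∈ F, ∑ y ∈ (nb H x).filter (· ∈ F),
    (√(weight Γ x o) * g x) * (√(weight Γ y o) * g y))

/-- [SA] (MEDIUM) Coarea formula. For every `t ≥ 0` let `K_t = {x ∈ F : t < v x}`. The hypothesis for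
`K_t`: `h ∑_(x ∈ K_t) w x ≤ ∑_(x ∈ F) ∑_(y ∈ nb x) w x [v y ≤ t < v x]` (`y ∉ K_t` iff `v y ≤ t`, since `v`
vanishes outside `F`). Integrate over `t ∈ [0, M]`, `M ≥ max v`
(`∫_0^M [v y ≤ t < v x] dt = (v x - v y)⁺`, `∫_0^M [t < v x] dt = v x`). Instead of integrals: induction on the
number of the elements of the support of `v`: subtract the smallest positive value from `v` on the support.
(hWB : StWB) -/
def StSA : Prop := ∀ (V : Type u) (Γ : Subgroup (Equiv.Perm V)) (G : SimpleGraph V), Good Γ G →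
  ∀ (h : ℝ) (o : V), 0 ≤ h → (∀ x, 0 ≤ weight Γ x o) →
  (∀ K : Finset V, h * ∑ x ∈ K, weight Γ x o ≤
    ∑ x ∈ K, weight Γ x o * ((nb G x).filter (· ∉ K)).card) →
  ∀ (F : Finset V) (v : V → ℝ), (∀ x, 0 ≤ v x) → (∀ x, x ∉ F → v x = 0) →
  h * ∑ x ∈ F, weight Γ x o * v x ≤ ∑ x ∈ F, ∑ y ∈ nb G x, weight Γ x o * max (v x - v y) 0

/-- [SC] (MEDIUM) Weighted Cheeger inequality. Let `a ≥ |log weight y x|` for neighbours (finitely many
values up to `Γ`), so `w x ≤ e^(a/2) √w_x √w_y` for `y ∈ nb x`. `StSA` for `v = g²`: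
`h Nw ≤ e^(a/2) ∑_(x ∈ F) ∑_(y ∈ nb x) √w_x √w_y |g_x² - g_y²|`, and by Cauchy-Schwarz
(`|g_x² - g_y²| = |g_x - g_y| |g_x + g_y|`) the double sum is at most `√(En) √(∑ √w_x √w_y (g_x + g_y)²)`, where
`(g_x + g_y)² ≤ 2 g_x² + 2 g_y²` and the second sum is at most `4 σ Nw` (as in `StSI`). So
`h² Nw² ≤ e^a En 4 σ Nw`: `η = h² / (4 (σ + 1) e^a)` works (if `Nw = 0` trivial; `Nw ≥ 0`, `En ≥ 0`). `σ` and `a` do not
depend on `o`. (hW : WeightStmt.{u}) (hWB : StWB) (hSM : StSM) (hSA : StSA) -/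
def StSC : Prop := ∀ (V : Type u) (Γ : Subgroup (Equiv.Perm V)) (G : SimpleGraph V), Good Γ G →
  NonAmen G Γ → ∃ η : ℝ, 0 < η ∧ ∀ (o : V) (F : Finset V) (g : V → ℝ), (∀ x, x ∉ F → g x = 0) →
  η * Nw Γ o F g ≤ En Γ G o F g

/-- [SB] (EASY-MEDIUM) Size of the powers: `sig (pow G k) ≤ (1 + sig (pow G (k-1))) (1 + sig G)` for
`k ≥ 1`: every `y` with `1 ≤ dist o y ≤ k` has a `z` with `dist o z ≤ k - 1` and `dist z y ≤ 1`, and
`√w_y = √(weight y z) √w_z`; sum over all pairs `(z, y)` (`z = o` has weight `1`).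
`Good Γ (pow G k)` for `k ≥ 1`: `pow G k` contains `G`, balls are finite, `Γ` preserves the distance.
(hB : Basics.{u}) (hW : WeightStmt.{u}) (hWB : StWB) (hSM : StSM) -/
def StSB : Prop := ∀ (V : Type u) (Γ : Subgroup (Equiv.Perm V)) (G : SimpleGraph V), Good Γ G →
  ∀ k : ℕ, 1 ≤ k → Good Γ (pow G k) ∧ G ≤ pow G k ∧ ∀ o : V,
    sig Γ (pow G k) o ≤ (1 + sig Γ (pow G (k - 1)) o) * (1 + sig Γ G o)

/-- [SP] (MEDIUM) Comparison of energies. Let `B(x) = {x} ∪ nb (pow G (k-1)) x`. For `x' ∈ nb G x` and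
`z ∈ B(x)`: `(g_x - g_x')² ≤ 2 (g_x - g_z)² + 2 (g_z - g_x')²`. Multiply by `√w_x' √w_z` and sum over
`z ∈ B(x)` (`∑_(z ∈ B(x)) √w_z = √w_x (1 + sig (pow G (k-1)))`), `x' ∈ nb G x`, `x ∈ Fn G F`:
`(1 + sig (pow G (k-1))) En G ≤ 2 ∑ √w_x' √w_z (g_x - g_z)² + 2 ∑ √w_x' √w_z (g_z - g_x')²`. In the first sum
`√w_x' ≤ e^(a/2) √w_x` and each pair `(x, z)` occurs for `|nb G x| = D` vertices `x'`; in the second sum each
pair `(x', z)` occurs for at most `D` vertices `x`; all nonzero terms are terms of `En (pow G k)` (`dist ≤ k`,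
`x ∈ Fn` if `g_x ≠ g_z`), the terms `z = x` are `0`. So it is at most `(2 D e^(a/2) + 2 D) En (pow G k)`. With `StSB`:
the constant `B = (1 + sig G) (2 D e^(a/2) + 2 D) + 1` (`+ 1` only for `B > 0`). (hW : WeightStmt.{u}) (hWB : StWB) (hSM : StSM) (hSB : StSB) -/
def StSP : Prop := ∀ (V : Type u) (Γ : Subgroup (Equiv.Perm V)) (G : SimpleGraph V), Good Γ G →
  ∃ B : ℝ, 0 < B ∧ ∀ k : ℕ, 1 ≤ k → ∀ (o : V) (F : Finset V) (g : V → ℝ),
  (∀ x, x ∉ F → g x = 0) → sig Γ (pow G k) o * En Γ G o F g ≤ B * En Γ (pow G k) o F g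

/-- [SE] (EASY) The energy is monotone in the graph: the terms of `En Γ H` are terms of `En Γ H'`
(`nb H x ⊆ nb H' x`, `Fn H F ⊆ Fn H' F`), all terms are nonnegative. (hWB : StWB) -/
def StSE : Prop := ∀ (V : Type u) (Γ : Subgroup (Equiv.Perm V)) (H H' : SimpleGraph V), H ≤ H' →
  LocFinite H' → ∀ (o : V) (F : Finset V) (g : V → ℝ), En Γ H o F g ≤ En Γ H' o F g

/-- [SG] (EASY-MEDIUM) Uniform gap. `En H ≥ En (pow G k) ≥ (sig (pow G k) / B) En G ≥
(η sig (pow G k) / B) Nw ≥ 2 δ sig H Nw` with `δ = η / (2 B C)` (also `δ < 1`, e.g. take the minimum with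
`1/2`). Given `f` and `F` let `g = f / √w` on `F` and `0` outside; `StSI`:
`∑_(x, y ∈ F) f f = σ Nw - En / 2 ≤ (1 - δ) σ Nw = (1 - δ) σ ∑_F f²`.
(hW : WeightStmt.{u}) (hWB : StWB) (hSI : StSI) (hSC : StSC) (hSP : StSP) (hSE : StSE) -/
def StSG : Prop := ∀ (V : Type u) (Γ : Subgroup (Equiv.Perm V)) (G : SimpleGraph V), Good Γ G →
  NonAmen G Γ → ∀ C : ℝ, 1 ≤ C → ∃ δ : ℝ, 0 < δ ∧ δ < 1 ∧ ∀ k : ℕ, 1 ≤ k → ∀ H : SimpleGraph V,
  Good Γ H → pow G k ≤ H → ∀ o : V, sig Γ H o ≤ C * sig Γ (pow G k) o →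
  Sp H ((1 - δ) * sig Γ H o)

/-! ## T. Growth -/

/-- [TA] (EASY-MEDIUM) Let `a` be the maximum of `log (weight y o)` over `y ∈ nb G o` (or `0` if this is
negative; it does not depend on `o`). `|log weight y o| ≤ a` because `weight o y = 1 / weight y o` and `o ∈ nb y`
(transitivity, invariance). Going `i` times to a neighbour of relative weight `e^a` gives a vertex `x` with
`dist o x ≤ i`, `log w x = i a`. (If the maximum is `0` take `x = o`; it is not negative since for a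
neighbour `y` one of `weight y o`, `weight o y` is at least `1`.) `V` has a neighbour: connected, infinite.
(hW : WeightStmt.{u}) (hWB : StWB) -/
def StTA : Prop := ∀ (V : Type u) [Infinite V] (Γ : Subgroup (Equiv.Perm V)) (G : SimpleGraph V),
  Good Γ G → ∃ a : ℝ, 0 ≤ a ∧ (∀ o : V, ∀ y ∈ nb G o, |Real.log (weight Γ y o)| ≤ a) ∧
  ∀ (o : V) (i : ℕ), ∃ x, G.dist o x ≤ i ∧ Real.log (weight Γ x o) = i * a

/-- [TB] (EASY-MEDIUM) Mass transport for `f x y = 1` if `G.dist x y ≤ j` and `weight x y = c`, `0` otherwise: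
`c * #{x : dist x o ≤ j, weight x o = c} = #{y : dist o y ≤ j, weight o y = c}`.
(hB : Basics.{u}) (hW : WeightStmt.{u}) (hM : MtpStmt.{u}) -/
def StTB : Prop := ∀ (V : Type u) (Γ : Subgroup (Equiv.Perm V)) (G : SimpleGraph V), Good Γ G →
  ∀ (o : V) (j : ℕ) (c : ℝ), 0 < c →
  c * ({x | G.dist o x ≤ j ∧ weight Γ x o = c} : Set V).ncard =
    ({x | G.dist o x ≤ j ∧ weight Γ x o = 1 / c} : Set V).ncard

/-- [TC] (EASY-MEDIUM) Up `i`, down `j`. `StTA`: `x` with `dist o x ≤ i`, `log w x = i a`. `StTB` for `x` and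
`c = e^(j a)` (there is at least one vertex of this weight): at least `e^(j a)` vertices `y` with
`dist x y ≤ j`, `weight y x = e^(-j a)`; they have `dist o y ≤ i + j`, `log w y = (i - j) a`. (The vertex `x` is as
given in the hypothesis.) (hB : Basics.{u}) (hW : WeightStmt.{u}) (hTB : StTB) -/
def StTC : Prop := ∀ (V : Type u) (Γ : Subgroup (Equiv.Perm V)) (G : SimpleGraph V), Good Γ G →
  ∀ a : ℝ, 0 ≤ a → (∀ (o : V) (i : ℕ), ∃ x, G.dist o x ≤ i ∧ Real.log (weight Γ x o) = i * a) →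
  ∀ (o : V) (i j : ℕ), Real.exp (j * a) ≤
    ({y | G.dist o y ≤ i + j ∧ Real.log (weight Γ y o) = ((i : ℝ) - j) * a} : Set V).ncard

/-- [TD] (MEDIUM) Growth of the powers. CASE `a = 0`: all weights are `1`
(`|log w y| ≤ dist * a`), `sig = d`, and `d ≥ k` because `V` is infinite and connected (there are vertices at
distances `1, ..., k`): `k d ≤ d²`; the second claim is `0 ≤ ..`. CASE `a > 0`: for `i + j = k`, `i ≠ j`, the
vertices of `StTC` are different from `o`, so they are neighbours of `o` in `pow G k`, and they contribute at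
least `e^((i-j) a/2) e^(j a) = e^(k a/2)` to `sig` and at least `e^(k a/2) |i - j| a` to `mom`; different `(i, j)` have
different levels. So `sig ≥ k e^(k a/2)` (at least `k` pairs), `mom ≥ e^(k a/2) a ∑_(j=0)^k |k - 2j| ≥
e^(k a/2) a k²/2`. And `d = ∑ √w_y w_y^(-1/2) ≤ e^(k a/2) sig` (`w_y ≥ e^(-k a)`). So `k d ≤ sig²` and
`k² a d ≤ 2 sig mom`. (hB : Basics.{u}) (hW : WeightStmt.{u}) (hWB : StWB) (hTC : StTC) -/
def StTD : Prop := ∀ (V : Type u) [Infinite V] (Γ : Subgroup (Equiv.Perm V)) (G : SimpleGraph V),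
  Good Γ G → ∀ a : ℝ, 0 ≤ a → (∀ o : V, ∀ y ∈ nb G o, |Real.log (weight Γ y o)| ≤ a) →
  (∀ (o : V) (i : ℕ), ∃ x, G.dist o x ≤ i ∧ Real.log (weight Γ x o) = i * a) →
  ∀ (o : V) (k : ℕ), 1 ≤ k →
    0 < sig Γ (pow G k) o ∧
    (k : ℝ) * (nb (pow G k) o).card ≤ sig Γ (pow G k) o ^ 2 ∧
    (k : ℝ) ^ 2 * a * (nb (pow G k) o).card ≤ 2 * sig Γ (pow G k) o * mom Γ (pow G k) o

/-- [TE] (EASY-MEDIUM) Graphs between `pow G k` and `pow G (C k)`. `Good`: `H` contains `pow G k`, so `G`;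
`nb H x ⊆ nb (pow G (C k)) x` finite. `|log w_y| ≤ C k a` for `dist o y ≤ C k`. `sig`, `mom` are monotone in the
graph. (hB : Basics.{u}) (hW : WeightStmt.{u}) (hWB : StWB) (hSB : StSB) -/
def StTE : Prop := ∀ (V : Type u) (Γ : Subgroup (Equiv.Perm V)) (G : SimpleGraph V), Good Γ G →
  ∀ a : ℝ, 0 ≤ a → (∀ o : V, ∀ y ∈ nb G o, |Real.log (weight Γ y o)| ≤ a) →
  ∀ (k C : ℕ) (H : SimpleGraph V), 1 ≤ k → 1 ≤ C → Preserves Γ H → pow G k ≤ H →
  H ≤ pow G (C * k) → Good Γ H ∧ ∀ o : V, (∀ y ∈ nb H o, |Real.log (weight Γ y o)| ≤ C * k * a) ∧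
    sig Γ (pow G k) o ≤ sig Γ H o ∧ mom Γ (pow G k) o ≤ mom Γ H o

/-- [ZZ] (MEDIUM) THE THEOREM. `V` is infinite (else `NonAmen` fails for `K = V`), countable. `δ` from `StSG`,
`b = √(1 - δ)`, `c = 1 / (1 - δ)`. Given `ε`: `lam2 = min (1 + ε) ((1 + 1/b)/2)`, `lam1 = (1 + lam2)/2`, `ρ` from
`StCO`, `k₀ ≥ 2 C² / ρ`, also so large that `lam2 ≤ σ` (`σ² ≥ k d ≥ k`). For `H`: `k d_H ≤ C k d_k ≤ C sig_k² ≤ C σ²`,
`d_H (C k a) ≤ C² k a d_k ≤ (C²/k) 2 sig_k mom_k ≤ (2 C²/k) σ mom_H`. `StCO`: `perc H p' Heavy > 0` at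
`p' = lam2/σ`, so `ph H ≤ lam2/σ ≤ (1 + ε)/σ`. `StL1`: every `p` with `perc H p Heavy > 0` has `p σ ≥ 1`, so
`ph H ≥ 1/σ` (the set is not empty). `StU3` for `A = b² σ = (1 - δ) σ`: `pu H ≥ 1/((1 - δ) σ)`. And
`lam2 < 1/b ≤ 1/b²`. (all hypotheses: Basics, WeightStmt, StWB, StSG, StCO, StL1, StU3, StTA, StTD, StTE) -/
def StZZ : Prop := ∀ (V : Type u) (Γ : Subgroup (Equiv.Perm V)) (G : SimpleGraph V), Good Γ G →
  NonAmen G Γ → ∀ C : ℕ, 1 ≤ C → ∃ c : ℝ, 1 < c ∧ ∀ ε : ℝ, 0 < ε → ∃ k₀ : ℕ, ∀ k ≥ k₀,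
  ∀ H : SimpleGraph V, Preserves Γ H → pow G k ≤ H → H ≤ pow G (C * k) →
  ∀ o : V, (nb H o).card ≤ C * (nb (pow G k) o).card → sig Γ H o ≤ C * sig Γ (pow G k) o →
    1 ≤ sig Γ H o * ph H Γ ∧ sig Γ H o * ph H Γ ≤ 1 + ε ∧ c ≤ sig Γ H o * pu H ∧ ph H Γ < pu H

end Pool.Agent.Work.MP_c58d8b_pr.SO
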