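import Pool.Agent.Work.MP_c58d8b_pr.SO.Stmts

/-!
# MP_c58d8b_pr, block SO, part X: explicit criterion for unimodular graphs

THEOREM X. Let `H` be an infinite connected graph of degree `d` with a transitive unimodular group, and let the
adjacency form be at most `ρ d` (`ρ < 1`). If `4 d ρ (1 - ρ)³ ≥ 27` then
`p_c(H) ≤ (1 + 2 ρ) / (3 ρ d) < 1 / (ρ d) ≤ p_u(H)`. The exponent 3 is optimal for `p_c < 1 / (ρ d)`.
Same conventions as `Stmts.lean`.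
-/

set_option autoImplicit false

namespace Pool.Agent.Work.MP_c58d8b_pr.SO

open MeasureTheory ProbabilityTheory Set
open scoped ENNReal unitInterval Classical

universe u

/-- [X1] (EASY) Composition of walks. Induction on `i`: for `i = 0` the sum has at most one nonzero term;
`∑_(y ∈ S) Wk (i+1) x y Wk j y z = ∑_(v ∈ nb x) ∑_(y ∈ S) Wk i v y Wk j y z ≤ ∑_(v ∈ nb x) Wk (i+j) v z`. (`Wk ≥ 0`:
StWB, or directly.) (hWB : StWB) -/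
def StX1 : Prop := ∀ (V : Type u) (H : SimpleGraph V), LocFinite H → ∀ (S : Finset V) (i j : ℕ)
  (x z : V), ∑ y ∈ S, Wk H i x y * Wk H j y z ≤ Wk H (i + j) x z

/-- [X2] (EASY-MEDIUM) The cycle term for the constant function `1`. By the symmetry (`StWB`) and `StX1`
`Rz = ∑_(n=3)^|S| p^n ∑_(i=1)^n ∑_(y ∈ S) 1 * Wk i y z Wk (n-i) z y ≤ ∑_n p^n n Wk n z z` (write the product as
`Wk (n-i) z y * Wk i y z`), and `Wk n z z ≤ A^(n-2) d` (`StWN`), so with `x = p A`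
`Rz ≤ p² d ∑_(n=3)^|S| n x^(n-2) ≤ p² d ∑_(m ≥ 1) (m + 2) x^m = p² d (x / (1-x)² + 2 x / (1-x))`
(`tsum_coe_mul_geometric_of_norm_lt_one`, `tsum_geometric_of_norm_lt_one`, `Summable.sum_le_tsum`; or prove
by induction on `N` that `∑_(n=3)^N n x^(n-2) ≤ x / (1-x)² + 2 x / (1-x) - (remainder)`).
(hWB : StWB) (hWN : StWN) (hX1 : StX1) -/
def StX2 : Prop := ∀ (V : Type u) (H : SimpleGraph V), LocFinite H → ∀ (A p : ℝ) (d : ℕ), 0 ≤ A → Sp H A →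
  (∀ x, (nb H x).card ≤ d) → 0 ≤ p → p * A < 1 → ∀ (S : Finset V) (z : V),
  Rz H p S (fun _ => 1) z ≤ p ^ 2 * d * (p * A / (1 - p * A) ^ 2 + 2 * (p * A) / (1 - p * A))

/-- [X3] (EASY-MEDIUM) Continuity. With `x = l * ρ < 1` one has
`1 + x / (1-x)² + 2 x / (1-x) = (1 + x - x²) / (1-x)²`, so the last inequality is
`l² (1 + x - x²) ≤ d (l - 1) (1 - x)²`. It is strict at `l = lam`; both sides are polynomials in `l`, so it holds on a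
neighbourhood of `lam` (`ContinuousAt.eventually_lt`, or `Metric`), and `l ρ ≤ lam ρ < 1` for `l ≤ lam`. -/
def StX3 : Prop := ∀ ρ d lam : ℝ, 0 < ρ → 0 < d → 1 < lam → lam * ρ < 1 →
  lam ^ 2 * (1 + lam * ρ - (lam * ρ) ^ 2) < d * (lam - 1) * (1 - lam * ρ) ^ 2 →
  ∃ lam1 : ℝ, 1 < lam1 ∧ lam1 < lam ∧ ∀ l : ℝ, lam1 ≤ l → l ≤ lam → l * ρ < 1 ∧
    1 + l ^ 2 / d * (1 + l * ρ / (1 - l * ρ) ^ 2 + 2 * (l * ρ) / (1 - l * ρ)) ≤ l

/-- [X5] (EASY) The numbers. `x = lam * ρ = (1 + 2 ρ) / 3 < 1`, `lam - 1 = (1 - ρ) / (3 ρ)`, `1 - x = 2 (1 - ρ) / 3`.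
The left side is `x² (1 + x - x²) / ρ² < 1 / ρ²` (`1 - x² - x³ + x⁴ = (1 - x) (1 + x - x³) > 0`) and the right side
is `4 d (1 - ρ)³ / (27 ρ) ≥ 1 / ρ²`. -/
def StX5 : Prop := ∀ ρ d lam : ℝ, 0 < ρ → ρ < 1 → 0 < d → 27 ≤ 4 * d * ρ * (1 - ρ) ^ 3 →
  lam = (1 + 2 * ρ) / (3 * ρ) → 1 < lam ∧ lam * ρ < 1 ∧
  lam ^ 2 * (1 + lam * ρ - (lam * ρ) ^ 2) < d * (lam - 1) * (1 - lam * ρ) ^ 2

/-- [X4] THEOREM X (captain). `StBP` with `U = univ`, `f = 1`, `F = 1`: `1 ≤ phi H q S o` for all `q = l / d`,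
`lam1 ≤ l ≤ lam`, then `StD5`, and infinite clusters are heavy; `StU3`, `StL1`. -/
def StX4 : Prop := ∀ (V : Type u) [Infinite V] (Γ : Subgroup (Equiv.Perm V)) (H : SimpleGraph V),
  Good Γ H → (∀ x y, weight Γ x y = 1) → ∀ (o : V) (ρ lam : ℝ), 0 < ρ → 1 < lam → lam * ρ < 1 →
  Sp H (ρ * (nb H o).card) →
  lam ^ 2 * (1 + lam * ρ - (lam * ρ) ^ 2) < (nb H o).card * (lam - 1) * (1 - lam * ρ) ^ 2 →
  1 / (nb H o).card ≤ ph H Γ ∧ ph H Γ ≤ lam / (nb H o).card ∧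
    1 / (ρ * (nb H o).card) ≤ pu H ∧ ph H Γ < pu H

end Pool.Agent.Work.MP_c58d8b_pr.SO
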